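import Pool.Agent.V1178.NS.Est

/-!
The order of the operators.
-/

open Set Filter Topology MeasureTheory
open scoped ContDiff ENNReal

set_option autoImplicit false

namespace Pool.Agent.V1178.NS

open H459R3.NS

noncomputable def M₀ : ℝ := 6144 * Cb ^ 2 * (5 + C2)

theorem M₀_pos : 0 < M₀ := by
  unfold M₀
  have := Cb_one
  have := C2_pos
  positivity

theorem th_le {q : ℝ≥0∞} (hq : 1 ≤ q) : 0 ≤ 1 / q.toReal ∧ 1 / q.toReal ≤ 1 := by
  refine ⟨by positivity, ?_⟩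
  rcases eq_or_ne q ⊤ with rfl | hp'
  · simp
  · have : 1 ≤ q.toReal := by
      rw [← ENNReal.toReal_one]
      exact ENNReal.toReal_mono hp' hq
    rw [div_le_one (by linarith)]
    exact this

theorem pw8 {V θ : ℝ} (hV : 0 < V) (h0 : 0 ≤ θ) :
    (8 * V) ^ (1 - θ) ≤ 8 * V ^ (1 - θ) := by
  rw [Real.mul_rpow (by norm_num) hV.le]
  have : (8 : ℝ) ^ (1 - θ) ≤ 8 ^ (1 : ℝ) :=
    Real.rpow_le_rpow_of_exponent_le (by norm_num) (by linarith)
  rw [Real.rpow_one] at this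
  gcongr

namespace Prm

variable {p : Prm} {τ W : ℝ}

theorem Good.A_le (h : p.Good τ W) : p.A ≤ 6 * p.vol ^ (-(1 / 2) : ℝ) := by
  have hV := h.ok.vol_pos
  have hA := h.A_pos
  have h1 := h.A_vol
  have h2 : (p.A * √p.vol) ^ 2 ≤ 6 ^ 2 := by
    rw [mul_pow, Real.sq_sqrt hV.le]
    linarith
  have h3 : p.A * √p.vol ≤ 6 := by
    have := abs_le_of_sq_le_sq h2 (by norm_num)
    exact (abs_le.1 this).2
  rw [Real.rpow_neg hV.le, ← Real.sqrt_eq_rpow, ← div_eq_mul_inv, le_div_iff₀ (Real.sqrt_pos.2 hV)]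
  exact h3

theorem pw_comb {V θ : ℝ} (hV : 0 < V) (h0 : 0 ≤ θ) {A : ℝ}
    (hA : A ≤ 6 * V ^ (-(1 / 2) : ℝ)) :
    A * (8 * V) ^ (1 - θ) ≤ 48 * V ^ (1 / 2 - θ) := by
  have h2 := pw8 hV h0
  calc A * (8 * V) ^ (1 - θ) ≤ (6 * V ^ (-(1 / 2) : ℝ)) * (8 * V ^ (1 - θ)) := by gcongr
    _ = 48 * (V ^ (-(1 / 2) : ℝ) * V ^ (1 - θ)) := by ring
    _ = 48 * V ^ (1 / 2 - θ) := by
      rw [← Real.rpow_add hV]
      congr 2
      ring

theorem Good.na (h : p.Good τ W) {v : V → V} (hv : SV v) {q : ℝ≥0∞} (hq : 1 ≤ q) :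
    |dot v p.U| ≤ M₀ * p.vol ^ (1 / 2 - 1 / q.toReal) * Np q v := by
  obtain ⟨t0, -⟩ := th_le hq
  have hC := Cb_one
  have hC2 := C2_pos
  have h1 := pw_comb h.ok.vol_pos t0 h.A_le
  have hV := h.ok.vol_pos
  have hN := Np_nonneg q v
  refine (h.a_le hv hq).trans ?_
  refine mul_le_mul_of_nonneg_right ?_ hN
  calc 6 * Cb * p.A * (8 * p.vol) ^ (1 - 1 / q.toReal)
      = 6 * Cb * (p.A * (8 * p.vol) ^ (1 - 1 / q.toReal)) := by ring
    _ ≤ 6 * Cb * (48 * p.vol ^ (1 / 2 - 1 / q.toReal)) := by gcongr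
    _ = (288 * Cb) * p.vol ^ (1 / 2 - 1 / q.toReal) := by ring
    _ ≤ M₀ * p.vol ^ (1 / 2 - 1 / q.toReal) := by
      have : 288 * Cb ≤ M₀ := by
        unfold M₀
        nlinarith [mul_pos (show (0:ℝ) < Cb by linarith) hC2, sq_nonneg Cb,
          mul_nonneg (sq_nonneg Cb) hC2.le]
      gcongr

theorem Good.na' (h : p.Good τ W) {v : V → V} (hv : SV v) {q : ℝ≥0∞} (hq : 1 ≤ q) :
    |dot v p.U| ≤ M₀ / p.N * p.vol ^ (1 / 2 - 1 / q.toReal) * Np q (fderiv ℝ v) := by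
  obtain ⟨t0, -⟩ := th_le hq
  obtain ⟨n1, n2, n3, n4⟩ := h.ok.pos
  have hC := Cb_one
  have hC2 := C2_pos
  have h1 := pw_comb h.ok.vol_pos t0 h.A_le
  have hV := h.ok.vol_pos
  have hN := Np_nonneg q (fderiv ℝ v)
  refine (h.a_le' hv hq).trans ?_
  refine mul_le_mul_of_nonneg_right ?_ hN
  calc 6 * Cb * p.A / p.N * (8 * p.vol) ^ (1 - 1 / q.toReal)
      = 6 * Cb * (p.A * (8 * p.vol) ^ (1 - 1 / q.toReal)) / p.N := by ring
    _ ≤ 6 * Cb * (48 * p.vol ^ (1 / 2 - 1 / q.toReal)) / p.N := by gcongr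
    _ = (288 * Cb) / p.N * p.vol ^ (1 / 2 - 1 / q.toReal) := by ring
    _ ≤ M₀ / p.N * p.vol ^ (1 / 2 - 1 / q.toReal) := by
      have : 288 * Cb ≤ M₀ := by
        unfold M₀
        nlinarith [mul_pos (show (0:ℝ) < Cb by linarith) hC2, sq_nonneg Cb,
          mul_nonneg (sq_nonneg Cb) hC2.le]
      gcongr

theorem Good.nf (h : p.Good τ W) {v : V → V} (hv : SV v) {q : ℝ≥0∞} (hq : 1 ≤ q) :
    |dot v p.F| ≤ M₀ * p.X * p.vol ^ (-(1 / q.toReal)) * Np q v := by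
  obtain ⟨t0, -⟩ := th_le hq
  obtain ⟨n1, n2, n3, n4⟩ := h.ok.pos
  have hC := Cb_one
  have hC2 := C2_pos
  have hV := h.ok.vol_pos
  have hN := Np_nonneg q v
  have h8 := pw8 hV t0
  refine (h.f_le hv hq).trans ?_
  refine mul_le_mul_of_nonneg_right ?_ hN
  have e : p.vol ^ (1 - 1 / q.toReal) = p.vol * p.vol ^ (-(1 / q.toReal)) := by
    rw [sub_eq_add_neg, Real.rpow_add hV, Real.rpow_one]
  have hA := h.A_vol
  calc 24 * Cb ^ 2 * p.A ^ 2 * p.X * (8 * p.vol) ^ (1 - 1 / q.toReal)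
      ≤ 24 * Cb ^ 2 * p.A ^ 2 * p.X * (8 * p.vol ^ (1 - 1 / q.toReal)) := by gcongr
    _ = 192 * Cb ^ 2 * (p.A ^ 2 * p.vol) * p.X * p.vol ^ (-(1 / q.toReal)) := by rw [e]; ring
    _ ≤ 192 * Cb ^ 2 * 32 * p.X * p.vol ^ (-(1 / q.toReal)) := by gcongr
    _ ≤ M₀ * p.X * p.vol ^ (-(1 / q.toReal)) := by
      have : 192 * Cb ^ 2 * 32 ≤ M₀ := by
        unfold M₀
        nlinarith [mul_nonneg (sq_nonneg Cb) hC2.le, sq_nonneg Cb]
      gcongr

theorem Good.nz (h : p.Good τ W) {v : V → V} (hv : SV v) {q : ℝ≥0∞} (hq : 1 ≤ q) :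
    |dot v (p.Zf τ)| ≤ M₀ * (p.N * W) * p.vol ^ (1 / 2 - 1 / q.toReal) * Np q v := by
  obtain ⟨t0, -⟩ := th_le hq
  obtain ⟨n1, n2, n3, n4⟩ := h.ok.pos
  have hC := Cb_one
  have hC2 := C2_pos
  have hW := h.W_pos
  have h1 := pw_comb h.ok.vol_pos t0 h.A_le
  have hV := h.ok.vol_pos
  have hN := Np_nonneg q v
  refine (h.z_le hv hq).trans ?_
  refine mul_le_mul_of_nonneg_right ?_ hN
  calc 6 * Cb * (5 + C2) * p.A * (p.N * W) * (8 * p.vol) ^ (1 - 1 / q.toReal)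
      = 6 * Cb * (5 + C2) * (p.N * W) * (p.A * (8 * p.vol) ^ (1 - 1 / q.toReal)) := by ring
    _ ≤ 6 * Cb * (5 + C2) * (p.N * W) * (48 * p.vol ^ (1 / 2 - 1 / q.toReal)) := by gcongr
    _ = (288 * Cb * (5 + C2)) * (p.N * W) * p.vol ^ (1 / 2 - 1 / q.toReal) := by ring
    _ ≤ M₀ * (p.N * W) * p.vol ^ (1 / 2 - 1 / q.toReal) := by
      have : 288 * Cb * (5 + C2) ≤ M₀ := by
        unfold M₀
        have : 288 * Cb ≤ 6144 * Cb ^ 2 := by nlinarith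
        gcongr
      gcongr

theorem Good.nz' (h : p.Good τ W) {v : V → V} (hv : SV v) {q : ℝ≥0∞} (hq : 1 ≤ q) :
    |dot v (p.Zf τ)| ≤ M₀ * W * p.vol ^ (1 / 2 - 1 / q.toReal) * Np q (fderiv ℝ v) := by
  obtain ⟨t0, -⟩ := th_le hq
  obtain ⟨n1, n2, n3, n4⟩ := h.ok.pos
  have hC := Cb_one
  have hC2 := C2_pos
  have hW := h.W_pos
  have h1 := pw_comb h.ok.vol_pos t0 h.A_le
  have hV := h.ok.vol_pos
  have hN := Np_nonneg q (fderiv ℝ v)
  refine (h.z_le' hv hq).trans ?_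
  refine mul_le_mul_of_nonneg_right ?_ hN
  calc 6 * Cb * (5 + C2) * p.A * W * (8 * p.vol) ^ (1 - 1 / q.toReal)
      = 6 * Cb * (5 + C2) * W * (p.A * (8 * p.vol) ^ (1 - 1 / q.toReal)) := by ring
    _ ≤ 6 * Cb * (5 + C2) * W * (48 * p.vol ^ (1 / 2 - 1 / q.toReal)) := by gcongr
    _ = (288 * Cb * (5 + C2)) * W * p.vol ^ (1 / 2 - 1 / q.toReal) := by ring
    _ ≤ M₀ * W * p.vol ^ (1 / 2 - 1 / q.toReal) := by
      have : 288 * Cb * (5 + C2) ≤ M₀ := by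
        unfold M₀
        have : 288 * Cb ≤ 6144 * Cb ^ 2 := by nlinarith
        gcongr
      gcongr

/-- interpolated bounds -/
theorem Good.nas (h : p.Good τ W) {v : V → V} (hv : SV v) {q : ℝ≥0∞} (hq : 1 ≤ q) {s : ℝ}
    (hs0 : 0 ≤ s) (hs1 : s ≤ 1) :
    |dot v p.U| ≤ M₀ * (Np q v ^ (1 - s) * Np q (fderiv ℝ v) ^ s)
      * (p.N ^ (-s) * p.vol ^ (1 / 2 - 1 / q.toReal)) := by
  obtain ⟨n1, n2, n3, n4⟩ := h.ok.pos
  have hV := h.ok.vol_pos
  have hM := M₀_pos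
  have h1 := h.na hv hq
  have h2 := h.na' hv hq
  set E := p.vol ^ (1 / 2 - 1 / q.toReal) with hE
  have hE0 : 0 < E := by positivity
  have h3 := interp (abs_nonneg _) h1 h2 (by positivity) (by positivity) (Np_nonneg _ _)
    (Np_nonneg _ _) hs0 hs1
  refine h3.trans (le_of_eq ?_)
  have e : M₀ / p.N * E = (M₀ * E) * p.N⁻¹ := by ring
  have e3 : (M₀ / p.N * E) ^ s = (M₀ * E) ^ s * p.N ^ (-s) := by
    rw [e, Real.mul_rpow (by positivity) (by positivity), Real.inv_rpow n1.le,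
      ← Real.rpow_neg n1.le]
  have e4 : (M₀ * E) ^ (1 - s) * (M₀ * E) ^ s = M₀ * E := by
    rw [← Real.rpow_add (by positivity)]
    have e2 : (1 - s) + s = 1 := by ring
    rw [e2, Real.rpow_one]
  rw [e3, ← mul_assoc ((M₀ * E) ^ (1 - s)), e4]
  ring

theorem Good.nzs (h : p.Good τ W) {v : V → V} (hv : SV v) {q : ℝ≥0∞} (hq : 1 ≤ q) {s : ℝ}
    (hs0 : 0 ≤ s) (hs1 : s ≤ 1) :
    |dot v (p.Zf τ)| ≤ M₀ * (Np q v ^ (1 - s) * Np q (fderiv ℝ v) ^ s)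
      * (W * p.N ^ (1 - s) * p.vol ^ (1 / 2 - 1 / q.toReal)) := by
  obtain ⟨n1, n2, n3, n4⟩ := h.ok.pos
  have hV := h.ok.vol_pos
  have hM := M₀_pos
  have hW := h.W_pos
  have h1 := h.nz hv hq
  have h2 := h.nz' hv hq
  set E := p.vol ^ (1 / 2 - 1 / q.toReal) with hE
  have hE0 : 0 < E := by positivity
  have h3 := interp (abs_nonneg _) h1 h2 (by positivity) (by positivity) (Np_nonneg _ _)
    (Np_nonneg _ _) hs0 hs1
  refine h3.trans (le_of_eq ?_)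
  have e : M₀ * (p.N * W) * E = (M₀ * W * E) * p.N := by ring
  rw [e, Real.mul_rpow (by positivity) (by positivity)]
  have e3 : (M₀ * W * E) ^ (1 - s) * p.N ^ (1 - s) * (M₀ * W * E) ^ s
      = ((M₀ * W * E) ^ (1 - s) * (M₀ * W * E) ^ s) * p.N ^ (1 - s) := by ring
  rw [e3, ← Real.rpow_add (by positivity)]
  have e2 : (1 - s) + s = 1 := by ring
  rw [e2, Real.rpow_one]
  ring

end Prm

section main

variable {p : ℕ → Prm} {τ W L x y : ℕ → ℝ} {lam C amp ε : ℝ}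

theorem holder3 {q₁ q₂ q₃ : ℝ≥0∞} (h : q₁⁻¹ + q₂⁻¹ + q₃⁻¹ = 1) :
    1 ≤ q₁ ∧ 1 ≤ q₂ ∧ 1 ≤ q₃ ∧ 1 / q₁.toReal + 1 / q₂.toReal + 1 / q₃.toReal = 1 := by
  have l1 : q₁⁻¹ ≤ 1 := by rw [← h, add_assoc]; exact le_self_add
  have l2 : q₂⁻¹ ≤ 1 := by rw [← h, add_comm q₁⁻¹, add_assoc]; exact le_self_add
  have l3 : q₃⁻¹ ≤ 1 := by rw [← h]; exact le_add_self
  have f1 : q₁⁻¹ ≠ ⊤ := (l1.trans_lt ENNReal.one_lt_top).ne
  have f2 : q₂⁻¹ ≠ ⊤ := (l2.trans_lt ENNReal.one_lt_top).ne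
  have f3 : q₃⁻¹ ≠ ⊤ := (l3.trans_lt ENNReal.one_lt_top).ne
  refine ⟨ENNReal.inv_le_one.1 l1, ENNReal.inv_le_one.1 l2, ENNReal.inv_le_one.1 l3, ?_⟩
  have h2 := congrArg ENNReal.toReal h
  rw [ENNReal.toReal_add (ENNReal.add_ne_top.2 ⟨f1, f2⟩) f3, ENNReal.toReal_add f1 f2,
    ENNReal.toReal_inv, ENNReal.toReal_inv, ENNReal.toReal_inv, ENNReal.toReal_one] at h2
  simp only [one_div]
  exact h2

theorem hasSum_lin : HasSum (fun n : ℕ => ((n : ℝ) + 8) * (1 / 4) ^ n) (100 / 9) := by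
  have h1 := hasSum_coe_mul_geometric_of_norm_lt_one (r := (1 / 4 : ℝ)) (by norm_num)
  have h2 := (hasSum_geometric_of_lt_one (r := (1 / 4 : ℝ)) (by norm_num) (by norm_num)).mul_left 8
  have h3 := h1.add h2
  have e : (fun n : ℕ => ((n : ℝ) + 8) * (1 / 4) ^ n)
      = fun n : ℕ => (n : ℝ) * (1 / 4) ^ n + 8 * (1 / 4) ^ n := by
    funext n
    ring
  have e2 : (100 / 9 : ℝ) = 1 / 4 / (1 - 1 / 4) ^ 2 + 8 * (1 - 1 / 4)⁻¹ := by norm_num
  rw [e, e2]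
  exact h3

/-- the order of the bilinear operator -/
theorem Fam.G_bound (h : Fam p τ W L lam) (hy : Hyp L (fun n => (p n).vol) x y C amp ε)
    (hX : ∀ n, (p n).X ≤ x n) {s : ℝ} (hs0 : 0 ≤ s) (hs1 : s ≤ 1)
    (hN : ∀ n, (p n).N ^ (-s) ≤ y n) {q₁ q₂ q₃ : ℝ≥0∞} (hq : q₁⁻¹ + q₂⁻¹ + q₃⁻¹ = 1)
    {u v w : V → V} (hu : SV u) (hv : SV v) (hw : SV w) :
    |dot w (Gop p L C amp u v)| ≤ M₀ ^ 3 * ε * (200 / 9) *
      (Np q₁ u * (Np q₂ v ^ (1 - s) * Np q₂ (fderiv ℝ v) ^ s) * Np q₃ w) := by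
  obtain ⟨h1, h2, h3, hθ⟩ := holder3 hq
  obtain ⟨t1, -⟩ := th_le h1
  obtain ⟨t2, -⟩ := th_le h2
  obtain ⟨t3, -⟩ := th_le h3
  have hM := M₀_pos
  set P := Np q₁ u with hP
  set Q := Np q₂ v ^ (1 - s) * Np q₂ (fderiv ℝ v) ^ s with hQ
  set R := Np q₃ w with hR
  have hP0 : 0 ≤ P := Np_nonneg _ _
  have hR0 : 0 ≤ R := Np_nonneg _ _
  have hQ0 : 0 ≤ Q := by
    have := Np_nonneg q₂ v
    have := Np_nonneg q₂ (fderiv ℝ v)
    positivity
  have hε : 0 ≤ ε := by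
    have := hy.xy 0
    have := mul_nonneg (hy.x0 0) (hy.y0 0)
    rw [pow_zero, mul_one] at *
    linarith
  have ba : ∀ n, |dot u (p n).U| ≤ (M₀ * P) * (p n).vol ^ (1 / 2 - 1 / q₁.toReal) := fun n => by
    refine ((h.good n).na hu h1).trans (le_of_eq ?_)
    ring
  have bf : ∀ n, |dot u (p n).F| ≤ (M₀ * P) * (x n * (p n).vol ^ (-(1 / q₁.toReal))) := fun n => by
    refine ((h.good n).nf hu h1).trans ?_
    have := (h.good n).ok.vol_pos
    have := hX n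
    calc M₀ * (p n).X * (p n).vol ^ (-(1 / q₁.toReal)) * P
        ≤ M₀ * x n * (p n).vol ^ (-(1 / q₁.toReal)) * P := by gcongr
      _ = _ := by ring
  have bb : ∀ n, |dot v (p n).U| ≤ (M₀ * Q) * (y n * (p n).vol ^ (1 / 2 - 1 / q₂.toReal)) :=
    fun n => by
    refine ((h.good n).nas hv h2 hs0 hs1).trans ?_
    have := (h.good n).ok.vol_pos
    have := hN n
    gcongr
  have bw : ∀ n, |dot w (p n).U| ≤ (M₀ * R) * (p n).vol ^ (1 / 2 - 1 / q₃.toReal) := fun n => by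
    refine ((h.good n).na hw h3).trans (le_of_eq ?_)
    ring
  have bwf : ∀ n, |dot w (p n).F| ≤ (M₀ * R) * (x n * (p n).vol ^ (-(1 / q₃.toReal))) := fun n => by
    refine ((h.good n).nf hw h3).trans ?_
    have := (h.good n).ok.vol_pos
    have := hX n
    calc M₀ * (p n).X * (p n).vol ^ (-(1 / q₃.toReal)) * R
        ≤ M₀ * x n * (p n).vol ^ (-(1 / q₃.toReal)) * R := by gcongr
      _ = _ := by ring
  set K := M₀ ^ 3 * (P * Q * R) with hK
  have hK0 : 0 ≤ K := by positivity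
  have key : ∀ n, |-(dot v (p n).U * dot u (p n).U) * dot w (p n).F| ≤ K * ε * (1 / 4) ^ n := by
    intro n
    have hV := hy.V0 n
    rw [abs_mul, abs_neg, abs_mul]
    have b1 := ba n
    have b2 := bb n
    have b3 := bwf n
    have hx0 := hy.x0 n
    have hy0 := hy.y0 n
    calc |dot v (p n).U| * |dot u (p n).U| * |dot w (p n).F|
        ≤ ((M₀ * Q) * (y n * (p n).vol ^ (1 / 2 - 1 / q₂.toReal)))
          * ((M₀ * P) * (p n).vol ^ (1 / 2 - 1 / q₁.toReal))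
          * ((M₀ * R) * (x n * (p n).vol ^ (-(1 / q₃.toReal)))) := by gcongr
      _ = K * (x n * y n) * ((p n).vol ^ (1 / 2 - 1 / q₂.toReal)
          * (p n).vol ^ (1 / 2 - 1 / q₁.toReal) * (p n).vol ^ (-(1 / q₃.toReal))) := by
          rw [hK]; ring
      _ = K * (x n * y n) := by
        rw [← Real.rpow_add hV, ← Real.rpow_add hV]
        have : 1 / 2 - 1 / q₂.toReal + (1 / 2 - 1 / q₁.toReal) + -(1 / q₃.toReal) = 0 := by
          linarith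
        rw [this, Real.rpow_zero, mul_one]
      _ ≤ K * (ε * (1 / 4) ^ n) := by
        have := hy.xy n
        gcongr
      _ = _ := by ring
  have key2 : ∀ n, |dot v (p n).U * dot u (p n).F * dot w (p n).U| ≤ K * ε * (1 / 4) ^ n := by
    intro n
    have hV := hy.V0 n
    rw [abs_mul, abs_mul]
    have b1 := bf n
    have b2 := bb n
    have b3 := bw n
    have hx0 := hy.x0 n
    have hy0 := hy.y0 n
    calc |dot v (p n).U| * |dot u (p n).F| * |dot w (p n).U|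
        ≤ ((M₀ * Q) * (y n * (p n).vol ^ (1 / 2 - 1 / q₂.toReal)))
          * ((M₀ * P) * (x n * (p n).vol ^ (-(1 / q₁.toReal))))
          * ((M₀ * R) * (p n).vol ^ (1 / 2 - 1 / q₃.toReal)) := by gcongr
      _ = K * (x n * y n) * ((p n).vol ^ (1 / 2 - 1 / q₂.toReal)
          * (p n).vol ^ (-(1 / q₁.toReal)) * (p n).vol ^ (1 / 2 - 1 / q₃.toReal)) := by
          rw [hK]; ring
      _ = K * (x n * y n) := by
        rw [← Real.rpow_add hV, ← Real.rpow_add hV]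
        have : 1 / 2 - 1 / q₂.toReal + -(1 / q₁.toReal) + (1 / 2 - 1 / q₃.toReal) = 0 := by
          linarith
        rw [this, Real.rpow_zero, mul_one]
      _ ≤ K * (ε * (1 / 4) ^ n) := by
        have := hy.xy n
        gcongr
      _ = _ := by ring
  have key3 : ∀ n, |amp⁻¹ * qq L C (fun n => dot u (p n).U) (fun n => dot v (p n).U) n
      * dot w (p n).U| ≤ K * ε * ((n + 6) * (1 / 4) ^ n) := by
    intro n
    have := qq_est hy t1 t2 t3 hθ (A₀ := M₀ * P) (B₀ := M₀ * Q) (W₀ := M₀ * R) (by positivity)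
      (by positivity) (by positivity) ba bb bw n
    refine this.trans (le_of_eq ?_)
    rw [hK]
    ring
  rw [h.G_dot hu hv hw]
  have e1 := tsum_of_norm_bounded (hasSum_lin.mul_left (K * ε))
    (f := fun n => -(dot v (p n).U * dot u (p n).U) * dot w (p n).F) fun n => by
      rw [Real.norm_eq_abs]
      refine (key n).trans ?_
      have : (0 : ℝ) ≤ (1 / 4) ^ n := by positivity
      have : (0 : ℝ) ≤ n := Nat.cast_nonneg n
      rw [mul_assoc]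
      have h5 : (1 : ℝ) * (1 / 4) ^ n ≤ (n + 8) * (1 / 4) ^ n := by gcongr; linarith
      rw [one_mul] at h5
      rw [← mul_assoc]
      exact mul_le_mul_of_nonneg_left h5 (by positivity)
  have e2 := tsum_of_norm_bounded (hasSum_lin.mul_left (K * ε))
    (f := fun n => (dot v (p n).U * dot u (p n).F
        - amp⁻¹ * qq L C (fun n => dot u (p n).U) (fun n => dot v (p n).U) n)
        * dot w (p n).U) fun n => by
      rw [Real.norm_eq_abs, sub_mul]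
      refine (abs_sub _ _).trans ?_
      have a1 := key2 n
      have a2 := key3 n
      have : (0 : ℝ) ≤ K * ε * (1 / 4) ^ n := by positivity
      calc _ ≤ K * ε * (1 / 4) ^ n + K * ε * ((n + 6) * (1 / 4) ^ n) := add_le_add a1 a2
        _ ≤ K * ε * (1 / 4) ^ n + K * ε * ((n + 6) * (1 / 4) ^ n) + K * ε * (1 / 4) ^ n := by
          linarith
        _ = _ := by ring
  rw [Real.norm_eq_abs] at e1 e2
  refine (abs_add_le _ _).trans ((add_le_add e1 e2).trans (le_of_eq ?_))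
  rw [hK]
  ring

/-- the order of the linear operator -/
theorem Fam.D_bound (h : Fam p τ W L lam) {a η : ℝ} (ha0 : 0 ≤ a) (ha1 : a ≤ 1)
    (hη : ∀ n, W n * (p n).N ^ (-a) ≤ η * (1 / 4) ^ n) {q₁ q₂ : ℝ≥0∞} (hq : q₁⁻¹ + q₂⁻¹ = 1)
    {v w : V → V} (hv : SV v) (hw : SV w) :
    |dot w (Dop p τ v)| ≤ M₀ ^ 2 * η * (4 / 3) *
      ((Np q₁ v ^ ((1 - a) / 2) * Np q₁ (fderiv ℝ v) ^ ((1 + a) / 2)) *
        (Np q₂ w ^ ((1 - a) / 2) * Np q₂ (fderiv ℝ w) ^ ((1 + a) / 2))) := by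
  obtain ⟨h1, h2, -, hθ⟩ := holder3 (q₁ := q₁) (q₂ := q₂) (q₃ := ⊤) (by simpa using hq)
  simp only [ENNReal.toReal_top, div_zero, add_zero] at hθ
  have hM := M₀_pos
  have e1 : (1 - a) / 2 = 1 - (1 + a) / 2 := by ring
  rw [e1]
  set s := (1 + a) / 2 with hs
  have hs0 : 0 ≤ s := by linarith
  have hs1 : s ≤ 1 := by linarith
  set P := Np q₁ v ^ (1 - s) * Np q₁ (fderiv ℝ v) ^ s with hP
  set Q := Np q₂ w ^ (1 - s) * Np q₂ (fderiv ℝ w) ^ s with hQ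
  have hP0 : 0 ≤ P := by
    have := Np_nonneg q₁ v
    have := Np_nonneg q₁ (fderiv ℝ v)
    positivity
  have hQ0 : 0 ≤ Q := by
    have := Np_nonneg q₂ w
    have := Np_nonneg q₂ (fderiv ℝ w)
    positivity
  rw [h.D_dot hv hw]
  have h0 := (hasSum_geometric_of_lt_one (r := (1 / 4 : ℝ)) (by norm_num) (by norm_num)).mul_left
    (M₀ ^ 2 * η * (P * Q))
  have key := tsum_of_norm_bounded h0 (f := fun n => dot v ((p n).Zf (τ n)) * dot w ((p n).Zf (τ n))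
      / dot (p n).U ((p n).Zf (τ n))) fun n => by
    have g := h.good n
    have hV := g.ok.vol_pos
    have hW := g.W_pos
    obtain ⟨n1, n2, n3, n4⟩ := g.ok.pos
    have z1 := g.nzs hv h1 hs0 hs1
    have z2 := g.nzs hw h2 hs0 hs1
    have al := g.alpha_ge
    have hC1 := Cb_one
    have al2 : (p n).N * W n ≤ dot (p n).U ((p n).Zf (τ n)) := by
      refine le_trans ?_ al
      have : 1 ≤ Cb ^ 2 := one_le_pow₀ hC1
      have : 0 < (p n).N * W n := by positivity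
      nlinarith
    have alp : 0 < (p n).N * W n := by positivity
    rw [Real.norm_eq_abs, abs_div, abs_mul, abs_of_pos (alp.trans_le al2)]
    rw [div_le_iff₀ (alp.trans_le al2)]
    have hη0 : 0 ≤ η * (1 / 4) ^ n := le_trans (by positivity) (hη n)
    calc |dot v ((p n).Zf (τ n))| * |dot w ((p n).Zf (τ n))|
        ≤ (M₀ * P * (W n * (p n).N ^ (1 - s) * (p n).vol ^ (1 / 2 - 1 / q₁.toReal)))
          * (M₀ * Q * (W n * (p n).N ^ (1 - s) * (p n).vol ^ (1 / 2 - 1 / q₂.toReal))) := by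
          gcongr
      _ = M₀ ^ 2 * (P * Q) * (W n * (W n * ((p n).N ^ (1 - s) * (p n).N ^ (1 - s))))
          * ((p n).vol ^ (1 / 2 - 1 / q₁.toReal) * (p n).vol ^ (1 / 2 - 1 / q₂.toReal)) := by ring
      _ = M₀ ^ 2 * (P * Q) * ((W n * (p n).N ^ (-a)) * ((p n).N * W n)) := by
        rw [← Real.rpow_add hV, ← Real.rpow_add n1]
        have e2 : 1 / 2 - 1 / q₁.toReal + (1 / 2 - 1 / q₂.toReal) = 0 := by linarith
        have e3 : (1 - s) + (1 - s) = 1 + (-a) := by rw [hs]; ring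
        rw [e2, e3, Real.rpow_zero, mul_one, Real.rpow_add n1, Real.rpow_one]
        ring
      _ ≤ M₀ ^ 2 * (P * Q) * ((η * (1 / 4) ^ n) * dot (p n).U ((p n).Zf (τ n))) := by
        have := hη n
        gcongr
      _ = _ := by ring
  rw [Real.norm_eq_abs] at key
  refine key.trans (le_of_eq ?_)
  norm_num
  ring

end main

end Pool.Agent.V1178.NS
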