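import Pool.Agent.V1178.NS.Fun

/-!
Rapid decay of the coefficients of a smooth field.
-/

open Set Filter Topology MeasureTheory
open scoped ContDiff ENNReal

set_option autoImplicit false

namespace Pool.Agent.V1178.NS

open H459R3.NS

theorem sup_SP {g : V → ℝ} (hg : SP g) : ∃ M, 0 ≤ M ∧ ∀ x ∈ cube, |g x| ≤ M := by
  obtain ⟨C, hC⟩ := (isCompact_Icc (a := (0 : V)) (b := 1)).exists_bound_of_continuousOn
    hg.cont.continuousOn
  exact ⟨|C|, abs_nonneg C, fun x hx => (hC x hx).trans (le_abs_self C)⟩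

theorem int_le_cube {f : V → ℝ} {M : ℝ} (hM : ∀ x ∈ cube, |f x| ≤ M) : |∫ x in cube, f x| ≤ M := by
  have hv : volume (cube : Set V) = 1 := volume_cube
  have h := norm_setIntegral_le_of_norm_le_const (μ := volume) (s := (cube : Set V)) (f := f)
    (C := M) (by rw [hv]; exact ENNReal.one_lt_top) hM
  have e : (volume : Measure V).real cube = 1 := by
    rw [Measure.real, hv, ENNReal.toReal_one]
  rwa [e, mul_one, Real.norm_eq_abs] at h

/-- repeated integration by parts in the direction of the oscillation -/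
theorem osc_decay (m : ℕ) : ∀ (g : V → ℝ), SP g → ∀ k : ℕ, ∃ C, 0 ≤ C ∧ ∀ p : Prm, p.Ok →
    |∫ x in cube, g x * p.Ec 0 0 k x| ≤ C * (p.Z / p.N) ^ m ∧
    |∫ x in cube, g x * p.Es 0 0 k x| ≤ C * (p.Z / p.N) ^ m := by
  induction m with
  | zero =>
    intro g hg k
    obtain ⟨M, hM0, hM⟩ := sup_SP hg
    have hb : 0 ≤ Bk 0 * Bk 0 * Bk k := by
      have := Bk_pos 0
      have := Bk_pos k
      positivity
    refine ⟨M * (Bk 0 * Bk 0 * Bk k), by positivity, fun p _ => ⟨?_, ?_⟩⟩
    · rw [pow_zero, mul_one]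
      refine int_le_cube fun x hx => ?_
      rw [abs_mul]
      exact mul_le_mul (hM x hx) (p.Ec_le 0 0 k x) (abs_nonneg _) hM0
    · rw [pow_zero, mul_one]
      refine int_le_cube fun x hx => ?_
      rw [abs_mul]
      exact mul_le_mul (hM x hx) (p.Es_le 0 0 k x) (abs_nonneg _) hM0
  | succ m ih =>
    intro g hg k
    obtain ⟨C, hC0, hC⟩ := ih (pd 2 g) (hg.pd 2) k
    obtain ⟨D, hD0, hD⟩ := ih g hg (k + 1)
    refine ⟨C + D, by positivity, fun p h => ?_⟩
    obtain ⟨h1, h2, h3, h4⟩ := h.pos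
    have hZ1 : 1 ≤ p.Z := by linarith [h.Z1]
    obtain ⟨c1, c2⟩ := hC p h
    obtain ⟨d1, d2⟩ := hD p h
    set r := (p.Z / p.N) ^ m with hr
    have hr0 : 0 ≤ r := by positivity
    -- `N Ec = ∂₂ Es - Z Es'`
    have e1 : p.N * ∫ x in cube, g x * p.Ec 0 0 k x
        = -(∫ x in cube, pd 2 g x * p.Es 0 0 k x) - p.Z * ∫ x in cube, g x * p.Es 0 0 (k + 1) x := by
      have e := ibp hg (h.Es_sp 0 0 k) 2
      have e' : ∫ x in cube, g x * pd 2 (p.Es 0 0 k) x
          = p.Z * (∫ x in cube, g x * p.Es 0 0 (k + 1) x)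
            + p.N * ∫ x in cube, g x * p.Ec 0 0 k x := by
        rw [← integral_const_mul, ← integral_const_mul, ← integral_add
          ((hg.mul (h.Es_sp 0 0 (k + 1))).int.const_mul _)
          ((hg.mul (h.Ec_sp 0 0 k)).int.const_mul _)]
        congr 1
        funext x
        rw [h.Es_pd2]
        ring
      linarith
    have e2 : p.N * ∫ x in cube, g x * p.Es 0 0 k x
        = (∫ x in cube, pd 2 g x * p.Ec 0 0 k x) + p.Z * ∫ x in cube, g x * p.Ec 0 0 (k + 1) x := by
      have e := ibp hg (h.Ec_sp 0 0 k) 2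
      have e' : ∫ x in cube, g x * pd 2 (p.Ec 0 0 k) x
          = p.Z * (∫ x in cube, g x * p.Ec 0 0 (k + 1) x)
            - p.N * ∫ x in cube, g x * p.Es 0 0 k x := by
        rw [← integral_const_mul, ← integral_const_mul, ← integral_sub
          ((hg.mul (h.Ec_sp 0 0 (k + 1))).int.const_mul _)
          ((hg.mul (h.Es_sp 0 0 k)).int.const_mul _)]
        congr 1
        funext x
        rw [h.Ec_pd2]
        ring
      linarith
    have hfin : ∀ I J K : ℝ, |p.N * I| ≤ |J| + p.Z * |K| → |J| ≤ C * r → |K| ≤ D * r →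
        |I| ≤ (C + D) * (p.Z / p.N) ^ (m + 1) := by
      intro I J K hI hJ hK
      rw [abs_mul, abs_of_pos h1] at hI
      have a1 : p.N * |I| ≤ C * r + p.Z * (D * r) := hI.trans (by gcongr)
      have a2 : C * r + p.Z * (D * r) ≤ p.Z * ((C + D) * r) := by
        have : C * r ≤ p.Z * (C * r) := le_mul_of_one_le_left (by positivity) hZ1
        linarith
      rw [pow_succ, ← hr]
      have a3 : (C + D) * (r * (p.Z / p.N)) = p.Z * ((C + D) * r) / p.N := by
        field_simp
      rw [a3, le_div_iff₀ h1]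
      linarith
    constructor
    · refine hfin _ _ _ ?_ c2 d2
      rw [e1]
      calc _ ≤ |-(∫ x in cube, pd 2 g x * p.Es 0 0 k x)|
            + |p.Z * ∫ x in cube, g x * p.Es 0 0 (k + 1) x| := abs_sub _ _
        _ = _ := by rw [abs_neg, abs_mul, abs_of_pos h4]
    · refine hfin _ _ _ ?_ c1 d1
      rw [e2]
      calc _ ≤ |∫ x in cube, pd 2 g x * p.Ec 0 0 k x|
            + |p.Z * ∫ x in cube, g x * p.Ec 0 0 (k + 1) x| := abs_add_le _ _
        _ = _ := by rw [abs_mul, abs_of_pos h4]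

/-- decay of the coefficients -/
theorem a_decay {v : V → V} (hv : SV v) (m : ℕ) : ∃ C, 0 ≤ C ∧ ∀ (p : Prm) (τ W : ℝ),
    p.Good τ W → |dot v p.U| ≤ C * p.A / p.N * (p.Z / p.N) ^ m := by
  obtain ⟨C, hC0, hC⟩ := osc_decay m (pd 2 (fun y => v y 0)) ((hv 0).pd 2) 0
  obtain ⟨D, hD0, hD⟩ := osc_decay m (pd 0 (fun y => v y 2)) ((hv 2).pd 0) 0
  refine ⟨C + D, by positivity, fun p τ W h => ?_⟩
  have hA := h.A_pos
  obtain ⟨h1, h2, h3, h4⟩ := h.ok.pos
  have c := (hC p h.ok).1
  have d := (hD p h.ok).1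
  rw [h.ok.dot_U hv]
  have e : ∀ g : V → ℝ, ∫ x in cube, g x * p.psi x = p.A / p.N * ∫ x in cube, g x * p.Ec 0 0 0 x := by
    intro g
    rw [← integral_const_mul]
    congr 1
    funext x
    unfold Prm.psi
    ring
  rw [e, e, ← mul_sub, abs_mul, abs_of_nonneg (by positivity)]
  calc p.A / p.N * |_| ≤ p.A / p.N * (C * (p.Z / p.N) ^ m + D * (p.Z / p.N) ^ m) := by
        gcongr
        exact (abs_sub _ _).trans (add_le_add c d)
    _ = _ := by ring

/-- `⟨v, Z⟩ = ⟨Δ v + τ v, U⟩` -/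
theorem dot_Z_eq {p : Prm} (h : p.Ok) {v : V → V} (hv : SV v) (τ : ℝ) :
    dot v (p.Zf τ) = dot (fun x i => lap (fun y => v y i) x) p.U + τ * dot v p.U := by
  unfold dot
  rw [Finset.mul_sum, ← Finset.sum_add_distrib]
  refine Finset.sum_congr rfl fun i _ => ?_
  have hU := h.U_sp i
  have e1 : ∫ x in cube, lap (fun y => v y i) x * p.U x i
      = ∫ x in cube, v x i * lap (fun y => p.U y i) x := by
    rw [int_lap_mul (hv i) hU]
    have e : ∫ x in cube, v x i * lap (fun y => p.U y i) x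
        = ∫ x in cube, lap (fun y => p.U y i) x * v x i := by
      congr 1; funext x; ring
    rw [e, int_lap_mul hU (hv i)]
    congr 1
    refine Finset.sum_congr rfl fun j _ => ?_
    congr 1
    funext x
    ring
  rw [e1, ← integral_const_mul, ← integral_add ((hv i).mul hU.lap).int
    (((hv i).mul hU).int.const_mul _)]
  congr 1
  funext x
  rw [← h.lap_U τ i x]
  ring

theorem SV.lap {v : V → V} (hv : SV v) : SV (fun x i => lap (fun y => v y i) x) :=
  fun i => (hv i).lap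

end Pool.Agent.V1178.NS
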