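import Pool.Agent.V1178.NS.Ops

/-!
The estimate for the quadratic map of the circuit.
-/

open Set Filter Topology MeasureTheory
open scoped ContDiff ENNReal

set_option autoImplicit false

namespace Pool.Agent.V1178.NS

open H459R3.NS

theorem pw_one {V V' θ : ℝ} (hV : 0 < V) (hV' : 0 < V') (h : V' ≤ V) (hθ : 0 ≤ θ) :
    V ^ (-θ) * V' ^ θ ≤ 1 := by
  have h1 : V' ^ θ ≤ V ^ θ := Real.rpow_le_rpow hV'.le h hθ
  have h2 : V ^ (-θ) * V ^ θ = 1 := by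
    rw [← Real.rpow_add hV]
    simp
  have h3 : 0 ≤ V ^ (-θ) := by positivity
  calc V ^ (-θ) * V' ^ θ ≤ V ^ (-θ) * V ^ θ := by gcongr
    _ = 1 := h2

theorem pw_half {V V' θ C : ℝ} (hV : 0 < V) (hV' : 0 < V') (h : V' ≤ V) (hθ : θ ≤ 1)
    (hC : 0 ≤ C) (hCV : C * (V / V') ^ (1 / 2 : ℝ) ≤ 1) :
    C * (V ^ (θ - 1 / 2) * V' ^ (1 / 2 - θ)) ≤ 1 := by
  refine le_trans ?_ hCV
  have h1 : V ^ (θ - 1 / 2) * V' ^ (1 / 2 - θ) = (V / V') ^ (θ - 1 / 2) := by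
    rw [Real.div_rpow hV.le hV'.le, div_eq_mul_inv (V ^ (θ - 1 / 2)), ← Real.rpow_neg hV'.le]
    congr 2
    ring
  rw [h1]
  have h2 : 1 ≤ V / V' := (one_le_div hV').2 h
  have h3 : (V / V') ^ (θ - 1 / 2) ≤ (V / V') ^ (1 / 2 : ℝ) :=
    Real.rpow_le_rpow_of_exponent_le h2 (by linarith)
  gcongr

section est

variable {L V x y a b w : ℕ → ℝ} {C amp ε θ₁ θ₂ θ₃ A₀ B₀ W₀ : ℝ}

/-- the hypotheses of the estimate -/
structure Hyp (L V x y : ℕ → ℝ) (C amp ε : ℝ) : Prop where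
  V0 : ∀ n, 0 < V n
  Va : Antitone V
  x0 : ∀ n, 0 ≤ x n
  y0 : ∀ n, 0 ≤ y n
  xm : Monotone x
  ya : Antitone y
  amp0 : 0 < amp
  C0 : 0 ≤ C
  L0 : ∀ n, 0 ≤ L n
  Lx : ∀ n, L n ≤ amp * (x n * V n ^ (-(1 / 2) : ℝ))
  CV : ∀ n, C * (V n / V (n + 1)) ^ (1 / 2 : ℝ) ≤ 1
  xy : ∀ n, x n * y n ≤ ε * (1 / 4) ^ n

theorem est_term (h : Hyp L V x y C amp ε)
    (hA : 0 ≤ A₀) (hB : 0 ≤ B₀) {i j k l : ℕ} {e₁ e₂ e₃ : ℝ}
    (ha : |a i| ≤ A₀ * V i ^ e₁) (hb : |b j| ≤ B₀ * (y j * V j ^ e₂))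
    (hw : |w k| ≤ W₀ * V k ^ e₃) :
    amp⁻¹ * (L l * (|a i| * |b j| * |w k|)) ≤ A₀ * B₀ * W₀ * (x l * y j *
      (V l ^ (-(1 / 2) : ℝ) * V i ^ e₁ * V j ^ e₂ * V k ^ e₃)) := by
  have hi := h.V0 i
  have hj := h.V0 j
  have hk := h.V0 k
  have hl := h.V0 l
  have hy := h.y0 j
  have hx := h.x0 l
  have hL := h.Lx l
  have h0 := h.L0 l
  have hamp := h.amp0
  calc amp⁻¹ * (L l * (|a i| * |b j| * |w k|))
      ≤ amp⁻¹ * ((amp * (x l * V l ^ (-(1 / 2) : ℝ))) *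
        ((A₀ * V i ^ e₁) * (B₀ * (y j * V j ^ e₂)) * (W₀ * V k ^ e₃))) := by gcongr
    _ = (amp⁻¹ * amp) * (A₀ * B₀ * W₀ * (x l * y j *
      (V l ^ (-(1 / 2) : ℝ) * V i ^ e₁ * V j ^ e₂ * V k ^ e₃))) := by ring
    _ = _ := by rw [inv_mul_cancel₀ hamp.ne', one_mul]

theorem qq_est (h : Hyp L V x y C amp ε) (h1 : 0 ≤ θ₁) (h2 : 0 ≤ θ₂) (h3 : 0 ≤ θ₃)
    (hθ : θ₁ + θ₂ + θ₃ = 1) (hA : 0 ≤ A₀) (hB : 0 ≤ B₀) (hW : 0 ≤ W₀)
    (ha : ∀ n, |a n| ≤ A₀ * V n ^ (1 / 2 - θ₁))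
    (hb : ∀ n, |b n| ≤ B₀ * (y n * V n ^ (1 / 2 - θ₂)))
    (hw : ∀ n, |w n| ≤ W₀ * V n ^ (1 / 2 - θ₃)) (n : ℕ) :
    |amp⁻¹ * qq L C a b n * w n| ≤ A₀ * B₀ * W₀ * ε * ((n + 6) * (1 / 4) ^ n) := by
  have hamp := h.amp0
  have hK : 0 ≤ A₀ * B₀ * W₀ := by positivity
  have hε : 0 ≤ ε := by
    have := h.xy 0
    have := mul_nonneg (h.x0 0) (h.y0 0)
    rw [pow_zero, mul_one] at *
    linarith
  -- the four pieces
  have p3 : ∀ i < n, amp⁻¹ * (L i * (|a i| * |b n| * |w n|)) ≤ A₀ * B₀ * W₀ * (ε * (1 / 4) ^ n) := by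
    intro i hi
    refine (est_term (l := i) h hA hB (ha i) (hb n) (hw n)).trans ?_
    refine mul_le_mul_of_nonneg_left ?_ hK
    have e : V i ^ (-(1 / 2) : ℝ) * V i ^ (1 / 2 - θ₁) * V n ^ (1 / 2 - θ₂) * V n ^ (1 / 2 - θ₃)
        = V i ^ (-θ₁) * V n ^ θ₁ := by
      rw [← Real.rpow_add (h.V0 i), mul_assoc, ← Real.rpow_add (h.V0 n)]
      congr 2
      · ring
      · linarith
    rw [e]
    have e1 := pw_one (h.V0 i) (h.V0 n) (h.Va hi.le) h1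
    have e2 : x i ≤ x n := h.xm hi.le
    have e3 := h.y0 n
    have e4 := h.x0 i
    calc x i * y n * (V i ^ (-θ₁) * V n ^ θ₁) ≤ x i * y n * 1 := by gcongr
      _ ≤ x n * y n := by rw [mul_one]; gcongr
      _ ≤ _ := h.xy n
  have p4 : ∀ m : ℕ, amp⁻¹ * (L n * (|a (n + 1 + m)| * |b (n + 1 + m)| * |w n|))
      ≤ A₀ * B₀ * W₀ * (ε * (1 / 4) ^ (n + 1 + m)) := by
    intro m
    refine (est_term (l := n) h hA hB (ha _) (hb _) (hw n)).trans ?_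
    refine mul_le_mul_of_nonneg_left ?_ hK
    set j := n + 1 + m with hj
    have e : V n ^ (-(1 / 2) : ℝ) * V j ^ (1 / 2 - θ₁) * V j ^ (1 / 2 - θ₂) * V n ^ (1 / 2 - θ₃)
        = V n ^ (-θ₃) * V j ^ θ₃ := by
      have e1 : V n ^ (-(1 / 2) : ℝ) * V j ^ (1 / 2 - θ₁) * V j ^ (1 / 2 - θ₂) * V n ^ (1 / 2 - θ₃)
        = (V n ^ (-(1 / 2) : ℝ) * V n ^ (1 / 2 - θ₃)) * (V j ^ (1 / 2 - θ₁) * V j ^ (1 / 2 - θ₂)) := by
        ring
      rw [e1, ← Real.rpow_add (h.V0 n), ← Real.rpow_add (h.V0 j)]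
      congr 2
      · ring
      · linarith
    rw [e]
    have e1 := pw_one (h.V0 n) (h.V0 j) (h.Va (by omega)) h3
    have e2 : x n ≤ x j := h.xm (by omega)
    have e3 := h.y0 j
    have e4 := h.x0 n
    calc x n * y j * (V n ^ (-θ₃) * V j ^ θ₃) ≤ x n * y j * 1 := by gcongr
      _ ≤ x j * y j := by rw [mul_one]; gcongr
      _ ≤ _ := h.xy j
  have p2 : amp⁻¹ * (L n * (|a n| * |b (n + 1)| * |w n|)) * C ≤ A₀ * B₀ * W₀ * (ε * (1 / 4) ^ n) := by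
    refine (mul_le_mul_of_nonneg_right
      (est_term (l := n) h hA hB (ha n) (hb (n + 1)) (hw n)) h.C0).trans ?_
    rw [mul_assoc (A₀ * B₀ * W₀)]
    refine mul_le_mul_of_nonneg_left ?_ hK
    have e : V n ^ (-(1 / 2) : ℝ) * V n ^ (1 / 2 - θ₁) * V (n + 1) ^ (1 / 2 - θ₂)
        * V n ^ (1 / 2 - θ₃) = V n ^ (θ₂ - 1 / 2) * V (n + 1) ^ (1 / 2 - θ₂) := by
      have e1 : V n ^ (-(1 / 2) : ℝ) * V n ^ (1 / 2 - θ₁) * V (n + 1) ^ (1 / 2 - θ₂)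
        * V n ^ (1 / 2 - θ₃) = (V n ^ (-(1 / 2) : ℝ) * V n ^ (1 / 2 - θ₁) * V n ^ (1 / 2 - θ₃))
          * V (n + 1) ^ (1 / 2 - θ₂) := by ring
      rw [e1, ← Real.rpow_add (h.V0 n), ← Real.rpow_add (h.V0 n)]
      congr 2
      linarith
    rw [e]
    have e1 := pw_half (h.V0 n) (h.V0 (n + 1)) (h.Va (Nat.le_succ n)) (θ := θ₂) (by linarith) h.C0
      (h.CV n)
    have e3 := h.y0 (n + 1)
    have e4 := h.x0 n
    calc x n * y (n + 1) * (V n ^ (θ₂ - 1 / 2) * V (n + 1) ^ (1 / 2 - θ₂)) * C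
        = x n * y (n + 1) * (C * (V n ^ (θ₂ - 1 / 2) * V (n + 1) ^ (1 / 2 - θ₂))) := by ring
      _ ≤ x n * y (n + 1) * 1 := by gcongr
      _ ≤ x n * y n := by
        rw [mul_one]
        exact mul_le_mul_of_nonneg_left (h.ya (Nat.le_succ n)) e4
      _ ≤ _ := h.xy n
  have p1 : ∀ m, n = m + 1 → amp⁻¹ * (L m * (|a m| * |b m| * |w n|)) * C
      ≤ A₀ * B₀ * W₀ * (ε * (1 / 4) ^ m) := by
    intro m hm
    subst hm
    refine (mul_le_mul_of_nonneg_right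
      (est_term (l := m) h hA hB (ha m) (hb m) (hw (m + 1))) h.C0).trans ?_
    rw [mul_assoc (A₀ * B₀ * W₀)]
    refine mul_le_mul_of_nonneg_left ?_ hK
    have e : V m ^ (-(1 / 2) : ℝ) * V m ^ (1 / 2 - θ₁) * V m ^ (1 / 2 - θ₂)
        * V (m + 1) ^ (1 / 2 - θ₃) = V m ^ (θ₃ - 1 / 2) * V (m + 1) ^ (1 / 2 - θ₃) := by
      rw [← Real.rpow_add (h.V0 m), ← Real.rpow_add (h.V0 m)]
      congr 2
      linarith
    rw [e]
    have e1 := pw_half (h.V0 m) (h.V0 (m + 1)) (h.Va (Nat.le_succ m)) (θ := θ₃) (by linarith) h.C0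
      (h.CV m)
    have e3 := h.y0 m
    have e4 := h.x0 m
    calc x m * y m * (V m ^ (θ₃ - 1 / 2) * V (m + 1) ^ (1 / 2 - θ₃)) * C
        = x m * y m * (C * (V m ^ (θ₃ - 1 / 2) * V (m + 1) ^ (1 / 2 - θ₃))) := by ring
      _ ≤ x m * y m * 1 := by gcongr
      _ ≤ _ := by rw [mul_one]; exact h.xy m
  -- assemble
  have q1 : |(if n = 0 then 0 else L (n - 1) * C * (a (n - 1) * b (n - 1))) * w n| * amp⁻¹
      ≤ A₀ * B₀ * W₀ * (4 * (ε * (1 / 4) ^ n)) := by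
    rcases n with _ | m
    · simp
      positivity
    · simp only [Nat.succ_ne_zero, if_false, Nat.add_sub_cancel]
      have e := p1 m rfl
      have e2 : |L m * C * (a m * b m) * w (m + 1)| * amp⁻¹
          = amp⁻¹ * (L m * (|a m| * |b m| * |w (m + 1)|)) * C := by
        rw [abs_mul, abs_mul, abs_mul, abs_mul, abs_of_nonneg (h.L0 m), abs_of_nonneg h.C0]
        ring
      rw [e2]
      refine e.trans (le_of_eq ?_)
      rw [pow_succ]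
      ring
  have q2 : |L n * C * (a n * b (n + 1)) * w n| * amp⁻¹ ≤ A₀ * B₀ * W₀ * (ε * (1 / 4) ^ n) := by
    have e2 : |L n * C * (a n * b (n + 1)) * w n| * amp⁻¹
        = amp⁻¹ * (L n * (|a n| * |b (n + 1)| * |w n|)) * C := by
      rw [abs_mul, abs_mul, abs_mul, abs_mul, abs_of_nonneg (h.L0 n), abs_of_nonneg h.C0]
      ring
    rw [e2]
    exact p2
  have q3 : |b n * (∑ i ∈ Finset.range n, L i * a i) * w n| * amp⁻¹
      ≤ A₀ * B₀ * W₀ * (n * (ε * (1 / 4) ^ n)) := by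
    have e2 : |b n * (∑ i ∈ Finset.range n, L i * a i) * w n|
        ≤ ∑ i ∈ Finset.range n, L i * (|a i| * |b n| * |w n|) := by
      rw [Finset.mul_sum, Finset.sum_mul]
      refine (Finset.abs_sum_le_sum_abs _ _).trans (le_of_eq ?_)
      refine Finset.sum_congr rfl fun i _ => ?_
      rw [abs_mul, abs_mul, abs_mul, abs_of_nonneg (h.L0 i)]
      ring
    calc _ ≤ (∑ i ∈ Finset.range n, L i * (|a i| * |b n| * |w n|)) * amp⁻¹ := by gcongr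
      _ = ∑ i ∈ Finset.range n, amp⁻¹ * (L i * (|a i| * |b n| * |w n|)) := by
        rw [Finset.sum_mul]
        exact Finset.sum_congr rfl fun i _ => by ring
      _ ≤ ∑ i ∈ Finset.range n, A₀ * B₀ * W₀ * (ε * (1 / 4) ^ n) :=
        Finset.sum_le_sum fun i hi => p3 i (Finset.mem_range.1 hi)
      _ = _ := by
        rw [Finset.sum_const, Finset.card_range, nsmul_eq_mul]
        ring
  have q4 : |(L n * ∑' m : ℕ, a (n + 1 + m) * b (n + 1 + m)) * w n| * amp⁻¹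
      ≤ A₀ * B₀ * W₀ * (ε * (1 / 4) ^ n) := by
    have e1 : (L n * ∑' m : ℕ, a (n + 1 + m) * b (n + 1 + m)) * w n * amp⁻¹
        = ∑' m : ℕ, amp⁻¹ * (L n * (a (n + 1 + m) * b (n + 1 + m) * w n)) := by
      rw [← tsum_mul_left, ← tsum_mul_right, ← tsum_mul_right]
      congr 1
      funext m
      ring
    have e2 : |(L n * ∑' m : ℕ, a (n + 1 + m) * b (n + 1 + m)) * w n| * amp⁻¹
        = |(L n * ∑' m : ℕ, a (n + 1 + m) * b (n + 1 + m)) * w n * amp⁻¹| := by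
      rw [abs_mul _ (amp⁻¹), abs_of_pos (inv_pos.2 hamp)]
    rw [e2, e1]
    have hg : HasSum (fun m : ℕ => A₀ * B₀ * W₀ * (ε * (1 / 4) ^ (n + 1 + m)))
        (A₀ * B₀ * W₀ * (ε * (1 / 4) ^ (n + 1) * (1 - 1 / 4)⁻¹)) := by
      have h0 := hasSum_geometric_of_lt_one (r := (1 / 4 : ℝ)) (by norm_num) (by norm_num)
      have h1 := h0.mul_left (A₀ * B₀ * W₀ * (ε * (1 / 4) ^ (n + 1)))
      have e1 : (fun m : ℕ => A₀ * B₀ * W₀ * (ε * (1 / 4) ^ (n + 1 + m)))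
          = fun m : ℕ => A₀ * B₀ * W₀ * (ε * (1 / 4) ^ (n + 1)) * (1 / 4) ^ m := by
        funext m
        rw [pow_add (1 / 4 : ℝ) (n + 1) m]
        ring
      have e2 : A₀ * B₀ * W₀ * (ε * (1 / 4) ^ (n + 1) * (1 - 1 / 4)⁻¹)
          = A₀ * B₀ * W₀ * (ε * (1 / 4) ^ (n + 1)) * (1 - 1 / 4)⁻¹ := by ring
      rw [e1, e2]
      exact h1
    have h5 := tsum_of_norm_bounded hg (f := fun m : ℕ =>
      amp⁻¹ * (L n * (a (n + 1 + m) * b (n + 1 + m) * w n))) fun m => by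
        rw [Real.norm_eq_abs, abs_mul, abs_mul, abs_mul, abs_mul, abs_of_nonneg (h.L0 n),
          abs_of_pos (inv_pos.2 hamp)]
        exact p4 m
    rw [Real.norm_eq_abs] at h5
    refine h5.trans ?_
    refine mul_le_mul_of_nonneg_left ?_ hK
    rw [pow_succ]
    have : 0 ≤ ε * (1 / 4) ^ n := by positivity
    norm_num
    linarith
  have e0 : amp⁻¹ * qq L C a b n * w n
      = ((if n = 0 then 0 else L (n - 1) * C * (a (n - 1) * b (n - 1))) * w n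
        - L n * C * (a n * b (n + 1)) * w n
        + b n * (∑ i ∈ Finset.range n, L i * a i) * w n
        - (L n * ∑' m : ℕ, a (n + 1 + m) * b (n + 1 + m)) * w n) * amp⁻¹ := by
    unfold qq
    ring
  rw [e0, abs_mul, abs_of_pos (inv_pos.2 hamp)]
  set P1 := (if n = 0 then 0 else L (n - 1) * C * (a (n - 1) * b (n - 1))) * w n with hP1
  set P2 := L n * C * (a n * b (n + 1)) * w n with hP2
  set P3 := b n * (∑ i ∈ Finset.range n, L i * a i) * w n with hP3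
  set P4 := (L n * ∑' m : ℕ, a (n + 1 + m) * b (n + 1 + m)) * w n with hP4
  have tri : |P1 - P2 + P3 - P4| ≤ |P1| + |P2| + |P3| + |P4| := by
    have t1 := abs_sub (P1 - P2 + P3) P4
    have t2 := abs_add_le (P1 - P2) P3
    have t3 := abs_sub P1 P2
    linarith
  have hai : 0 ≤ amp⁻¹ := (inv_pos.2 hamp).le
  calc |P1 - P2 + P3 - P4| * amp⁻¹ ≤ (|P1| + |P2| + |P3| + |P4|) * amp⁻¹ := by gcongr
    _ = |P1| * amp⁻¹ + |P2| * amp⁻¹ + |P3| * amp⁻¹ + |P4| * amp⁻¹ := by ring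
    _ ≤ A₀ * B₀ * W₀ * (4 * (ε * (1 / 4) ^ n)) + A₀ * B₀ * W₀ * (ε * (1 / 4) ^ n)
        + A₀ * B₀ * W₀ * (n * (ε * (1 / 4) ^ n)) + A₀ * B₀ * W₀ * (ε * (1 / 4) ^ n) := by
      gcongr
    _ = _ := by ring

end est

end Pool.Agent.V1178.NS
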