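import Pool.Agent.V1178.NS.Par2

/-!
Existence of admissible parameters, and the final result.
-/

open Set Filter Topology MeasureTheory
open scoped ContDiff ENNReal

set_option autoImplicit false

namespace Pool.Agent.V1178.NS

open H459R3.NS

theorem ev_ge {e : ℝ} (he : 0 < e) (K : ℝ) : ∀ᶠ t : ℝ in atTop, K ≤ t ^ e :=
  (tendsto_rpow_atTop he).eventually_ge_atTop K

theorem ev_le {e : ℝ} (he : e < 1) (K : ℝ) : ∀ᶠ t : ℝ in atTop, K * t ^ e ≤ t := by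
  filter_upwards [ev_ge (e := 1 - e) (by linarith) K, eventually_gt_atTop 0] with t h1 h2
  have e1 : t = t ^ (1 - e) * t ^ e := by
    rw [← Real.rpow_add h2]
    simp
  calc K * t ^ e ≤ t ^ (1 - e) * t ^ e := by gcongr
    _ = t := e1.symm

theorem ev_small {e : ℝ} (he : e < 0) {K : ℝ} (hK : 0 < K) : ∀ᶠ t : ℝ in atTop, t ^ e ≤ K := by
  have h := tendsto_rpow_neg_atTop (y := -e) (by linarith)
  rw [neg_neg] at h
  exact h.eventually_le_const hK

theorem exp_part {s a s' a' : ℝ} (ha : a < 1) (hs : s < 1) (hss : s' < s)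
    (haa : a' < a) (hsa : 2 * s' ≤ 1 + a')
    (hg : 7 < 6 * s' + 3 * a') :
    ∃ R : ℝ, 2 ≤ R ∧ R ^ (s' - s) ≤ 1 / 4 ∧ R ^ (a' - a) ≤ 1 / 4 ∧ 2 ≤ R ^ s' ∧
      R ^ (2 - gm s' a') ≤ 1 / 1000 ∧ 10 ^ 30 ≤ R ^ 2 ∧
      (10 ^ 6 * (R ^ gm s' a') ^ 3) ^ 10 ≤ Real.exp (R ^ 2 / 10 ^ 6) ∧
      1 < 9 / 1000 * R ^ (2 - s') := by
  have hgm : 2 < gm s' a' := by unfold gm; linarith
  have hs0 : 0 < s' := by linarith
  have hlo := (isLittleO_rpow_exp_pos_mul_atTop (30 * gm s' a') (b := 1 / 10 ^ 6)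
    (by norm_num)).def (c := (10 ^ 60 : ℝ)⁻¹) (by norm_num)
  have h2 : ∀ᶠ R : ℝ in atTop, (10 : ℝ) ^ 15 ≤ R := eventually_ge_atTop _
  have h3 : ∀ᶠ R : ℝ in atTop, (1000 : ℝ) / 9 < R ^ (2 - s') :=
    (tendsto_rpow_atTop (by linarith)).eventually_gt_atTop _
  obtain ⟨R, ⟨⟨⟨⟨⟨hR1, hR2⟩, hR3⟩, hR4⟩, hR5⟩, hR6⟩, hR7⟩ :=
    ((((((ev_small (e := s' - s) (by linarith) (K := 1 / 4) (by norm_num)).and
      (ev_small (e := a' - a) (by linarith) (K := 1 / 4) (by norm_num))).and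
      (ev_ge hs0 2)).and
      (ev_small (e := 2 - gm s' a') (by linarith) (K := 1 / 1000) (by norm_num))).and
      h2).and hlo).and h3 |>.exists
  have hR0 : 0 < R := by
    have : (0 : ℝ) < 10 ^ 15 := by norm_num
    linarith
  have hRone : 1 ≤ R := by
    have : (1 : ℝ) ≤ 10 ^ 15 := by norm_num
    linarith
  refine ⟨R, ?_, hR1, hR2, hR3, hR4, ?_, ?_, ?_⟩
  · have : (2 : ℝ) ≤ 10 ^ 15 := by norm_num
    linarith
  · calc (10 : ℝ) ^ 30 = (10 ^ 15) ^ 2 := by norm_num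
      _ ≤ R ^ 2 := by gcongr
  · rw [Real.norm_of_nonneg (by positivity), Real.norm_of_nonneg (by positivity)] at hR6
    have e : (10 ^ 6 * (R ^ gm s' a') ^ 3) ^ 10 = 10 ^ 60 * R ^ (30 * gm s' a') := by
      rw [mul_pow, ← pow_mul, ← pow_mul, ← Real.rpow_natCast (R ^ gm s' a'), ← Real.rpow_mul hR0.le]
      norm_num
      congr 1
      ring
    rw [e]
    calc (10 : ℝ) ^ 60 * R ^ (30 * gm s' a')
        ≤ 10 ^ 60 * ((10 ^ 60)⁻¹ * Real.exp (1 / 10 ^ 6 * R)) := by gcongr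
      _ = Real.exp (1 / 10 ^ 6 * R) := by
        rw [← mul_assoc, mul_inv_cancel₀ (by norm_num), one_mul]
      _ ≤ Real.exp (R ^ 2 / 10 ^ 6) := by
        apply Real.exp_le_exp.2
        have e1 : 1 / 10 ^ 6 * R = R / 10 ^ 6 := by ring
        rw [e1]
        have : R ≤ R ^ 2 := by nlinarith
        gcongr
  · linarith

theorem exists_cho {ν δ ρ s a : ℝ} (hν : 0 < ν) (hδ : 0 < δ) (hρ : 0 < ρ) (hs : s < 1)
    (ha : a < 1) (ha2 : 2 < 3 * a) (hsa : 7 < 6 * s + 3 * a) :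
    ∃ s' a' R Γ, Cho ν δ ρ s a s' a' R Γ := by
  set m := min s ((1 + a) / 2) with hm
  have hm1 : m ≤ s := min_le_left _ _
  have hm2 : m ≤ (1 + a) / 2 := min_le_right _ _
  have hm3 : 7 < 6 * m + 3 * a := by
    rcases min_choice s ((1 + a) / 2) with h | h
    · rw [hm, h]; exact hsa
    · rw [hm, h]; linarith
  set η := (6 * m + 3 * a - 7) / 10 with hη
  have hη0 : 0 < η := by linarith
  set s' := m - η with hs'
  set a' := a - η with ha'
  have k1 : s' < s := by linarith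
  have k2 : a' < a := by linarith
  have k3 : 2 * s' ≤ 1 + a' := by linarith
  have k4 : 7 < 6 * s' + 3 * a' := by linarith
  have k5 : 0 < s' := by linarith
  have k6 : 0 < a' := by linarith
  obtain ⟨R, r1, r2, r3, r4, r5, r6, r7, r8⟩ := exp_part ha hs k1 k2 k3 k4
  have hR0 : 0 < R := by linarith
  have hC := C2_pos
  have hM := M₀_pos
  have g1 := eventually_forall_ge_atTop.2 (ev_le (e := a') (by linarith) (4 * C2))
  have g2 := eventually_forall_ge_atTop.2 (ev_le (e := a') (by linarith) 8)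
  have g3 := eventually_forall_ge_atTop.2 (ev_le (e := s') (by linarith) 2)
  have g4 := eventually_forall_ge_atTop.2 (ev_ge k5 32)
  have g5 := eventually_forall_ge_atTop.2 (ev_ge (e := (1 + a') / 2) (by linarith) 4)
  have g6 := eventually_forall_ge_atTop.2 (ev_ge k6 4)
  have g7 := eventually_forall_ge_atTop.2 (ev_ge k5 (5 / ρ))
  have g8 := eventually_forall_ge_atTop.2 (ev_ge (e := (1 + a') / 2) (by linarith) (1 / ρ))
  have g9 := eventually_forall_ge_atTop.2 (ev_ge k6 (1 / ρ))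
  have g10 : ∀ᶠ Γ : ℝ in atTop, 1 / (10 / 9 * ν * 10 ^ 6 * R ^ 2) ≤ Γ := eventually_ge_atTop _
  have g11 : ∀ᶠ Γ : ℝ in atTop, (1 : ℝ) ≤ Γ := eventually_ge_atTop _
  have g12 := ev_small (e := s' - s) (by linarith) (K := δ / (M₀ ^ 3 * 2 * (200 / 9)))
    (by positivity)
  have g13 := ev_small (e := a' - a) (by linarith) (K := δ / (M₀ ^ 2 * 4 * (4 / 3)))
    (by positivity)
  obtain ⟨Γ, h1, h2, h3, h4, h5, h6, h7, h8, h9, h10, h11, h12, h13⟩ :=
    (g1.and (g2.and (g3.and (g4.and (g5.and (g6.and (g7.and (g8.and (g9.and (g10.and (g11.and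
      (g12.and g13)))))))))))).exists
  refine ⟨s', a', R, Γ, ⟨hν, r1, h11, k5, k1, hs, k6, k2, ha, k3, k4, r2, r3, r4, r5, r6, r7, r8,
    h1, h2, h3, h4, h5, h6, fun t ht => ?_, fun t ht => ?_, fun t ht => ?_, ?_, ?_, ?_⟩⟩
  · have := h7 t ht
    rw [div_le_iff₀ hρ] at this
    linarith
  · have := h8 t ht
    rw [div_le_iff₀ hρ] at this
    linarith
  · have := h9 t ht
    rw [div_le_iff₀ hρ] at this
    linarith
  · rw [div_le_iff₀ (by positivity)] at h10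
    have : Γ ≤ Γ ^ 2 := by nlinarith
    have h14 : 0 < 10 / 9 * ν * 10 ^ 6 * R ^ 2 := by positivity
    nlinarith
  · rw [le_div_iff₀ (by positivity)] at h12
    linarith
  · rw [le_div_iff₀ (by positivity)] at h13
    linarith

/-- the main result -/
theorem t_main : ∀ ν δ ρ s a : ℝ, 0 < ν → 0 < δ → 0 < ρ → s < 1 → a < 1 → 2 < 3 * a →
    7 < 6 * s + 3 * a →
    ∃ (D : (V → V) → V → V) (G : (V → V) → (V → V) → V → V) (T : ℝ) (u : ℝ → V → V)
      (p : ℝ → V → ℝ), Lower s a δ ρ D G ∧ 0 < T ∧ PSol ν T D G u p ∧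
      (∀ M : ℝ, ∃ t ∈ Ico 0 T, ∃ x, M < ‖u t x‖) ∧
      ∀ (T' : ℝ) (v : ℝ → V → V) (q : ℝ → V → ℝ), PSol ν T' D G v q → v 0 = u 0 →
        T' ≤ T ∧ ∀ t ∈ Ico 0 T', v t = u t := by
  intro ν δ ρ s a hν hδ hρ hs ha ha2 hsa
  obtain ⟨s', a', R, Γ, h⟩ := exists_cho hν hδ hρ hs ha ha2 hsa
  exact h.main hδ.le

end Pool.Agent.V1178.NS
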