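import Pool.Agent.V1178.NS.Pk4

/-!
The linear functionals `v ↦ ⟨v, U⟩`, `v ↦ ⟨v, F⟩`, `v ↦ ⟨v, Z⟩`.
-/

open Set Filter Topology MeasureTheory
open scoped ContDiff ENNReal

set_option autoImplicit false

namespace Pool.Agent.V1178.NS

open H459R3.NS

theorem Np_nonneg {E : Type*} [NormedAddCommGroup E] (p : ℝ≥0∞) (v : V → E) : 0 ≤ Np p v :=
  ENNReal.toReal_nonneg

theorem memLp_cube {E : Type*} [NormedAddCommGroup E] {v : V → E} (hv : Continuous v)
    (p : ℝ≥0∞) : MemLp v p (volume.restrict cube) := by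
  have hfin : IsFiniteMeasure (volume.restrict cube : Measure V) := cube_finite
  obtain ⟨C, hC⟩ := (isCompact_Icc (a := (0 : V)) (b := 1)).exists_bound_of_continuousOn
    hv.continuousOn
  refine MemLp.of_bound hv.aestronglyMeasurable C ?_
  exact (ae_restrict_iff' measurableSet_Icc).2 (Filter.Eventually.of_forall fun x hx => hC x hx)

theorem Np_mono {E F : Type*} [NormedAddCommGroup E] [NormedAddCommGroup F] {v : V → E} {w : V → F}
    (hw : Continuous w) (p : ℝ≥0∞) (h : ∀ x, ‖v x‖ ≤ ‖w x‖) : Np p v ≤ Np p w :=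
  ENNReal.toReal_mono (memLp_cube hw p).2.ne (eLpNorm_mono h)

theorem fun_bound {g φ : V → ℝ} {S : Set V} {B m : ℝ} {p : ℝ≥0∞} (hp : 1 ≤ p)
    (hg : Continuous g) (hm : 0 ≤ m) (hv : volume S ≤ ENNReal.ofReal m)
    (h0 : ∀ x ∈ cube, x ∉ S → φ x = 0) (hB : ∀ x, |φ x| ≤ B) (hB0 : 0 ≤ B) :
    |∫ x in cube, g x * φ x| ≤ B * m ^ (1 - 1 / p.toReal) * Np p g := by
  rw [int_small (S := S) (f := fun x => g x * φ x) fun x hx hxS => by rw [h0 x hx hxS, mul_zero]]
  set μ' : Measure V := volume.restrict (cube ∩ S) with hμ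
  have hle : μ' ≤ volume.restrict cube := Measure.restrict_mono inter_subset_left le_rfl
  have hmem : MemLp g p (volume.restrict cube) := memLp_cube hg p
  have hmem1 : MemLp g 1 μ' := (memLp_cube hg 1).mono_measure hle
  have h1 : ‖∫ x, g x * φ x ∂μ'‖ ≤ ∫ x, B * ‖g x‖ ∂μ' := by
    refine norm_integral_le_of_norm_le ((memLp_one_iff_integrable.1 hmem1).norm.const_mul B) ?_
    refine Filter.Eventually.of_forall fun x => ?_
    rw [norm_mul, mul_comm]
    exact mul_le_mul_of_nonneg_right (hB x) (norm_nonneg _)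
  rw [Real.norm_eq_abs] at h1
  refine h1.trans ?_
  rw [integral_const_mul, integral_norm_eq_lintegral_enorm hg.aestronglyMeasurable,
    ← eLpNorm_one_eq_lintegral_enorm, mul_assoc]
  refine mul_le_mul_of_nonneg_left ?_ hB0
  have he : 0 ≤ 1 - 1 / p.toReal := by
    rcases eq_or_ne p ⊤ with rfl | hp'
    · simp
    · have : 1 ≤ p.toReal := by
        rw [← ENNReal.toReal_one]
        exact ENNReal.toReal_mono hp' hp
      have : 1 / p.toReal ≤ 1 := by
        rw [div_le_one (by linarith)]; exact this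
      linarith
  have h2 := eLpNorm_le_eLpNorm_mul_rpow_measure_univ (μ := μ') hp hg.aestronglyMeasurable
  have h3 : eLpNorm g p μ' ≤ eLpNorm g p (volume.restrict cube) := eLpNorm_mono_measure _ hle
  have h4 : μ' univ ≤ ENNReal.ofReal m := by
    rw [hμ, Measure.restrict_apply_univ]
    exact (measure_mono inter_subset_right).trans hv
  have h5 : μ' univ ^ (1 / (1 : ℝ≥0∞).toReal - 1 / p.toReal)
      ≤ ENNReal.ofReal (m ^ (1 - 1 / p.toReal)) := by
    rw [← ENNReal.ofReal_rpow_of_nonneg hm he, ENNReal.toReal_one, div_one]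
    exact ENNReal.rpow_le_rpow h4 he
  have h6 : eLpNorm g 1 μ' ≤ ENNReal.ofReal (m ^ (1 - 1 / p.toReal)) *
      eLpNorm g p (volume.restrict cube) := by
    refine h2.trans ?_
    rw [mul_comm]
    exact mul_le_mul' h5 h3
  have h7 := ENNReal.toReal_mono (ENNReal.mul_ne_top ENNReal.ofReal_ne_top hmem.2.ne) h6
  rwa [ENNReal.toReal_mul, ENNReal.toReal_ofReal (by positivity)] at h7

/-- smooth periodic vector fields, by components -/
def SV (v : V → V) : Prop := ∀ i, SP (fun y => v y i)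

theorem SV.smooth {v : V → V} (h : SV v) : ContDiff ℝ ∞ v := contDiff_pi.2 fun i => (h i).smooth

theorem SV.per {v : V → V} (h : SV v) : Per v := fun i x => funext fun j => (h j).per i x

theorem SV.cont {v : V → V} (h : SV v) : Continuous v := h.smooth.continuous

theorem _root_.H459R3.NS.SPV.sv {v : V → V} (h : SPV v) : SV v := fun i =>
  ⟨(contDiff_pi.1 h.1) i, fun j x => by simp only [h.2 j x]⟩

theorem SV.pd_le {v : V → V} (h : SV v) (i j : Fin 3) (x : V) :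
    ‖pd j (fun y => v y i) x‖ ≤ ‖fderiv ℝ v x‖ := by
  have hd : DifferentiableAt ℝ v x := (h.smooth.differentiable (by simp)) x
  have e : pd j (fun y => v y i) x = (fderiv ℝ v x (Pi.single j 1)) i := by
    unfold pd
    have h1 : HasFDerivAt (fun y => v y i)
        ((ContinuousLinearMap.proj (R := ℝ) (φ := fun _ : Fin 3 => ℝ) i).comp (fderiv ℝ v x)) x :=
      (ContinuousLinearMap.proj (R := ℝ) (φ := fun _ : Fin 3 => ℝ) i).hasFDerivAt.comp x
        hd.hasFDerivAt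
    rw [h1.fderiv]
    rfl
  rw [e]
  refine (norm_le_pi_norm _ i).trans ?_
  refine ((fderiv ℝ v x).le_opNorm _).trans ?_
  have : ‖(Pi.single j (1 : ℝ) : V)‖ ≤ 1 := by
    rw [Pi.norm_single]
    simp
  calc _ ≤ ‖fderiv ℝ v x‖ * 1 := by gcongr
    _ = _ := mul_one _

theorem vec_bound {v : V → V} (hv : SV v) {Φ : V → V} {S : Set V} {B m : ℝ} {p : ℝ≥0∞}
    (hp : 1 ≤ p) (hm : 0 ≤ m) (hS : volume S ≤ ENNReal.ofReal m)
    (h0 : ∀ x ∈ cube, x ∉ S → Φ x = 0) (hB : ∀ i x, |Φ x i| ≤ B) (hB0 : 0 ≤ B) :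
    |dot v Φ| ≤ 3 * B * m ^ (1 - 1 / p.toReal) * Np p v := by
  unfold dot
  refine (Finset.abs_sum_le_sum_abs _ _).trans ?_
  have h1 : ∀ i ∈ Finset.univ, |∫ x in cube, v x i * Φ x i|
      ≤ B * m ^ (1 - 1 / p.toReal) * Np p v := by
    intro i _
    refine (fun_bound (g := fun x => v x i) (φ := fun x => Φ x i) hp (hv i).cont hm hS
      (fun x hx hxS => by rw [h0 x hx hxS]; rfl) (hB i) hB0).trans ?_
    have : Np p (fun x => v x i) ≤ Np p v := Np_mono hv.cont p fun x => norm_le_pi_norm _ i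
    gcongr
  refine (Finset.sum_le_card_nsmul _ _ _ h1).trans (le_of_eq ?_)
  simp
  ring

namespace Prm

variable {p : Prm} {τ W : ℝ}

theorem Ok.dot_U (h : p.Ok) {v : V → V} (hv : SV v) :
    dot v p.U = (∫ x in cube, pd 2 (fun y => v y 0) x * p.psi x)
      - ∫ x in cube, pd 0 (fun y => v y 2) x * p.psi x := by
  unfold dot
  rw [Fin.sum_univ_three]
  have e0 : ∫ x in cube, v x 0 * p.U x 0 = ∫ x in cube, pd 2 (fun y => v y 0) x * p.psi x := by
    rw [ibp (hv 0) h.psi_sp 2, ← integral_neg]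
    congr 1
    funext x
    rw [show p.U x 0 = -1 * pd 2 p.psi x from congrFun h.U0_eq x]
    ring
  have e1 : ∫ x in cube, v x 1 * p.U x 1 = 0 := by
    have : ∀ x, v x 1 * p.U x 1 = 0 := fun x => by
      rw [show p.U x 1 = 0 from congrFun (U1_eq p) x, mul_zero]
    simp_rw [this]
    simp
  have e2 : ∫ x in cube, v x 2 * p.U x 2 = -∫ x in cube, pd 0 (fun y => v y 2) x * p.psi x := by
    rw [ibp (hv 2) h.psi_sp 0, neg_neg]
    congr 1
    funext x
    rw [show p.U x 2 = pd 0 p.psi x from congrFun h.U2_eq x]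
  rw [e0, e1, e2]
  ring

theorem Ok.dot_Z (h : p.Ok) {v : V → V} (hv : SV v) (τ : ℝ) :
    dot v (p.Zf τ) = (∫ x in cube, pd 2 (fun y => v y 0) x * p.zeta τ x)
      - ∫ x in cube, pd 0 (fun y => v y 2) x * p.zeta τ x := by
  unfold dot
  rw [Fin.sum_univ_three]
  have hz := h.zeta_sp τ
  have e0 : ∫ x in cube, v x 0 * p.Zf τ x 0
      = ∫ x in cube, pd 2 (fun y => v y 0) x * p.zeta τ x := by
    rw [ibp (hv 0) hz 2, ← integral_neg]
    congr 1
    funext x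
    rw [show p.Zf τ x 0 = -1 * pd 2 (p.zeta τ) x from congrFun (h.Zf0_eq τ) x]
    ring
  have e1 : ∫ x in cube, v x 1 * p.Zf τ x 1 = 0 := by
    have : ∀ x, v x 1 * p.Zf τ x 1 = 0 := fun x => by
      rw [show p.Zf τ x 1 = 0 from congrFun (Zf1_eq p τ) x, mul_zero]
    simp_rw [this]
    simp
  have e2 : ∫ x in cube, v x 2 * p.Zf τ x 2
      = -∫ x in cube, pd 0 (fun y => v y 2) x * p.zeta τ x := by
    rw [ibp (hv 2) hz 0, neg_neg]
    congr 1
    funext x
    rw [show p.Zf τ x 2 = pd 0 (p.zeta τ) x from congrFun (h.Zf2_eq τ) x]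
  rw [e0, e1, e2]
  ring

theorem Ok.notK (h : p.Ok) {x : V} (hx : x ∈ cube) (hS : x ∉ Icc p.lo p.hi) : x ∉ p.K :=
  fun hK => hS (h.K_box ⟨hK, hx⟩)

theorem Ok.curl_bound (h : p.Ok) {v : V → V} (hv : SV v) {φ : V → ℝ} {B : ℝ} {q : ℝ≥0∞}
    (hq : 1 ≤ q) (h0 : ∀ x, x ∉ p.K → φ x = 0) (hB : ∀ x, |φ x| ≤ B) (hB0 : 0 ≤ B) :
    |(∫ x in cube, pd 2 (fun y => v y 0) x * φ x) - ∫ x in cube, pd 0 (fun y => v y 2) x * φ x|
      ≤ 2 * B * (8 * p.vol) ^ (1 - 1 / q.toReal) * Np q (fderiv ℝ v) := by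
  have hV := h.vol_pos
  have hc : Continuous (fderiv ℝ v) := hv.smooth.continuous_fderiv (by simp)
  have k : ∀ i j, |∫ x in cube, pd j (fun y => v y i) x * φ x|
      ≤ B * (8 * p.vol) ^ (1 - 1 / q.toReal) * Np q (fderiv ℝ v) := by
    intro i j
    refine (fun_bound (g := pd j (fun y => v y i)) (φ := φ) hq ((hv i).pd j).cont
      (by positivity) h.volK (fun x hx hxS => h0 x (h.notK hx hxS)) hB hB0).trans ?_
    have : Np q (pd j (fun y => v y i)) ≤ Np q (fderiv ℝ v) := Np_mono hc q fun x => hv.pd_le i j x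
    gcongr
  calc _ ≤ |∫ x in cube, pd 2 (fun y => v y 0) x * φ x|
        + |∫ x in cube, pd 0 (fun y => v y 2) x * φ x| := abs_sub _ _
    _ ≤ _ := add_le_add (k 0 2) (k 2 0)
    _ = _ := by ring

theorem Good.a_le (h : p.Good τ W) {v : V → V} (hv : SV v) {q : ℝ≥0∞} (hq : 1 ≤ q) :
    |dot v p.U| ≤ 6 * Cb * p.A * (8 * p.vol) ^ (1 - 1 / q.toReal) * Np q v := by
  have hA := h.A_pos
  have hC := Cb_one
  have hV := h.ok.vol_pos
  refine (vec_bound hv hq (by positivity) h.ok.volK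
    (fun x hx hxS => h.ok.U_zero (h.ok.notK hx hxS)) h.U_le (by positivity)).trans (le_of_eq ?_)
  ring

theorem Good.a_le' (h : p.Good τ W) {v : V → V} (hv : SV v) {q : ℝ≥0∞} (hq : 1 ≤ q) :
    |dot v p.U| ≤ 6 * Cb * p.A / p.N * (8 * p.vol) ^ (1 - 1 / q.toReal) * Np q (fderiv ℝ v) := by
  have hA := h.A_pos
  have hC := Cb_one
  have hV := h.ok.vol_pos
  obtain ⟨h1, h2, h3, h4⟩ := h.ok.pos
  rw [h.ok.dot_U hv]
  refine (h.ok.curl_bound hv hq (fun x hx => h.ok.psi_zero hx) h.psi_le (by positivity)).trans ?_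
  have hN := Np_nonneg q (fderiv ℝ v)
  have : 2 * (Cb * p.A / p.N) ≤ 6 * Cb * p.A / p.N := by
    have : 0 ≤ Cb * p.A / p.N := by positivity
    have e : 6 * Cb * p.A / p.N = 6 * (Cb * p.A / p.N) := by ring
    linarith
  gcongr

theorem Good.f_le (h : p.Good τ W) {v : V → V} (hv : SV v) {q : ℝ≥0∞} (hq : 1 ≤ q) :
    |dot v p.F| ≤ 24 * Cb ^ 2 * p.A ^ 2 * p.X * (8 * p.vol) ^ (1 - 1 / q.toReal) * Np q v := by
  have hA := h.A_pos
  have hC := Cb_one
  have hV := h.ok.vol_pos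
  obtain ⟨h1, h2, h3, h4⟩ := h.ok.pos
  refine (vec_bound hv hq (by positivity) h.ok.volK
    (fun x hx hxS => h.ok.F_zero (h.ok.notK hx hxS)) h.F_le (by positivity)).trans (le_of_eq ?_)
  ring

theorem Good.z_le (h : p.Good τ W) {v : V → V} (hv : SV v) {q : ℝ≥0∞} (hq : 1 ≤ q) :
    |dot v (p.Zf τ)| ≤ 6 * Cb * (5 + C2) * p.A * (p.N * W) * (8 * p.vol) ^ (1 - 1 / q.toReal)
      * Np q v := by
  have hA := h.A_pos
  have hC := Cb_one
  have hC2 := C2_pos
  have hV := h.ok.vol_pos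
  have hW := h.W_pos
  obtain ⟨h1, h2, h3, h4⟩ := h.ok.pos
  refine (vec_bound hv hq (by positivity) h.ok.volK
    (fun x hx hxS => h.ok.Zf_zero τ (h.ok.notK hx hxS)) (h.Zf_le h.tau C2_pos.le)
    (by positivity)).trans (le_of_eq ?_)
  ring

theorem Good.z_le' (h : p.Good τ W) {v : V → V} (hv : SV v) {q : ℝ≥0∞} (hq : 1 ≤ q) :
    |dot v (p.Zf τ)| ≤ 6 * Cb * (5 + C2) * p.A * W * (8 * p.vol) ^ (1 - 1 / q.toReal)
      * Np q (fderiv ℝ v) := by
  have hA := h.A_pos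
  have hC := Cb_one
  have hC2 := C2_pos
  have hV := h.ok.vol_pos
  have hW := h.W_pos
  obtain ⟨h1, h2, h3, h4⟩ := h.ok.pos
  rw [h.ok.dot_Z hv]
  refine (h.ok.curl_bound hv hq (fun x hx => h.ok.zeta_zero τ hx) h.zeta_le
    (by positivity)).trans ?_
  have hN := Np_nonneg q (fderiv ℝ v)
  have : 2 * (Cb * (5 + C2) * p.A * W) ≤ 6 * Cb * (5 + C2) * p.A * W := by
    have : 0 ≤ Cb * (5 + C2) * p.A * W := by positivity
    linarith
  gcongr

end Prm

/-- interpolation of bounds -/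
theorem interp {a M₁ M₂ x y s : ℝ} (ha : 0 ≤ a) (h1 : a ≤ M₁ * x) (h2 : a ≤ M₂ * y)
    (hM1 : 0 ≤ M₁) (hM2 : 0 ≤ M₂) (hx : 0 ≤ x) (hy : 0 ≤ y) (hs0 : 0 ≤ s) (hs1 : s ≤ 1) :
    a ≤ (M₁ ^ (1 - s) * M₂ ^ s) * (x ^ (1 - s) * y ^ s) := by
  rcases ha.eq_or_lt with h | h
  · rw [← h]; positivity
  · calc a = a ^ (1 - s) * a ^ s := by
          rw [← Real.rpow_add h]; simp
      _ ≤ (M₁ * x) ^ (1 - s) * (M₂ * y) ^ s := by gcongr
      _ = _ := by
        rw [Real.mul_rpow hM1 hx, Real.mul_rpow hM2 hy]; ring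

end Pool.Agent.V1178.NS
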