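import Mathlib

/-!
Smoothness in time of rapidly decreasing solutions of quadratic systems.
-/

open Set Filter Topology

set_option autoImplicit false

namespace Pool.Agent.V1178.NS

variable {I : Type} {r : I → ℝ} {T : ℝ}

/-- rapid decay, locally uniformly in `(0, T)` -/
def Rp (r : I → ℝ) (T : ℝ) (y : I → ℝ → ℝ) : Prop :=
  ∀ k : ℕ, ∀ a b : ℝ, 0 < a → b < T → ∃ M, ∀ t ∈ Icc a b, ∀ i, r i ^ k * |y i t| ≤ M

/-- `j` derivatives with rapid decay -/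
def RD (r : I → ℝ) (T : ℝ) : ℕ → (I → ℝ → ℝ) → Prop
  | 0, y => Rp r T y
  | j + 1, y => Rp r T y ∧ (∀ i, ∀ t ∈ Ioo 0 T, DifferentiableAt ℝ (y i) t) ∧
      RD r T j (fun i => deriv (y i))

theorem Rp.congr {y z : I → ℝ → ℝ} (h : Rp r T y) (he : ∀ i, ∀ t ∈ Ioo 0 T, y i t = z i t) :
    Rp r T z := by
  intro k a b ha hb
  obtain ⟨M, hM⟩ := h k a b ha hb
  refine ⟨M, fun t ht i => ?_⟩
  rw [← he i t ⟨ha.trans_le ht.1, ht.2.trans_lt hb⟩]
  exact hM t ht i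

theorem RD.congr {j : ℕ} : ∀ {y z : I → ℝ → ℝ}, RD r T j y →
    (∀ i, ∀ t ∈ Ioo 0 T, y i t = z i t) → RD r T j z := by
  induction j with
  | zero => intro y z h he; exact Rp.congr h he
  | succ j ih =>
    intro y z h he
    obtain ⟨h1, h2, h3⟩ := h
    have hev : ∀ i, ∀ t ∈ Ioo 0 T, y i =ᶠ[𝓝 t] z i := fun i t ht =>
      Filter.eventuallyEq_of_mem (isOpen_Ioo.mem_nhds ht) fun s hs => he i s hs
    exact ⟨h1.congr he, fun i t ht => (hev i t ht).differentiableAt_iff.1 (h2 i t ht),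
      ih h3 fun i t ht => (hev i t ht).deriv_eq⟩

theorem RD.rp {j : ℕ} {y : I → ℝ → ℝ} (h : RD r T j y) : Rp r T y := by
  cases j with
  | zero => exact h
  | succ j => exact h.1

theorem RD.down {j : ℕ} : ∀ {y : I → ℝ → ℝ}, RD r T (j + 1) y → RD r T j y := by
  induction j with
  | zero => intro y h; exact h.1
  | succ j ih => intro y h; exact ⟨h.1, h.2.1, ih h.2.2⟩

theorem Rp.add {y z : I → ℝ → ℝ} (hy : Rp r T y) (hz : Rp r T z) (hr : ∀ i, 1 ≤ r i) :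
    Rp r T (fun i t => y i t + z i t) := by
  intro k a b ha hb
  obtain ⟨M, hM⟩ := hy k a b ha hb
  obtain ⟨N, hN⟩ := hz k a b ha hb
  refine ⟨M + N, fun t ht i => ?_⟩
  have h1 := hM t ht i
  have h2 := hN t ht i
  have h3 : 0 ≤ r i ^ k := pow_nonneg (by linarith [hr i]) k
  have h4 := mul_le_mul_of_nonneg_left (abs_add_le (y i t) (z i t)) h3
  linarith

theorem RD.add (hr : ∀ i, 1 ≤ r i) {j : ℕ} : ∀ {y z : I → ℝ → ℝ}, RD r T j y → RD r T j z →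
    RD r T j (fun i t => y i t + z i t) := by
  induction j with
  | zero => intro y z hy hz; exact Rp.add hy hz hr
  | succ j ih =>
    intro y z hy hz
    refine ⟨hy.1.add hz.1 hr, fun i t ht => (hy.2.1 i t ht).add (hz.2.1 i t ht), ?_⟩
    refine (ih hy.2.2 hz.2.2).congr fun i t ht => ?_
    exact ((hy.2.1 i t ht).hasDerivAt.add (hz.2.1 i t ht).hasDerivAt).deriv.symm

theorem Rp.weight {y : I → ℝ → ℝ} (hy : Rp r T y) (hr : ∀ i, 1 ≤ r i) {w : I → ℝ} {K : ℝ} {p : ℕ}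
    (hw : ∀ i, |w i| ≤ K * r i ^ p) : Rp r T (fun i t => w i * y i t) := by
  intro k a b ha hb
  obtain ⟨M, hM⟩ := hy (k + p) a b ha hb
  refine ⟨|K| * M, fun t ht i => ?_⟩
  have h1 := hM t ht i
  have h3 : 0 ≤ r i := by linarith [hr i]
  have h2 : |w i| ≤ |K| * r i ^ p :=
    (hw i).trans (mul_le_mul_of_nonneg_right (le_abs_self K) (pow_nonneg h3 p))
  calc r i ^ k * |w i * y i t| = r i ^ k * |y i t| * |w i| := by rw [abs_mul]; ring
    _ ≤ r i ^ k * |y i t| * (|K| * r i ^ p) := by gcongr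
    _ = |K| * (r i ^ (k + p) * |y i t|) := by rw [pow_add]; ring
    _ ≤ |K| * M := by gcongr

theorem RD.weight (hr : ∀ i, 1 ≤ r i) {w : I → ℝ} {K : ℝ} {p : ℕ}
    (hw : ∀ i, |w i| ≤ K * r i ^ p) {j : ℕ} : ∀ {y : I → ℝ → ℝ}, RD r T j y →
    RD r T j (fun i t => w i * y i t) := by
  induction j with
  | zero => intro y hy; exact Rp.weight hy hr hw
  | succ j ih =>
    intro y hy
    refine ⟨hy.1.weight hr hw, fun i t ht => (hy.2.1 i t ht).const_mul _, ?_⟩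
    refine (ih hy.2.2).congr fun i t ht => ?_
    exact ((hy.2.1 i t ht).hasDerivAt.const_mul (w i)).deriv.symm

/-- the quadratic terms -/
noncomputable def Qd (c : I → I → I → ℝ) (y z : I → ℝ → ℝ) (i : I) (t : ℝ) : ℝ :=
  ∑' p : I × I, c i p.1 p.2 * y p.1 t * z p.2 t

variable {c : I → I → I → ℝ}

/-- summable bounds -/
theorem Qd_bound (hr : ∀ i, 1 ≤ r i) (hs : Summable fun i => (r i)⁻¹)
    (hc : ∀ k : ℕ, ∃ (K : ℝ) (p : ℕ), ∀ i a b, r i ^ k * |c i a b| ≤ K * (r a * r b) ^ p)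
    {y z : I → ℝ → ℝ} (hy : Rp r T y) (hz : Rp r T z) (k : ℕ) {a b : ℝ} (ha : 0 < a) (hb : b < T) :
    ∃ M : ℝ, 0 ≤ M ∧ ∀ t ∈ Icc a b, ∀ i, ∀ p : I × I,
      r i ^ k * |c i p.1 p.2 * y p.1 t * z p.2 t| ≤ M * ((r p.1)⁻¹ * (r p.2)⁻¹) := by
  obtain ⟨K, p, hK⟩ := hc k
  obtain ⟨M, hM⟩ := hy (p + 1) a b ha hb
  obtain ⟨N, hN⟩ := hz (p + 1) a b ha hb
  refine ⟨|K| * (|M| * |N|), by positivity, fun t ht i q => ?_⟩
  have r1 : 0 < r q.1 := by linarith [hr q.1]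
  have r2 : 0 < r q.2 := by linarith [hr q.2]
  have h1 : r q.1 ^ (p + 1) * |y q.1 t| ≤ |M| := (hM t ht q.1).trans (le_abs_self M)
  have h2 : r q.2 ^ (p + 1) * |z q.2 t| ≤ |N| := (hN t ht q.2).trans (le_abs_self N)
  have h3 : r i ^ k * |c i q.1 q.2| ≤ |K| * (r q.1 * r q.2) ^ p :=
    (hK i q.1 q.2).trans (mul_le_mul_of_nonneg_right (le_abs_self K) (by positivity))
  rw [abs_mul, abs_mul]
  have e : r i ^ k * (|c i q.1 q.2| * |y q.1 t| * |z q.2 t|)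
      = (r i ^ k * |c i q.1 q.2|) * (|y q.1 t| * |z q.2 t|) := by ring
  rw [e]
  calc (r i ^ k * |c i q.1 q.2|) * (|y q.1 t| * |z q.2 t|)
      ≤ (|K| * (r q.1 * r q.2) ^ p) * (|y q.1 t| * |z q.2 t|) := by gcongr
    _ = |K| * ((r q.1 ^ (p + 1) * |y q.1 t|) * (r q.2 ^ (p + 1) * |z q.2 t|))
        * ((r q.1)⁻¹ * (r q.2)⁻¹) := by
      rw [mul_pow, pow_succ, pow_succ]
      field_simp
    _ ≤ |K| * (|M| * |N|) * ((r q.1)⁻¹ * (r q.2)⁻¹) := by gcongr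

theorem prod_summ (hr : ∀ i, 1 ≤ r i) (hs : Summable fun i => (r i)⁻¹) :
    Summable fun p : I × I => (r p.1)⁻¹ * (r p.2)⁻¹ :=
  hs.mul_of_nonneg hs (fun i => inv_nonneg.2 (by linarith [hr i]))
    (fun i => inv_nonneg.2 (by linarith [hr i]))

theorem Qd_summ (hr : ∀ i, 1 ≤ r i) (hs : Summable fun i => (r i)⁻¹)
    (hc : ∀ k : ℕ, ∃ (K : ℝ) (p : ℕ), ∀ i a b, r i ^ k * |c i a b| ≤ K * (r a * r b) ^ p)
    {y z : I → ℝ → ℝ} (hy : Rp r T y) (hz : Rp r T z) {t : ℝ} (ht : t ∈ Ioo 0 T) (i : I) :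
    Summable fun p : I × I => c i p.1 p.2 * y p.1 t * z p.2 t := by
  obtain ⟨M, -, hM⟩ := Qd_bound hr hs hc hy hz 0 ht.1 ht.2
  refine Summable.of_norm_bounded ((prod_summ hr hs).mul_left M) fun p => ?_
  have := hM t ⟨le_rfl, le_rfl⟩ i p
  rw [pow_zero, one_mul] at this
  exact this

theorem Qd_rp (hr : ∀ i, 1 ≤ r i) (hs : Summable fun i => (r i)⁻¹)
    (hc : ∀ k : ℕ, ∃ (K : ℝ) (p : ℕ), ∀ i a b, r i ^ k * |c i a b| ≤ K * (r a * r b) ^ p)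
    {y z : I → ℝ → ℝ} (hy : Rp r T y) (hz : Rp r T z) : Rp r T (Qd c y z) := by
  intro k a b ha hb
  obtain ⟨M, hM0, hM⟩ := Qd_bound hr hs hc hy hz k ha hb
  refine ⟨∑' p : I × I, M * ((r p.1)⁻¹ * (r p.2)⁻¹), fun t ht i => ?_⟩
  have hr0 : 0 ≤ r i ^ k := pow_nonneg (by linarith [hr i]) k
  unfold Qd
  have e : r i ^ k * |∑' p : I × I, c i p.1 p.2 * y p.1 t * z p.2 t|
      = ‖∑' p : I × I, r i ^ k * (c i p.1 p.2 * y p.1 t * z p.2 t)‖ := by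
    rw [tsum_mul_left, Real.norm_eq_abs, abs_mul, abs_of_nonneg hr0]
  rw [e]
  refine tsum_of_norm_bounded ((prod_summ hr hs).mul_left M).hasSum fun p => ?_
  rw [Real.norm_eq_abs, abs_mul, abs_of_nonneg hr0]
  exact hM t ht i p

theorem Qd_deriv (hr : ∀ i, 1 ≤ r i) (hs : Summable fun i => (r i)⁻¹)
    (hc : ∀ k : ℕ, ∃ (K : ℝ) (p : ℕ), ∀ i a b, r i ^ k * |c i a b| ≤ K * (r a * r b) ^ p)
    {y z : I → ℝ → ℝ} (hy : RD r T 1 y) (hz : RD r T 1 z) {t : ℝ} (ht : t ∈ Ioo 0 T) (i : I) :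
    HasDerivAt (Qd c y z i)
      (Qd c (fun i => deriv (y i)) z i t + Qd c y (fun i => deriv (z i)) i t) t := by
  obtain ⟨a, ha, hat⟩ := exists_between ht.1
  obtain ⟨b, htb, hb⟩ := exists_between ht.2
  obtain ⟨M, hM0, hM⟩ := Qd_bound hr hs hc hy.2.2 hz.1 0 ha hb
  obtain ⟨N, hN0, hN⟩ := Qd_bound hr hs hc hy.1 hz.2.2 0 ha hb
  have hsum : Summable fun p : I × I => (M + N) * ((r p.1)⁻¹ * (r p.2)⁻¹) :=
    (prod_summ hr hs).mul_left _
  have hsub : ∀ s ∈ Ioo a b, s ∈ Ioo 0 T := fun s hs' => ⟨ha.trans hs'.1, hs'.2.trans hb⟩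
  have key := hasDerivAt_tsum_of_isPreconnected (𝕜 := ℝ) (t := Ioo a b) (y₀ := t) (y := t)
    (g := fun (p : I × I) s => c i p.1 p.2 * y p.1 s * z p.2 s)
    (g' := fun (p : I × I) s => c i p.1 p.2 * deriv (y p.1) s * z p.2 s
      + c i p.1 p.2 * y p.1 s * deriv (z p.2) s) hsum isOpen_Ioo isPreconnected_Ioo
    (fun p s hs' => by
      have h1 := (hy.2.1 p.1 s (hsub s hs')).hasDerivAt
      have h2 := (hz.2.1 p.2 s (hsub s hs')).hasDerivAt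
      exact (h1.const_mul (c i p.1 p.2)).mul h2)
    (fun p s hs' => by
      have h1 := hM s ⟨hs'.1.le, hs'.2.le⟩ i p
      have h2 := hN s ⟨hs'.1.le, hs'.2.le⟩ i p
      rw [pow_zero, one_mul] at h1 h2
      refine (norm_add_le _ _).trans ?_
      rw [Real.norm_eq_abs, Real.norm_eq_abs, add_mul]
      exact add_le_add h1 h2)
    ⟨hat, htb⟩ (Qd_summ hr hs hc hy.1 hz.1 ht i) ⟨hat, htb⟩
  have e : (∑' p : I × I, (c i p.1 p.2 * deriv (y p.1) t * z p.2 t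
      + c i p.1 p.2 * y p.1 t * deriv (z p.2) t))
      = Qd c (fun i => deriv (y i)) z i t + Qd c y (fun i => deriv (z i)) i t :=
    (Qd_summ hr hs hc hy.2.2 hz.1 ht i).tsum_add (Qd_summ hr hs hc hy.1 hz.2.2 ht i)
  rw [← e]
  exact key

theorem RD.one {j : ℕ} {y : I → ℝ → ℝ} (h : RD r T (j + 1) y) : RD r T 1 y :=
  ⟨h.1, h.2.1, h.2.2.rp⟩

theorem RD.quad (hr : ∀ i, 1 ≤ r i) (hs : Summable fun i => (r i)⁻¹)
    (hc : ∀ k : ℕ, ∃ (K : ℝ) (p : ℕ), ∀ i a b, r i ^ k * |c i a b| ≤ K * (r a * r b) ^ p)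
    {j : ℕ} : ∀ {y z : I → ℝ → ℝ}, RD r T j y → RD r T j z → RD r T j (Qd c y z) := by
  induction j with
  | zero => intro y z hy hz; exact Qd_rp hr hs hc hy hz
  | succ j ih =>
    intro y z hy hz
    refine ⟨Qd_rp hr hs hc hy.1 hz.1,
      fun i t ht => (Qd_deriv hr hs hc hy.one hz.one ht i).differentiableAt, ?_⟩
    refine (RD.add hr (ih hy.2.2 hz.down) (ih hy.down hz.2.2)).congr fun i t ht => ?_
    exact (Qd_deriv hr hs hc hy.one hz.one ht i).deriv.symm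

/-- Smoothness in time. -/
theorem RD.all (hr : ∀ i, 1 ≤ r i) (hs : Summable fun i => (r i)⁻¹)
    (hc : ∀ k : ℕ, ∃ (K : ℝ) (p : ℕ), ∀ i a b, r i ^ k * |c i a b| ≤ K * (r a * r b) ^ p)
    {d : I → ℝ} {K : ℝ} {p : ℕ} (hd : ∀ i, |d i| ≤ K * r i ^ p) {z : I → ℝ → ℝ}
    (hz : Rp r T z)
    (hode : ∀ i, ∀ t ∈ Ioo 0 T, HasDerivAt (z i) (d i * z i t + Qd c z z i t) t) (j : ℕ) :
    RD r T j z := by
  induction j with
  | zero => exact hz
  | succ j ih =>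
    refine ⟨hz, fun i t ht => (hode i t ht).differentiableAt, ?_⟩
    refine (RD.add hr (RD.weight hr hd ih) (RD.quad hr hs hc ih ih)).congr fun i t ht => ?_
    exact (hode i t ht).deriv.symm

/-- restriction to a part of the indices -/
theorem RD.comp {I' : Type} (e : I' → I) {j : ℕ} : ∀ {y : I → ℝ → ℝ}, RD r T j y →
    RD (fun i => r (e i)) T j (fun i => y (e i)) := by
  induction j with
  | zero =>
    intro y hy k a b ha hb
    obtain ⟨M, hM⟩ := hy k a b ha hb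
    exact ⟨M, fun t ht i => hM t ht (e i)⟩
  | succ j ih =>
    intro y hy
    refine ⟨fun k a b ha hb => ?_, fun i t ht => hy.2.1 (e i) t ht, ih hy.2.2⟩
    obtain ⟨M, hM⟩ := hy.1 k a b ha hb
    exact ⟨M, fun t ht i => hM t ht (e i)⟩

end Pool.Agent.V1178.NS
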