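import Pool.Agent.Y37.NE.ABS2
import Pool.Agent.Y710.EP.PERT5
import Pool.Agent.Y941.EP.Resc5
import Pool.Agent.Y48.EP.BlowA5
import Pool.Agent.Y664.EP.UB
import Pool.Agent.Y41.EP.Rat
import Pool.Agent.Y363.EP.BAR1
import Pool.Agent.Y781.EP.Bar2
import Pool.Agent.Y287.EP.Close
import Pool.Agent.Y319.EP.IND
import Pool.Agent.Y8.EP.EST5
import Pool.Agent.V1178.NS.Time

/-!
Blow-up for the system of ordinary differential equations with one mode per scale:
`S_BLOW5` for the empty set of other modes.
-/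

open Set Filter Topology MeasureTheory

set_option autoImplicit false

namespace Pool.Agent.V1178.NS

open Pool.Agent.Y5 Pool.Agent.Y5.D Pool.Agent.Y5.E Pool.Agent.Y5.F Pool.Agent.Y8.EP

theorem t_CURC' : S_CURC :=
  Pool.Agent.Y287.EP.t_CLOSE Pool.Agent.Y664.EP.t_UB Pool.Agent.Y363.EP.t_BAR1
    Pool.Agent.Y781.EP.t_BAR2 Pool.Agent.Y41.EP.t_RAT

theorem t_ODE6' : S_ODE6 :=
  Pool.Agent.Y319.EP.t_IND Pool.Agent.Y664.EP.t_UB t_CURC'

theorem t_BLOW5' : S_BLOW5 :=
  Pool.Agent.Y48.EP.t_BLOWA5 Pool.Agent.Y37.NE.t_ABS2 t_EST5 Pool.Agent.Y710.EP.t_PERT5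
    Pool.Agent.Y941.EP.t_RESC5 t_ODE6'

/-- the kernel -/
noncomputable def ker (L : ℕ → ℝ) (C : ℝ) : Ix Empty → Ix Empty → Ix Empty → ℝ
  | Sum.inl n, Sum.inl i, Sum.inl j =>
    (if i = n ∧ j < n then L j * 1 else 0)
    + (if i = j ∧ n < i then -(L n * 1) else 0)
    + (if i = j ∧ n = i + 1 then L i * C else 0)
    + (if i = n ∧ j = n + 1 then -(L n * C) else 0)
  | _, _, _ => 0

/-- the quadratic part of the system -/
noncomputable def quad (L : ℕ → ℝ) (C : ℝ) (x : ℕ → ℝ) (n : ℕ) : ℝ :=
  (if n = 0 then 0 else L (n - 1) * C * x (n - 1) ^ 2)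
  - L n * C * x n * x (n + 1)
  + x n * ∑ i ∈ Finset.range n, L i * x i
  - L n * ∑' m : ℕ, x (n + 1 + m) ^ 2

lemma ker_inl (L : ℕ → ℝ) (C : ℝ) (n i j : ℕ) :
    ker L C (Sum.inl n) (Sum.inl i) (Sum.inl j) =
    (if i = n ∧ j < n then L j * 1 else 0)
    + (if i = j ∧ n < i then -(L n * 1) else 0)
    + (if i = j ∧ n = i + 1 then L i * C else 0)
    + (if i = n ∧ j = n + 1 then -(L n * C) else 0) := rfl

theorem ker_Ker {L : ℕ → ℝ} {C R : ℝ} (hL : ∀ n, 1 ≤ L n) (hLm : ∀ n, L n ≤ L (n + 1))
    (hC0 : 0 ≤ C) (hC : C ≤ 1) (hR : 1 ≤ R) :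
    Ker (J := Empty) (fun e => e.elim) R 1 L (fun _ => C) (fun _ _ => 1) (ker L C) := by
  have hLmono : Monotone L := monotone_nat_of_le_succ hLm
  refine ⟨fun m => Set.toFinite _, ⟨1, fun m => ?_⟩, ?_, ?_, ?_, ?_, fun i j n => ker_inl L C n i j⟩
  · have : ({j : Empty | (fun e : Empty => (e.elim : ℕ)) j = m}) = ∅ := by
      ext e; exact e.elim
    rw [this]
    simp
    positivity
  · rintro (n | e) (i | e') (j | e'')
    · rw [ker_inl, ker_inl]
      rcases eq_or_ne i n with rfl | hin <;> rcases eq_or_ne i j with rfl | hij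
      · simp
      · simp only [hij, hij.symm, true_and, false_and, if_false]
        split_ifs <;> first | ring | (exfalso; omega)
      · simp only [hin, true_and, false_and, if_false]
        split_ifs <;> first | ring | (exfalso; omega)
      · simp [hin, hij]
    all_goals first | exact e.elim | exact e'.elim | exact e''.elim
  · rintro (n | e) (i | e') (j | e'') h
    · rw [ker_inl] at h
      simp only [gr]
      by_cases h1 : i = n ∧ j < n
      · omega
      · by_cases h2 : i = j ∧ n < i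
        · omega
        · by_cases h3 : i = j ∧ n = i + 1
          · omega
          · by_cases h4 : i = n ∧ j = n + 1
            · omega
            · exact absurd (by rw [if_neg h1, if_neg h2, if_neg h3, if_neg h4]; ring) h
    all_goals first | exact e.elim | exact e'.elim | exact e''.elim
  · rintro n (i | e') (j | e'') h hi hj
    · rw [ker_inl] at h
      simp only [gr] at hi hj ⊢
      by_cases h1 : i = n ∧ j < n
      · omega
      · by_cases h2 : i = j ∧ n < i
        · omega
        · by_cases h3 : i = j ∧ n = i + 1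
          · omega
          · by_cases h4 : i = n ∧ j = n + 1
            · omega
            · exact absurd (by rw [if_neg h1, if_neg h2, if_neg h3, if_neg h4]; ring) h
    all_goals first | exact e'.elim | exact e''.elim
  · intro m p q α β γ hα hβ hγ
    have hsq : ∀ (k : ℕ) (φ : Ix Empty → ℝ), (∀ i, gr (fun e : Empty => (e.elim : ℕ)) i ≠ k → φ i = 0) →
        √(∑' i, φ i ^ 2) = |φ (Sum.inl k)| := by
      intro k φ hφ
      rw [tsum_eq_single (Sum.inl k), Real.sqrt_sq_eq_abs]
      rintro (i | e) hi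
      · rw [hφ (Sum.inl i) (by simp only [gr]; intro h; exact hi (by rw [h]))]; simp
      · exact e.elim
    rw [hsq m α hα, hsq p β hβ, hsq q γ hγ]
    have htl : tl (ker L C) α β γ = ker L C (Sum.inl m) (Sum.inl p) (Sum.inl q)
        * α (Sum.inl m) * β (Sum.inl p) * γ (Sum.inl q) := by
      unfold tl
      rw [tsum_eq_single (Sum.inl m, Sum.inl p, Sum.inl q)]
      rintro ⟨a, b, c⟩ habc
      dsimp only
      by_cases ha : a = Sum.inl m
      · by_cases hb : b = Sum.inl p
        · have hc : c ≠ Sum.inl q := fun h => habc (by rw [ha, hb, h])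
          rw [hγ c (by
            rcases c with c | e
            · simp only [gr]; intro h; exact hc (by rw [h])
            · exact e.elim)]
          ring
        · rw [hβ b (by
            rcases b with b | e
            · simp only [gr]; intro h; exact hb (by rw [h])
            · exact e.elim)]
          ring
      · rw [hα a (by
          rcases a with a | e
          · simp only [gr]; intro h; exact ha (by rw [h])
          · exact e.elim)]
        ring
    rw [htl, abs_mul, abs_mul, abs_mul]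
    have hk : |ker L C (Sum.inl m) (Sum.inl p) (Sum.inl q)| ≤ om R 1 L m p q := by
      have hLp : ∀ n, 0 < L n := fun n => by linarith [hL n]
      rw [ker_inl]
      unfold om
      by_cases h1 : p = m ∧ q < m
      · obtain ⟨rfl, hq⟩ := h1
        have c1 : ¬ (p = q) := by omega
        have c2 : ¬ (q = p + 1) := by omega
        have c3 : ¬ (p ≤ min p q) := by omega
        have c4 : min p q = q := by omega
        rw [if_neg c3, c4]
        simp only [hq, c1, c2, and_true, and_false, false_and, true_and, if_true, if_false]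
        rw [abs_of_pos (by nlinarith [hLp q])]
        linarith
      · by_cases h2 : p = q ∧ m < p
        · obtain ⟨rfl, hq⟩ := h2
          have c1 : ¬ (p = m) := by omega
          have c2 : ¬ (m = p + 1) := by omega
          have c3 : ¬ (p ≤ min m p) := by omega
          have c4 : min m p = m := by omega
          rw [if_neg c3, c4]
          simp only [hq, c1, c2, and_true, and_false, false_and, true_and, if_true, if_false]
          rw [show (0 : ℝ) + -(L m * 1) + 0 + 0 = -(L m) by ring, abs_neg, abs_of_pos (hLp m)]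
          linarith
        · by_cases h3 : p = q ∧ m = p + 1
          · obtain ⟨rfl, rfl⟩ := h3
            have c1 : ¬ (p = p + 1) := by omega
            have c2 : ¬ (p + 1 < p) := by omega
            have c3 : min (p + 1) p = p := by omega
            simp only [c1, c2, c3, and_true, and_false, false_and, true_and, if_true, if_false,
              le_refl, Nat.sub_self, pow_zero, mul_one]
            rw [show (0 : ℝ) + 0 + L p * C + 0 = L p * C by ring,
              abs_of_nonneg (mul_nonneg (hLp p).le hC0)]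
            nlinarith [hLp p]
          · by_cases h4 : p = m ∧ q = m + 1
            · obtain ⟨rfl, rfl⟩ := h4
              have c1 : ¬ (p + 1 < p) := by omega
              have c2 : ¬ (p = p + 1) := by omega
              have c3 : min p (p + 1) = p := by omega
              simp only [c1, c2, c3, and_true, and_false, false_and, true_and, if_true, if_false,
                le_refl, Nat.sub_self, pow_zero, mul_one]
              rw [show (0 : ℝ) + 0 + 0 + -(L p * C) = -(L p * C) by ring, abs_neg,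
                abs_of_nonneg (mul_nonneg (hLp p).le hC0)]
              nlinarith [hLp p]
            · rw [if_neg h1, if_neg h2, if_neg h3, if_neg h4]
              simp only [add_zero, abs_zero]
              split_ifs
              · have := hLp p
                positivity
              · have := hLp (min m q)
                positivity
    gcongr

theorem ker_bound {L : ℕ → ℝ} {C lam : ℝ} (hL : ∀ n, 1 ≤ L n) (hlam : 1 ≤ lam)
    (hLs : ∀ n, L (n + 1) = lam * L n) (hC0 : 0 ≤ C) (hC : C ≤ 1) (k : ℕ) :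
    ∀ i a b : Ix Empty, rI L (fun e : Empty => (e.elim : ℕ)) i ^ k * |ker L C i a b|
      ≤ (4 * lam ^ (k + 1)) * (rI L (fun e : Empty => (e.elim : ℕ)) a
        * rI L (fun e : Empty => (e.elim : ℕ)) b) ^ (k + 1) := by
  have hLm : Monotone L := monotone_nat_of_le_succ fun n => by
    rw [hLs]; nlinarith [hL n]
  have hL0 : ∀ n, 0 ≤ L n := fun n => by linarith [hL n]
  have hl0 : 0 ≤ lam := by linarith
  rintro (n | e) (i | e') (j | e'')
  · show L n ^ k * |ker L C (Sum.inl n) (Sum.inl i) (Sum.inl j)|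
      ≤ (4 * lam ^ (k + 1)) * (L i * L j) ^ (k + 1)
    have hLi : 1 ≤ L i * L j := one_le_mul_of_one_le_of_one_le (hL i) (hL j)
    have key : ∀ m v : ℝ, 0 ≤ v → v ≤ lam * (L i * L j) → 0 ≤ m → m ≤ lam * (L i * L j) →
        m ^ k * v ≤ lam ^ (k + 1) * (L i * L j) ^ (k + 1) := by
      intro m v hv0 hv hm0 hm
      rw [← mul_pow, pow_succ]
      gcongr
    have hpos : 0 ≤ lam ^ (k + 1) * (L i * L j) ^ (k + 1) := by positivity
    have hLiN : L i ≤ L i * L j := le_mul_of_one_le_right (hL0 i) (hL j)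
    have hLjN : L j ≤ L i * L j := le_mul_of_one_le_left (hL0 j) (hL i)
    have hup : ∀ v, v ≤ L i * L j → v ≤ lam * (L i * L j) := fun v hv =>
      hv.trans (le_mul_of_one_le_left (by linarith) hlam)
    rw [ker_inl]
    have t1 : L n ^ k * |if i = n ∧ j < n then L j * 1 else 0|
        ≤ lam ^ (k + 1) * (L i * L j) ^ (k + 1) := by
      split_ifs with h
      · rw [mul_one, abs_of_nonneg (hL0 j)]
        exact key _ _ (hL0 j) (hup _ hLjN) (hL0 n) (hup _ (by rw [← h.1]; exact hLiN))
      · simpa using hpos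
    have t2 : L n ^ k * |if i = j ∧ n < i then -(L n * 1) else 0|
        ≤ lam ^ (k + 1) * (L i * L j) ^ (k + 1) := by
      split_ifs with h
      · rw [mul_one, abs_neg, abs_of_nonneg (hL0 n)]
        have h1 : L n ≤ lam * (L i * L j) := hup _ ((hLm h.2.le).trans hLiN)
        exact key _ _ (hL0 n) h1 (hL0 n) h1
      · simpa using hpos
    have t3 : L n ^ k * |if i = j ∧ n = i + 1 then L i * C else 0|
        ≤ lam ^ (k + 1) * (L i * L j) ^ (k + 1) := by
      split_ifs with h
      · rw [abs_of_nonneg (mul_nonneg (hL0 i) hC0)]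
        refine key _ _ (mul_nonneg (hL0 i) hC0) (hup _ ?_) (hL0 n) ?_
        · exact (mul_le_of_le_one_right (hL0 i) hC).trans hLiN
        · rw [h.2, hLs]
          exact mul_le_mul_of_nonneg_left hLiN hl0
      · simpa using hpos
    have t4 : L n ^ k * |if i = n ∧ j = n + 1 then -(L n * C) else 0|
        ≤ lam ^ (k + 1) * (L i * L j) ^ (k + 1) := by
      split_ifs with h
      · rw [abs_neg, abs_of_nonneg (mul_nonneg (hL0 n) hC0)]
        have h1 : L n ≤ L i * L j := by rw [← h.1]; exact hLiN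
        refine key _ _ (mul_nonneg (hL0 n) hC0) (hup _ ?_) (hL0 n) (hup _ h1)
        exact (mul_le_of_le_one_right (hL0 n) hC).trans h1
      · simpa using hpos
    have hn : 0 ≤ L n ^ k := pow_nonneg (hL0 n) k
    calc L n ^ k * |(if i = n ∧ j < n then L j * 1 else 0)
        + (if i = j ∧ n < i then -(L n * 1) else 0)
        + (if i = j ∧ n = i + 1 then L i * C else 0)
        + (if i = n ∧ j = n + 1 then -(L n * C) else 0)|
        ≤ L n ^ k * (|if i = n ∧ j < n then L j * 1 else 0|
        + |if i = j ∧ n < i then -(L n * 1) else 0|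
        + |if i = j ∧ n = i + 1 then L i * C else 0|
        + |if i = n ∧ j = n + 1 then -(L n * C) else 0|) := by
          gcongr
          refine (abs_add_le _ _).trans ?_
          gcongr
          refine (abs_add_le _ _).trans ?_
          gcongr
          exact abs_add_le _ _
      _ ≤ 4 * lam ^ (k + 1) * (L i * L j) ^ (k + 1) := by
          rw [mul_add, mul_add, mul_add]
          linarith
  all_goals first | exact e.elim | exact e'.elim | exact e''.elim

/-- Blow-up for the system with one mode per scale. -/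
theorem ode_blow {κ μ lam R C : ℝ} {L ℓ : ℕ → ℝ}
    (hC1 : κ * Real.exp (-(601 / 10000 * μ)) ≤ C) (hC2 : C ≤ κ * Real.exp (-(599 / 10000 * μ)))
    (hκ0 : 0 < κ) (hκs : κ ≤ 1 / 1000) (hμ : μ = κ * lam) (hμb : 10 ^ 30 ≤ μ) (hL0 : 1 ≤ L 0)
    (hLs : ∀ n, L (n + 1) = lam * L n) (hR : 2 ≤ R) (hRμ : R ^ 2 ≤ μ)
    (hexp : (10 ^ 6 * lam ^ 3) ^ 10 ≤ Real.exp (μ / 10 ^ 6))
    (hℓ0 : ∀ n, 0 ≤ ℓ n) (hℓz : 10 ^ 6 * (ℓ 0 * μ) ≤ L 0)
    (hℓs : ∀ n, ℓ (n + 1) = 9 / 10 * (κ ^ n * L n)) (hℓl : ∃ a, 0 < a ∧ ∀ n, a * R ^ (2 * n) ≤ ℓ n) :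
    ∃ (T : ℝ) (x : ℕ → ℝ → ℝ), 0 < T ∧
      (∀ n, ∀ t ∈ Ico 0 T, HasDerivWithinAt (x n)
        (-(ℓ n * x n t) + quad L C (fun m => x m t) n) (Ico 0 T) t) ∧
      (∀ k : ℕ, ∀ T' < T, ∃ M, ∀ t ∈ Icc 0 T', ∀ n, L n ^ k * |x n t| ≤ M) ∧
      (∀ n, ∃ t ∈ Ico 0 T, 99 / 100 * (9 / 1000 * κ) ^ n ≤ x n t) ∧ ∀ j, RD L T j x := by
  have hlam : 1 ≤ lam := by
    have h1 : κ * lam ≤ 1 * lam → 1 ≤ lam := fun h => by nlinarith
    by_contra hcon
    push Not at hcon
    have : κ * lam < 1 := by
      rcases le_or_gt lam 0 with h | h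
      · nlinarith [mul_nonpos_of_nonneg_of_nonpos hκ0.le h]
      · nlinarith
    rw [← hμ] at this
    norm_num at hμb
    linarith
  have hLpos : ∀ n, 1 ≤ L n := by
    intro n
    induction n with
    | zero => exact hL0
    | succ n ih => rw [hLs]; nlinarith
  have hLm : ∀ n, L n ≤ L (n + 1) := fun n => by rw [hLs]; nlinarith [hLpos n]
  have hμ0 : 0 < μ := by norm_num at hμb; linarith
  have hC0 : 0 ≤ C := le_trans (by positivity) hC1
  have hCle : C ≤ 1 := by
    refine hC2.trans ?_
    have : Real.exp (-(599 / 10000 * μ)) ≤ 1 := Real.exp_le_one_iff.2 (by linarith)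
    nlinarith
  have hK := ker_Ker (R := R) hLpos hLm hC0 hCle (by linarith)
  have hS : Sq5 κ μ lam R 1 L (fun _ => C) ℓ (fun _ _ => 1) := by
    refine ⟨hκ0, by linarith, hκs, hμ, hμb, hL0, hLs, hR, hRμ, le_rfl, by simpa using hexp,
      fun _ => hC1, fun _ => hC2, fun _ _ _ => by norm_num, fun _ _ _ => by norm_num, hℓ0, hℓz,
      hℓs, hℓl⟩
  obtain ⟨T, z, hT, hsol, hinit, hrap, -, hen, -, hgrow⟩ := t_BLOW5' Empty _ κ μ lam R 1 L
    (fun _ => C) ℓ (fun _ _ => 1) _ hK hS
  obtain ⟨-, -, f, hf⟩ := Pool.Agent.Y710.EP.t_PERT5 Empty _ κ μ lam R 1 L (fun _ => C) ℓ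
    (fun _ _ => 1) _ hK hS T z hsol hrap hinit
  have hw : ∀ n t, wz (fun e : Empty => (e.elim : ℕ)) z n t = 0 := by
    intro n t
    unfold wz
    simp
  have hf0 : ∀ n, ∀ t ∈ Ico 0 T, f n t = 0 := by
    intro n t ht
    have h1 := hf.fb n t ht
    have h2 : |f n t| ≤ 0 := by
      refine h1.trans (le_of_eq ?_)
      have e1 : Wt (wz (fun e : Empty => (e.elim : ℕ)) z) n t = 0 := by
        unfold Wt; simp [hw]
      have e2 : Uw L (wz (fun e : Empty => (e.elim : ℕ)) z) n t = 0 := by
        unfold Uw; simp [hw]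
      have e3 : Awq (R / lam) (wz (fun e : Empty => (e.elim : ℕ)) z) n t = 0 := by
        unfold Awq; simp [hw]
      have e4 : loc L (fun n => z (Sum.inl n)) (wz (fun e : Empty => (e.elim : ℕ)) z) n t = 0 := by
        unfold loc; simp [hw]
      rw [e1, e2, e3, e4]
      simp
    exact abs_nonpos_iff.1 h2
  have hlam2 : 2 ≤ lam := by
    have : κ * lam ≤ 1 / 1000 * lam := by gcongr
    rw [← hμ] at this
    norm_num at hμb
    linarith
  have hLge : ∀ n, (2 : ℝ) ^ n ≤ L n := by
    intro n
    induction n with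
    | zero => simpa using hL0
    | succ n ih =>
      rw [hLs, pow_succ, mul_comm]
      exact mul_le_mul hlam2 ih (by positivity) (by linarith)
  have hsm : Summable fun i : Ix Empty => (rI L (fun e : Empty => (e.elim : ℕ)) i)⁻¹ := by
    have h1 : Summable fun n : ℕ => (L n)⁻¹ := by
      refine Summable.of_nonneg_of_le (fun n => inv_nonneg.2 (by linarith [hLpos n])) (fun n => ?_)
        (summable_geometric_of_lt_one (r := (1 / 2 : ℝ)) (by norm_num) (by norm_num))
      rw [one_div, inv_pow]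
      exact inv_anti₀ (by positivity) (hLge n)
    rw [← (Equiv.sumEmpty ℕ Empty).symm.summable_iff]
    exact h1
  have hrd : ∀ j, RD (rI L (fun e : Empty => (e.elim : ℕ))) T j z := by
    have hr1 : ∀ i : Ix Empty, 1 ≤ rI L (fun e : Empty => (e.elim : ℕ)) i := by
      rintro (n | e)
      · exact hLpos n
      · exact e.elim
    refine RD.all (c := ker L C) hr1 hsm
      (fun k => ⟨_, _, ker_bound hLpos hlam hLs hC0 hCle k⟩)
      (d := fun i => -(dF ℓ (Sd κ μ L) (fun e : Empty => e.elim) i)) (K := ℓ 0 + 1) (p := 1) ?_ ?_ ?_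
    · rintro (n | e)
      · show |-(ℓ n)| ≤ (ℓ 0 + 1) * L n ^ 1
        rw [abs_neg, abs_of_nonneg (hℓ0 n), pow_one]
        cases n with
        | zero => nlinarith [hℓ0 0]
        | succ n =>
          rw [hℓs]
          have h1 : κ ^ n ≤ 1 := pow_le_one₀ hκ0.le (by linarith)
          have h2 : κ ^ n * L n ≤ 1 * L n := mul_le_mul_of_nonneg_right h1 (by linarith [hLpos n])
          nlinarith [hℓ0 0, hLm n, hLpos (n + 1)]
      · exact e.elim
    · intro k a b ha hb
      obtain ⟨M, hM⟩ := hrap k b hb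
      refine ⟨√M, fun t ht i => ?_⟩
      obtain ⟨h1, h2⟩ := hM t ⟨ha.le.trans ht.1, ht.2⟩
      have h3 : (rI L (fun e : Empty => (e.elim : ℕ)) i ^ k * z i t) ^ 2 ≤ M :=
        (h1.le_tsum _ fun _ _ => sq_nonneg _).trans h2
      have h5 : 0 ≤ rI L (fun e : Empty => (e.elim : ℕ)) i ^ k :=
        pow_nonneg (by linarith [hr1 i]) k
      rw [show rI L (fun e : Empty => (e.elim : ℕ)) i ^ k * |z i t|
        = |rI L (fun e : Empty => (e.elim : ℕ)) i ^ k * z i t| by
        rw [abs_mul, abs_of_nonneg h5]]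
      exact Real.abs_le_sqrt h3
    · intro i t ht
      have h1 := (hsol.deriv i t ⟨ht.1.le, ht.2⟩).hasDerivAt (Ico_mem_nhds ht.1 ht.2)
      have e : -(dF ℓ (Sd κ μ L) (fun e : Empty => (e.elim : ℕ)) i * z i t)
          + bl (ker L C) (fun a => z a t) (fun a => z a t) i
          = -(dF ℓ (Sd κ μ L) (fun e : Empty => (e.elim : ℕ)) i) * z i t + Qd (ker L C) z z i t := by
        unfold bl Qd
        ring
      rw [← e]
      exact h1
  refine ⟨T, fun n => z (Sum.inl n), hT, ?_, ?_, ?_, fun j => (hrd j).comp Sum.inl⟩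
  · intro n t ht
    have h1 := hf.dx n t ht
    rw [hf0 n t ht, add_zero] at h1
    convert h1 using 1
    unfold quad vf3
    have e1 : (∑ i ∈ Finset.range n, L i * 1 * z (Sum.inl i) t)
        = ∑ i ∈ Finset.range n, L i * z (Sum.inl i) t :=
      Finset.sum_congr rfl fun i _ => by ring
    have e2 : (∑' m : ℕ, (1 : ℝ) * z (Sum.inl (n + 1 + m)) t ^ 2)
        = ∑' m : ℕ, z (Sum.inl (n + 1 + m)) t ^ 2 := tsum_congr fun m => by ring
    rw [e1, e2]
    ring
  · intro k T' hT'
    obtain ⟨M, hM⟩ := hrap k T' hT'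
    refine ⟨√M, fun t ht n => ?_⟩
    obtain ⟨h1, h2⟩ := hM t ht
    have h3 : (rI L (fun e : Empty => (e.elim : ℕ)) (Sum.inl n) ^ k * z (Sum.inl n) t) ^ 2 ≤ M :=
      (h1.le_tsum _ fun _ _ => sq_nonneg _).trans h2
    have h4 : rI L (fun e : Empty => (e.elim : ℕ)) (Sum.inl n) = L n := rfl
    rw [h4] at h3
    have h5 : 0 ≤ L n ^ k := pow_nonneg (by linarith [hLpos n]) k
    rw [show L n ^ k * |z (Sum.inl n) t| = |L n ^ k * z (Sum.inl n) t| by
      rw [abs_mul, abs_of_nonneg h5]]
    exact Real.abs_le_sqrt h3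
  · intro n
    obtain ⟨t, ht, a, ha, hx, -⟩ := hgrow n
    exact ⟨t, ht, (mul_le_mul_of_nonneg_left ha (by norm_num)).trans hx⟩

end Pool.Agent.V1178.NS
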