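import Pool.Agent.V1178.NS.Syn

/-!
The operators.
-/

open Set Filter Topology MeasureTheory
open scoped ContDiff ENNReal

set_option autoImplicit false

namespace Pool.Agent.V1178.NS

open H459R3.NS

/-- the conditions on the family of packets -/
structure Fam (p : ℕ → Prm) (τ W L : ℕ → ℝ) (lam : ℝ) : Prop where
  good : ∀ n, (p n).Good (τ n) (W n)
  seqs : Seqs L lam
  disj : ∀ m n, m ≠ n → Disjoint (p m).K (p n).K
  NL : Pol L fun n => (p n).N
  tauL : Pol L τ
  dec : ∀ k : ℕ, ∃ (m : ℕ) (C : ℝ), ∀ n, L n ^ k * ((p n).Z / (p n).N) ^ m ≤ C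

/-- the linear operator -/
noncomputable def Dop (p : ℕ → Prm) (τ : ℕ → ℝ) (v : V → V) : V → V :=
  syn (fun n => dot v ((p n).Zf (τ n)) / dot (p n).U ((p n).Zf (τ n))) (fun n => (p n).Zf (τ n))

/-- the bilinear operator -/
noncomputable def Gop (p : ℕ → Prm) (L : ℕ → ℝ) (C amp : ℝ) (u v : V → V) : V → V :=
  syn (fun n => -(dot v (p n).U * dot u (p n).U)) (fun n => (p n).F)
  + syn (fun n => dot v (p n).U * dot u (p n).F
      - amp⁻¹ * qq L C (fun n => dot u (p n).U) (fun n => dot v (p n).U) n) (fun n => (p n).U)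

theorem dot_pol {L : ℕ → ℝ} (hL : ∀ n, 1 ≤ L n) {Φ : ℕ → V → V} (hΦ : FB L Φ) {w : V → V}
    (hw : SV w) : Pol L (fun n => dot w (Φ n)) := by
  have h1 : ∀ i, Pol L (fun n => ∫ x in cube, w x i * Φ n x i) := by
    intro i
    obtain ⟨M, hM0, hM⟩ := sup_SP (hw i)
    obtain ⟨C, m, hC⟩ := (hΦ.pb i).bound 0
    refine ⟨M * |C|, m, by positivity, fun n => int_le_cube fun x hx => ?_⟩
    rw [abs_mul]
    have h2 := hC n x
    rw [norm_iteratedFDeriv_zero, Real.norm_eq_abs] at h2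
    have h3 : 0 ≤ L n ^ m := pow_nonneg (by linarith [hL n]) m
    calc |w x i| * |Φ n x i| ≤ M * (C * L n ^ m) := mul_le_mul (hM x hx) h2 (abs_nonneg _) hM0
      _ ≤ M * (|C| * L n ^ m) := by gcongr; exact le_abs_self C
      _ = _ := by ring
  have e : (fun n => dot w (Φ n)) = fun n => ((∫ x in cube, w x 0 * Φ n x 0)
      + ∫ x in cube, w x 1 * Φ n x 1) + ∫ x in cube, w x 2 * Φ n x 2 := by
    funext n
    unfold dot
    rw [Fin.sum_univ_three]
  rw [e]
  exact ((h1 0).add hL (h1 1)).add hL (h1 2)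

section ops

variable {p : ℕ → Prm} {τ W L : ℕ → ℝ} {lam C amp : ℝ}

theorem Fam.XL (h : Fam p τ W L lam) : Pol L fun n => (p n).X :=
  h.NL.of_le fun n => by
    have g := h.good n
    obtain ⟨h1, h2, h3, h4⟩ := g.ok.pos
    rw [abs_of_pos h2, abs_of_pos h1]
    exact g.XN

theorem Fam.ZL (h : Fam p τ W L lam) : Pol L fun n => (p n).Z :=
  h.NL.of_le fun n => by
    have g := h.good n
    obtain ⟨h1, h2, h3, h4⟩ := g.ok.pos
    rw [abs_of_pos h4, abs_of_pos h1]
    exact g.ZleN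

theorem Prm.Good.YN {p : Prm} {τ W : ℝ} (g : p.Good τ W) : p.Y ≤ p.N := by
  obtain ⟨h1, h2, h3, h4⟩ := g.ok.pos
  have h5 := g.Y2
  have h6 := g.WN
  have h7 : p.Y ^ 2 ≤ p.N ^ 2 := h5.trans (by rw [sq]; gcongr)
  exact le_of_sq_le_sq h7 h1.le
where
  le_of_sq_le_sq {a b : ℝ} (h : a ^ 2 ≤ b ^ 2) (hb : 0 ≤ b) : a ≤ b :=
    le_of_abs_le (abs_le_of_sq_le_sq h hb)
  abs_le_of_sq_le_sq {a b : ℝ} (h : a ^ 2 ≤ b ^ 2) (hb : 0 ≤ b) : |a| ≤ b := by
    rw [← abs_of_nonneg hb]
    exact sq_le_sq.1 h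

theorem Fam.YL (h : Fam p τ W L lam) : Pol L fun n => (p n).Y :=
  h.NL.of_le fun n => by
    have g := h.good n
    obtain ⟨h1, h2, h3, h4⟩ := g.ok.pos
    rw [abs_of_pos h3, abs_of_pos h1]
    exact g.YN

theorem Fam.AL (h : Fam p τ W L lam) : Pol L fun n => (p n).A / (p n).N := by
  have h1 : Pol L fun n => 1 + 32 * (p n).N ^ 3 :=
    (Pol.const 1).add h.seqs.one ((Pol.const 32).mul (h.NL.pow 3))
  refine h1.of_le fun n => ?_
  have g := h.good n
  have hA := g.A_pos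
  obtain ⟨h1, h2, h3, h4⟩ := g.ok.pos
  rw [abs_of_pos (by positivity), abs_of_pos (by positivity)]
  have k1 : (p n).A / (p n).N ≤ (p n).A := div_le_self hA.le g.ok.N1
  have k2 : (p n).A ^ 2 ≤ 32 * (p n).N ^ 3 := by
    have e := g.A_vol
    unfold Prm.vol at e
    have e2 : (p n).A ^ 2 ≤ 32 * ((p n).X * (p n).Y * (p n).Z) := by
      rw [mul_inv_le_iff₀ (by positivity)] at e
      linarith
    have e3 : (p n).X * (p n).Y * (p n).Z ≤ (p n).N * (p n).N * (p n).N := by
      have := g.XN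
      have := g.YN
      have := g.ZleN
      gcongr
    calc _ ≤ _ := e2
      _ ≤ 32 * ((p n).N * (p n).N * (p n).N) := by gcongr
      _ = _ := by ring
  nlinarith [sq_nonneg ((p n).A - 1)]

theorem Fam.psi_pb (h : Fam p τ W L lam) : PB L (fun n => (p n).psi) :=
  PB_psi h.seqs.one (fun n => (h.good n).ok) h.NL h.XL h.YL h.ZL h.AL

theorem Fam.U_fb (h : Fam p τ W L lam) : FB L (fun n => (p n).U) :=
  ⟨fun n => (h.good n).ok.U_sp, PB_U h.seqs.one (fun n => (h.good n).ok) h.psi_pb⟩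

theorem Fam.F_fb (h : Fam p τ W L lam) : FB L (fun n => (p n).F) :=
  ⟨fun n => (h.good n).ok.F_sp, PB_F h.seqs.one (fun n => (h.good n).ok) h.psi_pb⟩

theorem Fam.Z_fb (h : Fam p τ W L lam) : FB L (fun n => (p n).Zf (τ n)) :=
  ⟨fun n => (h.good n).ok.Zf_sp (τ n), PB_Zf h.seqs.one (fun n => (h.good n).ok) h.psi_pb h.tauL⟩

theorem Fam.ca (h : Fam p τ W L lam) {v : V → V} (hv : SV v) :
    Rap L (fun n => dot v (p n).U) := by
  intro k
  obtain ⟨K, q, hK, hA⟩ := h.AL
  obtain ⟨m, C', hC'⟩ := h.dec (k + q)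
  obtain ⟨C, hC0, hC⟩ := a_decay hv m
  refine ⟨C * K * C', fun n => ?_⟩
  have g := h.good n
  have hL0 : 0 ≤ L n := by linarith [h.seqs.one n]
  obtain ⟨h1, h2, h3, h4⟩ := g.ok.pos
  have hAp := g.A_pos
  have k1 := hC (p n) (τ n) (W n) g
  have k2 := hA n
  rw [abs_of_pos (by positivity)] at k2
  calc L n ^ k * |dot v (p n).U| ≤ L n ^ k * (C * (p n).A / (p n).N * ((p n).Z / (p n).N) ^ m) := by
        gcongr
    _ = L n ^ k * (C * ((p n).A / (p n).N) * ((p n).Z / (p n).N) ^ m) := by ring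
    _ ≤ L n ^ k * (C * (K * L n ^ q) * ((p n).Z / (p n).N) ^ m) := by gcongr
    _ = C * K * (L n ^ (k + q) * ((p n).Z / (p n).N) ^ m) := by rw [pow_add]; ring
    _ ≤ C * K * C' := by gcongr; exact hC' n

theorem Fam.cz (h : Fam p τ W L lam) {v : V → V} (hv : SV v) :
    Rap L (fun n => dot v ((p n).Zf (τ n))) := by
  have e : (fun n => dot v ((p n).Zf (τ n)))
      = fun n => dot (fun x i => lap (fun y => v y i) x) (p n).U + dot v (p n).U * τ n := by
    funext n
    rw [dot_Z_eq (h.good n).ok hv (τ n)]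
    ring
  rw [e]
  exact (h.ca hv.lap).add h.seqs.one ((h.ca hv).mul_pol h.seqs.one h.tauL)

theorem Fam.alpha (h : Fam p τ W L lam) (n : ℕ) : 1 ≤ dot (p n).U ((p n).Zf (τ n)) := by
  have g := h.good n
  obtain ⟨h1, h2, h3, h4⟩ := g.ok.pos
  have h5 := g.alpha_ge
  have h6 := Cb_one
  have h7 : 1 ≤ W n := by linarith [g.ZW, g.ok.Z1]
  have h8 : 1 ≤ Cb ^ 2 := one_le_pow₀ h6
  have h9 : 1 ≤ (p n).N * W n := by nlinarith [g.ok.N1]
  nlinarith

theorem Fam.cz_div (h : Fam p τ W L lam) {v : V → V} (hv : SV v) :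
    Rap L (fun n => dot v ((p n).Zf (τ n)) / dot (p n).U ((p n).Zf (τ n))) := by
  refine (h.cz hv).of_le h.seqs.one fun n => ?_
  have h1 := h.alpha n
  rw [abs_div]
  refine div_le_self (abs_nonneg _) ?_
  rw [abs_of_pos (by linarith)]
  exact h1

theorem Fam.D_sv (h : Fam p τ W L lam) {v : V → V} (hv : SV v) : SV (Dop p τ v) :=
  syn_SV h.seqs (h.cz_div hv) h.Z_fb

theorem Fam.D_lin (h : Fam p τ W L lam) {u v : V → V} (hu : SV u) (hv : SV v) (a : ℝ) :
    Dop p τ (a • u + v) = a • Dop p τ u + Dop p τ v := by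
  unfold Dop
  rw [← syn_lin h.seqs (h.cz_div hu) (h.cz_div hv) h.Z_fb]
  congr 1
  funext n
  rw [dot_add_left hu hv (h.Z_fb.sv n)]
  ring

theorem Fam.D_dot (h : Fam p τ W L lam) {v w : V → V} (hv : SV v) (hw : SV w) :
    dot w (Dop p τ v) = ∑' n, dot v ((p n).Zf (τ n)) * dot w ((p n).Zf (τ n))
      / dot (p n).U ((p n).Zf (τ n)) := by
  unfold Dop
  rw [dot_syn h.seqs (h.cz_div hv) h.Z_fb hw]
  congr 1
  funext n
  ring

theorem Fam.D_symm (h : Fam p τ W L lam) {v w : V → V} (hv : SV v) (hw : SV w) :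
    dot w (Dop p τ v) = dot v (Dop p τ w) := by
  rw [h.D_dot hv hw, h.D_dot hw hv]
  congr 1
  funext n
  ring

theorem Fam.D_nonneg (h : Fam p τ W L lam) {v : V → V} (hv : SV v) : 0 ≤ dot v (Dop p τ v) := by
  rw [h.D_dot hv hv]
  refine tsum_nonneg fun n => ?_
  have := h.alpha n
  exact div_nonneg (mul_self_nonneg _) (by linarith)

theorem Fam.G1 (h : Fam p τ W L lam) {u v : V → V} (hu : SV u) (hv : SV v) :
    Rap L (fun n => -(dot v (p n).U * dot u (p n).U)) :=
  ((h.ca hv).mul h.seqs.one (h.ca hu)).neg h.seqs.one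

theorem Fam.G2 (h : Fam p τ W L lam) {u v : V → V} (hu : SV u) (hv : SV v) :
    Rap L (fun n => dot v (p n).U * dot u (p n).F
      - amp⁻¹ * qq L C (fun n => dot u (p n).U) (fun n => dot v (p n).U) n) :=
  ((h.ca hv).mul_pol h.seqs.one (dot_pol h.seqs.one h.F_fb hu)).sub h.seqs.one
    ((qq_rap h.seqs (h.ca hu) (h.ca hv)).cmul h.seqs.one _)

theorem SV.add' {u v : V → V} (hu : SV u) (hv : SV v) : SV (u + v) :=
  fun i => (hu i).add (hv i)

theorem Fam.G_sv (h : Fam p τ W L lam) {u v : V → V} (hu : SV u) (hv : SV v) :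
    SV (Gop p L C amp u v) :=
  (syn_SV h.seqs (h.G1 hu hv) h.F_fb).add' (syn_SV h.seqs (h.G2 hu hv) h.U_fb)

theorem Fam.G_lin_left (h : Fam p τ W L lam) {u u' v : V → V} (hu : SV u) (hu' : SV u')
    (hv : SV v) (a : ℝ) :
    Gop p L C amp (a • u + u') v = a • Gop p L C amp u v + Gop p L C amp u' v := by
  unfold Gop
  have e1 : (fun n => -(dot v (p n).U * dot (a • u + u') (p n).U))
      = fun n => a * (-(dot v (p n).U * dot u (p n).U)) + (-(dot v (p n).U * dot u' (p n).U)) := by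
    funext n
    rw [dot_add_left hu hu' (h.U_fb.sv n)]
    ring
  have e2 : (fun n => dot v (p n).U * dot (a • u + u') (p n).F
      - amp⁻¹ * qq L C (fun n => dot (a • u + u') (p n).U) (fun n => dot v (p n).U) n)
      = fun n => a * (dot v (p n).U * dot u (p n).F
        - amp⁻¹ * qq L C (fun n => dot u (p n).U) (fun n => dot v (p n).U) n)
        + (dot v (p n).U * dot u' (p n).F
        - amp⁻¹ * qq L C (fun n => dot u' (p n).U) (fun n => dot v (p n).U) n) := by
    funext n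
    have e3 : (fun n => dot (a • u + u') (p n).U)
        = fun n => a * dot u (p n).U + dot u' (p n).U :=
      funext fun n => dot_add_left hu hu' (h.U_fb.sv n) a
    rw [e3, qq_lin_left h.seqs (h.ca hu) (h.ca hu') (h.ca hv), dot_add_left hu hu' (h.F_fb.sv n)]
    ring
  rw [e1, e2, syn_lin h.seqs (h.G1 hu hv) (h.G1 hu' hv) h.F_fb,
    syn_lin h.seqs (h.G2 hu hv) (h.G2 hu' hv) h.U_fb]
  rw [smul_add]
  abel

theorem Fam.G_lin_right (h : Fam p τ W L lam) {u v v' : V → V} (hu : SV u) (hv : SV v)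
    (hv' : SV v') (a : ℝ) :
    Gop p L C amp u (a • v + v') = a • Gop p L C amp u v + Gop p L C amp u v' := by
  unfold Gop
  have e1 : (fun n => -(dot (a • v + v') (p n).U * dot u (p n).U))
      = fun n => a * (-(dot v (p n).U * dot u (p n).U)) + (-(dot v' (p n).U * dot u (p n).U)) := by
    funext n
    rw [dot_add_left hv hv' (h.U_fb.sv n)]
    ring
  have e2 : (fun n => dot (a • v + v') (p n).U * dot u (p n).F
      - amp⁻¹ * qq L C (fun n => dot u (p n).U) (fun n => dot (a • v + v') (p n).U) n)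
      = fun n => a * (dot v (p n).U * dot u (p n).F
        - amp⁻¹ * qq L C (fun n => dot u (p n).U) (fun n => dot v (p n).U) n)
        + (dot v' (p n).U * dot u (p n).F
        - amp⁻¹ * qq L C (fun n => dot u (p n).U) (fun n => dot v' (p n).U) n) := by
    funext n
    have e3 : (fun n => dot (a • v + v') (p n).U)
        = fun n => a * dot v (p n).U + dot v' (p n).U :=
      funext fun n => dot_add_left hv hv' (h.U_fb.sv n) a
    rw [e3, qq_lin_right h.seqs (h.ca hu) (h.ca hv) (h.ca hv'), dot_add_left hv hv' (h.U_fb.sv n)]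
    ring
  rw [e1, e2, syn_lin h.seqs (h.G1 hu hv) (h.G1 hu hv') h.F_fb,
    syn_lin h.seqs (h.G2 hu hv) (h.G2 hu hv') h.U_fb]
  rw [smul_add]
  abel

/-- the trilinear form -/
theorem Fam.G_dot (h : Fam p τ W L lam) {u v w : V → V} (hu : SV u) (hv : SV v) (hw : SV w) :
    dot w (Gop p L C amp u v) = (∑' n, -(dot v (p n).U * dot u (p n).U) * dot w (p n).F)
      + ∑' n, (dot v (p n).U * dot u (p n).F
        - amp⁻¹ * qq L C (fun n => dot u (p n).U) (fun n => dot v (p n).U) n)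
        * dot w (p n).U := by
  have e : Gop p L C amp u v
      = (1 : ℝ) • syn (fun n => -(dot v (p n).U * dot u (p n).U)) (fun n => (p n).F)
      + syn (fun n => dot v (p n).U * dot u (p n).F
      - amp⁻¹ * qq L C (fun n => dot u (p n).U) (fun n => dot v (p n).U) n) (fun n => (p n).U) := by
    rw [one_smul]
    rfl
  rw [e, dot_add_right (syn_SV h.seqs (h.G1 hu hv) h.F_fb) (syn_SV h.seqs (h.G2 hu hv) h.U_fb) hw,
    one_mul, dot_syn h.seqs (h.G1 hu hv) h.F_fb hw, dot_syn h.seqs (h.G2 hu hv) h.U_fb hw]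

theorem Fam.G_neutral (h : Fam p τ W L lam) {v : V → V} (hv : SV v) :
    dot v (Gop p L C amp v v) = 0 := by
  rw [h.G_dot hv hv hv]
  have s1 : Summable fun n => -(dot v (p n).U * dot v (p n).U) * dot v (p n).F :=
    dot_syn_summable h.seqs (h.G1 hv hv) h.F_fb hv
  have s2 : Summable fun n => (dot v (p n).U * dot v (p n).F
        - amp⁻¹ * qq L C (fun n => dot v (p n).U) (fun n => dot v (p n).U) n) * dot v (p n).U :=
    dot_syn_summable h.seqs (h.G2 hv hv) h.U_fb hv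
  rw [← s1.tsum_add s2]
  have e : ∀ n, -(dot v (p n).U * dot v (p n).U) * dot v (p n).F
      + (dot v (p n).U * dot v (p n).F
        - amp⁻¹ * qq L C (fun n => dot v (p n).U) (fun n => dot v (p n).U) n) * dot v (p n).U
      = -amp⁻¹ * (qq L C (fun n => dot v (p n).U) (fun n => dot v (p n).U) n * dot v (p n).U) := by
    intro n
    ring
  simp_rw [e]
  rw [tsum_mul_left, qq_neutral h.seqs (h.ca hv), mul_zero]

/-! ### locality -/

theorem dot_congr {K : Set V} {u v Φ : V → V} (hΦ : ∀ x, x ∉ K → Φ x = 0)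
    (h : ∀ x ∈ K, u x = v x) : dot u Φ = dot v Φ := by
  unfold dot
  refine Finset.sum_congr rfl fun i _ => ?_
  congr 1
  funext x
  by_cases hx : x ∈ K
  · rw [h x hx]
  · rw [hΦ x hx]
    simp

end ops

end Pool.Agent.V1178.NS
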