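import Pool.Agent.V1178.NS.Unb

/-!
The choice of the parameters.
-/

open Set Filter Topology MeasureTheory
open scoped ContDiff ENNReal

set_option autoImplicit false

namespace Pool.Agent.V1178.NS

open H459R3.NS

/-- the square roots of the eigenvalues -/
noncomputable def tt (R Γ : ℝ) (n : ℕ) : ℝ := if n = 0 then Γ else 1000 * R ^ n * Γ

noncomputable def gm (s a : ℝ) : ℝ := 3 * s / 2 + 3 * a / 4 + 1 / 4

/-- the conditions -/
structure Cho (ν δ ρ s a s' a' R Γ : ℝ) : Prop where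
  ν0 : 0 < ν
  R2 : 2 ≤ R
  Γ1 : 1 ≤ Γ
  s'0 : 0 < s'
  ss : s' < s
  s1 : s < 1
  a'0 : 0 < a'
  aa : a' < a
  a1 : a < 1
  sa : 2 * s' ≤ 1 + a'
  g : 7 < 6 * s' + 3 * a'
  Rs : R ^ (s' - s) ≤ 1 / 4
  Ra : R ^ (a' - a) ≤ 1 / 4
  Rs' : 2 ≤ R ^ s'
  Rκ : R ^ (2 - gm s' a') ≤ 1 / 1000
  Rμ : 10 ^ 30 ≤ R ^ 2
  Rexp : (10 ^ 6 * (R ^ gm s' a') ^ 3) ^ 10 ≤ Real.exp (R ^ 2 / 10 ^ 6)
  Rgr : 1 < 9 / 1000 * R ^ (2 - s')
  c2 : ∀ t, Γ ≤ t → 4 * C2 * t ^ a' ≤ t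
  c3 : ∀ t, Γ ≤ t → 8 * t ^ a' ≤ t
  c4 : ∀ t, Γ ≤ t → 2 * t ^ s' ≤ t
  c5 : ∀ t, Γ ≤ t → 32 ≤ t ^ s'
  c6 : ∀ t, Γ ≤ t → 4 ≤ t ^ ((1 + a') / 2)
  c7 : ∀ t, Γ ≤ t → 4 ≤ t ^ a'
  c8 : ∀ t, Γ ≤ t → 5 ≤ ρ * t ^ s'
  c9 : ∀ t, Γ ≤ t → 1 ≤ ρ * t ^ ((1 + a') / 2)
  c10 : ∀ t, Γ ≤ t → 1 ≤ ρ * t ^ a'
  cL : 1 ≤ 10 / 9 * ν * 10 ^ 6 * R ^ 2 * Γ ^ 2
  cδ : M₀ ^ 3 * (2 * Γ ^ (s' - s)) * (200 / 9) ≤ δ
  cη : M₀ ^ 2 * (4 * Γ ^ (a' - a)) * (4 / 3) ≤ δ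

/-- the widths in the direction of the oscillation -/
noncomputable def Wn (a' t : ℝ) : ℝ := 2 * t ^ a'

/-- the frequencies -/
noncomputable def Nn (a' t : ℝ) : ℝ :=
  (-(C2 * Wn a' t) + √((C2 * Wn a' t) ^ 2 + 4 * t ^ 2)) / 2

noncomputable def pp (s' a' t : ℝ) : Prm :=
  ⟨Nn a' t, t ^ s', t ^ ((1 + a') / 2), t ^ a', 1 / 2 + 4 / t ^ s'⟩

section cho

variable {ν δ ρ s a s' a' R Γ : ℝ}

theorem Nn_eq {a' t : ℝ} : Nn a' t ^ 2 + C2 * (Nn a' t * Wn a' t) = t ^ 2 := by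
  unfold Nn
  set b := C2 * Wn a' t with hb
  have h0 : 0 ≤ b ^ 2 + 4 * t ^ 2 := by positivity
  have h1 := Real.sq_sqrt h0
  have e : ((-b + √(b ^ 2 + 4 * t ^ 2)) / 2) ^ 2 + C2 * ((-b + √(b ^ 2 + 4 * t ^ 2)) / 2 * Wn a' t)
      = ((-b + √(b ^ 2 + 4 * t ^ 2)) / 2) ^ 2 + b * ((-b + √(b ^ 2 + 4 * t ^ 2)) / 2) := by
    rw [hb]; ring
  rw [e]
  linarith

theorem Cho.N_bd (h : Cho ν δ ρ s a s' a' R Γ) {t : ℝ} (ht : Γ ≤ t) :
    t / 2 ≤ Nn a' t ∧ Nn a' t ≤ t := by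
  have hG := h.Γ1
  have ht0 : 0 < t := by linarith
  have hC := C2_pos
  have hW : 0 < Wn a' t := by unfold Wn; positivity
  have h2 := h.c2 t ht
  have hb : C2 * Wn a' t ≤ t / 2 := by
    unfold Wn
    linarith
  have hb0 : 0 < C2 * Wn a' t := by positivity
  unfold Nn
  set b := C2 * Wn a' t with hbd
  have h3 : 0 ≤ b ^ 2 + 4 * t ^ 2 := by positivity
  constructor
  · have : t + b ≤ √(b ^ 2 + 4 * t ^ 2) := by
      apply Real.le_sqrt_of_sq_le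
      nlinarith
    linarith
  · have : √(b ^ 2 + 4 * t ^ 2) ≤ 2 * t + b := by
      rw [Real.sqrt_le_left (by positivity)]
      nlinarith
    linarith

theorem Cho.good (h : Cho ν δ ρ s a s' a' R Γ) {t : ℝ} (ht : Γ ≤ t) :
    (pp s' a' t).Good (t ^ 2) (Wn a' t) := by
  have hG := h.Γ1
  have ht1 : 1 ≤ t := hG.trans ht
  have ht0 : 0 < t := by linarith
  obtain ⟨n1, n2⟩ := h.N_bd ht
  have h3 := h.c3 t ht
  have h4 := h.c4 t ht
  have h5 := h.c5 t ht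
  have h6 := h.c6 t ht
  have h7 := h.c7 t ht
  have hX0 : 0 < t ^ s' := by positivity
  have hNW : t ^ (1 + a') ≤ Nn a' t * Wn a' t := by
    have e : t ^ (1 + a') = t * t ^ a' := by rw [Real.rpow_add ht0, Real.rpow_one]
    unfold Wn
    rw [e]
    have : 0 < t ^ a' := by positivity
    nlinarith
  refine ⟨⟨?_, ?_, ?_, ?_, ?_⟩, ?_, ?_, ?_, ?_, ?_, ?_, ?_⟩
  · show 1 ≤ Nn a' t
    linarith
  · show 8 ≤ t ^ s'
    linarith
  · exact h6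
  · exact h7
  · show |1 / 2 + 4 / t ^ s' - 1 / 2| ≤ 1 / 8
    have e : (1 / 2 + 4 / t ^ s' - 1 / 2 : ℝ) = 4 / t ^ s' := by ring
    rw [e, abs_of_pos (by positivity), div_le_iff₀ hX0]
    linarith
  · show (t ^ s') ^ 2 ≤ Nn a' t * Wn a' t
    refine le_trans ?_ hNW
    rw [← Real.rpow_natCast, ← Real.rpow_mul ht0.le]
    apply Real.rpow_le_rpow_of_exponent_le ht1
    push_cast
    linarith [h.sa]
  · show (t ^ ((1 + a') / 2)) ^ 2 ≤ Nn a' t * Wn a' t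
    refine le_trans ?_ hNW
    rw [← Real.rpow_natCast, ← Real.rpow_mul ht0.le]
    apply Real.rpow_le_rpow_of_exponent_le ht1
    push_cast
    linarith
  · show t ^ a' ≤ Wn a' t
    unfold Wn
    linarith
  · show Wn a' t ≤ Nn a' t
    unfold Wn
    linarith
  · show t ^ s' ≤ Nn a' t
    linarith
  · show 4 * t ^ a' ≤ Nn a' t
    linarith
  · show t ^ 2 - Nn a' t ^ 2 = C2 * (Nn a' t * Wn a' t)
    linarith [Nn_eq (a' := a') (t := t)]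

theorem Cho.t_le (h : Cho ν δ ρ s a s' a' R Γ) (n : ℕ) : Γ * R ^ n ≤ tt R Γ n := by
  have hG := h.Γ1
  have hR := h.R2
  unfold tt
  split_ifs with h0
  · rw [h0, pow_zero, mul_one]
  · have : 0 < R ^ n := by positivity
    nlinarith [mul_pos (show (0:ℝ) < Γ by linarith) this]

theorem Cho.t_ge (h : Cho ν δ ρ s a s' a' R Γ) (n : ℕ) : tt R Γ n ≤ 1000 * R ^ n * Γ := by
  have hG := h.Γ1
  have hR := h.R2
  unfold tt
  split_ifs with h0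
  · rw [h0, pow_zero, mul_one]
    linarith
  · exact le_rfl

theorem Cho.Γ_le (h : Cho ν δ ρ s a s' a' R Γ) (n : ℕ) : Γ ≤ tt R Γ n := by
  have h1 := h.t_le n
  have h2 : (1 : ℝ) ≤ R ^ n := one_le_pow₀ (by linarith [h.R2])
  have hG := h.Γ1
  nlinarith

theorem Cho.t_pos (h : Cho ν δ ρ s a s' a' R Γ) (n : ℕ) : 0 < tt R Γ n := by
  linarith [h.Γ_le n, h.Γ1]

theorem Cho.t_step (h : Cho ν δ ρ s a s' a' R Γ) (n : ℕ) : R * tt R Γ n ≤ tt R Γ (n + 1) := by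
  have h1 := h.t_ge n
  have hR := h.R2
  have e : tt R Γ (n + 1) = 1000 * R ^ (n + 1) * Γ := by unfold tt; simp
  rw [e, pow_succ]
  nlinarith

theorem Cho.t_step' (h : Cho ν δ ρ s a s' a' R Γ) (n : ℕ) :
    tt R Γ (n + 1) ≤ 1000 * R * tt R Γ n := by
  have h1 := h.t_le n
  have hR := h.R2
  have e : tt R Γ (n + 1) = 1000 * R ^ (n + 1) * Γ := by unfold tt; simp
  rw [e, pow_succ]
  have : 1000 * R * (Γ * R ^ n) ≤ 1000 * R * tt R Γ n := by gcongr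
  linarith

theorem Cho.t_mono (h : Cho ν δ ρ s a s' a' R Γ) : Monotone (tt R Γ) := by
  refine monotone_nat_of_le_succ fun n => ?_
  have h1 := h.t_step n
  have h2 := h.t_pos n
  have := h.R2
  nlinarith

theorem Cho.pow_small (h : Cho ν δ ρ s a s' a' R Γ) {e : ℝ} (he : e ≤ 0) (hR : R ^ e ≤ 1 / 4)
    (n : ℕ) : tt R Γ n ^ e ≤ Γ ^ e * (1 / 4) ^ n := by
  have hR0 : 0 < R := by linarith [h.R2]
  have hG0 : 0 < Γ := by linarith [h.Γ1]
  calc tt R Γ n ^ e ≤ (Γ * R ^ n) ^ e :=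
        Real.rpow_le_rpow_of_nonpos (by positivity) (h.t_le n) he
    _ = Γ ^ e * (R ^ e) ^ n := by
      rw [Real.mul_rpow hG0.le (by positivity), ← Real.rpow_natCast R, ← Real.rpow_mul hR0.le,
        mul_comm (n : ℝ), Real.rpow_mul hR0.le, Real.rpow_natCast]
    _ ≤ Γ ^ e * (1 / 4) ^ n := by gcongr

theorem vol_pp (s' : ℝ) {a' t : ℝ} (ht : 0 < t) :
    (pp s' a' t).vol = t ^ (-(s' + (1 + a') / 2 + a')) := by
  unfold Prm.vol
  show (t ^ s' * t ^ ((1 + a') / 2) * t ^ a')⁻¹ = _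
  rw [← Real.rpow_add ht, ← Real.rpow_add ht, ← Real.rpow_neg ht.le]

theorem vol_half (s' : ℝ) {a' t : ℝ} (ht : 0 < t) :
    (pp s' a' t).vol ^ (-(1 / 2) : ℝ) = t ^ (gm s' a' - s') := by
  rw [vol_pp s' ht, ← Real.rpow_mul ht.le]
  congr 1
  unfold gm
  ring

/-- the supports are disjoint -/
theorem Cho.disj_lt (h : Cho ν δ ρ s a s' a' R Γ) {t t' : ℝ} (ht : Γ ≤ t) (htt : R * t ≤ t') :
    Disjoint (pp s' a' t).K (pp s' a' t').K := by
  have hG := h.Γ1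
  have hR := h.R2
  have ht0 : 0 < t := by linarith
  have ht0' : 0 < t' := by nlinarith
  rw [Set.disjoint_left]
  rintro x ⟨hx, -, -⟩ ⟨hx', -, -⟩
  have h1 : |Int.fract (x 0) - (1 / 2 + 4 / t ^ s')| < 1 / t ^ s' := hx
  have h2 : |Int.fract (x 0) - (1 / 2 + 4 / t' ^ s')| < 1 / t' ^ s' := hx'
  have h3 := (abs_lt.1 h1).1
  have h4 := (abs_lt.1 h2).2
  have hX : 0 < t ^ s' := by positivity
  have hX' : 0 < t' ^ s' := by positivity
  have h5 : 2 * t ^ s' ≤ t' ^ s' := by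
    calc 2 * t ^ s' ≤ R ^ s' * t ^ s' := by
          have := h.Rs'
          gcongr
      _ = (R * t) ^ s' := (Real.mul_rpow (by linarith) ht0.le).symm
      _ ≤ t' ^ s' := Real.rpow_le_rpow (by positivity) htt h.s'0.le
  have h6 : 1 / t' ^ s' ≤ 1 / t ^ s' / 2 := by
    rw [div_div, mul_comm (t ^ s')]
    exact one_div_le_one_div_of_le (by positivity) h5
  have e1 : 4 / t ^ s' = 4 * (1 / t ^ s') := by ring
  have e2 : 4 / t' ^ s' = 4 * (1 / t' ^ s') := by ring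
  have h7 : 0 < 1 / t ^ s' := by positivity
  rw [e1] at h3
  rw [e2] at h4
  linarith

theorem Cho.K_reg (h : Cho ν δ ρ s a s' a' R Γ) {t : ℝ} (ht : Γ ≤ t) :
    (pp s' a' t).K ⊆ Reg ρ := by
  have hG := h.Γ1
  have ht0 : 0 < t := by linarith
  rintro x ⟨h0, h1, h2⟩
  have k0 : |Int.fract (x 0) - (1 / 2 + 4 / t ^ s')| < 1 / t ^ s' := h0
  have k1 : |Int.fract (x 1) - 1 / 2| < 1 / t ^ ((1 + a') / 2) := h1
  have k2 : |Int.fract (x 2) - 1 / 2| < 1 / t ^ a' := h2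
  have c8 := h.c8 t ht
  have c9 := h.c9 t ht
  have c10 := h.c10 t ht
  have p0 : 0 < t ^ s' := by positivity
  have p1 : 0 < t ^ ((1 + a') / 2) := by positivity
  have p2 : 0 < t ^ a' := by positivity
  have b0 : 5 * (1 / t ^ s') ≤ ρ := by
    rw [mul_one_div, div_le_iff₀ p0]
    linarith
  have b1 : 1 / t ^ ((1 + a') / 2) ≤ ρ := by
    rw [div_le_iff₀ p1]
    linarith
  have b2 : 1 / t ^ a' ≤ ρ := by
    rw [div_le_iff₀ p2]
    linarith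
  have e1 : 4 / t ^ s' = 4 * (1 / t ^ s') := by ring
  rw [e1] at k0
  have q := abs_lt.1 k0
  have pp0 : 0 < 1 / t ^ s' := by positivity
  intro i
  fin_cases i
  · show |Int.fract (x 0) - 1 / 2| < ρ
    rw [abs_lt]
    constructor <;> linarith [q.1, q.2]
  · exact k1.trans_le b1
  · exact k2.trans_le b2

/-- the coefficients -/
noncomputable def L0 (ν R Γ : ℝ) : ℝ := 10 / 9 * ν * 10 ^ 6 * R ^ 2 * Γ ^ 2

noncomputable def Ln (ν s' a' R Γ : ℝ) (n : ℕ) : ℝ := (R ^ gm s' a') ^ n * L0 ν R Γ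

theorem Cho.gm2 (h : Cho ν δ ρ s a s' a' R Γ) : 2 < gm s' a' := by
  have := h.g
  unfold gm
  linarith

theorem Cho.lam_ge (h : Cho ν δ ρ s a s' a' R Γ) : R ≤ R ^ gm s' a' := by
  have h1 := h.gm2
  have h2 : R ^ (1 : ℝ) ≤ R ^ gm s' a' :=
    Real.rpow_le_rpow_of_exponent_le (by linarith [h.R2]) (by linarith)
  rwa [Real.rpow_one] at h2

theorem Cho.seqs (h : Cho ν δ ρ s a s' a' R Γ) : Seqs (Ln ν s' a' R Γ) (R ^ gm s' a') := by
  have hl := h.lam_ge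
  have hR := h.R2
  have hL0 : 1 ≤ L0 ν R Γ := h.cL
  have hgeo : ∀ n, Ln ν s' a' R Γ (n + 1) = R ^ gm s' a' * Ln ν s' a' R Γ n := fun n => by
    unfold Ln
    rw [pow_succ]
    ring
  have hone : ∀ n, 1 ≤ Ln ν s' a' R Γ n := fun n => by
    unfold Ln
    have : 1 ≤ (R ^ gm s' a') ^ n := one_le_pow₀ (by linarith)
    nlinarith
  refine ⟨hone, ?_, ?_, hgeo⟩
  · have e : (fun n => (Ln ν s' a' R Γ n)⁻¹) = fun n => (L0 ν R Γ)⁻¹ * ((R ^ gm s' a')⁻¹) ^ n := by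
      funext n
      unfold Ln
      rw [mul_inv, inv_pow]
      ring
    rw [e]
    refine (summable_geometric_of_lt_one (by positivity) ?_).mul_left _
    exact inv_lt_one_of_one_lt₀ (by linarith)
  · refine monotone_nat_of_le_succ fun n => ?_
    rw [hgeo]
    have := hone n
    nlinarith

theorem Cho.t_L (h : Cho ν δ ρ s a s' a' R Γ) (n : ℕ) :
    tt R Γ n ≤ 1000 * Γ * Ln ν s' a' R Γ n := by
  have h1 := h.t_ge n
  have hl := h.lam_ge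
  have hR := h.R2
  have hG := h.Γ1
  have hL0 : 1 ≤ L0 ν R Γ := h.cL
  have h2 : R ^ n ≤ (R ^ gm s' a') ^ n := pow_le_pow_left₀ (by linarith) hl n
  have h3 : (0 : ℝ) < R ^ n := by positivity
  have h4 : (R ^ gm s' a') ^ n ≤ Ln ν s' a' R Γ n := by
    unfold Ln
    have : 0 < (R ^ gm s' a') ^ n := by positivity
    nlinarith
  calc tt R Γ n ≤ 1000 * R ^ n * Γ := h1
    _ ≤ 1000 * Ln ν s' a' R Γ n * Γ := by
      have := h2.trans h4
      gcongr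
    _ = _ := by ring

theorem Cho.fam (h : Cho ν δ ρ s a s' a' R Γ) :
    Fam (fun n => pp s' a' (tt R Γ n)) (fun n => tt R Γ n ^ 2) (fun n => Wn a' (tt R Γ n))
      (Ln ν s' a' R Γ) (R ^ gm s' a') := by
  have hG := h.Γ1
  have hR := h.R2
  have tL : Pol (Ln ν s' a' R Γ) (tt R Γ) := by
    refine ⟨1000 * Γ, 1, by positivity, fun n => ?_⟩
    rw [pow_one, abs_of_pos (h.t_pos n)]
    exact h.t_L n
  refine ⟨fun n => h.good (h.Γ_le n), h.seqs, ?_, ?_, tL.pow 2, ?_⟩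
  · intro m n hmn
    have key : ∀ m n : ℕ, m < n → R * tt R Γ m ≤ tt R Γ n := fun m n hmn =>
      (h.t_step m).trans (h.t_mono hmn)
    rcases lt_or_gt_of_ne hmn with h1 | h1
    · exact h.disj_lt (h.Γ_le m) (key m n h1)
    · exact (h.disj_lt (h.Γ_le n) (key n m h1)).symm
  · refine tL.of_le fun n => ?_
    obtain ⟨n1, n2⟩ := h.N_bd (h.Γ_le n)
    have := h.t_pos n
    show |Nn a' (tt R Γ n)| ≤ |tt R Γ n|
    rw [abs_of_pos this, abs_of_pos (by linarith)]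
    exact n2
  · intro k
    -- `Z / N ≤ 2 t^(a' - 1)`
    obtain ⟨m, hm⟩ := exists_nat_ge (gm s' a' * k / (1 - a'))
    have ha1 : 0 < 1 - a' := by linarith [h.aa, h.a1]
    rw [div_le_iff₀ ha1] at hm
    refine ⟨m, L0 ν R Γ ^ k * 2 ^ m, fun n => ?_⟩
    have hL0 : 1 ≤ L0 ν R Γ := h.cL
    have ht := h.t_pos n
    obtain ⟨n1, n2⟩ := h.N_bd (h.Γ_le n)
    have hN0 : 0 < Nn a' (tt R Γ n) := by linarith
    have hR0 : 0 < R := by linarith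
    have e1 : tt R Γ n ^ a' / Nn a' (tt R Γ n) ≤ 2 * tt R Γ n ^ (a' - 1) := by
      rw [div_le_iff₀ hN0, Real.rpow_sub ht, Real.rpow_one]
      have h2 : 2 * (tt R Γ n ^ a' / tt R Γ n) * (tt R Γ n / 2) = tt R Γ n ^ a' := by
        field_simp
      calc tt R Γ n ^ a' = 2 * (tt R Γ n ^ a' / tt R Γ n) * (tt R Γ n / 2) := h2.symm
        _ ≤ _ := by gcongr
    have e2 : tt R Γ n ^ (a' - 1) ≤ (R ^ (a' - 1)) ^ n := by
      have h3 : R ^ n ≤ tt R Γ n := by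
        refine le_trans ?_ (h.t_le n)
        have : 0 < R ^ n := by positivity
        nlinarith
      calc tt R Γ n ^ (a' - 1) ≤ (R ^ n) ^ (a' - 1) :=
            Real.rpow_le_rpow_of_nonpos (by positivity) h3 (by linarith)
        _ = (R ^ (a' - 1)) ^ n := by
          rw [← Real.rpow_natCast R, ← Real.rpow_mul hR0.le, mul_comm (n : ℝ),
            Real.rpow_mul hR0.le, Real.rpow_natCast]
    show Ln ν s' a' R Γ n ^ k * (tt R Γ n ^ a' / Nn a' (tt R Γ n)) ^ m ≤ _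
    have e3 : (R ^ gm s' a') ^ k * (R ^ (a' - 1)) ^ m ≤ 1 := by
      rw [← Real.rpow_natCast (R ^ gm s' a'), ← Real.rpow_natCast (R ^ (a' - 1)),
        ← Real.rpow_mul hR0.le, ← Real.rpow_mul hR0.le, ← Real.rpow_add hR0]
      refine Real.rpow_le_one_of_one_le_of_nonpos (by linarith) ?_
      linarith
    calc Ln ν s' a' R Γ n ^ k * (tt R Γ n ^ a' / Nn a' (tt R Γ n)) ^ m
        ≤ Ln ν s' a' R Γ n ^ k * (2 * (R ^ (a' - 1)) ^ n) ^ m := by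
          have := h.seqs.one n
          have h5 : tt R Γ n ^ a' / Nn a' (tt R Γ n) ≤ 2 * (R ^ (a' - 1)) ^ n :=
            e1.trans (by gcongr)
          gcongr
      _ = L0 ν R Γ ^ k * 2 ^ m * ((R ^ gm s' a') ^ k * (R ^ (a' - 1)) ^ m) ^ n := by
          unfold Ln
          rw [mul_pow, mul_pow, mul_pow, ← pow_mul, ← pow_mul, ← pow_mul, ← pow_mul]
          ring
      _ ≤ L0 ν R Γ ^ k * 2 ^ m * 1 ^ n := by gcongr
      _ = _ := by rw [one_pow, mul_one]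

end cho

end Pool.Agent.V1178.NS
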