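import Pool.Agent.V1178.NS.Par

/-!
The choice of the parameters, continued.
-/

open Set Filter Topology MeasureTheory
open scoped ContDiff ENNReal

set_option autoImplicit false

namespace Pool.Agent.V1178.NS

open H459R3.NS

section cho

variable {ν δ ρ s a s' a' R Γ : ℝ}

noncomputable def kap (s' a' R : ℝ) : ℝ := R ^ (2 - gm s' a')

noncomputable def Cc (s' a' R : ℝ) : ℝ := kap s' a' R * Real.exp (-(600 / 10000 * R ^ 2))

noncomputable def ampl (ν s' a' R Γ : ℝ) : ℝ := 10 / 9 * ν * 10 ^ 6 * R ^ 2 * Γ ^ (2 - gm s' a')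

theorem Cho.kap_pos (h : Cho ν δ ρ s a s' a' R Γ) : 0 < kap s' a' R := by
  have := h.R2
  unfold kap
  positivity

theorem Cho.amp_pos (h : Cho ν δ ρ s a s' a' R Γ) : 0 < ampl ν s' a' R Γ := by
  have := h.R2
  have := h.Γ1
  have := h.ν0
  unfold ampl
  positivity

theorem Cho.amp_eq (h : Cho ν δ ρ s a s' a' R Γ) :
    ampl ν s' a' R Γ * Γ ^ gm s' a' = L0 ν R Γ := by
  have hG : 0 < Γ := by linarith [h.Γ1]
  have e : Γ ^ (2 - gm s' a') * Γ ^ gm s' a' = Γ ^ 2 := by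
    rw [← Real.rpow_add hG]
    have : 2 - gm s' a' + gm s' a' = 2 := by ring
    rw [this]
    norm_cast
  unfold ampl L0
  calc _ = 10 / 9 * ν * 10 ^ 6 * R ^ 2 * (Γ ^ (2 - gm s' a') * Γ ^ gm s' a') := by ring
    _ = _ := by rw [e]

theorem Cho.C_small (h : Cho ν δ ρ s a s' a' R Γ) : Cc s' a' R * (1000 * R) ^ 2 ≤ 1 := by
  have hR := h.R2
  have h1 := h.Rexp
  have h2 := h.lam_ge
  have h3 := h.Rκ
  have hκ := h.kap_pos
  have h4 : R ^ 2 ≤ (R ^ gm s' a') ^ 3 := by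
    calc R ^ 2 ≤ R ^ 3 := pow_le_pow_right₀ (by linarith) (by norm_num)
      _ ≤ (R ^ gm s' a') ^ 3 := by gcongr
  have h5 : (1000 * R) ^ 2 ≤ (10 ^ 6 * (R ^ gm s' a') ^ 3) ^ 10 := by
    have h6 : (1000 * R) ^ 2 ≤ 10 ^ 6 * (R ^ gm s' a') ^ 3 := by
      have e : (1000 * R) ^ 2 = 10 ^ 6 * R ^ 2 := by ring
      rw [e]
      gcongr
    have h7 : 1 ≤ 10 ^ 6 * (R ^ gm s' a') ^ 3 := by
      have : (1 : ℝ) ≤ R ^ 2 := by nlinarith
      nlinarith
    exact h6.trans (le_self_pow₀ h7 (by norm_num))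
  have h8 : (1000 * R) ^ 2 ≤ Real.exp (600 / 10000 * R ^ 2) := by
    refine h5.trans (h1.trans (Real.exp_le_exp.2 ?_))
    have : 0 ≤ R ^ 2 := by positivity
    linarith
  unfold Cc
  have h9 : kap s' a' R ≤ 1 := by
    unfold kap
    linarith
  calc kap s' a' R * Real.exp (-(600 / 10000 * R ^ 2)) * (1000 * R) ^ 2
      ≤ 1 * Real.exp (-(600 / 10000 * R ^ 2)) * Real.exp (600 / 10000 * R ^ 2) := by gcongr
    _ = 1 := by rw [one_mul, ← Real.exp_add]; simp

theorem Cho.C_nonneg (h : Cho ν δ ρ s a s' a' R Γ) : 0 ≤ Cc s' a' R := by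
  have := h.kap_pos
  unfold Cc
  positivity

theorem Cho.hyp (h : Cho ν δ ρ s a s' a' R Γ) :
    Hyp (Ln ν s' a' R Γ) (fun n => (pp s' a' (tt R Γ n)).vol) (fun n => tt R Γ n ^ s')
      (fun n => 2 * tt R Γ n ^ (-s)) (Cc s' a' R) (ampl ν s' a' R Γ) (2 * Γ ^ (s' - s)) := by
  have hR := h.R2
  have hG := h.Γ1
  have hs0 : 0 < s := h.s'0.trans h.ss
  have hR0 : 0 < R := by linarith
  have hG0 : 0 < Γ := by linarith
  have hω : 0 < s' + (1 + a') / 2 + a' := by
    have := h.s'0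
    have := h.a'0
    linarith
  refine ⟨?_, ?_, ?_, ?_, ?_, ?_, h.amp_pos, h.C_nonneg, ?_, ?_, ?_, ?_⟩
  · intro n
    rw [vol_pp s' (h.t_pos n)]
    have := h.t_pos n
    positivity
  · intro m n hmn
    show (pp s' a' (tt R Γ n)).vol ≤ (pp s' a' (tt R Γ m)).vol
    rw [vol_pp s' (h.t_pos n), vol_pp s' (h.t_pos m)]
    exact Real.rpow_le_rpow_of_nonpos (h.t_pos m) (h.t_mono hmn) (by linarith)
  · intro n
    have := h.t_pos n
    positivity
  · intro n
    have := h.t_pos n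
    positivity
  · intro m n hmn
    exact Real.rpow_le_rpow (h.t_pos m).le (h.t_mono hmn) h.s'0.le
  · intro m n hmn
    have := Real.rpow_le_rpow_of_nonpos (h.t_pos m) (h.t_mono hmn) (show -s ≤ 0 by linarith)
    show 2 * tt R Γ n ^ (-s) ≤ 2 * tt R Γ m ^ (-s)
    linarith
  · intro n
    linarith [h.seqs.one n]
  · intro n
    have ht := h.t_pos n
    rw [vol_half s' ht, ← Real.rpow_add ht]
    have e : s' + (gm s' a' - s') = gm s' a' := by ring
    rw [e]
    have hgm := h.gm2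
    have h1 : (Γ * R ^ n) ^ gm s' a' ≤ tt R Γ n ^ gm s' a' :=
      Real.rpow_le_rpow (by positivity) (h.t_le n) (by linarith)
    have h2 : (Γ * R ^ n) ^ gm s' a' = Γ ^ gm s' a' * (R ^ gm s' a') ^ n := by
      rw [Real.mul_rpow hG0.le (by positivity), ← Real.rpow_natCast R, ← Real.rpow_mul hR0.le,
        mul_comm (n : ℝ), Real.rpow_mul hR0.le, Real.rpow_natCast]
    have hA := h.amp_pos
    calc Ln ν s' a' R Γ n = (R ^ gm s' a') ^ n * (ampl ν s' a' R Γ * Γ ^ gm s' a') := by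
          rw [h.amp_eq]; rfl
      _ = ampl ν s' a' R Γ * (Γ ^ gm s' a' * (R ^ gm s' a') ^ n) := by ring
      _ ≤ ampl ν s' a' R Γ * tt R Γ n ^ gm s' a' := by
        rw [← h2]
        gcongr
  · intro n
    show Cc s' a' R * ((pp s' a' (tt R Γ n)).vol / (pp s' a' (tt R Γ (n + 1))).vol) ^ (1 / 2 : ℝ) ≤ 1
    have ht := h.t_pos n
    have ht' := h.t_pos (n + 1)
    have e1 : (pp s' a' (tt R Γ n)).vol / (pp s' a' (tt R Γ (n + 1))).vol
        = (tt R Γ (n + 1) / tt R Γ n) ^ (s' + (1 + a') / 2 + a') := by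
      rw [vol_pp s' ht, vol_pp s' ht', Real.div_rpow ht'.le ht.le, Real.rpow_neg ht.le,
        Real.rpow_neg ht'.le]
      field_simp
    rw [e1, ← Real.rpow_mul (by positivity)]
    have e2 : tt R Γ (n + 1) / tt R Γ n ≤ 1000 * R := by
      rw [div_le_iff₀ ht]
      exact h.t_step' n
    have e3 : (tt R Γ (n + 1) / tt R Γ n) ^ ((s' + (1 + a') / 2 + a') * (1 / 2))
        ≤ (1000 * R) ^ 2 := by
      calc (tt R Γ (n + 1) / tt R Γ n) ^ ((s' + (1 + a') / 2 + a') * (1 / 2))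
          ≤ (1000 * R) ^ ((s' + (1 + a') / 2 + a') * (1 / 2)) :=
            Real.rpow_le_rpow (by positivity) e2 (by linarith)
        _ ≤ (1000 * R) ^ (2 : ℝ) := by
          refine Real.rpow_le_rpow_of_exponent_le (by linarith) ?_
          have := h.ss
          have := h.s1
          have := h.aa
          have := h.a1
          linarith
        _ = (1000 * R) ^ 2 := by norm_cast
    have hC := h.C_nonneg
    calc _ ≤ Cc s' a' R * (1000 * R) ^ 2 := by gcongr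
      _ ≤ 1 := h.C_small
  · intro n
    have ht := h.t_pos n
    have h1 := h.pow_small (e := s' - s) (by linarith [h.ss]) h.Rs n
    calc tt R Γ n ^ s' * (2 * tt R Γ n ^ (-s)) = 2 * (tt R Γ n ^ s' * tt R Γ n ^ (-s)) := by ring
      _ = 2 * tt R Γ n ^ (s' - s) := by
        rw [← Real.rpow_add ht]
        rfl
      _ ≤ 2 * (Γ ^ (s' - s) * (1 / 4) ^ n) := by gcongr
      _ = _ := by ring

theorem Cho.Npow (h : Cho ν δ ρ s a s' a' R Γ) {e : ℝ} (he0 : 0 ≤ e) (he1 : e ≤ 1) (n : ℕ) :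
    Nn a' (tt R Γ n) ^ (-e) ≤ 2 * tt R Γ n ^ (-e) := by
  have ht := h.t_pos n
  obtain ⟨n1, n2⟩ := h.N_bd (h.Γ_le n)
  calc Nn a' (tt R Γ n) ^ (-e) ≤ (tt R Γ n / 2) ^ (-e) :=
        Real.rpow_le_rpow_of_nonpos (by positivity) n1 (by linarith)
    _ = 2 ^ e * tt R Γ n ^ (-e) := by
      rw [Real.div_rpow ht.le (by norm_num), Real.rpow_neg (by norm_num : (0 : ℝ) ≤ 2)]
      field_simp
    _ ≤ 2 * tt R Γ n ^ (-e) := by
      have : (2 : ℝ) ^ e ≤ 2 ^ (1 : ℝ) := Real.rpow_le_rpow_of_exponent_le (by norm_num) he1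
      rw [Real.rpow_one] at this
      gcongr

theorem Cho.lower (h : Cho ν δ ρ s a s' a' R Γ) :
    Lower s a δ ρ (Dop (fun n => pp s' a' (tt R Γ n)) (fun n => tt R Γ n ^ 2))
      (Gop (fun n => pp s' a' (tt R Γ n)) (Ln ν s' a' R Γ) (Cc s' a' R) (ampl ν s' a' R Γ)) := by
  have hs0 : 0 < s := h.s'0.trans h.ss
  have ha0 : 0 < a := h.a'0.trans h.aa
  refine h.fam.lower h.hyp (fun n => le_rfl) hs0.le h.s1.le (fun n => h.Npow hs0.le h.s1.le n)
    ha0.le h.a1.le (η := 4 * Γ ^ (a' - a)) (fun n => ?_) h.cδ h.cη fun n => h.K_reg (h.Γ_le n)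
  have ht := h.t_pos n
  have h1 := h.pow_small (e := a' - a) (by linarith [h.aa]) h.Ra n
  show Wn a' (tt R Γ n) * Nn a' (tt R Γ n) ^ (-a) ≤ 4 * Γ ^ (a' - a) * (1 / 4) ^ n
  calc Wn a' (tt R Γ n) * Nn a' (tt R Γ n) ^ (-a)
      ≤ 2 * tt R Γ n ^ a' * (2 * tt R Γ n ^ (-a)) := by
        unfold Wn
        have := h.Npow ha0.le h.a1.le n
        gcongr
    _ = 4 * (tt R Γ n ^ a' * tt R Γ n ^ (-a)) := by ring
    _ = 4 * tt R Γ n ^ (a' - a) := by
      rw [← Real.rpow_add ht]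
      rfl
    _ ≤ 4 * (Γ ^ (a' - a) * (1 / 4) ^ n) := by gcongr
    _ = _ := by ring

theorem Cho.main (h : Cho ν δ ρ s a s' a' R Γ) (hδ : 0 ≤ δ) :
    ∃ (D : (V → V) → V → V) (G : (V → V) → (V → V) → V → V) (T : ℝ) (u : ℝ → V → V)
      (p : ℝ → V → ℝ), Lower s a δ ρ D G ∧ 0 < T ∧ PSol ν T D G u p ∧
      (∀ M : ℝ, ∃ t ∈ Ico 0 T, ∃ x, M < ‖u t x‖) ∧
      ∀ (T' : ℝ) (v : ℝ → V → V) (q : ℝ → V → ℝ), PSol ν T' D G v q → v 0 = u 0 →
        T' ≤ T ∧ ∀ t ∈ Ico 0 T', v t = u t := by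
  have hR := h.R2
  have hG := h.Γ1
  have hR0 : 0 < R := by linarith
  have hG0 : 0 < Γ := by linarith
  have hν := h.ν0
  have hκ := h.kap_pos
  have hμ : R ^ 2 = kap s' a' R * R ^ gm s' a' := by
    unfold kap
    rw [← Real.rpow_add hR0]
    have : 2 - gm s' a' + gm s' a' = 2 := by ring
    rw [this]
    norm_cast
  have hodes : ∀ n, ν * tt R Γ (n + 1) ^ 2
      = 9 / 10 * (kap s' a' R ^ n * Ln ν s' a' R Γ n) := by
    intro n
    have e : tt R Γ (n + 1) = 1000 * R ^ (n + 1) * Γ := by unfold tt; simp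
    have e2 : kap s' a' R ^ n * (R ^ gm s' a') ^ n = (R ^ 2) ^ n := by
      rw [← mul_pow, ← hμ]
    rw [e]
    unfold Ln L0
    calc ν * (1000 * R ^ (n + 1) * Γ) ^ 2
        = 9 / 10 * ((R ^ 2) ^ n * (10 / 9 * ν * 10 ^ 6 * R ^ 2 * Γ ^ 2)) := by
          rw [pow_succ, ← pow_mul]
          ring
      _ = _ := by rw [← e2]; ring
  obtain ⟨T, x, hT, hder, hrap, hgr, hRD⟩ := ode_blow (κ := kap s' a' R) (μ := R ^ 2)
    (lam := R ^ gm s' a') (R := R) (C := Cc s' a' R) (L := Ln ν s' a' R Γ)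
    (ℓ := fun n => ν * tt R Γ n ^ 2)
    (by
      unfold Cc
      have : Real.exp (-(601 / 10000 * R ^ 2)) ≤ Real.exp (-(600 / 10000 * R ^ 2)) :=
        Real.exp_le_exp.2 (by nlinarith [sq_nonneg R])
      gcongr)
    (by
      unfold Cc
      have : Real.exp (-(600 / 10000 * R ^ 2)) ≤ Real.exp (-(599 / 10000 * R ^ 2)) :=
        Real.exp_le_exp.2 (by nlinarith [sq_nonneg R])
      gcongr)
    hκ h.Rκ hμ h.Rμ (h.seqs.one 0) h.seqs.geo hR le_rfl h.Rexp
    (fun n => by positivity)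
    (by
      have e : tt R Γ 0 = Γ := by unfold tt; simp
      have e2 : Ln ν s' a' R Γ 0 = L0 ν R Γ := by unfold Ln; simp
      rw [e, e2]
      unfold L0
      have : 0 ≤ ν * R ^ 2 * Γ ^ 2 := by positivity
      linarith)
    hodes
    ⟨ν, hν, fun n => by
      have h1 := h.t_le n
      have h2 : R ^ n ≤ tt R Γ n := by
        refine le_trans ?_ h1
        have : 0 < R ^ n := by positivity
        nlinarith
      have h3 : R ^ (2 * n) = (R ^ n) ^ 2 := by rw [← pow_mul]; ring_nf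
      rw [h3]
      gcongr⟩
  set t₀ := T / 2 with ht₀
  have ht₀0 : 0 < t₀ := by linarith
  have hsol := usol_psol (ν := ν) (t₀ := t₀) (C := Cc s' a' R) h.fam h.amp_pos ht₀0 hRD
    (fun n => rfl) hder hrap
  have hub : ∀ M : ℝ, ∃ t ∈ Ico 0 (T - t₀), ∃ z, M < ‖usol (fun n => pp s' a' (tt R Γ n))
      (ampl ν s' a' R Γ) t₀ x t z‖ := by
    intro M
    refine usol_unbounded (κ := kap s' a' R) h.fam h.amp_pos hκ hrap (by linarith) hgr ?_ ?_ M
    · -- `L n (9/1000 κ)^n = L0 (9/1000 R²)^n`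
      have e : (fun n => Ln ν s' a' R Γ n * (9 / 1000 * kap s' a' R) ^ n)
          = fun n => L0 ν R Γ * (9 / 1000 * R ^ 2) ^ n := by
        funext n
        unfold Ln
        rw [hμ]
        rw [mul_pow, mul_pow, mul_pow]
        ring
      rw [e]
      have hL0 : 1 ≤ L0 ν R Γ := h.cL
      refine Tendsto.const_mul_atTop (by linarith) (tendsto_pow_atTop_atTop_of_one_lt ?_)
      have := h.Rμ
      norm_num at this
      linarith
    · have hlow : ∀ n, (9 / 1000 * R ^ (2 - s')) ^ n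
          ≤ (9 / 1000 * kap s' a' R) ^ n * (pp s' a' (tt R Γ n)).vol ^ (-(1 / 2) : ℝ) := by
        intro n
        have ht := h.t_pos n
        rw [vol_half s' ht]
        have hgs : 0 ≤ gm s' a' - s' := by
          have := h.gm2
          have := h.ss
          have := h.s1
          linarith
        have h1 : (R ^ n) ^ (gm s' a' - s') ≤ tt R Γ n ^ (gm s' a' - s') := by
          refine Real.rpow_le_rpow (by positivity) ?_ hgs
          refine le_trans ?_ (h.t_le n)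
          have : 0 < R ^ n := by positivity
          nlinarith
        have h2 : (R ^ n) ^ (gm s' a' - s') = (R ^ (gm s' a' - s')) ^ n := by
          rw [← Real.rpow_natCast R, ← Real.rpow_mul hR0.le, mul_comm (n : ℝ),
            Real.rpow_mul hR0.le, Real.rpow_natCast]
        have h3 : R ^ (2 - s') = kap s' a' R * R ^ (gm s' a' - s') := by
          unfold kap
          rw [← Real.rpow_add hR0]
          congr 1
          ring
        calc (9 / 1000 * R ^ (2 - s')) ^ n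
            = (9 / 1000 * kap s' a' R) ^ n * (R ^ (gm s' a' - s')) ^ n := by
              rw [h3, ← mul_pow]
              ring
          _ ≤ (9 / 1000 * kap s' a' R) ^ n * tt R Γ n ^ (gm s' a' - s') := by
            rw [← h2]
            gcongr
      exact tendsto_atTop_mono hlow (tendsto_pow_atTop_atTop_of_one_lt h.Rgr)
  refine ⟨_, _, T - t₀, _, _, h.lower, by linarith, hsol, hub, ?_⟩
  intro T' v q hv h0
  exact maximal h.lower (h.s'0.trans h.ss).le h.s1.le hδ hν hsol hub hv h0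

end cho

end Pool.Agent.V1178.NS
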