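import Pool.Agent.V1178.NS.Time

/-!
Smoothness of series `∑ y n (t) * Φ n (x)` with rapidly decreasing coefficients `y n` and functions
`Φ n` whose derivatives are polynomially bounded.
-/

open Set Filter Topology
open scoped ContDiff

set_option autoImplicit false

namespace Pool.Agent.V1178.NS

section fam

variable {E : Type*} [NormedAddCommGroup E] [NormedSpace ℝ E] {L : ℕ → ℝ}

/-- all derivatives decrease rapidly -/
structure RB (L : ℕ → ℝ) (Φ : ℕ → E → ℝ) : Prop where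
  smooth : ∀ n, ContDiff ℝ ∞ (Φ n)
  bound : ∀ k m : ℕ, ∃ C, ∀ n x, L n ^ m * ‖iteratedFDeriv ℝ k (Φ n) x‖ ≤ C

/-- all derivatives are polynomially bounded -/
structure PB (L : ℕ → ℝ) (Φ : ℕ → E → ℝ) : Prop where
  smooth : ∀ n, ContDiff ℝ ∞ (Φ n)
  bound : ∀ k : ℕ, ∃ (C : ℝ) (m : ℕ), ∀ n x, ‖iteratedFDeriv ℝ k (Φ n) x‖ ≤ C * L n ^ m

/-- uniform bounds for finitely many derivatives -/
theorem PB.unif (hL : ∀ n, 1 ≤ L n) {Φ : ℕ → E → ℝ} (h : PB L Φ) (k : ℕ) :
    ∃ (C : ℝ) (m : ℕ), 0 ≤ C ∧ ∀ j ≤ k, ∀ n x, ‖iteratedFDeriv ℝ j (Φ n) x‖ ≤ C * L n ^ m := by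
  induction k with
  | zero =>
    obtain ⟨C, m, hC⟩ := h.bound 0
    refine ⟨|C|, m, abs_nonneg C, fun j hj n x => ?_⟩
    obtain rfl : j = 0 := by omega
    refine (hC n x).trans (mul_le_mul_of_nonneg_right (le_abs_self C) ?_)
    exact pow_nonneg (by linarith [hL n]) m
  | succ k ih =>
    obtain ⟨C, m, hC0, hC⟩ := ih
    obtain ⟨D, p, hD⟩ := h.bound (k + 1)
    refine ⟨C + |D|, m + p, by positivity, fun j hj n x => ?_⟩
    have h1 : (1 : ℝ) ≤ L n ^ m := one_le_pow₀ (hL n)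
    have h2 : (1 : ℝ) ≤ L n ^ p := one_le_pow₀ (hL n)
    rcases Nat.lt_or_ge j (k + 1) with hj' | hj'
    · refine (hC j (by omega) n x).trans ?_
      rw [pow_add]
      calc C * L n ^ m ≤ C * (L n ^ m * L n ^ p) := by
            gcongr; exact le_mul_of_one_le_right (by linarith) h2
        _ ≤ (C + |D|) * (L n ^ m * L n ^ p) := by
            gcongr; linarith [abs_nonneg D]
    · obtain rfl : j = k + 1 := by omega
      refine (hD n x).trans ?_
      rw [pow_add]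
      calc D * L n ^ p ≤ |D| * L n ^ p := by gcongr; exact le_abs_self D
        _ ≤ |D| * (L n ^ m * L n ^ p) := by
            gcongr; exact le_mul_of_one_le_left (by linarith) h1
        _ ≤ (C + |D|) * (L n ^ m * L n ^ p) := by gcongr; linarith

theorem RB.unif {Φ : ℕ → E → ℝ} (h : RB L Φ) (k m : ℕ) :
    ∃ C : ℝ, 0 ≤ C ∧ ∀ j ≤ k, ∀ n x, L n ^ m * ‖iteratedFDeriv ℝ j (Φ n) x‖ ≤ C := by
  induction k with
  | zero =>
    obtain ⟨C, hC⟩ := h.bound 0 m
    refine ⟨|C|, abs_nonneg C, fun j hj n x => ?_⟩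
    obtain rfl : j = 0 := by omega
    exact (hC n x).trans (le_abs_self C)
  | succ k ih =>
    obtain ⟨C, hC0, hC⟩ := ih
    obtain ⟨D, hD⟩ := h.bound (k + 1) m
    refine ⟨C + |D|, by positivity, fun j hj n x => ?_⟩
    rcases Nat.lt_or_ge j (k + 1) with hj' | hj'
    · linarith [hC j (by omega) n x, abs_nonneg D]
    · obtain rfl : j = k + 1 := by omega
      linarith [hD n x, le_abs_self D]

theorem RB.mul_PB (hL : ∀ n, 1 ≤ L n) {Φ Ψ : ℕ → E → ℝ} (h : RB L Φ) (h' : PB L Ψ) :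
    RB L (fun n x => Φ n x * Ψ n x) where
  smooth := fun n => (h.smooth n).mul (h'.smooth n)
  bound := by
    intro k m
    obtain ⟨D, p, hD0, hD⟩ := h'.unif hL k
    obtain ⟨C, hC0, hC⟩ := h.unif k (m + p)
    refine ⟨∑ i ∈ Finset.range (k + 1), (k.choose i : ℝ) * (C * D), fun n x => ?_⟩
    have hLn : 0 < L n := by linarith [hL n]
    have h1 := norm_iteratedFDeriv_mul_le (h.smooth n) (h'.smooth n) x
      (n := k) (by exact_mod_cast le_top)
    calc L n ^ m * ‖iteratedFDeriv ℝ k (fun x => Φ n x * Ψ n x) x‖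
        ≤ L n ^ m * ∑ i ∈ Finset.range (k + 1), (k.choose i : ℝ)
          * ‖iteratedFDeriv ℝ i (Φ n) x‖ * ‖iteratedFDeriv ℝ (k - i) (Ψ n) x‖ := by gcongr
      _ = ∑ i ∈ Finset.range (k + 1), (k.choose i : ℝ)
          * ((L n ^ m * ‖iteratedFDeriv ℝ i (Φ n) x‖) * ‖iteratedFDeriv ℝ (k - i) (Ψ n) x‖) := by
          rw [Finset.mul_sum]
          exact Finset.sum_congr rfl fun i _ => by ring
      _ ≤ _ := by
          refine Finset.sum_le_sum fun i hi => ?_
          have hi' : i ≤ k := by simpa [Nat.lt_succ_iff] using hi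
          refine mul_le_mul_of_nonneg_left ?_ (by positivity)
          calc (L n ^ m * ‖iteratedFDeriv ℝ i (Φ n) x‖) * ‖iteratedFDeriv ℝ (k - i) (Ψ n) x‖
              ≤ (L n ^ m * ‖iteratedFDeriv ℝ i (Φ n) x‖) * (D * L n ^ p) := by
                gcongr
                exact hD (k - i) (by omega) n x
            _ = (L n ^ (m + p) * ‖iteratedFDeriv ℝ i (Φ n) x‖) * D := by rw [pow_add]; ring
            _ ≤ C * D := by
                gcongr
                exact hC i hi' n x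

theorem PB.mul (hL : ∀ n, 1 ≤ L n) {Φ Ψ : ℕ → E → ℝ} (h : PB L Φ) (h' : PB L Ψ) :
    PB L (fun n x => Φ n x * Ψ n x) where
  smooth := fun n => (h.smooth n).mul (h'.smooth n)
  bound := by
    intro k
    obtain ⟨D, p, hD0, hD⟩ := h'.unif hL k
    obtain ⟨C, m, hC0, hC⟩ := h.unif hL k
    refine ⟨∑ i ∈ Finset.range (k + 1), (k.choose i : ℝ) * (C * D), m + p, fun n x => ?_⟩
    have hLn : 0 < L n := by linarith [hL n]
    have h1 := norm_iteratedFDeriv_mul_le (h.smooth n) (h'.smooth n) x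
      (n := k) (by exact_mod_cast le_top)
    refine h1.trans ?_
    rw [Finset.sum_mul]
    refine Finset.sum_le_sum fun i hi => ?_
    have hi' : i ≤ k := by simpa [Nat.lt_succ_iff] using hi
    calc (k.choose i : ℝ) * ‖iteratedFDeriv ℝ i (Φ n) x‖ * ‖iteratedFDeriv ℝ (k - i) (Ψ n) x‖
        ≤ (k.choose i : ℝ) * (C * L n ^ m) * (D * L n ^ p) := by
          gcongr
          · exact hC i hi' n x
          · exact hD (k - i) (by omega) n x
      _ = (k.choose i : ℝ) * (C * D) * L n ^ (m + p) := by rw [pow_add]; ring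

theorem PB.add (hL : ∀ n, 1 ≤ L n) {Φ Ψ : ℕ → E → ℝ} (h : PB L Φ) (h' : PB L Ψ) :
    PB L (fun n x => Φ n x + Ψ n x) where
  smooth := fun n => (h.smooth n).add (h'.smooth n)
  bound := by
    intro k
    obtain ⟨C, m, hC⟩ := h.bound k
    obtain ⟨D, p, hD⟩ := h'.bound k
    refine ⟨|C| + |D|, m + p, fun n x => ?_⟩
    have e : iteratedFDeriv ℝ k (fun x => Φ n x + Ψ n x) x
        = iteratedFDeriv ℝ k (Φ n) x + iteratedFDeriv ℝ k (Ψ n) x := by
      have := iteratedFDeriv_add_apply (𝕜 := ℝ) (i := k) (x := x)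
        ((h.smooth n).contDiffAt.of_le (by exact_mod_cast le_top))
        ((h'.smooth n).contDiffAt.of_le (by exact_mod_cast le_top))
      exact this
    rw [e]
    have h1 : (1 : ℝ) ≤ L n ^ m := one_le_pow₀ (hL n)
    have h2 : (1 : ℝ) ≤ L n ^ p := one_le_pow₀ (hL n)
    refine (norm_add_le _ _).trans ?_
    rw [add_mul, pow_add]
    have a1 : ‖iteratedFDeriv ℝ k (Φ n) x‖ ≤ |C| * (L n ^ m * L n ^ p) := by
      refine (hC n x).trans ?_
      calc C * L n ^ m ≤ |C| * L n ^ m := by gcongr; exact le_abs_self C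
        _ ≤ |C| * (L n ^ m * L n ^ p) := by
          gcongr; exact le_mul_of_one_le_right (by linarith) h2
    have a2 : ‖iteratedFDeriv ℝ k (Ψ n) x‖ ≤ |D| * (L n ^ m * L n ^ p) := by
      refine (hD n x).trans ?_
      calc D * L n ^ p ≤ |D| * L n ^ p := by gcongr; exact le_abs_self D
        _ ≤ |D| * (L n ^ m * L n ^ p) := by
          gcongr; exact le_mul_of_one_le_left (by linarith) h1
    linarith

/-- polynomially bounded constants -/
theorem PB.const {a : ℕ → ℝ} {K : ℝ} {p : ℕ} (ha : ∀ n, |a n| ≤ K * L n ^ p) :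
    PB L (fun n (_ : E) => a n) where
  smooth := fun n => contDiff_const
  bound := by
    intro k
    cases k with
    | zero =>
      refine ⟨K, p, fun n x => ?_⟩
      rw [norm_iteratedFDeriv_zero]
      exact ha n
    | succ k =>
      refine ⟨0, 0, fun n x => ?_⟩
      rw [iteratedFDeriv_const_of_ne (by omega)]
      simp

/-- rapidly decreasing constants -/
theorem RB.const {a : ℕ → ℝ} (ha : ∀ m : ℕ, ∃ C, ∀ n, L n ^ m * |a n| ≤ C) :
    RB L (fun n (_ : E) => a n) where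
  smooth := fun n => contDiff_const
  bound := by
    intro k m
    cases k with
    | zero =>
      obtain ⟨C, hC⟩ := ha m
      refine ⟨C, fun n x => ?_⟩
      rw [norm_iteratedFDeriv_zero]
      exact hC n
    | succ k =>
      refine ⟨0, fun n x => ?_⟩
      rw [iteratedFDeriv_const_of_ne (by omega)]
      simp

theorem RB.comp {F : Type*} [NormedAddCommGroup F] [NormedSpace ℝ F] {Φ : ℕ → F → ℝ}
    (h : RB L Φ) (hL : ∀ n, 1 ≤ L n) (g : E →L[ℝ] F) : RB L (fun n x => Φ n (g x)) where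
  smooth := fun n => (h.smooth n).comp g.contDiff
  bound := by
    intro k m
    obtain ⟨C, hC⟩ := h.bound k m
    refine ⟨|C| * ‖g‖ ^ k, fun n x => ?_⟩
    have e := g.iteratedFDeriv_comp_right (h.smooth n) x (i := k) (by exact_mod_cast le_top)
    have e2 : iteratedFDeriv ℝ k (fun x => Φ n (g x)) x
        = (iteratedFDeriv ℝ k (Φ n) (g x)).compContinuousLinearMap fun _ => g := e
    rw [e2]
    have h1 := (iteratedFDeriv ℝ k (Φ n) (g x)).norm_compContinuousLinearMap_le fun _ => g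
    rw [Finset.prod_const, Finset.card_univ, Fintype.card_fin] at h1
    have hLn : 0 ≤ L n ^ m := pow_nonneg (by linarith [hL n]) m
    calc L n ^ m * ‖(iteratedFDeriv ℝ k (Φ n) (g x)).compContinuousLinearMap fun _ => g‖
        ≤ L n ^ m * (‖iteratedFDeriv ℝ k (Φ n) (g x)‖ * ‖g‖ ^ k) := by gcongr
      _ = (L n ^ m * ‖iteratedFDeriv ℝ k (Φ n) (g x)‖) * ‖g‖ ^ k := by ring
      _ ≤ |C| * ‖g‖ ^ k := by
        gcongr
        exact (hC n _).trans (le_abs_self C)

theorem PB.comp {F : Type*} [NormedAddCommGroup F] [NormedSpace ℝ F] {Φ : ℕ → F → ℝ}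
    (h : PB L Φ) (hL : ∀ n, 1 ≤ L n) (g : E →L[ℝ] F) : PB L (fun n x => Φ n (g x)) where
  smooth := fun n => (h.smooth n).comp g.contDiff
  bound := by
    intro k
    obtain ⟨C, m, hC⟩ := h.bound k
    refine ⟨|C| * ‖g‖ ^ k, m, fun n x => ?_⟩
    have e := g.iteratedFDeriv_comp_right (h.smooth n) x (i := k) (by exact_mod_cast le_top)
    have e2 : iteratedFDeriv ℝ k (fun x => Φ n (g x)) x
        = (iteratedFDeriv ℝ k (Φ n) (g x)).compContinuousLinearMap fun _ => g := e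
    rw [e2]
    have h1 := (iteratedFDeriv ℝ k (Φ n) (g x)).norm_compContinuousLinearMap_le fun _ => g
    rw [Finset.prod_const, Finset.card_univ, Fintype.card_fin] at h1
    have hLn : 0 ≤ L n ^ m := pow_nonneg (by linarith [hL n]) m
    calc ‖(iteratedFDeriv ℝ k (Φ n) (g x)).compContinuousLinearMap fun _ => g‖
        ≤ ‖iteratedFDeriv ℝ k (Φ n) (g x)‖ * ‖g‖ ^ k := h1
      _ ≤ (|C| * L n ^ m) * ‖g‖ ^ k := by
        gcongr
        exact (hC n _).trans (mul_le_mul_of_nonneg_right (le_abs_self C) hLn)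
      _ = |C| * ‖g‖ ^ k * L n ^ m := by ring

/-- the series of a rapidly decreasing family is smooth -/
theorem RB.summ (hL : ∀ n, 1 ≤ L n) (hs : Summable fun n => (L n)⁻¹) {Φ : ℕ → E → ℝ}
    (h : RB L Φ) (k : ℕ) : ∃ v : ℕ → ℝ, Summable v ∧ ∀ n x, ‖iteratedFDeriv ℝ k (Φ n) x‖ ≤ v n := by
  obtain ⟨C, hC⟩ := h.bound k 1
  refine ⟨fun n => C * (L n)⁻¹, hs.mul_left C, fun n x => ?_⟩
  have h1 := hC n x
  have h2 : 0 < L n := by linarith [hL n]
  rw [pow_one] at h1
  show _ ≤ C * (L n)⁻¹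
  rw [← div_eq_mul_inv, le_div_iff₀ h2]
  linarith

theorem RB.contDiff_tsum (hL : ∀ n, 1 ≤ L n) (hs : Summable fun n => (L n)⁻¹) {Φ : ℕ → E → ℝ}
    (h : RB L Φ) : ContDiff ℝ ∞ (fun x => ∑' n, Φ n x) := by
  choose v hv hv2 using h.summ hL hs
  exact _root_.contDiff_tsum (N := ⊤) h.smooth (fun k _ => hv k) (fun k n x _ => hv2 k n x)

theorem RB.summable (hL : ∀ n, 1 ≤ L n) (hs : Summable fun n => (L n)⁻¹) {Φ : ℕ → E → ℝ}
    (h : RB L Φ) (x : E) : Summable fun n => Φ n x := by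
  obtain ⟨v, hv, hv2⟩ := h.summ hL hs 0
  refine Summable.of_norm_bounded hv fun n => ?_
  have := hv2 n x
  rwa [norm_iteratedFDeriv_zero] at this

theorem RB.fderiv_tsum (hL : ∀ n, 1 ≤ L n) (hs : Summable fun n => (L n)⁻¹) {Φ : ℕ → E → ℝ}
    (h : RB L Φ) (x : E) : fderiv ℝ (fun x => ∑' n, Φ n x) x = ∑' n, fderiv ℝ (Φ n) x := by
  obtain ⟨v, hv, hv2⟩ := h.summ hL hs 1
  refine fderiv_tsum_apply hv (fun n => (h.smooth n).differentiable (by simp)) (fun n y => ?_)
    (h.summable hL hs 0) x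
  have := hv2 n y
  rwa [norm_iteratedFDeriv_one] at this

theorem RB.summable_fderiv (hL : ∀ n, 1 ≤ L n) (hs : Summable fun n => (L n)⁻¹) {Φ : ℕ → E → ℝ}
    (h : RB L Φ) (x : E) : Summable fun n => fderiv ℝ (Φ n) x := by
  obtain ⟨v, hv, hv2⟩ := h.summ hL hs 1
  refine Summable.of_norm_bounded hv fun n => ?_
  have := hv2 n x
  rwa [norm_iteratedFDeriv_one] at this

theorem RB.fderiv_apply (hL : ∀ n, 1 ≤ L n) {Φ : ℕ → E → ℝ}
    (h : RB L Φ) (v : E) : RB L (fun n x => fderiv ℝ (Φ n) x v) where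
  smooth := fun n => ((h.smooth n).fderiv_right (m := ∞) (by simp)).clm_apply contDiff_const
  bound := by
    intro k m
    obtain ⟨C, hC⟩ := h.bound (k + 1) m
    refine ⟨|C| * ‖v‖, fun n x => ?_⟩
    have hLn : 0 ≤ L n ^ m := pow_nonneg (by linarith [hL n]) m
    have hf : ContDiff ℝ k (fderiv ℝ (Φ n)) := (h.smooth n).fderiv_right (m := k) (by
      exact_mod_cast le_top)
    have h1 : ‖iteratedFDeriv ℝ k (fun x => fderiv ℝ (Φ n) x v) x‖
        ≤ ‖v‖ * ‖iteratedFDeriv ℝ k (fderiv ℝ (Φ n)) x‖ := by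
      have := norm_iteratedFDeriv_clm_apply_const (𝕜 := ℝ) (f := fderiv ℝ (Φ n)) (c := v) (x := x)
        (N := k) (n := k) hf.contDiffAt le_rfl
      exact this
    rw [norm_iteratedFDeriv_fderiv] at h1
    calc L n ^ m * ‖iteratedFDeriv ℝ k (fun x => fderiv ℝ (Φ n) x v) x‖
        ≤ L n ^ m * (‖v‖ * ‖iteratedFDeriv ℝ (k + 1) (Φ n) x‖) := by gcongr
      _ = (L n ^ m * ‖iteratedFDeriv ℝ (k + 1) (Φ n) x‖) * ‖v‖ := by ring
      _ ≤ |C| * ‖v‖ := by
        gcongr
        exact (hC n x).trans (le_abs_self C)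

theorem PB.fderiv_apply (hL : ∀ n, 1 ≤ L n) {Φ : ℕ → E → ℝ}
    (h : PB L Φ) (v : E) : PB L (fun n x => fderiv ℝ (Φ n) x v) where
  smooth := fun n => ((h.smooth n).fderiv_right (m := ∞) (by simp)).clm_apply contDiff_const
  bound := by
    intro k
    obtain ⟨C, m, hC⟩ := h.bound (k + 1)
    refine ⟨‖v‖ * C, m, fun n x => ?_⟩
    have hf : ContDiff ℝ k (fderiv ℝ (Φ n)) := (h.smooth n).fderiv_right (m := k) (by
      exact_mod_cast le_top)
    have h1 : ‖iteratedFDeriv ℝ k (fun x => fderiv ℝ (Φ n) x v) x‖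
        ≤ ‖v‖ * ‖iteratedFDeriv ℝ k (fderiv ℝ (Φ n)) x‖ := by
      have := norm_iteratedFDeriv_clm_apply_const (𝕜 := ℝ) (f := fderiv ℝ (Φ n)) (c := v) (x := x)
        (N := k) (n := k) hf.contDiffAt le_rfl
      exact this
    rw [norm_iteratedFDeriv_fderiv] at h1
    calc ‖iteratedFDeriv ℝ k (fun x => fderiv ℝ (Φ n) x v) x‖
        ≤ ‖v‖ * ‖iteratedFDeriv ℝ (k + 1) (Φ n) x‖ := h1
      _ ≤ ‖v‖ * (C * L n ^ m) := by gcongr; exact hC n x
      _ = _ := by ring

end fam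

/-! ### cut-off in time -/

section cut

variable {L : ℕ → ℝ} {T : ℝ}

theorem cut_aux (hL : ∀ n, 1 ≤ L n) {a b : ℝ} (ha : 0 < a) (hb : b < T) (k : ℕ) :
    ∀ {χ : ℝ → ℝ} {y : ℕ → ℝ → ℝ}, ContDiff ℝ ∞ χ → (∀ t, t ∉ Icc a b → χ t = 0) →
    (∀ j, RD L T j y) → (∀ n, ContDiff ℝ k (fun t => χ t * y n t)) ∧ ∀ m : ℕ,
      ∃ C, ∀ n t, L n ^ m * |iteratedDeriv k (fun t => χ t * y n t) t| ≤ C := by
  have hbd : ∀ {χ : ℝ → ℝ} {y : ℕ → ℝ → ℝ}, ContDiff ℝ ∞ χ → (∀ t, t ∉ Icc a b → χ t = 0) →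
    (∀ j, RD L T j y) → ∀ m : ℕ, ∃ C, ∀ n t, L n ^ m * |χ t * y n t| ≤ C := by
    intro χ y hχ hχ0 hy m
    obtain ⟨M, hM⟩ := (hy 0).rp m a b ha hb
    obtain ⟨K, hK⟩ := (isCompact_Icc (a := a) (b := b)).exists_bound_of_continuousOn
      hχ.continuous.continuousOn
    refine ⟨|K| * |M|, fun n t => ?_⟩
    have hLn : 0 ≤ L n ^ m := pow_nonneg (by linarith [hL n]) m
    by_cases ht : t ∈ Icc a b
    · have h1 := hM t ht n
      have h2 : |χ t| ≤ |K| := (hK t ht).trans (le_abs_self K)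
      calc L n ^ m * |χ t * y n t| = |χ t| * (L n ^ m * |y n t|) := by rw [abs_mul]; ring
        _ ≤ |K| * |M| := by
          gcongr
          exact h1.trans (le_abs_self M)
    · rw [hχ0 t ht]
      simp only [zero_mul, abs_zero, mul_zero]
      positivity
  induction k with
  | zero =>
    intro χ y hχ hχ0 hy
    refine ⟨fun n => ?_, fun m => ?_⟩
    · rw [show ((0 : ℕ) : WithTop ℕ∞) = 0 by rfl, contDiff_zero]
      rw [continuous_iff_continuousAt]
      intro t
      by_cases ht : t ∈ Ioo 0 T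
      · exact hχ.continuous.continuousAt.mul ((hy 1).2.1 n t ht).continuousAt
      · have h1 : (fun s => χ s * y n s) =ᶠ[𝓝 t] fun _ => 0 := by
          have : (Icc a b)ᶜ ∈ 𝓝 t := isClosed_Icc.isOpen_compl.mem_nhds fun h =>
            ht ⟨ha.trans_le h.1, h.2.trans_lt hb⟩
          filter_upwards [this] with s hs
          rw [hχ0 s hs, zero_mul]
        exact continuousAt_const.congr h1.symm
    · obtain ⟨C, hC⟩ := hbd hχ hχ0 hy m
      exact ⟨C, fun n t => by rw [iteratedDeriv_zero]; exact hC n t⟩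
  | succ k ih =>
    intro χ y hχ hχ0 hy
    have hχ' : ContDiff ℝ ∞ (deriv χ) := hχ.deriv'
    have hχ0' : ∀ t, t ∉ Icc a b → deriv χ t = 0 := by
      intro t ht
      have h1 : χ =ᶠ[𝓝 t] fun _ => 0 := by
        filter_upwards [isClosed_Icc.isOpen_compl.mem_nhds ht] with s hs
        exact hχ0 s hs
      rw [h1.deriv_eq, deriv_const]
    have hd : ∀ n t, HasDerivAt (fun t => χ t * y n t)
        (deriv χ t * y n t + χ t * deriv (y n) t) t := by
      intro n t
      by_cases ht : t ∈ Ioo 0 T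
      · exact (hχ.differentiable (by simp) t).hasDerivAt.mul ((hy 1).2.1 n t ht).hasDerivAt
      · have h0 : t ∉ Icc a b := fun h => ht ⟨ha.trans_le h.1, h.2.trans_lt hb⟩
        have h1 : (fun s => χ s * y n s) =ᶠ[𝓝 t] fun _ => 0 := by
          filter_upwards [isClosed_Icc.isOpen_compl.mem_nhds h0] with s hs
          rw [hχ0 s hs, zero_mul]
        rw [hχ0' t h0, hχ0 t h0, zero_mul, zero_mul, add_zero]
        exact (hasDerivAt_const t (0 : ℝ)).congr_of_eventuallyEq h1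
    have hderiv : ∀ n, deriv (fun t => χ t * y n t)
        = fun t => deriv χ t * y n t + χ t * deriv (y n) t := fun n => funext fun t => (hd n t).deriv
    obtain ⟨s1, b1⟩ := ih hχ' hχ0' hy
    obtain ⟨s2, b2⟩ := ih hχ hχ0 (fun j => (hy (j + 1)).2.2)
    refine ⟨fun n => ?_, fun m => ?_⟩
    · rw [show ((k + 1 : ℕ) : WithTop ℕ∞) = (k : WithTop ℕ∞) + 1 by push_cast; rfl,
        contDiff_succ_iff_deriv]
      refine ⟨fun t => (hd n t).differentiableAt, fun h => absurd h (by simp), ?_⟩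
      rw [hderiv]
      exact (s1 n).add (s2 n)
    · obtain ⟨C, hC⟩ := b1 m
      obtain ⟨D, hD⟩ := b2 m
      refine ⟨C + D, fun n t => ?_⟩
      rw [iteratedDeriv_succ', hderiv]
      have e : iteratedDeriv k (fun t => deriv χ t * y n t + χ t * deriv (y n) t) t
          = iteratedDeriv k (fun t => deriv χ t * y n t) t
            + iteratedDeriv k (fun t => χ t * deriv (y n) t) t :=
        iteratedDeriv_fun_add (s1 n).contDiffAt (s2 n).contDiffAt
      rw [e]
      have hLn : 0 ≤ L n ^ m := pow_nonneg (by linarith [hL n]) m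
      have := mul_le_mul_of_nonneg_left (abs_add_le (iteratedDeriv k (fun t => deriv χ t * y n t) t)
        (iteratedDeriv k (fun t => χ t * deriv (y n) t) t)) hLn
      linarith [hC n t, hD n t]

theorem cut_RB (hL : ∀ n, 1 ≤ L n) {a b : ℝ} (ha : 0 < a) (hb : b < T)
    {χ : ℝ → ℝ} {y : ℕ → ℝ → ℝ} (hχ : ContDiff ℝ ∞ χ) (hχ0 : ∀ t, t ∉ Icc a b → χ t = 0)
    (hy : ∀ j, RD L T j y) : RB L (fun n t => χ t * y n t) where
  smooth := fun n => contDiff_infty.2 fun k => (cut_aux hL ha hb k hχ hχ0 hy).1 n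
  bound := by
    intro k m
    obtain ⟨C, hC⟩ := (cut_aux hL ha hb k hχ hχ0 hy).2 m
    refine ⟨C, fun n t => ?_⟩
    rw [norm_iteratedFDeriv_eq_norm_iteratedDeriv]
    exact hC n t

end cut

end Pool.Agent.V1178.NS
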