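import Pool.Agent.H459R3.NS.Sol
import Pool.Agent.V1178.NS.Series

/-!
One-dimensional functions with support in `[1/4, 3/4]`, extended periodically, and products of such
functions of the three coordinates.
-/

open Set Filter Topology MeasureTheory
open scoped ContDiff

set_option autoImplicit false

namespace Pool.Agent.V1178.NS

open H459R3.NS

/-- periodic extension of a function on `[0, 1)` -/
noncomputable def per1 (f : ℝ → ℝ) (z : ℝ) : ℝ := f (Int.fract z)

/-- support in `[1/4, 3/4]` -/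
def Sup (f : ℝ → ℝ) : Prop := ∀ z, z ∉ Icc (1 / 4 : ℝ) (3 / 4) → f z = 0

theorem per1_eq {f : ℝ → ℝ} (hf : Sup f) (z : ℝ) :
    per1 f =ᶠ[𝓝 z] fun w => f (w - ⌊z⌋) := by
  by_cases hz : Int.fract z = 0
  · have h1 : (⌊z⌋ : ℝ) = z := by
      have := Int.floor_add_fract z
      rw [hz, add_zero] at this
      exact this
    have h2 : Ioo (z - 1 / 4) (z + 1 / 4) ∈ 𝓝 z := Ioo_mem_nhds (by linarith) (by linarith)
    filter_upwards [h2] with w hw
    unfold per1
    rw [h1]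
    rcases le_or_gt z w with h | h
    · have h3 : ⌊w⌋ = ⌊z⌋ := by
        rw [Int.floor_eq_iff]
        rw [h1]
        exact ⟨h, by linarith [hw.2]⟩
      rw [Int.fract, h3, h1]
    · have h3 : ⌊w⌋ = ⌊z⌋ - 1 := by
        rw [Int.floor_eq_iff]
        push_cast
        rw [h1]
        exact ⟨by linarith [hw.1], by linarith⟩
      rw [hf (Int.fract w) (fun h4 => by
        rw [Int.fract, h3] at h4
        push_cast at h4
        rw [h1] at h4
        linarith [h4.2, hw.1]), hf (w - z) (fun h4 => by linarith [h4.1])]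
  · have h1 : 0 < Int.fract z := lt_of_le_of_ne (Int.fract_nonneg z) (Ne.symm hz)
    have h3 : (⌊z⌋ : ℝ) < z := by
      have := Int.self_sub_floor z
      linarith
    have h4 : z < ⌊z⌋ + 1 := Int.lt_floor_add_one z
    filter_upwards [Ioo_mem_nhds h3 h4] with w hw
    unfold per1
    have h5 : ⌊w⌋ = ⌊z⌋ := by
      rw [Int.floor_eq_iff]
      exact ⟨hw.1.le, hw.2⟩
    rw [Int.fract, h5]

theorem per1_periodic (f : ℝ → ℝ) (z : ℝ) : per1 f (z + 1) = per1 f z := by
  unfold per1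
  rw [Int.fract_add_one]

theorem Sup.deriv {f : ℝ → ℝ} (hf : Sup f) : Sup (deriv f) := by
  intro z hz
  have h1 : f =ᶠ[𝓝 z] fun _ => 0 := by
    filter_upwards [isClosed_Icc.isOpen_compl.mem_nhds hz] with w hw
    exact hf w hw
  rw [h1.deriv_eq, deriv_const]

theorem per1_hasDerivAt {f : ℝ → ℝ} (hf : Sup f) (hd : Differentiable ℝ f) (z : ℝ) :
    HasDerivAt (per1 f) (per1 (deriv f) z) z := by
  have h1 : HasDerivAt (fun w => f (w - ⌊z⌋)) (deriv f (z - ⌊z⌋)) z :=
    (hd _).hasDerivAt.comp_sub_const z (⌊z⌋ : ℝ)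
  have h2 : per1 (deriv f) z = deriv f (z - ⌊z⌋) := by
    unfold per1
    rw [Int.self_sub_floor]
  rw [h2]
  exact h1.congr_of_eventuallyEq (per1_eq hf z)

theorem per1_deriv {f : ℝ → ℝ} (hf : Sup f) (hd : Differentiable ℝ f) :
    deriv (per1 f) = per1 (deriv f) := funext fun z => (per1_hasDerivAt hf hd z).deriv

theorem per1_contDiff {f : ℝ → ℝ} (hf : Sup f) (hd : ContDiff ℝ ∞ f) :
    ContDiff ℝ ∞ (per1 f) := by
  rw [contDiff_iff_contDiffAt]
  intro z
  have h1 : ContDiff ℝ ∞ (fun w => f (w - ⌊z⌋)) := hd.comp (contDiff_id.sub contDiff_const)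
  exact h1.contDiffAt.congr_of_eventuallyEq (per1_eq hf z)

/-- product of three one-dimensional functions -/
noncomputable def T3 (f g h : ℝ → ℝ) (x : V) : ℝ := per1 f (x 0) * per1 g (x 1) * per1 h (x 2)

/-- smooth functions with support in `[1/4, 3/4]` -/
structure S1 (f : ℝ → ℝ) : Prop where
  smooth : ContDiff ℝ ∞ f
  sup : Sup f

theorem S1.diff {f : ℝ → ℝ} (h : S1 f) : Differentiable ℝ f := h.smooth.differentiable (by simp)

theorem S1.deriv {f : ℝ → ℝ} (h : S1 f) : S1 (deriv f) :=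
  ⟨h.smooth.deriv', h.sup.deriv⟩

theorem hasFDerivAt_per1 {f : ℝ → ℝ} (h : S1 f) (i : Fin 3) (x : V) :
    HasFDerivAt (fun y : V => per1 f (y i)) (per1 (deriv f) (x i) •
      (ContinuousLinearMap.proj i : V →L[ℝ] ℝ)) x := by
  have h1 := per1_hasDerivAt h.sup h.diff (x i)
  have h2 : HasFDerivAt (fun y : V => y i) (ContinuousLinearMap.proj i : V →L[ℝ] ℝ) x :=
    (ContinuousLinearMap.proj i : V →L[ℝ] ℝ).hasFDerivAt
  exact HasDerivAt.comp_hasFDerivAt (h₂ := per1 f) (f := fun y : V => y i) x h1 h2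

theorem T3_hasFDerivAt {f g h : ℝ → ℝ} (hf : S1 f) (hg : S1 g) (hh : S1 h) (x : V) :
    HasFDerivAt (T3 f g h)
      ((per1 f (x 0) * per1 g (x 1)) • (per1 (deriv h) (x 2) •
        (ContinuousLinearMap.proj 2 : V →L[ℝ] ℝ))
      + per1 h (x 2) • (per1 f (x 0) • (per1 (deriv g) (x 1) •
        (ContinuousLinearMap.proj 1 : V →L[ℝ] ℝ))
        + per1 g (x 1) • (per1 (deriv f) (x 0) • (ContinuousLinearMap.proj 0 : V →L[ℝ] ℝ)))) x :=
  ((hasFDerivAt_per1 hf 0 x).mul (hasFDerivAt_per1 hg 1 x)).mul (hasFDerivAt_per1 hh 2 x)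

theorem T3_sp {f g h : ℝ → ℝ} (hf : S1 f) (hg : S1 g) (hh : S1 h) : SP (T3 f g h) where
  smooth := by
    have h0 : ContDiff ℝ ∞ (fun y : V => per1 f (y 0)) :=
      (per1_contDiff hf.sup hf.smooth).comp (contDiff_apply ℝ ℝ 0)
    have h1 : ContDiff ℝ ∞ (fun y : V => per1 g (y 1)) :=
      (per1_contDiff hg.sup hg.smooth).comp (contDiff_apply ℝ ℝ 1)
    have h2 : ContDiff ℝ ∞ (fun y : V => per1 h (y 2)) :=
      (per1_contDiff hh.sup hh.smooth).comp (contDiff_apply ℝ ℝ 2)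
    exact (h0.mul h1).mul h2
  per := by
    intro i x
    unfold T3
    fin_cases i <;> simp [per1_periodic]

theorem T3_pd0 {f g h : ℝ → ℝ} (hf : S1 f) (hg : S1 g) (hh : S1 h) :
    pd 0 (T3 f g h) = T3 (deriv f) g h := by
  funext x
  unfold pd
  rw [(T3_hasFDerivAt hf hg hh x).fderiv]
  simp [T3]
  ring

theorem T3_pd1 {f g h : ℝ → ℝ} (hf : S1 f) (hg : S1 g) (hh : S1 h) :
    pd 1 (T3 f g h) = T3 f (deriv g) h := by
  funext x
  unfold pd
  rw [(T3_hasFDerivAt hf hg hh x).fderiv]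
  simp [T3]
  ring

theorem T3_pd2 {f g h : ℝ → ℝ} (hf : S1 f) (hg : S1 g) (hh : S1 h) :
    pd 2 (T3 f g h) = T3 f g (deriv h) := by
  funext x
  unfold pd
  rw [(T3_hasFDerivAt hf hg hh x).fderiv]
  simp [T3]

end Pool.Agent.V1178.NS
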