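import Pool.Agent.V1178.NS.Per1

/-!
The basis functions: products of dilated derivatives of a bump function, times a wave in the third
coordinate.
-/

open Set Filter Topology MeasureTheory
open scoped ContDiff

set_option autoImplicit false

namespace Pool.Agent.V1178.NS

open H459R3.NS

/-- the bump function: `1` on `[-1/2, 1/2]`, support `[-1, 1]` -/
noncomputable def etaB : ContDiffBump (0 : ℝ) := ⟨1 / 2, 1, by norm_num, by norm_num⟩

noncomputable def eta (z : ℝ) : ℝ := etaB z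

theorem eta_smooth : ContDiff ℝ ∞ eta := etaB.contDiff

/-- the derivatives of the bump function -/
noncomputable def ek (k : ℕ) : ℝ → ℝ := iteratedDeriv k eta

theorem ek_smooth (k : ℕ) : ContDiff ℝ ∞ (ek k) := by
  unfold ek
  induction k with
  | zero => rw [iteratedDeriv_zero]; exact eta_smooth
  | succ k ih =>
    rw [iteratedDeriv_succ]
    exact ih.deriv'

theorem ek_hasDerivAt (k : ℕ) (z : ℝ) : HasDerivAt (ek k) (ek (k + 1) z) z := by
  have h1 := ((ek_smooth k).differentiable (by simp) z).hasDerivAt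
  have h2 : ek (k + 1) = deriv (ek k) := iteratedDeriv_succ
  rw [h2]
  exact h1

theorem eta_zero {z : ℝ} (hz : 1 ≤ |z|) : eta z = 0 := by
  have h1 : Function.support (etaB : ℝ → ℝ) = Metric.ball 0 1 := etaB.support_eq
  by_contra h
  have h2 : z ∈ Function.support (etaB : ℝ → ℝ) := h
  rw [h1, mem_ball_zero_iff, Real.norm_eq_abs] at h2
  linarith

theorem eta_one {z : ℝ} (hz : |z| ≤ 1 / 2) : eta z = 1 := by
  refine etaB.one_of_mem_closedBall ?_
  rw [mem_closedBall_zero_iff, Real.norm_eq_abs]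
  exact hz

theorem ek_zero (k : ℕ) : ∀ {z : ℝ}, 1 ≤ |z| → ek k z = 0 := by
  induction k with
  | zero => intro z hz; unfold ek; rw [iteratedDeriv_zero]; exact eta_zero hz
  | succ k ih =>
    have h1 : ∀ z : ℝ, 1 < |z| → ek (k + 1) z = 0 := by
      intro z hz
      have h2 : ek k =ᶠ[𝓝 z] fun _ => 0 := by
        have : {w : ℝ | 1 < |w|} ∈ 𝓝 z :=
          (isOpen_lt continuous_const continuous_abs).mem_nhds hz
        filter_upwards [this] with w hw
        exact ih (le_of_lt hw)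
      have h3 : ek (k + 1) = deriv (ek k) := iteratedDeriv_succ
      rw [h3, h2.deriv_eq, deriv_const]
    intro z hz
    rcases hz.lt_or_eq with h | h
    · exact h1 z h
    · -- boundary points: by continuity
      have hc : Continuous (ek (k + 1)) := (ek_smooth (k + 1)).continuous
      have hcl : IsClosed {w : ℝ | ek (k + 1) w = 0} := isClosed_eq hc continuous_const
      have hmem : z ∈ closure {w : ℝ | 1 < |w|} := by
        rw [Metric.mem_closure_iff]
        intro ε hε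
        have hz0 : z ≠ 0 := by
          intro h0
          rw [h0, abs_zero] at h
          norm_num at h
        refine ⟨z * (1 + ε / 2), ?_, ?_⟩
        · show 1 < |z * (1 + ε / 2)|
          rw [abs_mul, ← h, one_mul, abs_of_pos (by linarith)]
          linarith
        · rw [Real.dist_eq, show z - z * (1 + ε / 2) = -(z * (ε / 2)) by ring, abs_neg, abs_mul,
            ← h, one_mul, abs_of_pos (by linarith)]
          linarith
      exact hcl.closure_subset_iff.2 (fun w hw => h1 w hw) hmem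

theorem ek_bound (k : ℕ) : ∃ C, ∀ z, |ek k z| ≤ C := by
  obtain ⟨C, hC⟩ := (isCompact_Icc (a := (-1 : ℝ)) (b := 1)).exists_bound_of_continuousOn
    (ek_smooth k).continuous.continuousOn
  refine ⟨|C|, fun z => ?_⟩
  by_cases hz : |z| < 1
  · have h1 := hC z ⟨by linarith [(abs_lt.1 hz).1], by linarith [(abs_lt.1 hz).2]⟩
    exact h1.trans (le_abs_self C)
  · rw [ek_zero k (not_lt.1 hz), abs_zero]
    exact abs_nonneg C

/-- a bound for the `k`-th derivative -/
noncomputable def Bk (k : ℕ) : ℝ := max 1 (Classical.choose (ek_bound k))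

theorem Bk_one (k : ℕ) : 1 ≤ Bk k := le_max_left _ _

theorem Bk_pos (k : ℕ) : 0 < Bk k := by linarith [Bk_one k]

theorem ek_le (k : ℕ) (z : ℝ) : |ek k z| ≤ Bk k :=
  (Classical.choose_spec (ek_bound k) z).trans (le_max_right _ _)

/-- dilated and translated -/
noncomputable def sc (k : ℕ) (X c z : ℝ) : ℝ := ek k ((z - c) * X)

theorem sc_le (k : ℕ) (X c z : ℝ) : |sc k X c z| ≤ Bk k := ek_le k _

theorem sc_smooth (k : ℕ) (X c : ℝ) : ContDiff ℝ ∞ (sc k X c) :=
  (ek_smooth k).comp ((contDiff_id.sub contDiff_const).mul contDiff_const)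

theorem sc_hasDerivAt (k : ℕ) (X c z : ℝ) : HasDerivAt (sc k X c) (X * sc (k + 1) X c z) z := by
  have h1 : HasDerivAt (fun w : ℝ => (w - c) * X) X z := by
    have := ((hasDerivAt_id z).sub_const c).mul_const X
    rw [one_mul] at this
    exact this
  have h2 := HasDerivAt.comp (h₂ := ek k) z (ek_hasDerivAt k ((z - c) * X)) h1
  rw [mul_comm] at h2
  exact h2

theorem sc_zero {k : ℕ} {X c z : ℝ} (hX : 0 < X) (hz : 1 / X ≤ |z - c|) : sc k X c z = 0 := by
  refine ek_zero k ?_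
  rw [abs_mul, abs_of_pos hX]
  rwa [div_le_iff₀ hX] at hz

theorem sc_sup (k : ℕ) {X c : ℝ} (hX : 0 < X) (hc : |c - 1 / 2| + 1 / X ≤ 1 / 4) :
    Sup (sc k X c) := by
  intro z hz
  refine sc_zero hX ?_
  by_contra h
  push Not at h
  apply hz
  have h1 := abs_lt.1 h
  have h2 := abs_le.1 (show |c - 1 / 2| ≤ |c - 1 / 2| from le_rfl)
  have h3 := neg_abs_le (c - 1 / 2)
  have h4 := le_abs_self (c - 1 / 2)
  constructor <;> linarith

/-- with a wave -/
noncomputable def cc (k : ℕ) (N Z z : ℝ) : ℝ := sc k Z (1 / 2) z * Real.cos (N * z)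

noncomputable def ss (k : ℕ) (N Z z : ℝ) : ℝ := sc k Z (1 / 2) z * Real.sin (N * z)

theorem cc_le (k : ℕ) (N Z z : ℝ) : |cc k N Z z| ≤ Bk k := by
  unfold cc
  rw [abs_mul]
  calc _ ≤ Bk k * 1 := mul_le_mul (sc_le _ _ _ _) (Real.abs_cos_le_one _) (abs_nonneg _)
        (Bk_pos k).le
    _ = Bk k := mul_one _

theorem ss_le (k : ℕ) (N Z z : ℝ) : |ss k N Z z| ≤ Bk k := by
  unfold ss
  rw [abs_mul]
  calc _ ≤ Bk k * 1 := mul_le_mul (sc_le _ _ _ _) (Real.abs_sin_le_one _) (abs_nonneg _)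
        (Bk_pos k).le
    _ = Bk k := mul_one _

theorem cc_smooth (k : ℕ) (N Z : ℝ) : ContDiff ℝ ∞ (cc k N Z) :=
  (sc_smooth k Z (1 / 2)).mul (Real.contDiff_cos.comp (contDiff_const.mul contDiff_id))

theorem ss_smooth (k : ℕ) (N Z : ℝ) : ContDiff ℝ ∞ (ss k N Z) :=
  (sc_smooth k Z (1 / 2)).mul (Real.contDiff_sin.comp (contDiff_const.mul contDiff_id))

theorem cc_hasDerivAt (k : ℕ) (N Z z : ℝ) :
    HasDerivAt (cc k N Z) (Z * cc (k + 1) N Z z - N * ss k N Z z) z := by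
  have h1 : HasDerivAt (fun w : ℝ => N * w) N z := by
    have := (hasDerivAt_id z).const_mul N
    rw [mul_one] at this
    exact this
  have h2 := HasDerivAt.comp (h₂ := Real.cos) z (Real.hasDerivAt_cos (N * z)) h1
  have h3 := (sc_hasDerivAt k Z (1 / 2) z).mul h2
  refine h3.congr_deriv ?_
  simp only [Function.comp]
  unfold cc ss
  ring

theorem ss_hasDerivAt (k : ℕ) (N Z z : ℝ) :
    HasDerivAt (ss k N Z) (Z * ss (k + 1) N Z z + N * cc k N Z z) z := by
  have h1 : HasDerivAt (fun w : ℝ => N * w) N z := by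
    have := (hasDerivAt_id z).const_mul N
    rw [mul_one] at this
    exact this
  have h2 := HasDerivAt.comp (h₂ := Real.sin) z (Real.hasDerivAt_sin (N * z)) h1
  have h3 := (sc_hasDerivAt k Z (1 / 2) z).mul h2
  refine h3.congr_deriv ?_
  simp only [Function.comp]
  unfold cc ss
  ring

/-- the parameters of a packet: frequency, inverse widths, centre -/
structure Prm where
  N : ℝ
  X : ℝ
  Y : ℝ
  Z : ℝ
  c : ℝ

/-- admissible parameters -/
structure Prm.Ok (p : Prm) : Prop where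
  N1 : 1 ≤ p.N
  X1 : 8 ≤ p.X
  Y1 : 4 ≤ p.Y
  Z1 : 4 ≤ p.Z
  hc : |p.c - 1 / 2| ≤ 1 / 8

namespace Prm

variable (p : Prm)

noncomputable def fx (i : ℕ) : ℝ → ℝ := sc i p.X p.c
noncomputable def fy (i : ℕ) : ℝ → ℝ := sc i p.Y (1 / 2)

/-- basis functions -/
noncomputable def Ec (i j k : ℕ) : V → ℝ := T3 (p.fx i) (p.fy j) (cc k p.N p.Z)
noncomputable def Es (i j k : ℕ) : V → ℝ := T3 (p.fx i) (p.fy j) (ss k p.N p.Z)

variable {p}

theorem Ok.fx1 (h : p.Ok) (i : ℕ) : S1 (p.fx i) :=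
  ⟨sc_smooth _ _ _, sc_sup i (by linarith [h.X1]) (by
    have h1 : 1 / p.X ≤ 1 / 8 := one_div_le_one_div_of_le (by norm_num) h.X1
    linarith [h.hc])⟩

theorem Ok.fy1 (h : p.Ok) (i : ℕ) : S1 (p.fy i) :=
  ⟨sc_smooth _ _ _, sc_sup i (by linarith [h.Y1]) (by
    have h1 : 1 / p.Y ≤ 1 / 4 := one_div_le_one_div_of_le (by norm_num) h.Y1
    simpa using h1)⟩

theorem Ok.cc1 (h : p.Ok) (k : ℕ) : S1 (cc k p.N p.Z) :=
  ⟨cc_smooth _ _ _, fun z hz => by
    unfold cc
    rw [sc_sup k (by linarith [h.Z1]) (by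
      have h1 : 1 / p.Z ≤ 1 / 4 := one_div_le_one_div_of_le (by norm_num) h.Z1
      simpa using h1) z hz, zero_mul]⟩

theorem Ok.ss1 (h : p.Ok) (k : ℕ) : S1 (ss k p.N p.Z) :=
  ⟨ss_smooth _ _ _, fun z hz => by
    unfold ss
    rw [sc_sup k (by linarith [h.Z1]) (by
      have h1 : 1 / p.Z ≤ 1 / 4 := one_div_le_one_div_of_le (by norm_num) h.Z1
      simpa using h1) z hz, zero_mul]⟩

theorem Ok.Ec_sp (h : p.Ok) (i j k : ℕ) : SP (p.Ec i j k) := T3_sp (h.fx1 i) (h.fy1 j) (h.cc1 k)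
theorem Ok.Es_sp (h : p.Ok) (i j k : ℕ) : SP (p.Es i j k) := T3_sp (h.fx1 i) (h.fy1 j) (h.ss1 k)

theorem Ok.Ec_pd0 (h : p.Ok) (i j k : ℕ) (x : V) :
    pd 0 (p.Ec i j k) x = p.X * p.Ec (i + 1) j k x := by
  unfold Ec
  rw [T3_pd0 (h.fx1 i) (h.fy1 j) (h.cc1 k)]
  unfold T3 per1
  have e : deriv (p.fx i) (Int.fract (x 0)) = p.X * p.fx (i + 1) (Int.fract (x 0)) :=
    (sc_hasDerivAt i p.X p.c _).deriv
  rw [e]
  ring

theorem Ok.Es_pd0 (h : p.Ok) (i j k : ℕ) (x : V) :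
    pd 0 (p.Es i j k) x = p.X * p.Es (i + 1) j k x := by
  unfold Es
  rw [T3_pd0 (h.fx1 i) (h.fy1 j) (h.ss1 k)]
  unfold T3 per1
  have e : deriv (p.fx i) (Int.fract (x 0)) = p.X * p.fx (i + 1) (Int.fract (x 0)) :=
    (sc_hasDerivAt i p.X p.c _).deriv
  rw [e]
  ring

theorem Ok.Ec_pd1 (h : p.Ok) (i j k : ℕ) (x : V) :
    pd 1 (p.Ec i j k) x = p.Y * p.Ec i (j + 1) k x := by
  unfold Ec
  rw [T3_pd1 (h.fx1 i) (h.fy1 j) (h.cc1 k)]
  unfold T3 per1
  have e : deriv (p.fy j) (Int.fract (x 1)) = p.Y * p.fy (j + 1) (Int.fract (x 1)) :=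
    (sc_hasDerivAt j p.Y (1 / 2) _).deriv
  rw [e]
  ring

theorem Ok.Es_pd1 (h : p.Ok) (i j k : ℕ) (x : V) :
    pd 1 (p.Es i j k) x = p.Y * p.Es i (j + 1) k x := by
  unfold Es
  rw [T3_pd1 (h.fx1 i) (h.fy1 j) (h.ss1 k)]
  unfold T3 per1
  have e : deriv (p.fy j) (Int.fract (x 1)) = p.Y * p.fy (j + 1) (Int.fract (x 1)) :=
    (sc_hasDerivAt j p.Y (1 / 2) _).deriv
  rw [e]
  ring

theorem Ok.Ec_pd2 (h : p.Ok) (i j k : ℕ) (x : V) :
    pd 2 (p.Ec i j k) x = p.Z * p.Ec i j (k + 1) x - p.N * p.Es i j k x := by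
  unfold Ec Es
  rw [T3_pd2 (h.fx1 i) (h.fy1 j) (h.cc1 k)]
  unfold T3 per1
  rw [(cc_hasDerivAt k p.N p.Z _).deriv]
  ring

theorem Ok.Es_pd2 (h : p.Ok) (i j k : ℕ) (x : V) :
    pd 2 (p.Es i j k) x = p.Z * p.Es i j (k + 1) x + p.N * p.Ec i j k x := by
  unfold Ec Es
  rw [T3_pd2 (h.fx1 i) (h.fy1 j) (h.ss1 k)]
  unfold T3 per1
  rw [(ss_hasDerivAt k p.N p.Z _).deriv]
  ring

theorem Ec_le (p : Prm) (i j k : ℕ) (x : V) : |p.Ec i j k x| ≤ Bk i * Bk j * Bk k := by
  unfold Ec T3 per1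
  rw [abs_mul, abs_mul]
  have h1 := sc_le i p.X p.c (Int.fract (x 0))
  have h2 := sc_le j p.Y (1 / 2) (Int.fract (x 1))
  have h3 := cc_le k p.N p.Z (Int.fract (x 2))
  have := Bk_pos i
  have := Bk_pos j
  unfold fx fy
  gcongr

theorem Es_le (p : Prm) (i j k : ℕ) (x : V) : |p.Es i j k x| ≤ Bk i * Bk j * Bk k := by
  unfold Es T3 per1
  rw [abs_mul, abs_mul]
  have h1 := sc_le i p.X p.c (Int.fract (x 0))
  have h2 := sc_le j p.Y (1 / 2) (Int.fract (x 1))
  have h3 := ss_le k p.N p.Z (Int.fract (x 2))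
  have := Bk_pos i
  have := Bk_pos j
  unfold fx fy
  gcongr

/-- the support (modulo translations by integer vectors) -/
def K (p : Prm) : Set V := {x | |Int.fract (x 0) - p.c| < 1 / p.X ∧
  |Int.fract (x 1) - 1 / 2| < 1 / p.Y ∧ |Int.fract (x 2) - 1 / 2| < 1 / p.Z}

theorem Ok.Ec_zero (h : p.Ok) (i j k : ℕ) {x : V} (hx : x ∉ p.K) : p.Ec i j k x = 0 := by
  unfold Ec T3 per1
  by_contra hne
  apply hx
  refine ⟨?_, ?_, ?_⟩
  · by_contra h1
    apply hne
    rw [show p.fx i (Int.fract (x 0)) = 0 from sc_zero (by linarith [h.X1]) (not_lt.1 h1)]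
    ring
  · by_contra h1
    apply hne
    rw [show p.fy j (Int.fract (x 1)) = 0 from sc_zero (by linarith [h.Y1]) (not_lt.1 h1)]
    ring
  · by_contra h1
    apply hne
    unfold cc
    rw [sc_zero (by linarith [h.Z1]) (not_lt.1 h1)]
    ring

theorem Ok.Es_zero (h : p.Ok) (i j k : ℕ) {x : V} (hx : x ∉ p.K) : p.Es i j k x = 0 := by
  unfold Es T3 per1
  by_contra hne
  apply hx
  refine ⟨?_, ?_, ?_⟩
  · by_contra h1
    apply hne
    rw [show p.fx i (Int.fract (x 0)) = 0 from sc_zero (by linarith [h.X1]) (not_lt.1 h1)]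
    ring
  · by_contra h1
    apply hne
    rw [show p.fy j (Int.fract (x 1)) = 0 from sc_zero (by linarith [h.Y1]) (not_lt.1 h1)]
    ring
  · by_contra h1
    apply hne
    unfold ss
    rw [sc_zero (by linarith [h.Z1]) (not_lt.1 h1)]
    ring

end Prm

end Pool.Agent.V1178.NS
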