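import Pool.Agent.V1178.NS.Pk

/-!
The packets: stream function `psi`, velocity `(u0, 0, u2)`, and the defect `Z = Δ U + τ U`.
-/

open Set Filter Topology MeasureTheory
open scoped ContDiff

set_option autoImplicit false

namespace Pool.Agent.V1178.NS

open H459R3.NS

theorem pd_cmul {f : V → ℝ} (hf : SP f) (a : ℝ) (j : Fin 3) (x : V) :
    pd j (fun y => a * f y) x = a * pd j f x := by
  unfold pd
  rw [((hf.diff x).hasFDerivAt.const_mul a).fderiv]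
  simp

theorem pd_add {f g : V → ℝ} (hf : SP f) (hg : SP g) (j : Fin 3) (x : V) :
    pd j (fun y => f y + g y) x = pd j f x + pd j g x := by
  unfold pd
  have h : HasFDerivAt (fun y => f y + g y) (fderiv ℝ f x + fderiv ℝ g x) x :=
    (hf.diff x).hasFDerivAt.add (hg.diff x).hasFDerivAt
  rw [h.fderiv]
  rfl

theorem pd_sub {f g : V → ℝ} (hf : SP f) (hg : SP g) (j : Fin 3) (x : V) :
    pd j (fun y => f y - g y) x = pd j f x - pd j g x := by
  unfold pd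
  have h : HasFDerivAt (fun y => f y - g y) (fderiv ℝ f x - fderiv ℝ g x) x :=
    (hf.diff x).hasFDerivAt.sub (hg.diff x).hasFDerivAt
  rw [h.fderiv]
  rfl

theorem sp_cmul {f : V → ℝ} (hf : SP f) (a : ℝ) : SP (fun y => a * f y) :=
  ⟨contDiff_const.mul hf.smooth, fun i x => by simp only [hf.per i x]⟩

theorem sp_sub {f g : V → ℝ} (hf : SP f) (hg : SP g) : SP (fun y => f y - g y) :=
  ⟨hf.smooth.sub hg.smooth, fun i x => by simp only [hf.per i x, hg.per i x]⟩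

theorem sp_const (a : ℝ) : SP (fun _ : V => a) := ⟨contDiff_const, fun _ _ => rfl⟩

theorem lap_cmul {f : V → ℝ} (hf : SP f) (a : ℝ) (x : V) :
    lap (fun y => a * f y) x = a * lap f x := by
  unfold lap
  rw [Finset.mul_sum]
  refine Finset.sum_congr rfl fun j _ => ?_
  have e : pd j (fun y => a * f y) = fun y => a * pd j f y := funext fun y => pd_cmul hf a j y
  rw [e, pd_cmul (hf.pd j)]

theorem lap_pd {f : V → ℝ} (hf : SP f) (i : Fin 3) (x : V) :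
    lap (pd i f) x = pd i (lap f) x := by
  unfold lap
  rw [pd_sum (fun j _ => (hf.pd j).pd j) i x]
  refine Finset.sum_congr rfl fun j _ => ?_
  rw [pd_comm hf j i, pd_comm (hf.pd j) j i]

namespace Prm

variable (p : Prm)

/-- the velocity, before normalisation -/
noncomputable def u0 (x : V) : ℝ := p.Es 0 0 0 x - p.Z / p.N * p.Ec 0 0 1 x
noncomputable def u2 (x : V) : ℝ := p.X / p.N * p.Ec 1 0 0 x

noncomputable def mass : ℝ := ∫ x in cube, (p.u0 x ^ 2 + p.u2 x ^ 2)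

noncomputable def A : ℝ := (√p.mass)⁻¹

/-- the velocity -/
noncomputable def U (x : V) : V := ![p.A * p.u0 x, 0, p.A * p.u2 x]

/-- the stream function -/
noncomputable def psi (x : V) : ℝ := p.A / p.N * p.Ec 0 0 0 x

/-- `Δ psi + τ psi` -/
noncomputable def zeta (τ : ℝ) (x : V) : ℝ := p.A / p.N * (p.X ^ 2 * p.Ec 2 0 0 x
  + p.Y ^ 2 * p.Ec 0 2 0 x + p.Z ^ 2 * p.Ec 0 0 2 x - 2 * p.Z * p.N * p.Es 0 0 1 x
  + (τ - p.N ^ 2) * p.Ec 0 0 0 x)

noncomputable def z0 (τ : ℝ) (x : V) : ℝ := -(p.A / p.N * (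
  p.X ^ 2 * (p.Z * p.Ec 2 0 1 x - p.N * p.Es 2 0 0 x)
  + p.Y ^ 2 * (p.Z * p.Ec 0 2 1 x - p.N * p.Es 0 2 0 x)
  + p.Z ^ 2 * (p.Z * p.Ec 0 0 3 x - p.N * p.Es 0 0 2 x)
  - 2 * p.Z * p.N * (p.Z * p.Es 0 0 2 x + p.N * p.Ec 0 0 1 x)
  + (τ - p.N ^ 2) * (p.Z * p.Ec 0 0 1 x - p.N * p.Es 0 0 0 x)))

noncomputable def z2 (τ : ℝ) (x : V) : ℝ := p.A / p.N * p.X * (p.X ^ 2 * p.Ec 3 0 0 x
  + p.Y ^ 2 * p.Ec 1 2 0 x + p.Z ^ 2 * p.Ec 1 0 2 x - 2 * p.Z * p.N * p.Es 1 0 1 x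
  + (τ - p.N ^ 2) * p.Ec 1 0 0 x)

/-- the defect `Δ U + τ U` -/
noncomputable def Zf (τ : ℝ) (x : V) : V := ![p.z0 τ x, 0, p.z2 τ x]

/-- `(U · ∇) U` -/
noncomputable def F (x : V) : V := fun i => ∑ j, p.U x j * pd j (fun y => p.U y i) x

variable {p}

theorem Ok.psi_sp (h : p.Ok) : SP p.psi := sp_cmul (h.Ec_sp 0 0 0) _

theorem Ok.pd2_psi (h : p.Ok) (x : V) : pd 2 p.psi x = -(p.A * p.u0 x) := by
  have hN : p.N ≠ 0 := by linarith [h.N1]
  have e : p.psi = fun y => p.A / p.N * p.Ec 0 0 0 y := rfl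
  rw [e, pd_cmul (h.Ec_sp 0 0 0), h.Ec_pd2]
  unfold u0
  field_simp
  ring

theorem Ok.pd0_psi (h : p.Ok) (x : V) : pd 0 p.psi x = p.A * p.u2 x := by
  have e : p.psi = fun y => p.A / p.N * p.Ec 0 0 0 y := rfl
  rw [e, pd_cmul (h.Ec_sp 0 0 0), h.Ec_pd0]
  unfold u2
  ring

theorem Ok.U0_eq (h : p.Ok) : (fun y => p.U y 0) = fun y => -1 * pd 2 p.psi y := by
  funext y
  rw [h.pd2_psi]
  simp [U]

theorem Ok.U2_eq (h : p.Ok) : (fun y => p.U y 2) = pd 0 p.psi := by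
  funext y
  rw [h.pd0_psi]
  simp [U]

theorem U1_eq (p : Prm) : (fun y => p.U y 1) = fun _ => 0 := by
  funext y
  simp [U]

theorem Ok.U_sp (h : p.Ok) (i : Fin 3) : SP (fun y => p.U y i) := by
  fin_cases i
  · show SP (fun y => p.U y 0)
    rw [h.U0_eq]
    exact sp_cmul (h.psi_sp.pd 2) _
  · show SP (fun y => p.U y 1)
    rw [U1_eq]
    exact sp_const 0
  · show SP (fun y => p.U y 2)
    rw [h.U2_eq]
    exact h.psi_sp.pd 0

theorem Ok.U_div (h : p.Ok) (x : V) : ∑ i, pd i (fun y => p.U y i) x = 0 := by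
  rw [Fin.sum_univ_three, h.U0_eq, h.U2_eq, U1_eq, pd_cmul (h.psi_sp.pd 2),
    pd_comm h.psi_sp 0 2]
  have : pd 1 (fun _ : V => (0 : ℝ)) x = 0 := by unfold pd; simp
  rw [this]
  ring

theorem Ok.lap_psi (h : p.Ok) (x : V) : lap p.psi x = p.A / p.N * (p.X ^ 2 * p.Ec 2 0 0 x
    + p.Y ^ 2 * p.Ec 0 2 0 x + p.Z ^ 2 * p.Ec 0 0 2 x - 2 * p.Z * p.N * p.Es 0 0 1 x
    - p.N ^ 2 * p.Ec 0 0 0 x) := by
  have e : p.psi = fun y => p.A / p.N * p.Ec 0 0 0 y := rfl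
  rw [e, lap_cmul (h.Ec_sp 0 0 0)]
  unfold lap
  rw [Fin.sum_univ_three]
  have e0 : pd 0 (p.Ec 0 0 0) = fun y => p.X * p.Ec 1 0 0 y := funext fun y => h.Ec_pd0 0 0 0 y
  have e1 : pd 1 (p.Ec 0 0 0) = fun y => p.Y * p.Ec 0 1 0 y := funext fun y => h.Ec_pd1 0 0 0 y
  have e2 : pd 2 (p.Ec 0 0 0) = fun y => p.Z * p.Ec 0 0 1 y - p.N * p.Es 0 0 0 y :=
    funext fun y => h.Ec_pd2 0 0 0 y
  rw [e0, e1, e2, pd_cmul (h.Ec_sp _ _ _), pd_cmul (h.Ec_sp _ _ _),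
    pd_sub (sp_cmul (h.Ec_sp _ _ _) _) (sp_cmul (h.Es_sp _ _ _) _), pd_cmul (h.Ec_sp _ _ _),
    pd_cmul (h.Es_sp _ _ _), h.Ec_pd0, h.Ec_pd1, h.Ec_pd2, h.Es_pd2]
  ring

theorem Ok.zeta_eq (h : p.Ok) (τ : ℝ) : p.zeta τ = fun x => lap p.psi x + τ * p.psi x := by
  funext x
  rw [h.lap_psi]
  unfold zeta psi
  ring

theorem Ok.zeta_sp (h : p.Ok) (τ : ℝ) : SP (p.zeta τ) := by
  rw [h.zeta_eq]
  exact h.psi_sp.lap.add (sp_cmul h.psi_sp τ)

theorem Ok.zeta_form (h : p.Ok) (τ : ℝ) (j : Fin 3) (x : V) : pd j (p.zeta τ) x =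
    p.A / p.N * (p.X ^ 2 * pd j (p.Ec 2 0 0) x + p.Y ^ 2 * pd j (p.Ec 0 2 0) x
    + p.Z ^ 2 * pd j (p.Ec 0 0 2) x - 2 * p.Z * p.N * pd j (p.Es 0 0 1) x
    + (τ - p.N ^ 2) * pd j (p.Ec 0 0 0) x) := by
  have s1 := sp_cmul (h.Ec_sp 2 0 0) (p.X ^ 2)
  have s2 := sp_cmul (h.Ec_sp 0 2 0) (p.Y ^ 2)
  have s3 := sp_cmul (h.Ec_sp 0 0 2) (p.Z ^ 2)
  have s4 := sp_cmul (h.Es_sp 0 0 1) (2 * p.Z * p.N)
  have s5 := sp_cmul (h.Ec_sp 0 0 0) (τ - p.N ^ 2)
  have e : p.zeta τ = fun y => p.A / p.N * ((((p.X ^ 2 * p.Ec 2 0 0 y + p.Y ^ 2 * p.Ec 0 2 0 y)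
    + p.Z ^ 2 * p.Ec 0 0 2 y) - 2 * p.Z * p.N * p.Es 0 0 1 y)
    + (τ - p.N ^ 2) * p.Ec 0 0 0 y) := rfl
  rw [e, pd_cmul ((sp_sub ((s1.add s2).add s3) s4).add s5),
    pd_add (sp_sub ((s1.add s2).add s3) s4) s5, pd_sub ((s1.add s2).add s3) s4,
    pd_add (s1.add s2) s3, pd_add s1 s2, pd_cmul (h.Ec_sp 2 0 0), pd_cmul (h.Ec_sp 0 2 0),
    pd_cmul (h.Ec_sp 0 0 2), pd_cmul (h.Es_sp 0 0 1), pd_cmul (h.Ec_sp 0 0 0)]

theorem Ok.pd2_zeta (h : p.Ok) (τ : ℝ) (x : V) : pd 2 (p.zeta τ) x = -p.z0 τ x := by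
  rw [h.zeta_form, h.Ec_pd2, h.Ec_pd2, h.Ec_pd2, h.Es_pd2, h.Ec_pd2]
  unfold z0
  ring

theorem Ok.pd0_zeta (h : p.Ok) (τ : ℝ) (x : V) : pd 0 (p.zeta τ) x = p.z2 τ x := by
  rw [h.zeta_form, h.Ec_pd0, h.Ec_pd0, h.Ec_pd0, h.Es_pd0, h.Ec_pd0]
  unfold z2
  ring

theorem Ok.lap_U (h : p.Ok) (τ : ℝ) (i : Fin 3) (x : V) :
    lap (fun y => p.U y i) x + τ * p.U x i = p.Zf τ x i := by
  have hz : p.zeta τ = fun x => lap p.psi x + τ * p.psi x := h.zeta_eq τ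
  fin_cases i
  · show lap (fun y => p.U y 0) x + τ * p.U x 0 = p.z0 τ x
    have e : p.z0 τ x = -pd 2 (p.zeta τ) x := by rw [h.pd2_zeta, neg_neg]
    rw [e, hz, pd_add h.psi_sp.lap (sp_cmul h.psi_sp τ), pd_cmul h.psi_sp, h.U0_eq,
      lap_cmul (h.psi_sp.pd 2), lap_pd h.psi_sp]
    have e2 : p.U x 0 = -1 * pd 2 p.psi x := congrFun h.U0_eq x
    rw [e2]
    ring
  · show lap (fun y => p.U y 1) x + τ * p.U x 1 = 0
    have e2 : p.U x 1 = 0 := congrFun (U1_eq p) x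
    rw [U1_eq, e2]
    unfold lap pd
    simp
  · show lap (fun y => p.U y 2) x + τ * p.U x 2 = p.z2 τ x
    rw [← h.pd0_zeta, hz, pd_add h.psi_sp.lap (sp_cmul h.psi_sp τ), pd_cmul h.psi_sp, h.U2_eq,
      lap_pd h.psi_sp]
    have e2 : p.U x 2 = pd 0 p.psi x := congrFun h.U2_eq x
    rw [e2]

theorem Ok.Zf0_eq (h : p.Ok) (τ : ℝ) : (fun y => p.Zf τ y 0) = fun y => -1 * pd 2 (p.zeta τ) y := by
  funext y
  rw [h.pd2_zeta]
  simp [Zf]

theorem Ok.Zf2_eq (h : p.Ok) (τ : ℝ) : (fun y => p.Zf τ y 2) = pd 0 (p.zeta τ) := by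
  funext y
  rw [h.pd0_zeta]
  simp [Zf]

theorem Zf1_eq (p : Prm) (τ : ℝ) : (fun y => p.Zf τ y 1) = fun _ => 0 := by
  funext y
  simp [Zf]

theorem Ok.Zf_sp (h : p.Ok) (τ : ℝ) (i : Fin 3) : SP (fun y => p.Zf τ y i) := by
  fin_cases i
  · show SP (fun y => p.Zf τ y 0)
    rw [h.Zf0_eq]
    exact sp_cmul ((h.zeta_sp τ).pd 2) _
  · show SP (fun y => p.Zf τ y 1)
    rw [Zf1_eq]
    exact sp_const 0
  · show SP (fun y => p.Zf τ y 2)
    rw [h.Zf2_eq]
    exact (h.zeta_sp τ).pd 0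

theorem Ok.F_sp (h : p.Ok) (i : Fin 3) : SP (fun y => p.F y i) :=
  SP.sum fun j _ => (h.U_sp j).mul ((h.U_sp i).pd j)

/-! ### supports -/

theorem Ok.u0_zero (h : p.Ok) {x : V} (hx : x ∉ p.K) : p.u0 x = 0 := by
  unfold u0
  rw [h.Es_zero _ _ _ hx, h.Ec_zero _ _ _ hx]
  ring

theorem Ok.u2_zero (h : p.Ok) {x : V} (hx : x ∉ p.K) : p.u2 x = 0 := by
  unfold u2
  rw [h.Ec_zero _ _ _ hx]
  ring

theorem Ok.U_zero (h : p.Ok) {x : V} (hx : x ∉ p.K) : p.U x = 0 := by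
  unfold U
  rw [h.u0_zero hx, h.u2_zero hx]
  ext i
  fin_cases i <;> simp

theorem Ok.psi_zero (h : p.Ok) {x : V} (hx : x ∉ p.K) : p.psi x = 0 := by
  unfold psi
  rw [h.Ec_zero _ _ _ hx]
  ring

theorem Ok.zeta_zero (h : p.Ok) (τ : ℝ) {x : V} (hx : x ∉ p.K) : p.zeta τ x = 0 := by
  unfold zeta
  rw [h.Ec_zero _ _ _ hx, h.Ec_zero _ _ _ hx, h.Ec_zero _ _ _ hx, h.Es_zero _ _ _ hx,
    h.Ec_zero _ _ _ hx]
  ring

theorem Ok.Zf_zero (h : p.Ok) (τ : ℝ) {x : V} (hx : x ∉ p.K) : p.Zf τ x = 0 := by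
  unfold Zf z0 z2
  simp only [h.Ec_zero _ _ _ hx, h.Es_zero _ _ _ hx]
  ext i
  fin_cases i <;> simp

theorem Ok.F_zero (h : p.Ok) {x : V} (hx : x ∉ p.K) : p.F x = 0 := by
  funext i
  unfold F
  rw [h.U_zero hx]
  simp

/-- the derivatives of the velocity vanish outside the support -/
theorem Ok.pdU_zero (h : p.Ok) (i j : Fin 3) {x : V} (hx : x ∉ p.K) :
    pd j (fun y => p.U y i) x = 0 := by
  fin_cases i
  · show pd j (fun y => p.U y 0) x = 0
    have e : (fun y => p.U y 0) = fun y => p.A * (p.Es 0 0 0 y - p.Z / p.N * p.Ec 0 0 1 y) := by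
      funext y; simp [U, u0]
    rw [e, pd_cmul (sp_sub (h.Es_sp _ _ _) (sp_cmul (h.Ec_sp _ _ _) _)),
      pd_sub (h.Es_sp _ _ _) (sp_cmul (h.Ec_sp _ _ _) _), pd_cmul (h.Ec_sp _ _ _)]
    fin_cases j
    · show p.A * (pd 0 (p.Es 0 0 0) x - p.Z / p.N * pd 0 (p.Ec 0 0 1) x) = 0
      rw [h.Es_pd0, h.Ec_pd0, h.Es_zero _ _ _ hx, h.Ec_zero _ _ _ hx]
      ring
    · show p.A * (pd 1 (p.Es 0 0 0) x - p.Z / p.N * pd 1 (p.Ec 0 0 1) x) = 0
      rw [h.Es_pd1, h.Ec_pd1, h.Es_zero _ _ _ hx, h.Ec_zero _ _ _ hx]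
      ring
    · show p.A * (pd 2 (p.Es 0 0 0) x - p.Z / p.N * pd 2 (p.Ec 0 0 1) x) = 0
      simp only [h.Es_pd2, h.Ec_pd2, h.Es_zero _ _ _ hx, h.Ec_zero _ _ _ hx]
      ring
  · show pd j (fun y => p.U y 1) x = 0
    rw [U1_eq]
    unfold pd
    simp
  · show pd j (fun y => p.U y 2) x = 0
    have e : (fun y => p.U y 2) = fun y => p.A * p.X / p.N * p.Ec 1 0 0 y := by
      funext y; simp [U, u2]; ring
    rw [e, pd_cmul (h.Ec_sp _ _ _)]
    fin_cases j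
    · show p.A * p.X / p.N * pd 0 (p.Ec 1 0 0) x = 0
      rw [h.Ec_pd0, h.Ec_zero _ _ _ hx]; ring
    · show p.A * p.X / p.N * pd 1 (p.Ec 1 0 0) x = 0
      rw [h.Ec_pd1, h.Ec_zero _ _ _ hx]; ring
    · show p.A * p.X / p.N * pd 2 (p.Ec 1 0 0) x = 0
      rw [h.Ec_pd2, h.Es_zero _ _ _ hx, h.Ec_zero _ _ _ hx]; ring

/-- the box which contains the support in the period cell -/
noncomputable def lo (p : Prm) : V := ![p.c - 1 / p.X, 1 / 2 - 1 / p.Y, 1 / 2 - 1 / p.Z]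
noncomputable def hi (p : Prm) : V := ![p.c + 1 / p.X, 1 / 2 + 1 / p.Y, 1 / 2 + 1 / p.Z]

theorem fract_box {z c d : ℝ} (hz : z ∈ Icc (0 : ℝ) 1) (h : |Int.fract z - c| < d) (hc : d ≤ c) :
    c - d ≤ z ∧ z ≤ c + d := by
  rcases hz.2.lt_or_eq with h1 | h1
  · have h2 : Int.fract z = z := Int.fract_eq_self.2 ⟨hz.1, h1⟩
    rw [h2] at h
    have := abs_lt.1 h
    exact ⟨by linarith, by linarith⟩
  · exfalso
    rw [h1, Int.fract_one] at h
    have := abs_lt.1 h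
    linarith

theorem Ok.K_box (h : p.Ok) : p.K ∩ cube ⊆ Icc p.lo p.hi := by
  rintro x ⟨⟨h0, h1, h2⟩, hx⟩
  have hc : ∀ i, x i ∈ Icc (0 : ℝ) 1 := fun i => ⟨hx.1 i, hx.2 i⟩
  have hX : 1 / p.X ≤ 1 / 8 := one_div_le_one_div_of_le (by norm_num) h.X1
  have hY : 1 / p.Y ≤ 1 / 4 := one_div_le_one_div_of_le (by norm_num) h.Y1
  have hZ : 1 / p.Z ≤ 1 / 4 := one_div_le_one_div_of_le (by norm_num) h.Z1
  have hcc := abs_le.1 h.hc
  have a0 := fract_box (hc 0) h0 (by linarith)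
  have a1 := fract_box (hc 1) h1 (by linarith)
  have a2 := fract_box (hc 2) h2 (by linarith)
  constructor
  · intro i
    fin_cases i
    · exact a0.1
    · exact a1.1
    · exact a2.1
  · intro i
    fin_cases i
    · exact a0.2
    · exact a1.2
    · exact a2.2

theorem Ok.vol_box (h : p.Ok) : volume (Icc p.lo p.hi) = ENNReal.ofReal (8 / (p.X * p.Y * p.Z)) := by
  have hX : 0 < p.X := by linarith [h.X1]
  have hY : 0 < p.Y := by linarith [h.Y1]
  have hZ : 0 < p.Z := by linarith [h.Z1]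
  rw [Real.volume_Icc_pi, Fin.prod_univ_three, ← ENNReal.ofReal_mul, ← ENNReal.ofReal_mul]
  · congr 1
    simp [lo, hi]
    field_simp
    norm_num
  · simp [lo, hi]
    positivity
  · simp [lo, hi]
    positivity

/-! ### the mass -/

theorem ek1_zero {z : ℝ} (hz : |z| < 1 / 2) : ek 1 z = 0 := by
  have h1 : ek 0 =ᶠ[𝓝 z] fun _ => 1 := by
    filter_upwards [(isOpen_lt continuous_abs continuous_const).mem_nhds hz] with w hw
    show iteratedDeriv 0 eta w = 1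
    rw [iteratedDeriv_zero]
    exact eta_one (le_of_lt hw)
  have h3 : ek 1 = deriv (ek 0) := iteratedDeriv_succ
  rw [h3, h1.deriv_eq, deriv_const]

theorem ek0_one {z : ℝ} (hz : |z| < 1 / 2) : ek 0 z = 1 := by
  show iteratedDeriv 0 eta z = 1
  rw [iteratedDeriv_zero]
  exact eta_one (le_of_lt hz)

theorem sc_core {c X z : ℝ} (hX : 0 < X) (hz : |z - c| ≤ 1 / (4 * X)) : |(z - c) * X| < 1 / 2 := by
  rw [abs_mul, abs_of_pos hX]
  calc |z - c| * X ≤ 1 / (4 * X) * X := by gcongr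
    _ = 1 / 4 := by field_simp
    _ < 1 / 2 := by norm_num

theorem Ok.u_sp (h : p.Ok) : SP p.u0 ∧ SP p.u2 :=
  ⟨sp_sub (h.Es_sp _ _ _) (sp_cmul (h.Ec_sp _ _ _) _), sp_cmul (h.Ec_sp _ _ _) _⟩

theorem Ok.u0_core (h : p.Ok) {x : V} (h0 : |x 0 - p.c| ≤ 1 / (4 * p.X))
    (h1 : |x 1 - 1 / 2| ≤ 1 / (4 * p.Y)) (h2 : |x 2 - 1 / 2| ≤ 1 / (4 * p.Z)) :
    p.u0 x = Real.sin (p.N * x 2) := by
  have hX0 : 0 < p.X := by linarith [h.X1]
  have hY0 : 0 < p.Y := by linarith [h.Y1]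
  have hZ0 : 0 < p.Z := by linarith [h.Z1]
  have hX : 1 / (4 * p.X) ≤ 1 / 32 := one_div_le_one_div_of_le (by norm_num) (by linarith [h.X1])
  have hY : 1 / (4 * p.Y) ≤ 1 / 16 := one_div_le_one_div_of_le (by norm_num) (by linarith [h.Y1])
  have hZ : 1 / (4 * p.Z) ≤ 1 / 16 := one_div_le_one_div_of_le (by norm_num) (by linarith [h.Z1])
  have hcc := abs_le.1 h.hc
  have a0 := abs_le.1 h0
  have a1 := abs_le.1 h1
  have a2 := abs_le.1 h2
  have f0 : Int.fract (x 0) = x 0 := Int.fract_eq_self.2 ⟨by linarith, by linarith⟩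
  have f1 : Int.fract (x 1) = x 1 := Int.fract_eq_self.2 ⟨by linarith, by linarith⟩
  have f2 : Int.fract (x 2) = x 2 := Int.fract_eq_self.2 ⟨by linarith, by linarith⟩
  unfold u0 Es Ec T3 per1 fx fy cc ss sc
  rw [f0, f1, f2, ek0_one (sc_core hX0 h0), ek0_one (sc_core hY0 h1), ek0_one (sc_core hZ0 h2),
    ek1_zero (sc_core hZ0 h2)]
  ring

theorem Ok.mass_ge (h : p.Ok) (hN : 4 * p.Z ≤ p.N) : 1 / (32 * (p.X * p.Y * p.Z)) ≤ p.mass := by
  have hX0 : 0 < p.X := by linarith [h.X1]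
  have hY0 : 0 < p.Y := by linarith [h.Y1]
  have hZ0 : 0 < p.Z := by linarith [h.Z1]
  have hN0 : 0 < p.N := by linarith [h.N1]
  have hX : 1 / (4 * p.X) ≤ 1 / 32 := one_div_le_one_div_of_le (by norm_num) (by linarith [h.X1])
  have hY : 1 / (4 * p.Y) ≤ 1 / 16 := one_div_le_one_div_of_le (by norm_num) (by linarith [h.Y1])
  have hZ : 1 / (4 * p.Z) ≤ 1 / 16 := one_div_le_one_div_of_le (by norm_num) (by linarith [h.Z1])
  have hcc := abs_le.1 h.hc
  set a : ℝ := 1 / (4 * p.X) with ha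
  set b : ℝ := 1 / (4 * p.Y) with hb
  set d : ℝ := 1 / (4 * p.Z) with hd
  have ha0 : 0 < a := by positivity
  have hb0 : 0 < b := by positivity
  have hd0 : 0 < d := by positivity
  set g : Fin 3 → ℝ → ℝ := ![(Icc (p.c - a) (p.c + a)).indicator (fun _ => 1),
    (Icc (1 / 2 - b) (1 / 2 + b)).indicator (fun _ => 1),
    (Icc (1 / 2 - d) (1 / 2 + d)).indicator (fun z => Real.sin (p.N * z) ^ 2)] with hg
  have hle : ∀ x : V, ∏ i, g i (x i) ≤ cube.indicator (fun x => p.u0 x ^ 2 + p.u2 x ^ 2) x := by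
    intro x
    rw [Fin.prod_univ_three]
    by_cases hx : x 0 ∈ Icc (p.c - a) (p.c + a) ∧ x 1 ∈ Icc (1 / 2 - b) (1 / 2 + b) ∧
      x 2 ∈ Icc (1 / 2 - d) (1 / 2 + d)
    · obtain ⟨h0, h1, h2⟩ := hx
      have e1 : g 0 (x 0) = 1 := by simp [hg, indicator_of_mem h0]
      have e2 : g 1 (x 1) = 1 := by
        show (Icc (1 / 2 - b) (1 / 2 + b)).indicator (fun _ => (1 : ℝ)) (x 1) = 1
        rw [indicator_of_mem h1]
      have e3 : g 2 (x 2) = Real.sin (p.N * x 2) ^ 2 := by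
        show (Icc (1 / 2 - d) (1 / 2 + d)).indicator (fun z => Real.sin (p.N * z) ^ 2) (x 2) = _
        rw [indicator_of_mem h2]
      rw [e1, e2, e3, one_mul, one_mul]
      have hxc : x ∈ cube := by
        constructor
        · intro i
          fin_cases i
          · show (0 : ℝ) ≤ x 0
            linarith [h0.1]
          · show (0 : ℝ) ≤ x 1
            linarith [h1.1]
          · show (0 : ℝ) ≤ x 2
            linarith [h2.1]
        · intro i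
          fin_cases i
          · show x 0 ≤ (1 : ℝ)
            linarith [h0.2]
          · show x 1 ≤ (1 : ℝ)
            linarith [h1.2]
          · show x 2 ≤ (1 : ℝ)
            linarith [h2.2]
      rw [indicator_of_mem hxc, h.u0_core (abs_le.2 ⟨by linarith [h0.1], by linarith [h0.2]⟩)
        (abs_le.2 ⟨by linarith [h1.1], by linarith [h1.2]⟩)
        (abs_le.2 ⟨by linarith [h2.1], by linarith [h2.2]⟩)]
      nlinarith [sq_nonneg (p.u2 x)]
    · have hz : g 0 (x 0) * g 1 (x 1) * g 2 (x 2) = 0 := by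
        by_cases h0 : x 0 ∈ Icc (p.c - a) (p.c + a)
        · by_cases h1 : x 1 ∈ Icc (1 / 2 - b) (1 / 2 + b)
          · have h2 : x 2 ∉ Icc (1 / 2 - d) (1 / 2 + d) := fun h2 => hx ⟨h0, h1, h2⟩
            have : g 2 (x 2) = 0 := by
              show (Icc (1 / 2 - d) (1 / 2 + d)).indicator (fun z => Real.sin (p.N * z) ^ 2)
                (x 2) = 0
              exact indicator_of_notMem h2 _
            rw [this, mul_zero]
          · have : g 1 (x 1) = 0 := by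
              show (Icc (1 / 2 - b) (1 / 2 + b)).indicator (fun _ => (1 : ℝ)) (x 1) = 0
              exact indicator_of_notMem h1 _
            rw [this, mul_zero, zero_mul]
        · have : g 0 (x 0) = 0 := by
            show (Icc (p.c - a) (p.c + a)).indicator (fun _ => (1 : ℝ)) (x 0) = 0
            exact indicator_of_notMem h0 _
          rw [this, zero_mul, zero_mul]
      rw [hz]
      exact indicator_nonneg (fun y _ => by positivity) x
  have hint : ∫ x : V, ∏ i, g i (x i) = ∏ i, ∫ z, g i z := integral_fintype_prod_volume_eq_prod g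
  have hm : p.mass = ∫ x : V, cube.indicator (fun x => p.u0 x ^ 2 + p.u2 x ^ 2) x := by
    unfold mass
    rw [integral_indicator]
    exact measurableSet_Icc
  have hcont : Continuous fun x => p.u0 x ^ 2 + p.u2 x ^ 2 :=
    (h.u_sp.1.cont.pow 2).add (h.u_sp.2.cont.pow 2)
  have hi1 : ∀ i, Integrable (g i) := by
    intro i
    fin_cases i
    · exact (integrable_indicator_iff measurableSet_Icc).2 (by
        exact (continuous_const (y := (1 : ℝ))).integrableOn_Icc)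
    · exact (integrable_indicator_iff measurableSet_Icc).2 (by
        exact (continuous_const (y := (1 : ℝ))).integrableOn_Icc)
    · exact (integrable_indicator_iff measurableSet_Icc).2 (by
        exact (by fun_prop : Continuous fun z => Real.sin (p.N * z) ^ 2).integrableOn_Icc)
  have hi2 : Integrable (fun x : V => ∏ i, g i (x i)) := Integrable.fintype_prod hi1
  have hi3 : Integrable (cube.indicator (fun x => p.u0 x ^ 2 + p.u2 x ^ 2)) :=
    (integrable_indicator_iff measurableSet_Icc).2 (integrableOn_cube hcont)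
  have hI : ∏ i, ∫ z, g i z ≤ p.mass := by
    rw [hm, ← hint]
    exact integral_mono hi2 hi3 hle
  refine le_trans ?_ hI
  rw [Fin.prod_univ_three]
  have i0 : ∫ z, g 0 z = 2 * a := by
    show ∫ z, (Icc (p.c - a) (p.c + a)).indicator (fun _ => (1 : ℝ)) z = 2 * a
    rw [integral_indicator measurableSet_Icc]
    simp
    rw [max_eq_left (by linarith)]
    ring
  have i1 : ∫ z, g 1 z = 2 * b := by
    show ∫ z, (Icc (1 / 2 - b) (1 / 2 + b)).indicator (fun _ => (1 : ℝ)) z = 2 * b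
    rw [integral_indicator measurableSet_Icc]
    simp
    rw [max_eq_left (by linarith)]
    ring
  have i2 : d / 2 ≤ ∫ z, g 2 z := by
    show d / 2 ≤ ∫ z, (Icc (1 / 2 - d) (1 / 2 + d)).indicator (fun z => Real.sin (p.N * z) ^ 2) z
    rw [integral_indicator measurableSet_Icc, integral_Icc_eq_integral_Ioc,
      ← intervalIntegral.integral_of_le (by linarith)]
    have hs : ∀ z, Real.sin (p.N * z) ^ 2 = 1 / 2 - Real.cos (2 * p.N * z) / 2 := by
      intro z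
      rw [Real.sin_sq_eq_half_sub]
      ring_nf
    simp_rw [hs]
    rw [intervalIntegral.integral_sub (by simp) (by
      apply Continuous.intervalIntegrable
      fun_prop), intervalIntegral.integral_const]
    have hc2 : ∫ z in (1 / 2 - d)..(1 / 2 + d), Real.cos (2 * p.N * z) / 2
        = (Real.sin (2 * p.N * (1 / 2 + d)) - Real.sin (2 * p.N * (1 / 2 - d))) / (4 * p.N) := by
      rw [intervalIntegral.integral_div, intervalIntegral.integral_comp_mul_left (fun z => Real.cos z)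
        (by positivity), integral_cos]
      simp only [smul_eq_mul]
      field_simp
      ring
    rw [hc2]
    have s1 := Real.sin_le_one (2 * p.N * (1 / 2 + d))
    have s2 := Real.neg_one_le_sin (2 * p.N * (1 / 2 - d))
    have s3 : (Real.sin (2 * p.N * (1 / 2 + d)) - Real.sin (2 * p.N * (1 / 2 - d))) / (4 * p.N)
        ≤ 2 / (4 * p.N) := by gcongr; linarith
    have s4 : 2 / (4 * p.N) ≤ d / 2 := by
      rw [hd]
      rw [div_le_iff₀ (by positivity)]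
      have : 1 / (4 * p.Z) / 2 * (4 * p.N) = p.N / (2 * p.Z) := by field_simp
      rw [this, le_div_iff₀ (by positivity)]
      linarith
    simp only [smul_eq_mul]
    linarith
  rw [i0, i1]
  calc 1 / (32 * (p.X * p.Y * p.Z)) = 2 * a * (2 * b) * (d / 2) := by
        rw [ha, hb, hd]; field_simp; norm_num
    _ ≤ 2 * a * (2 * b) * ∫ z, g 2 z := by gcongr

end Prm

end Pool.Agent.V1178.NS
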