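import Pool.Agent.H459R3.NS.Defs

/-!
The Navier-Stokes equations with additional terms of lower order: definitions.
-/

open MeasureTheory Set
open scoped ContDiff ENNReal

set_option autoImplicit false

namespace Pool.Agent.V1178.NS

open H459R3.NS

/-- The scalar product `∫ u · v` over the period cell. -/
noncomputable def dot (u v : V → V) : ℝ := ∑ i, ∫ x in cube, u x i * v x i

/-- The norm in `L^p` of the period cell. -/
noncomputable def Np {E : Type*} [NormedAddCommGroup E] (p : ℝ≥0∞) (v : V → E) : ℝ :=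
  (eLpNorm v p (volume.restrict cube)).toReal

/-- The `ρ`-neighbourhood (in the maximum norm) of the set `(1/2, 1/2, 1/2) + ℤ³`. -/
def Reg (ρ : ℝ) : Set V := {x | ∀ i, |Int.fract (x i) - 1 / 2| < ρ}

/-- The operators of lower order. `D` is linear, symmetric, nonnegative and of order `1 + a`, with
constant `δ`; `G` is bilinear, energy-neutral and of order `s` in its second argument and `0` in its
first, with constant `δ`; both are local to the region `Reg ρ`. -/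
structure Lower (s a δ ρ : ℝ) (D : (V → V) → V → V) (G : (V → V) → (V → V) → V → V) : Prop where
  D_smooth : ∀ v, SPV v → SPV (D v)
  D_linear : ∀ (c : ℝ) (u v : V → V), SPV u → SPV v → D (c • u + v) = c • D u + D v
  D_symm : ∀ v w, SPV v → SPV w → dot (D v) w = dot v (D w)
  D_nonneg : ∀ v, SPV v → 0 ≤ dot (D v) v
  D_order : ∀ p q : ℝ≥0∞, p⁻¹ + q⁻¹ = 1 → ∀ v w, SPV v → SPV w → |dot (D v) w| ≤ δ *
    ((Np p v ^ ((1 - a) / 2) * Np p (fderiv ℝ v) ^ ((1 + a) / 2)) *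
      (Np q w ^ ((1 - a) / 2) * Np q (fderiv ℝ w) ^ ((1 + a) / 2)))
  D_local : ∀ v w, SPV v → SPV w → (∀ x ∈ Reg ρ, v x = w x) → D v = D w
  D_supp : ∀ v, SPV v → ∀ x ∉ Reg ρ, D v x = 0
  G_smooth : ∀ u v, SPV u → SPV v → SPV (G u v)
  G_left : ∀ (c : ℝ) (u u' v : V → V), SPV u → SPV u' → SPV v →
    G (c • u + u') v = c • G u v + G u' v
  G_right : ∀ (c : ℝ) (u v v' : V → V), SPV u → SPV v → SPV v' →
    G u (c • v + v') = c • G u v + G u v'
  G_neutral : ∀ v, SPV v → dot (G v v) v = 0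
  G_order : ∀ p q r : ℝ≥0∞, p⁻¹ + q⁻¹ + r⁻¹ = 1 → ∀ u v w, SPV u → SPV v → SPV w →
    |dot (G u v) w| ≤ δ * (Np p u * (Np q v ^ (1 - s) * Np q (fderiv ℝ v) ^ s) * Np r w)
  G_local : ∀ u v u' v', SPV u → SPV v → SPV u' → SPV v' → (∀ x ∈ Reg ρ, u x = u' x) →
    (∀ x ∈ Reg ρ, v x = v' x) → G u v = G u' v'
  G_supp : ∀ u v, SPV u → SPV v → ∀ x ∉ Reg ρ, G u v x = 0

/-- `(u, p)` is a smooth `1`-periodic solution on the time interval `[0, T)` of
`∂ₜ u + (u · ∇) u + ∇ p + G(u, u) = ν (Δ u - D u)`, `div u = 0`. -/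
structure PSol (ν T : ℝ) (D : (V → V) → V → V) (G : (V → V) → (V → V) → V → V)
    (u : ℝ → V → V) (p : ℝ → V → ℝ) : Prop where
  smooth_u : ContDiffOn ℝ ∞ (fun z : ℝ × V => u z.1 z.2) (Ico 0 T ×ˢ univ)
  smooth_p : ContDiffOn ℝ ∞ (fun z : ℝ × V => p z.1 z.2) (Ico 0 T ×ˢ univ)
  per_u : ∀ t ∈ Ico 0 T, Per (u t)
  per_p : ∀ t ∈ Ico 0 T, Per (p t)
  divfree : ∀ t ∈ Ico 0 T, ∀ x, ∑ i, pd i (fun y => u t y i) x = 0
  momentum : ∀ t ∈ Ioo 0 T, ∀ x i,
    deriv (fun s => u s x i) t + ∑ j, u t x j * pd j (fun y => u t y i) x + pd i (p t) x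
      + G (u t) (u t) x i = ν * (∑ j, pd j (pd j (fun y => u t y i)) x - D (u t) x i)

end Pool.Agent.V1178.NS
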