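import Pool.Agent.V1178.NS.Pk2
import Pool.Agent.V1178.NS.Stmt

/-!
Bounds for a packet.
-/

open Set Filter Topology MeasureTheory
open scoped ContDiff

set_option autoImplicit false

namespace Pool.Agent.V1178.NS

open H459R3.NS

noncomputable def Cb : ℝ := (Bk 0 + Bk 1 + Bk 2 + Bk 3) ^ 3

noncomputable def C2 : ℝ := 10241 * Cb ^ 2

theorem Cb_one : 1 ≤ Cb := by
  unfold Cb
  refine one_le_pow₀ ?_
  linarith [Bk_one 0, Bk_one 1, Bk_one 2, Bk_one 3]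

theorem C2_pos : 0 < C2 := by
  unfold C2
  have := Cb_one
  positivity

theorem Bk_le {k : ℕ} (hk : k ≤ 3) : Bk k ≤ Bk 0 + Bk 1 + Bk 2 + Bk 3 := by
  have h0 := Bk_pos 0
  have h1 := Bk_pos 1
  have h2 := Bk_pos 2
  have h3 := Bk_pos 3
  interval_cases k <;> linarith

theorem Bk_prod {i j k : ℕ} (hi : i ≤ 3) (hj : j ≤ 3) (hk : k ≤ 3) :
    Bk i * Bk j * Bk k ≤ Cb := by
  have h1 := Bk_le hi
  have h2 := Bk_le hj
  have h3 := Bk_le hk
  have a1 := Bk_pos i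
  have a2 := Bk_pos j
  have a3 := Bk_pos k
  set b := Bk 0 + Bk 1 + Bk 2 + Bk 3 with hb
  have hb0 : 0 < b := by linarith
  calc Bk i * Bk j * Bk k ≤ b * b * b := by gcongr
    _ = Cb := by unfold Cb; rw [← hb]; ring

theorem int_small {f : V → ℝ} {S : Set V}
    (h0 : ∀ x ∈ cube, x ∉ S → f x = 0) : ∫ x in cube, f x = ∫ x in cube ∩ S, f x :=
  setIntegral_eq_of_subset_of_forall_sdiff_eq_zero measurableSet_Icc inter_subset_left
    (fun x hx => h0 x hx.1 fun h => hx.2 ⟨hx.1, h⟩)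

theorem int_le_small {f : V → ℝ} {S : Set V} {B m : ℝ} (hm : 0 ≤ m)
    (hv : volume S ≤ ENNReal.ofReal m)
    (h0 : ∀ x ∈ cube, x ∉ S → f x = 0) (hB : ∀ x, |f x| ≤ B) : |∫ x in cube, f x| ≤ B * m := by
  rw [int_small h0]
  have hB0 : 0 ≤ B := (abs_nonneg _).trans (hB 0)
  have hfin : volume (cube ∩ S) < ⊤ := lt_of_le_of_lt (measure_mono inter_subset_right)
    (lt_of_le_of_lt hv ENNReal.ofReal_lt_top)
  have h1 := norm_setIntegral_le_of_norm_le_const (μ := volume) (s := cube ∩ S) (f := f) (C := B)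
    hfin (fun x _ => hB x)
  rw [Real.norm_eq_abs] at h1
  refine h1.trans (mul_le_mul_of_nonneg_left ?_ hB0)
  have h2 : volume (cube ∩ S) ≤ ENNReal.ofReal m := (measure_mono inter_subset_right).trans hv
  have h3 := ENNReal.toReal_mono ENNReal.ofReal_ne_top h2
  rwa [ENNReal.toReal_ofReal hm] at h3

/-- conditions on the parameters -/
structure Prm.Good (p : Prm) (τ W : ℝ) : Prop where
  ok : p.Ok
  X2 : p.X ^ 2 ≤ p.N * W
  Y2 : p.Y ^ 2 ≤ p.N * W
  ZW : p.Z ≤ W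
  WN : W ≤ p.N
  XN : p.X ≤ p.N
  ZN : 4 * p.Z ≤ p.N
  tau : τ - p.N ^ 2 = C2 * (p.N * W)

namespace Prm

variable {p : Prm} {τ W : ℝ}

noncomputable def vol (p : Prm) : ℝ := (p.X * p.Y * p.Z)⁻¹

theorem Ok.pos (h : p.Ok) : 0 < p.N ∧ 0 < p.X ∧ 0 < p.Y ∧ 0 < p.Z :=
  ⟨by linarith [h.N1], by linarith [h.X1], by linarith [h.Y1], by linarith [h.Z1]⟩

theorem Ok.vol_pos (h : p.Ok) : 0 < p.vol := by
  obtain ⟨h1, h2, h3, h4⟩ := h.pos
  unfold vol
  positivity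

theorem Ok.volK (h : p.Ok) : volume (Icc p.lo p.hi) ≤ ENNReal.ofReal (8 * p.vol) := by
  rw [h.vol_box]
  unfold vol
  rw [div_eq_mul_inv]

theorem Good.mass_pos (h : p.Good τ W) : 0 < p.mass := by
  obtain ⟨h1, h2, h3, h4⟩ := h.ok.pos
  refine lt_of_lt_of_le ?_ (h.ok.mass_ge h.ZN)
  positivity

theorem Good.A_pos (h : p.Good τ W) : 0 < p.A := by
  unfold A
  have := h.mass_pos
  positivity

theorem Good.A_sq (h : p.Good τ W) : p.A ^ 2 * p.mass = 1 := by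
  unfold A
  rw [inv_pow, Real.sq_sqrt h.mass_pos.le]
  exact inv_mul_cancel₀ h.mass_pos.ne'

theorem Good.A_vol (h : p.Good τ W) : p.A ^ 2 * p.vol ≤ 32 := by
  obtain ⟨h1, h2, h3, h4⟩ := h.ok.pos
  have h5 := h.ok.mass_ge h.ZN
  have h6 : p.vol ≤ 32 * p.mass := by
    unfold vol
    have : 1 / (32 * (p.X * p.Y * p.Z)) * 32 = (p.X * p.Y * p.Z)⁻¹ := by field_simp
    linarith
  calc p.A ^ 2 * p.vol ≤ p.A ^ 2 * (32 * p.mass) := by gcongr
    _ = 32 * (p.A ^ 2 * p.mass) := by ring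
    _ = 32 := by rw [h.A_sq]; ring

theorem Good.W_pos (h : p.Good τ W) : 0 < W := lt_of_lt_of_le h.ok.pos.2.2.2 h.ZW

theorem Good.Z2 (h : p.Good τ W) : p.Z ^ 2 ≤ p.N * W := by
  obtain ⟨h1, h2, h3, h4⟩ := h.ok.pos
  have := h.ZW
  have := h.WN
  nlinarith [h.W_pos]

theorem Good.ZleN (h : p.Good τ W) : p.Z ≤ p.N := by linarith [h.ZN, h.ok.Z1]

theorem Ec_le3 (p : Prm) {i j k : ℕ} (hi : i ≤ 3) (hj : j ≤ 3) (hk : k ≤ 3) (x : V) :
    |p.Ec i j k x| ≤ Cb := (p.Ec_le i j k x).trans (Bk_prod hi hj hk)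

theorem Es_le3 (p : Prm) {i j k : ℕ} (hi : i ≤ 3) (hj : j ≤ 3) (hk : k ≤ 3) (x : V) :
    |p.Es i j k x| ≤ Cb := (p.Es_le i j k x).trans (Bk_prod hi hj hk)

theorem Good.u0_le (h : p.Good τ W) (x : V) : |p.u0 x| ≤ 2 * Cb := by
  obtain ⟨h1, h2, h3, h4⟩ := h.ok.pos
  unfold u0
  have a1 := p.Es_le3 (i := 0) (j := 0) (k := 0) (by norm_num) (by norm_num) (by norm_num) x
  have a2 := p.Ec_le3 (i := 0) (j := 0) (k := 1) (by norm_num) (by norm_num) (by norm_num) x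
  have a3 : p.Z / p.N ≤ 1 := (div_le_one h1).2 h.ZleN
  have a4 : 0 ≤ p.Z / p.N := by positivity
  have a5 : |p.Z / p.N * p.Ec 0 0 1 x| ≤ 1 * Cb := by
    rw [abs_mul, abs_of_nonneg a4]
    have := Cb_one
    gcongr
  calc |p.Es 0 0 0 x - p.Z / p.N * p.Ec 0 0 1 x| ≤ |p.Es 0 0 0 x| + |p.Z / p.N * p.Ec 0 0 1 x| :=
        abs_sub _ _
    _ ≤ 2 * Cb := by linarith

theorem Good.u2_le (h : p.Good τ W) (x : V) : |p.u2 x| ≤ p.X / p.N * Cb := by
  obtain ⟨h1, h2, h3, h4⟩ := h.ok.pos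
  unfold u2
  have a2 := p.Ec_le3 (i := 1) (j := 0) (k := 0) (by norm_num) (by norm_num) (by norm_num) x
  rw [abs_mul, abs_of_nonneg (by positivity)]
  gcongr

theorem Good.XdN (h : p.Good τ W) : p.X / p.N ≤ 1 := (div_le_one h.ok.pos.1).2 h.XN

theorem Good.u2_le' (h : p.Good τ W) (x : V) : |p.u2 x| ≤ Cb := by
  refine (h.u2_le x).trans ?_
  have := Cb_one
  have := h.XdN
  nlinarith

theorem Good.U_le (h : p.Good τ W) (i : Fin 3) (x : V) : |p.U x i| ≤ 2 * Cb * p.A := by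
  have hA := h.A_pos
  have hC := Cb_one
  fin_cases i
  · show |p.A * p.u0 x| ≤ _
    rw [abs_mul, abs_of_pos hA]
    have := h.u0_le x
    nlinarith
  · show |(0 : ℝ)| ≤ _
    rw [abs_zero]
    positivity
  · show |p.A * p.u2 x| ≤ _
    rw [abs_mul, abs_of_pos hA]
    have := h.u2_le' x
    nlinarith

theorem Good.psi_le (h : p.Good τ W) (x : V) : |p.psi x| ≤ Cb * p.A / p.N := by
  have hA := h.A_pos
  obtain ⟨h1, h2, h3, h4⟩ := h.ok.pos
  unfold psi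
  have a2 := p.Ec_le3 (i := 0) (j := 0) (k := 0) (by norm_num) (by norm_num) (by norm_num) x
  rw [abs_mul, abs_of_nonneg (by positivity)]
  calc p.A / p.N * |p.Ec 0 0 0 x| ≤ p.A / p.N * Cb := by gcongr
    _ = _ := by ring

/-- auxiliary bound for sums of five terms -/
theorem five {a b c d e A' B' C' D' E' : ℝ} (h1 : |a| ≤ A') (h2 : |b| ≤ B') (h3 : |c| ≤ C')
    (h4 : |d| ≤ D') (h5 : |e| ≤ E') : |a + b + c - d + e| ≤ A' + B' + C' + D' + E' := by
  rw [abs_le] at *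
  constructor <;> linarith [h1.1, h1.2, h2.1, h2.2, h3.1, h3.2, h4.1, h4.2, h5.1, h5.2]

/-- the common form of the bounds for `zeta`, `z0`, `z2` -/
theorem Good.five_le {σ c : ℝ} (h : p.Good τ W) {a b d e f B : ℝ} (hσ : σ = c * (p.N * W))
    (hc : 0 ≤ c) (ha : |a| ≤ B)
    (hb : |b| ≤ B) (hd : |d| ≤ B) (he : |e| ≤ B) (hf : |f| ≤ B) :
    |p.X ^ 2 * a + p.Y ^ 2 * b + p.Z ^ 2 * d - 2 * p.Z * p.N * e + σ * f|
      ≤ B * (5 + c) * (p.N * W) := by
  obtain ⟨h1, h2, h3, h4⟩ := h.ok.pos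
  have hW := h.W_pos
  have hNW : 0 < p.N * W := by positivity
  have hB : 0 ≤ B := (abs_nonneg _).trans ha
  have b1 : |p.X ^ 2 * a| ≤ p.N * W * B := by
    rw [abs_mul, abs_of_nonneg (by positivity)]
    have := h.X2
    gcongr
  have b2 : |p.Y ^ 2 * b| ≤ p.N * W * B := by
    rw [abs_mul, abs_of_nonneg (by positivity)]
    have := h.Y2
    gcongr
  have b3 : |p.Z ^ 2 * d| ≤ p.N * W * B := by
    rw [abs_mul, abs_of_nonneg (by positivity)]
    have := h.Z2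
    gcongr
  have b4 : |2 * p.Z * p.N * e| ≤ 2 * (p.N * W) * B := by
    rw [abs_mul, abs_of_nonneg (by positivity)]
    have := h.ZW
    have h5 : 2 * p.Z * p.N ≤ 2 * (p.N * W) := by nlinarith
    gcongr
  have b5 : |σ * f| ≤ c * (p.N * W) * B := by
    rw [hσ, abs_mul, abs_of_nonneg (by positivity)]
    gcongr
  refine (five b1 b2 b3 b4 b5).trans (le_of_eq ?_)
  ring

theorem Good.zeta_le (h : p.Good τ W) (x : V) : |p.zeta τ x| ≤ Cb * (5 + C2) * p.A * W := by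
  have hA := h.A_pos
  obtain ⟨h1, h2, h3, h4⟩ := h.ok.pos
  unfold zeta
  rw [abs_mul, abs_of_nonneg (by positivity)]
  have h5 := h.five_le (σ := τ - p.N ^ 2) h.tau C2_pos.le
    (p.Ec_le3 (i := 2) (j := 0) (k := 0) (by norm_num) (by norm_num) (by norm_num) x)
    (p.Ec_le3 (i := 0) (j := 2) (k := 0) (by norm_num) (by norm_num) (by norm_num) x)
    (p.Ec_le3 (i := 0) (j := 0) (k := 2) (by norm_num) (by norm_num) (by norm_num) x)
    (p.Es_le3 (i := 0) (j := 0) (k := 1) (by norm_num) (by norm_num) (by norm_num) x)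
    (p.Ec_le3 (i := 0) (j := 0) (k := 0) (by norm_num) (by norm_num) (by norm_num) x)
  calc p.A / p.N * _ ≤ p.A / p.N * (Cb * (5 + C2) * (p.N * W)) := by gcongr
    _ = _ := by field_simp

theorem Good.lin_le (h : p.Good τ W) {a b B : ℝ} (ha : |a| ≤ B) (hb : |b| ≤ B) :
    |p.Z * a - p.N * b| ≤ 2 * p.N * B := by
  obtain ⟨h1, h2, h3, h4⟩ := h.ok.pos
  have hB : 0 ≤ B := (abs_nonneg _).trans ha
  calc |p.Z * a - p.N * b| ≤ |p.Z * a| + |p.N * b| := abs_sub _ _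
    _ ≤ p.N * B + p.N * B := by
      rw [abs_mul, abs_mul, abs_of_pos h4, abs_of_pos h1]
      have := h.ZleN
      gcongr
    _ = _ := by ring

theorem Good.lin_le' (h : p.Good τ W) {a b B : ℝ} (ha : |a| ≤ B) (hb : |b| ≤ B) :
    |p.Z * a + p.N * b| ≤ 2 * p.N * B := by
  have := h.lin_le ha (b := -b) (by rwa [abs_neg])
  rwa [mul_neg, sub_neg_eq_add] at this

theorem Good.z0_le' {σ c : ℝ} (h : p.Good τ W) (hσ : σ - p.N ^ 2 = c * (p.N * W)) (hc : 0 ≤ c)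
    (x : V) : |p.z0 σ x| ≤ 2 * Cb * (5 + c) * p.A * (p.N * W) := by
  have hA := h.A_pos
  obtain ⟨h1, h2, h3, h4⟩ := h.ok.pos
  unfold z0
  rw [abs_neg, abs_mul, abs_of_nonneg (by positivity)]
  have h5 := h.five_le (σ := σ - p.N ^ 2) hσ hc
    (h.lin_le (p.Ec_le3 (i := 2) (j := 0) (k := 1) (by norm_num) (by norm_num) (by norm_num) x)
      (p.Es_le3 (i := 2) (j := 0) (k := 0) (by norm_num) (by norm_num) (by norm_num) x))
    (h.lin_le (p.Ec_le3 (i := 0) (j := 2) (k := 1) (by norm_num) (by norm_num) (by norm_num) x)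
      (p.Es_le3 (i := 0) (j := 2) (k := 0) (by norm_num) (by norm_num) (by norm_num) x))
    (h.lin_le (p.Ec_le3 (i := 0) (j := 0) (k := 3) (by norm_num) (by norm_num) (by norm_num) x)
      (p.Es_le3 (i := 0) (j := 0) (k := 2) (by norm_num) (by norm_num) (by norm_num) x))
    (h.lin_le' (p.Es_le3 (i := 0) (j := 0) (k := 2) (by norm_num) (by norm_num) (by norm_num) x)
      (p.Ec_le3 (i := 0) (j := 0) (k := 1) (by norm_num) (by norm_num) (by norm_num) x))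
    (h.lin_le (p.Ec_le3 (i := 0) (j := 0) (k := 1) (by norm_num) (by norm_num) (by norm_num) x)
      (p.Es_le3 (i := 0) (j := 0) (k := 0) (by norm_num) (by norm_num) (by norm_num) x))
  calc p.A / p.N * _ ≤ p.A / p.N * (2 * p.N * Cb * (5 + c) * (p.N * W)) := by gcongr
    _ = _ := by field_simp

theorem Good.z2_le' {σ c : ℝ} (h : p.Good τ W) (hσ : σ - p.N ^ 2 = c * (p.N * W)) (hc : 0 ≤ c)
    (x : V) : |p.z2 σ x| ≤ Cb * (5 + c) * p.A * (p.N * W) := by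
  have hA := h.A_pos
  obtain ⟨h1, h2, h3, h4⟩ := h.ok.pos
  have hW := h.W_pos
  unfold z2
  rw [abs_mul, abs_of_nonneg (by positivity)]
  have h5 := h.five_le (σ := σ - p.N ^ 2) hσ hc
    (p.Ec_le3 (i := 3) (j := 0) (k := 0) (by norm_num) (by norm_num) (by norm_num) x)
    (p.Ec_le3 (i := 1) (j := 2) (k := 0) (by norm_num) (by norm_num) (by norm_num) x)
    (p.Ec_le3 (i := 1) (j := 0) (k := 2) (by norm_num) (by norm_num) (by norm_num) x)
    (p.Es_le3 (i := 1) (j := 0) (k := 1) (by norm_num) (by norm_num) (by norm_num) x)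
    (p.Ec_le3 (i := 1) (j := 0) (k := 0) (by norm_num) (by norm_num) (by norm_num) x)
  have hC := Cb_one
  calc p.A / p.N * p.X * _ ≤ p.A / p.N * p.X * (Cb * (5 + c) * (p.N * W)) := by gcongr
    _ = (p.X / p.N) * (Cb * (5 + c) * p.A * (p.N * W)) := by ring
    _ ≤ 1 * (Cb * (5 + c) * p.A * (p.N * W)) := by
      have := h.XdN
      gcongr
    _ = _ := by ring

theorem Good.Zf_le {σ c : ℝ} (h : p.Good τ W) (hσ : σ - p.N ^ 2 = c * (p.N * W)) (hc : 0 ≤ c)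
    (i : Fin 3) (x : V) : |p.Zf σ x i| ≤ 2 * Cb * (5 + c) * p.A * (p.N * W) := by
  have hA := h.A_pos
  have hC := Cb_one
  have hW := h.W_pos
  obtain ⟨h1, h2, h3, h4⟩ := h.ok.pos
  fin_cases i
  · exact h.z0_le' hσ hc x
  · show |(0 : ℝ)| ≤ _
    rw [abs_zero]
    positivity
  · refine (h.z2_le' hσ hc x).trans ?_
    have : 0 ≤ Cb * (5 + c) * p.A * (p.N * W) := by positivity
    linarith

theorem Good.F_le (h : p.Good τ W) (i : Fin 3) (x : V) : |p.F x i| ≤ 8 * Cb ^ 2 * p.A ^ 2 * p.X := by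
  have hA := h.A_pos
  have hC := Cb_one
  have hW := h.W_pos
  obtain ⟨h1, h2, h3, h4⟩ := h.ok.pos
  have hk := h.ok
  have k1 : |p.U x 0| ≤ 2 * Cb * p.A := h.U_le 0 x
  have k2 : |p.U x 2| ≤ p.X / p.N * Cb * p.A := by
    show |p.A * p.u2 x| ≤ _
    rw [abs_mul, abs_of_pos hA]
    have := h.u2_le x
    nlinarith
  have k3 : p.U x 1 = 0 := congrFun (U1_eq p) x
  have e0 : (fun y => p.U y 0) = fun y => p.A * (p.Es 0 0 0 y - p.Z / p.N * p.Ec 0 0 1 y) := by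
    funext y; simp [U, u0]
  have e2 : (fun y => p.U y 2) = fun y => p.A * p.X / p.N * p.Ec 1 0 0 y := by
    funext y; simp [U, u2]; ring
  have hZN : p.Z / p.N ≤ 1 := (div_le_one h1).2 h.ZleN
  have hZN0 : 0 ≤ p.Z / p.N := by positivity
  have dec : ∀ a b : ℝ, |a| ≤ Cb → |b| ≤ Cb → |a - p.Z / p.N * b| ≤ 2 * Cb := by
    intro a b ha hb
    calc |a - p.Z / p.N * b| ≤ |a| + |p.Z / p.N * b| := abs_sub _ _
      _ ≤ Cb + 1 * Cb := by
        rw [abs_mul, abs_of_nonneg hZN0]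
        gcongr
      _ = _ := by ring
  have d00 : |pd 0 (fun y => p.U y 0) x| ≤ 2 * Cb * p.A * p.X := by
    rw [e0, pd_cmul (sp_sub (hk.Es_sp _ _ _) (sp_cmul (hk.Ec_sp _ _ _) _)),
      pd_sub (hk.Es_sp _ _ _) (sp_cmul (hk.Ec_sp _ _ _) _), pd_cmul (hk.Ec_sp _ _ _), hk.Es_pd0,
      hk.Ec_pd0]
    have e : p.A * (p.X * p.Es (0 + 1) 0 0 x - p.Z / p.N * (p.X * p.Ec (0 + 1) 0 1 x))
        = p.A * p.X * (p.Es 1 0 0 x - p.Z / p.N * p.Ec 1 0 1 x) := by ring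
    rw [e, abs_mul, abs_of_nonneg (by positivity)]
    have := dec _ _ (p.Es_le3 (i := 1) (j := 0) (k := 0) (by norm_num) (by norm_num) (by norm_num) x)
      (p.Ec_le3 (i := 1) (j := 0) (k := 1) (by norm_num) (by norm_num) (by norm_num) x)
    calc p.A * p.X * _ ≤ p.A * p.X * (2 * Cb) := by gcongr
      _ = _ := by ring
  have d20 : |pd 2 (fun y => p.U y 0) x| ≤ 4 * Cb * p.A * p.N := by
    rw [e0, pd_cmul (sp_sub (hk.Es_sp _ _ _) (sp_cmul (hk.Ec_sp _ _ _) _)),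
      pd_sub (hk.Es_sp _ _ _) (sp_cmul (hk.Ec_sp _ _ _) _), pd_cmul (hk.Ec_sp _ _ _), hk.Es_pd2,
      hk.Ec_pd2]
    have q1 := h.lin_le' (p.Es_le3 (i := 0) (j := 0) (k := 1) (by norm_num) (by norm_num)
      (by norm_num) x) (p.Ec_le3 (i := 0) (j := 0) (k := 0) (by norm_num) (by norm_num)
      (by norm_num) x)
    have q2 := h.lin_le (p.Ec_le3 (i := 0) (j := 0) (k := 2) (by norm_num) (by norm_num)
      (by norm_num) x) (p.Es_le3 (i := 0) (j := 0) (k := 1) (by norm_num) (by norm_num)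
      (by norm_num) x)
    rw [abs_mul, abs_of_pos hA]
    have q3 : |p.Z * p.Es 0 0 (0 + 1) x + p.N * p.Ec 0 0 0 x
        - p.Z / p.N * (p.Z * p.Ec 0 0 (1 + 1) x - p.N * p.Es 0 0 1 x)| ≤ 4 * p.N * Cb := by
      calc _ ≤ |p.Z * p.Es 0 0 (0 + 1) x + p.N * p.Ec 0 0 0 x|
            + |p.Z / p.N * (p.Z * p.Ec 0 0 (1 + 1) x - p.N * p.Es 0 0 1 x)| := abs_sub _ _
        _ ≤ 2 * p.N * Cb + 1 * (2 * p.N * Cb) := by
          rw [abs_mul, abs_of_nonneg hZN0]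
          gcongr
        _ = _ := by ring
    calc p.A * _ ≤ p.A * (4 * p.N * Cb) := by gcongr
      _ = _ := by ring
  have d02 : |pd 0 (fun y => p.U y 2) x| ≤ Cb * p.A * p.X := by
    rw [e2, pd_cmul (hk.Ec_sp _ _ _), hk.Ec_pd0]
    have e : p.A * p.X / p.N * (p.X * p.Ec (1 + 1) 0 0 x)
        = p.A * p.X * (p.X / p.N) * p.Ec 2 0 0 x := by ring
    rw [e, abs_mul, abs_of_nonneg (by positivity)]
    have q1 := p.Ec_le3 (i := 2) (j := 0) (k := 0) (by norm_num) (by norm_num) (by norm_num) x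
    have q2 := h.XdN
    calc p.A * p.X * (p.X / p.N) * |p.Ec 2 0 0 x| ≤ p.A * p.X * 1 * Cb := by gcongr
      _ = _ := by ring
  have d22 : |pd 2 (fun y => p.U y 2) x| ≤ 2 * Cb * p.A * p.X := by
    rw [e2, pd_cmul (hk.Ec_sp _ _ _), hk.Ec_pd2, abs_mul, abs_of_nonneg (by positivity)]
    have q2 := h.lin_le (p.Ec_le3 (i := 1) (j := 0) (k := 1) (by norm_num) (by norm_num)
      (by norm_num) x) (p.Es_le3 (i := 1) (j := 0) (k := 0) (by norm_num) (by norm_num)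
      (by norm_num) x)
    calc p.A * p.X / p.N * _ ≤ p.A * p.X / p.N * (2 * p.N * Cb) := by gcongr
      _ = _ := by field_simp
  have k2' : |p.U x 2| ≤ Cb * p.A := by
    refine k2.trans ?_
    have := h.XdN
    calc p.X / p.N * Cb * p.A ≤ 1 * Cb * p.A := by gcongr
      _ = _ := by ring
  have hF : ∀ i, p.F x i = p.U x 0 * pd 0 (fun y => p.U y i) x
      + p.U x 2 * pd 2 (fun y => p.U y i) x := by
    intro i
    show ∑ j, p.U x j * pd j (fun y => p.U y i) x = _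
    rw [Fin.sum_univ_three, k3]
    ring
  rw [hF i]
  fin_cases i
  · show |p.U x 0 * pd 0 (fun y => p.U y 0) x + p.U x 2 * pd 2 (fun y => p.U y 0) x| ≤ _
    refine (abs_add_le _ _).trans ?_
    rw [abs_mul, abs_mul]
    calc |p.U x 0| * |pd 0 (fun y => p.U y 0) x| + |p.U x 2| * |pd 2 (fun y => p.U y 0) x|
        ≤ (2 * Cb * p.A) * (2 * Cb * p.A * p.X) + (p.X / p.N * Cb * p.A) * (4 * Cb * p.A * p.N) := by
          gcongr
      _ = _ := by field_simp; ring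
  · show |p.U x 0 * pd 0 (fun y => p.U y 1) x + p.U x 2 * pd 2 (fun y => p.U y 1) x| ≤ _
    rw [U1_eq]
    have : ∀ j, pd j (fun _ : V => (0 : ℝ)) x = 0 := fun j => by unfold pd; simp
    rw [this, this, mul_zero, mul_zero, add_zero, abs_zero]
    positivity
  · show |p.U x 0 * pd 0 (fun y => p.U y 2) x + p.U x 2 * pd 2 (fun y => p.U y 2) x| ≤ _
    refine (abs_add_le _ _).trans ?_
    rw [abs_mul, abs_mul]
    have hp : 0 ≤ Cb ^ 2 * p.A ^ 2 * p.X := by positivity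
    calc |p.U x 0| * |pd 0 (fun y => p.U y 2) x| + |p.U x 2| * |pd 2 (fun y => p.U y 2) x|
        ≤ (2 * Cb * p.A) * (Cb * p.A * p.X) + (Cb * p.A) * (2 * Cb * p.A * p.X) := by
          gcongr
      _ = 4 * (Cb ^ 2 * p.A ^ 2 * p.X) := by ring
      _ ≤ 8 * (Cb ^ 2 * p.A ^ 2 * p.X) := by linarith
      _ = _ := by ring

/-! ### scalar products -/

theorem Good.dot_UU (h : p.Good τ W) : dot p.U p.U = 1 := by
  have hk := h.ok
  unfold dot
  rw [Fin.sum_univ_three]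
  have e0 : ∫ x in cube, p.U x 0 * p.U x 0 = p.A ^ 2 * ∫ x in cube, p.u0 x ^ 2 := by
    rw [← integral_const_mul]
    congr 1
    funext x
    show p.A * p.u0 x * (p.A * p.u0 x) = _
    ring
  have e1 : ∫ x in cube, p.U x 1 * p.U x 1 = 0 := by
    have : ∀ x, p.U x 1 * p.U x 1 = 0 := fun x => by
      rw [show p.U x 1 = 0 from congrFun (U1_eq p) x, mul_zero]
    simp_rw [this]
    simp
  have e2 : ∫ x in cube, p.U x 2 * p.U x 2 = p.A ^ 2 * ∫ x in cube, p.u2 x ^ 2 := by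
    rw [← integral_const_mul]
    congr 1
    funext x
    show p.A * p.u2 x * (p.A * p.u2 x) = _
    ring
  rw [e0, e1, e2, add_zero, ← mul_add, ← integral_add, ← h.A_sq]
  · rfl
  · exact integrableOn_cube (hk.u_sp.1.cont.pow 2)
  · exact integrableOn_cube (hk.u_sp.2.cont.pow 2)

theorem Ok.dot_UF (h : p.Ok) : dot p.U p.F = 0 :=
  int_conv (v := fun i y => p.U y i) (fun i => h.U_sp i) h.U_div

theorem Ok.Zf_add (h : p.Ok) (σ τ : ℝ) (x : V) (i : Fin 3) :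
    p.Zf τ x i = p.Zf σ x i + (τ - σ) * p.U x i := by
  rw [← h.lap_U τ i x, ← h.lap_U σ i x]
  ring

theorem Ok.dot_UZ (h : p.Ok) (σ τ : ℝ) :
    dot p.U (p.Zf τ) = dot p.U (p.Zf σ) + (τ - σ) * dot p.U p.U := by
  unfold dot
  rw [Finset.mul_sum, ← Finset.sum_add_distrib]
  refine Finset.sum_congr rfl fun i _ => ?_
  rw [← integral_const_mul, ← integral_add ((h.U_sp i).mul (h.Zf_sp σ i)).int
    (((h.U_sp i).mul (h.U_sp i)).int.const_mul _)]
  congr 1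
  funext x
  rw [h.Zf_add σ τ]
  ring

theorem Good.alpha_ge (h : p.Good τ W) : Cb ^ 2 * (p.N * W) ≤ dot p.U (p.Zf τ) := by
  have hk := h.ok
  have hA := h.A_pos
  have hC := Cb_one
  have hW := h.W_pos
  obtain ⟨h1, h2, h3, h4⟩ := h.ok.pos
  have hV := h.ok.vol_pos
  rw [hk.dot_UZ (p.N ^ 2) τ, h.dot_UU, mul_one, h.tau]
  have key : ∀ i, |∫ x in cube, p.U x i * p.Zf (p.N ^ 2) x i|
      ≤ (2 * Cb * p.A) * (2 * Cb * (5 + 0) * p.A * (p.N * W)) * (8 * p.vol) := by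
    intro i
    refine int_le_small (S := Icc p.lo p.hi) (by positivity) hk.volK ?_ ?_
    · intro x hx hxS
      have : x ∉ p.K := fun hK => hxS (hk.K_box ⟨hK, hx⟩)
      rw [hk.U_zero this]
      simp
    · intro x
      rw [abs_mul]
      have q1 := h.U_le i x
      have q2 := h.Zf_le (σ := p.N ^ 2) (c := 0) (by ring) le_rfl i x
      gcongr
  have k1 : ∫ x in cube, p.U x 1 * p.Zf (p.N ^ 2) x 1 = 0 := by
    have : ∀ x, p.U x 1 * p.Zf (p.N ^ 2) x 1 = 0 := fun x => by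
      rw [show p.U x 1 = 0 from congrFun (U1_eq p) x, zero_mul]
    simp_rw [this]
    simp
  have hb : |dot p.U (p.Zf (p.N ^ 2))| ≤ 320 * Cb ^ 2 * (p.N * W) * (p.A ^ 2 * p.vol) := by
    unfold dot
    rw [Fin.sum_univ_three, k1, add_zero]
    refine (abs_add_le _ _).trans ?_
    have a0 := key 0
    have a2 := key 2
    calc _ ≤ _ := add_le_add a0 a2
      _ = _ := by ring
  have hb2 : 320 * Cb ^ 2 * (p.N * W) * (p.A ^ 2 * p.vol)
      ≤ 320 * Cb ^ 2 * (p.N * W) * 32 := by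
    have := h.A_vol
    gcongr
  have := (abs_le.1 hb).1
  unfold C2
  nlinarith

end Prm

end Pool.Agent.V1178.NS
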