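import Pool.Agent.V1178.NS.Pk3

/-!
Polynomial bounds for all derivatives of the packets.
-/

open Set Filter Topology MeasureTheory
open scoped ContDiff

set_option autoImplicit false

namespace Pool.Agent.V1178.NS

open H459R3.NS

section oned

variable {L : ℕ → ℝ}

theorem iter_sc (k : ℕ) (X c : ℝ) (j : ℕ) :
    iteratedDeriv j (sc k X c) = fun z => X ^ j * sc (k + j) X c z := by
  induction j with
  | zero => funext z; simp
  | succ j ih =>
    rw [iteratedDeriv_succ, ih]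
    funext z
    have h := (sc_hasDerivAt (k + j) X c z).const_mul (X ^ j)
    rw [h.deriv]
    rw [show k + (j + 1) = k + j + 1 by ring]
    ring

/-- polynomial bounds from bounds for iterated derivatives -/
theorem PB.of_iter {f : ℕ → ℝ → ℝ} (hs : ∀ n, ContDiff ℝ ∞ (f n))
    (h : ∀ k : ℕ, ∃ (C : ℝ) (m : ℕ), ∀ n z, |iteratedDeriv k (f n) z| ≤ C * L n ^ m) : PB L f where
  smooth := hs
  bound := by
    intro k
    obtain ⟨C, m, hC⟩ := h k
    refine ⟨C, m, fun n z => ?_⟩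
    rw [norm_iteratedFDeriv_eq_norm_iteratedDeriv]
    exact hC n z

theorem PB.to_iter {f : ℕ → ℝ → ℝ} (h : PB L f) (k : ℕ) :
    ∃ (C : ℝ) (m : ℕ), ∀ n z, |iteratedDeriv k (f n) z| ≤ C * L n ^ m := by
  obtain ⟨C, m, hC⟩ := h.bound k
  refine ⟨C, m, fun n z => ?_⟩
  have := hC n z
  rwa [norm_iteratedFDeriv_eq_norm_iteratedDeriv] at this

/-- polynomially bounded sequences -/
def Pol (L : ℕ → ℝ) (a : ℕ → ℝ) : Prop := ∃ (K : ℝ) (m : ℕ), 0 ≤ K ∧ ∀ n, |a n| ≤ K * L n ^ m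

theorem Pol.mul {a b : ℕ → ℝ} (ha : Pol L a) (hb : Pol L b) : Pol L (fun n => a n * b n) := by
  obtain ⟨K, m, hK, h1⟩ := ha
  obtain ⟨M, p, hM, h2⟩ := hb
  refine ⟨K * M, m + p, by positivity, fun n => ?_⟩
  rw [abs_mul]
  calc |a n| * |b n| ≤ (K * L n ^ m) * (M * L n ^ p) :=
        mul_le_mul (h1 n) (h2 n) (abs_nonneg _) ((abs_nonneg _).trans (h1 n))
    _ = _ := by rw [pow_add]; ring

theorem Pol.pow {a : ℕ → ℝ} (ha : Pol L a) (j : ℕ) : Pol L (fun n => a n ^ j) := by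
  induction j with
  | zero => exact ⟨1, 0, by norm_num, fun n => by simp⟩
  | succ j ih =>
    have := ih.mul ha
    simpa only [pow_succ] using this

theorem Pol.const (c : ℝ) : Pol L (fun _ => c) := ⟨|c|, 0, abs_nonneg _, fun n => by simp⟩

theorem Pol.of_le {a b : ℕ → ℝ} (hb : Pol L b) (h : ∀ n, |a n| ≤ |b n|) : Pol L a := by
  obtain ⟨K, m, hK, h1⟩ := hb
  exact ⟨K, m, hK, fun n => (h n).trans (h1 n)⟩

theorem Pol.self (hL : ∀ n, 1 ≤ L n) : Pol L L :=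
  ⟨1, 1, by norm_num, fun n => by rw [abs_of_nonneg (by linarith [hL n])]; simp⟩

theorem Pol.add (hL : ∀ n, 1 ≤ L n) {a b : ℕ → ℝ} (ha : Pol L a) (hb : Pol L b) :
    Pol L (fun n => a n + b n) := by
  obtain ⟨K, m, hK, h1⟩ := ha
  obtain ⟨M, p, hM, h2⟩ := hb
  refine ⟨K + M, m + p, by positivity, fun n => ?_⟩
  have e1 : (1 : ℝ) ≤ L n ^ m := one_le_pow₀ (hL n)
  have e2 : (1 : ℝ) ≤ L n ^ p := one_le_pow₀ (hL n)
  have l1 : L n ^ m ≤ L n ^ (m + p) := by
    rw [pow_add]; exact le_mul_of_one_le_right (by linarith) e2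
  have l2 : L n ^ p ≤ L n ^ (m + p) := by
    rw [pow_add]; exact le_mul_of_one_le_left (by linarith) e1
  calc |a n + b n| ≤ |a n| + |b n| := abs_add_le _ _
    _ ≤ K * L n ^ m + M * L n ^ p := add_le_add (h1 n) (h2 n)
    _ ≤ K * L n ^ (m + p) + M * L n ^ (m + p) := by gcongr
    _ = _ := by ring

theorem Pol.PB {E : Type*} [NormedAddCommGroup E] [NormedSpace ℝ E] {a : ℕ → ℝ} (h : Pol L a) :
    PB L (fun n (_ : E) => a n) := by
  obtain ⟨K, m, hK, h1⟩ := h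
  exact PB.const h1

theorem PB_sc {X c : ℕ → ℝ} (hX : Pol L X) (k : ℕ) : PB L (fun n => sc k (X n) (c n)) := by
  refine PB.of_iter (fun n => sc_smooth _ _ _) fun j => ?_
  obtain ⟨K, m, hK, h⟩ := hX.pow j
  refine ⟨K * Bk (k + j), m, fun n z => ?_⟩
  rw [iter_sc, abs_mul]
  have h1 := h n
  have h2 := sc_le (k + j) (X n) (c n) z
  have h3 := Bk_pos (k + j)
  calc |X n ^ j| * |sc (k + j) (X n) (c n) z| ≤ (K * L n ^ m) * Bk (k + j) :=
        mul_le_mul h1 h2 (abs_nonneg _) ((abs_nonneg _).trans h1)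
    _ = _ := by ring

theorem PB_cos {N : ℕ → ℝ} (hN : Pol L N) : PB L (fun n z => Real.cos (N n * z)) := by
  refine PB.of_iter (fun n => by fun_prop) fun j => ?_
  obtain ⟨K, m, hK, h⟩ := hN.pow j
  refine ⟨K, m, fun n z => ?_⟩
  rw [iteratedDeriv_comp_const_mul Real.contDiff_cos, abs_mul]
  have h2 := Real.abs_iteratedDeriv_cos_le_one j (N n * z)
  have h1 := h n
  calc |N n ^ j| * |iteratedDeriv j Real.cos (N n * z)| ≤ (K * L n ^ m) * 1 :=
        mul_le_mul h1 h2 (abs_nonneg _) ((abs_nonneg _).trans h1)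
    _ = _ := by ring

theorem PB_sin {N : ℕ → ℝ} (hN : Pol L N) : PB L (fun n z => Real.sin (N n * z)) := by
  refine PB.of_iter (fun n => by fun_prop) fun j => ?_
  obtain ⟨K, m, hK, h⟩ := hN.pow j
  refine ⟨K, m, fun n z => ?_⟩
  rw [iteratedDeriv_comp_const_mul Real.contDiff_sin, abs_mul]
  have h2 := Real.abs_iteratedDeriv_sin_le_one j (N n * z)
  have h1 := h n
  calc |N n ^ j| * |iteratedDeriv j Real.sin (N n * z)| ≤ (K * L n ^ m) * 1 :=
        mul_le_mul h1 h2 (abs_nonneg _) ((abs_nonneg _).trans h1)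
    _ = _ := by ring

theorem S1.iter {f : ℝ → ℝ} (h : S1 f) (k : ℕ) : S1 (iteratedDeriv k f) := by
  induction k with
  | zero => rwa [iteratedDeriv_zero]
  | succ k ih => rw [iteratedDeriv_succ]; exact ih.deriv

theorem iter_per1 {f : ℝ → ℝ} (h : S1 f) (k : ℕ) :
    iteratedDeriv k (per1 f) = per1 (iteratedDeriv k f) := by
  induction k with
  | zero => rw [iteratedDeriv_zero, iteratedDeriv_zero]
  | succ k ih =>
    rw [iteratedDeriv_succ, ih, per1_deriv (h.iter k).sup (h.iter k).diff, iteratedDeriv_succ]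

theorem PB_per1 {f : ℕ → ℝ → ℝ} (hs : ∀ n, S1 (f n)) (h : PB L f) :
    PB L (fun n => per1 (f n)) := by
  refine PB.of_iter (fun n => per1_contDiff (hs n).sup (hs n).smooth) fun k => ?_
  obtain ⟨C, m, hC⟩ := h.to_iter k
  refine ⟨C, m, fun n z => ?_⟩
  rw [iter_per1 (hs n)]
  exact hC n _

theorem PB_T3 (hL : ∀ n, 1 ≤ L n) {f g h : ℕ → ℝ → ℝ} (hf : ∀ n, S1 (f n)) (hg : ∀ n, S1 (g n))
    (hh : ∀ n, S1 (h n)) (pf : PB L f) (pg : PB L g) (ph : PB L h) :
    PB L (fun n => T3 (f n) (g n) (h n)) := by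
  have h0 := (PB_per1 hf pf).comp hL (ContinuousLinearMap.proj (R := ℝ) (φ := fun _ : Fin 3 => ℝ) 0)
  have h1 := (PB_per1 hg pg).comp hL (ContinuousLinearMap.proj (R := ℝ) (φ := fun _ : Fin 3 => ℝ) 1)
  have h2 := (PB_per1 hh ph).comp hL (ContinuousLinearMap.proj (R := ℝ) (φ := fun _ : Fin 3 => ℝ) 2)
  exact (h0.mul hL h1).mul hL h2

end oned

section pk

variable {L : ℕ → ℝ} {p : ℕ → Prm}

theorem PB_Ec (hL : ∀ n, 1 ≤ L n) (ok : ∀ n, (p n).Ok) (hN : Pol L fun n => (p n).N)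
    (hX : Pol L fun n => (p n).X) (hY : Pol L fun n => (p n).Y) (hZ : Pol L fun n => (p n).Z)
    (i j k : ℕ) : PB L (fun n => (p n).Ec i j k) := by
  refine PB_T3 hL (fun n => (ok n).fx1 i) (fun n => (ok n).fy1 j) (fun n => (ok n).cc1 k) ?_ ?_ ?_
  · exact PB_sc hX i
  · exact PB_sc hY j
  · exact (PB_sc hZ k).mul hL (PB_cos hN)

theorem PB_pd (hL : ∀ n, 1 ≤ L n) {Φ : ℕ → V → ℝ} (h : PB L Φ) (j : Fin 3) :
    PB L (fun n => pd j (Φ n)) := h.fderiv_apply hL (Pi.single j 1)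

theorem RB_pd (hL : ∀ n, 1 ≤ L n) {Φ : ℕ → V → ℝ} (h : RB L Φ) (j : Fin 3) :
    RB L (fun n => pd j (Φ n)) := h.fderiv_apply hL (Pi.single j 1)

theorem PB_lap (hL : ∀ n, 1 ≤ L n) {Φ : ℕ → V → ℝ} (h : PB L Φ) :
    PB L (fun n => lap (Φ n)) := by
  have e : (fun n => lap (Φ n)) = fun n x => (pd 0 (pd 0 (Φ n)) x + pd 1 (pd 1 (Φ n)) x)
      + pd 2 (pd 2 (Φ n)) x := by
    funext n x
    unfold lap
    rw [Fin.sum_univ_three]
  rw [e]
  exact ((PB_pd hL (PB_pd hL h 0) 0).add hL (PB_pd hL (PB_pd hL h 1) 1)).add hL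
    (PB_pd hL (PB_pd hL h 2) 2)

theorem PB_psi (hL : ∀ n, 1 ≤ L n) (ok : ∀ n, (p n).Ok) (hN : Pol L fun n => (p n).N)
    (hX : Pol L fun n => (p n).X) (hY : Pol L fun n => (p n).Y) (hZ : Pol L fun n => (p n).Z)
    (hA : Pol L fun n => (p n).A / (p n).N) : PB L (fun n => (p n).psi) :=
  (hA.PB).mul hL (PB_Ec hL ok hN hX hY hZ 0 0 0)

theorem PB_U (hL : ∀ n, 1 ≤ L n) (ok : ∀ n, (p n).Ok) (hψ : PB L (fun n => (p n).psi))
    (i : Fin 3) : PB L (fun n x => (p n).U x i) := by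
  fin_cases i
  · show PB L (fun n x => (p n).U x 0)
    have e : (fun n x => (p n).U x 0) = fun n x => -1 * pd 2 (p n).psi x :=
      funext fun n => (ok n).U0_eq
    rw [e]
    exact ((Pol.const (-1)).PB).mul hL (PB_pd hL hψ 2)
  · show PB L (fun n x => (p n).U x 1)
    have e : (fun n x => (p n).U x 1) = fun n (x : V) => (0 : ℝ) :=
      funext fun n => U1_eq' (p n)
    rw [e]
    exact (Pol.const 0).PB
  · show PB L (fun n x => (p n).U x 2)
    have e : (fun n x => (p n).U x 2) = fun n => pd 0 (p n).psi :=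
      funext fun n => (ok n).U2_eq
    rw [e]
    exact PB_pd hL hψ 0
where
  U1_eq' (p : Prm) : (fun y => p.U y 1) = fun _ => 0 := Prm.U1_eq p

theorem PB_Zf (hL : ∀ n, 1 ≤ L n) (ok : ∀ n, (p n).Ok) (hψ : PB L (fun n => (p n).psi))
    {τ : ℕ → ℝ} (hτ : Pol L τ) (i : Fin 3) : PB L (fun n x => (p n).Zf (τ n) x i) := by
  have hz : PB L (fun n => (p n).zeta (τ n)) := by
    have e : (fun n => (p n).zeta (τ n)) = fun n x => lap (p n).psi x + τ n * (p n).psi x :=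
      funext fun n => (ok n).zeta_eq (τ n)
    rw [e]
    exact (PB_lap hL hψ).add hL (hτ.PB.mul hL hψ)
  fin_cases i
  · show PB L (fun n x => (p n).Zf (τ n) x 0)
    have e : (fun n x => (p n).Zf (τ n) x 0) = fun n x => -1 * pd 2 ((p n).zeta (τ n)) x :=
      funext fun n => (ok n).Zf0_eq (τ n)
    rw [e]
    exact ((Pol.const (-1)).PB).mul hL (PB_pd hL hz 2)
  · show PB L (fun n x => (p n).Zf (τ n) x 1)
    have e : (fun n x => (p n).Zf (τ n) x 1) = fun n (x : V) => (0 : ℝ) :=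
      funext fun n => Prm.Zf1_eq (p n) (τ n)
    rw [e]
    exact (Pol.const 0).PB
  · show PB L (fun n x => (p n).Zf (τ n) x 2)
    have e : (fun n x => (p n).Zf (τ n) x 2) = fun n => pd 0 ((p n).zeta (τ n)) :=
      funext fun n => (ok n).Zf2_eq (τ n)
    rw [e]
    exact PB_pd hL hz 0

theorem PB_F (hL : ∀ n, 1 ≤ L n) (ok : ∀ n, (p n).Ok) (hψ : PB L (fun n => (p n).psi))
    (i : Fin 3) : PB L (fun n x => (p n).F x i) := by
  have e : (fun n x => (p n).F x i) = fun n x =>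
      ((p n).U x 0 * pd 0 (fun y => (p n).U y i) x + (p n).U x 1 * pd 1 (fun y => (p n).U y i) x)
      + (p n).U x 2 * pd 2 (fun y => (p n).U y i) x := by
    funext n x
    show ∑ j, (p n).U x j * pd j (fun y => (p n).U y i) x = _
    rw [Fin.sum_univ_three]
  rw [e]
  have hU := PB_U hL ok hψ
  exact (((hU 0).mul hL (PB_pd hL (hU i) 0)).add hL ((hU 1).mul hL (PB_pd hL (hU i) 1))).add hL
    ((hU 2).mul hL (PB_pd hL (hU i) 2))

end pk

end Pool.Agent.V1178.NS
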