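import Pool.Agent.V1178.NS.Dec
import Pool.Agent.V1178.NS.Ode

/-!
Rapidly decreasing sequences and the quadratic map of the circuit.
-/

open Set Filter Topology MeasureTheory
open scoped ContDiff ENNReal

set_option autoImplicit false

namespace Pool.Agent.V1178.NS

open H459R3.NS

/-- rapidly decreasing sequences -/
def Rap (L : ℕ → ℝ) (a : ℕ → ℝ) : Prop := ∀ k : ℕ, ∃ C, ∀ n, L n ^ k * |a n| ≤ C

section rap

variable {L a b : ℕ → ℝ}

theorem Rap.mul_pol (hL : ∀ n, 1 ≤ L n) (ha : Rap L a) (hb : Pol L b) :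
    Rap L (fun n => a n * b n) := by
  intro k
  obtain ⟨K, m, hK, h⟩ := hb
  obtain ⟨C, hC⟩ := ha (k + m)
  refine ⟨C * K, fun n => ?_⟩
  have h1 : 0 ≤ L n ^ k := pow_nonneg (by linarith [hL n]) k
  calc L n ^ k * |a n * b n| = L n ^ k * |a n| * |b n| := by rw [abs_mul]; ring
    _ ≤ L n ^ k * |a n| * (K * L n ^ m) := by gcongr; exact h n
    _ = (L n ^ (k + m) * |a n|) * K := by rw [pow_add]; ring
    _ ≤ C * K := by gcongr; exact hC n

theorem Rap.pol (ha : Rap L a) : Pol L a := by
  obtain ⟨C, hC⟩ := ha 0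
  refine ⟨|C|, 0, abs_nonneg _, fun n => ?_⟩
  have := hC n
  rw [pow_zero, one_mul] at this
  rw [pow_zero, mul_one]
  exact this.trans (le_abs_self C)

theorem Rap.mul (hL : ∀ n, 1 ≤ L n) (ha : Rap L a) (hb : Rap L b) :
    Rap L (fun n => a n * b n) := ha.mul_pol hL hb.pol

theorem Rap.cmul (hL : ∀ n, 1 ≤ L n) (ha : Rap L a) (c : ℝ) : Rap L (fun n => c * a n) := by
  have := ha.mul_pol hL (Pol.const (L := L) c)
  simpa only [mul_comm] using this

theorem Rap.add (hL : ∀ n, 1 ≤ L n) (ha : Rap L a) (hb : Rap L b) :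
    Rap L (fun n => a n + b n) := by
  intro k
  obtain ⟨C, hC⟩ := ha k
  obtain ⟨D, hD⟩ := hb k
  refine ⟨C + D, fun n => ?_⟩
  have h1 : 0 ≤ L n ^ k := pow_nonneg (by linarith [hL n]) k
  calc L n ^ k * |a n + b n| ≤ L n ^ k * (|a n| + |b n|) := by gcongr; exact abs_add_le _ _
    _ = L n ^ k * |a n| + L n ^ k * |b n| := by ring
    _ ≤ C + D := add_le_add (hC n) (hD n)

theorem Rap.of_le (hL : ∀ n, 1 ≤ L n) (hb : Rap L b) (h : ∀ n, |a n| ≤ |b n|) : Rap L a := by
  intro k
  obtain ⟨C, hC⟩ := hb k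
  refine ⟨C, fun n => ?_⟩
  have h1 : 0 ≤ L n ^ k := pow_nonneg (by linarith [hL n]) k
  exact (mul_le_mul_of_nonneg_left (h n) h1).trans (hC n)

theorem Rap.neg (hL : ∀ n, 1 ≤ L n) (ha : Rap L a) : Rap L (fun n => -a n) :=
  ha.of_le hL fun n => by rw [abs_neg]

theorem Rap.sub (hL : ∀ n, 1 ≤ L n) (ha : Rap L a) (hb : Rap L b) :
    Rap L (fun n => a n - b n) := by
  have := ha.add hL (hb.neg hL)
  simpa only [sub_eq_add_neg] using this

theorem Rap.abs (hL : ∀ n, 1 ≤ L n) (ha : Rap L a) : Rap L (fun n => |a n|) :=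
  ha.of_le hL fun n => by rw [abs_abs]

theorem Rap.summable (hL : ∀ n, 1 ≤ L n) (hs : Summable fun n => (L n)⁻¹) (ha : Rap L a) :
    Summable a := by
  obtain ⟨C, hC⟩ := ha 1
  refine Summable.of_norm_bounded (hs.mul_left C) fun n => ?_
  have h1 := hC n
  have h2 : 0 < L n := by linarith [hL n]
  rw [pow_one] at h1
  rw [Real.norm_eq_abs, ← div_eq_mul_inv, le_div_iff₀ h2]
  linarith

theorem Rap.shl (hL : ∀ n, 1 ≤ L n) (hm : Monotone L) (ha : Rap L a) :
    Rap L (fun n => a (n + 1)) := by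
  intro k
  obtain ⟨C, hC⟩ := ha k
  refine ⟨C, fun n => ?_⟩
  have h1 : L n ≤ L (n + 1) := hm (Nat.le_succ n)
  have h2 : 0 ≤ L n := by linarith [hL n]
  exact (mul_le_mul_of_nonneg_right (pow_le_pow_left₀ h2 h1 k) (abs_nonneg _)).trans (hC (n + 1))

theorem Rap.shr (hL : ∀ n, 1 ≤ L n) {lam : ℝ} (hg : ∀ n, L (n + 1) = lam * L n) (ha : Rap L a) :
    Rap L (fun n => if n = 0 then 0 else a (n - 1)) := by
  intro k
  obtain ⟨C, hC⟩ := ha k
  refine ⟨|lam| ^ k * |C|, fun n => ?_⟩
  rcases n with _ | n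
  · simp
    positivity
  · simp only [Nat.succ_ne_zero, if_false, Nat.add_sub_cancel]
    have h2 : 0 ≤ L n ^ k := pow_nonneg (by linarith [hL n]) k
    rw [hg n, mul_pow]
    have h5 : lam ^ k ≤ |lam| ^ k := by rw [← abs_pow]; exact le_abs_self _
    calc lam ^ k * L n ^ k * |a n| ≤ |lam| ^ k * L n ^ k * |a n| :=
          mul_le_mul_of_nonneg_right (mul_le_mul_of_nonneg_right h5 h2) (abs_nonneg _)
      _ = |lam| ^ k * (L n ^ k * |a n|) := by ring
      _ ≤ |lam| ^ k * |C| := by
        gcongr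
        exact (hC n).trans (le_abs_self C)

theorem Rap.tail (hL : ∀ n, 1 ≤ L n) (hs : Summable fun n => (L n)⁻¹) (hm : Monotone L)
    (ha : Rap L a) : Rap L (fun n => ∑' m : ℕ, a (n + 1 + m)) := by
  intro k
  have hb : Rap L (fun n => L n ^ k * |a n|) := by
    have := (ha.abs hL).mul_pol hL ((Pol.self hL).pow k)
    simpa only [mul_comm] using this
  have hbs : Summable (fun n => L n ^ k * |a n|) := hb.summable hL hs
  have h0 : ∀ n, 0 ≤ L n ^ k * |a n| := fun n =>
    mul_nonneg (pow_nonneg (by linarith [hL n]) k) (abs_nonneg _)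
  refine ⟨∑' n, L n ^ k * |a n|, fun n => ?_⟩
  have hinj : Function.Injective (fun m : ℕ => n + 1 + m) := fun x y h => by
    simpa using h
  have hs2 : Summable (fun m : ℕ => L (n + 1 + m) ^ k * |a (n + 1 + m)|) :=
    hbs.comp_injective hinj
  have hs3 : Summable (fun m : ℕ => |a (n + 1 + m)|) :=
    ((ha.abs hL).summable hL hs).comp_injective hinj
  have h1 : |∑' m : ℕ, a (n + 1 + m)| ≤ ∑' m : ℕ, |a (n + 1 + m)| := by
    have := norm_tsum_le_tsum_norm (f := fun m : ℕ => a (n + 1 + m)) hs3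
    exact this
  have hLn : 0 ≤ L n ^ k := pow_nonneg (by linarith [hL n]) k
  calc L n ^ k * |∑' m : ℕ, a (n + 1 + m)| ≤ L n ^ k * ∑' m : ℕ, |a (n + 1 + m)| := by gcongr
    _ = ∑' m : ℕ, L n ^ k * |a (n + 1 + m)| := tsum_mul_left.symm
    _ ≤ ∑' m : ℕ, L (n + 1 + m) ^ k * |a (n + 1 + m)| := by
      refine (hs3.mul_left _).tsum_le_tsum (fun m => ?_) hs2
      have h2 : L n ≤ L (n + 1 + m) := hm (by omega)
      have h3 : 0 ≤ L n := by linarith [hL n]
      gcongr
    _ ≤ ∑' n, L n ^ k * |a n| := tsum_comp_le_tsum_of_inj hbs h0 hinj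

end rap

/-- the bilinear form of `quad` -/
noncomputable def qq (L : ℕ → ℝ) (C : ℝ) (a b : ℕ → ℝ) (n : ℕ) : ℝ :=
  (if n = 0 then 0 else L (n - 1) * C * (a (n - 1) * b (n - 1)))
  - L n * C * (a n * b (n + 1))
  + b n * ∑ i ∈ Finset.range n, L i * a i
  - L n * ∑' m : ℕ, a (n + 1 + m) * b (n + 1 + m)

theorem quad_eq (L : ℕ → ℝ) (C : ℝ) (x : ℕ → ℝ) (n : ℕ) : quad L C x n = qq L C x x n := by
  unfold quad qq
  have e1 : (if n = 0 then (0 : ℝ) else L (n - 1) * C * x (n - 1) ^ 2)
      = if n = 0 then 0 else L (n - 1) * C * (x (n - 1) * x (n - 1)) := by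
    split_ifs
    · rfl
    · ring
  have e2 : ∀ m : ℕ, x (n + 1 + m) ^ 2 = x (n + 1 + m) * x (n + 1 + m) := fun m => sq _
  simp_rw [e2]
  rw [e1]
  ring

section qq

variable {L a b a' b' : ℕ → ℝ} {C lam : ℝ}

/-- the conditions on the sequence of coefficients -/
structure Seqs (L : ℕ → ℝ) (lam : ℝ) : Prop where
  one : ∀ n, 1 ≤ L n
  sum : Summable fun n => (L n)⁻¹
  mono : Monotone L
  geo : ∀ n, L (n + 1) = lam * L n

theorem Rap.psum (h : Seqs L lam) (ha : Rap L a) :
    Pol L (fun n => ∑ i ∈ Finset.range n, L i * a i) := by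
  have hb : Rap L (fun n => L n * |a n|) := by
    have := (ha.abs h.one).mul_pol h.one (Pol.self h.one)
    simpa only [mul_comm] using this
  have hbs := hb.summable h.one h.sum
  have h0 : ∀ n, 0 ≤ L n * |a n| := fun n => mul_nonneg (by linarith [h.one n]) (abs_nonneg _)
  refine ⟨∑' n, L n * |a n|, 0, tsum_nonneg h0, fun n => ?_⟩
  rw [pow_zero, mul_one]
  refine (Finset.abs_sum_le_sum_abs _ _).trans ?_
  have e : ∀ i, |L i * a i| = L i * |a i| := fun i => by
    rw [abs_mul, abs_of_nonneg (by linarith [h.one i])]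
  simp_rw [e]
  exact hbs.sum_le_tsum _ fun i _ => h0 i

theorem qq_rap (h : Seqs L lam) (ha : Rap L a) (hb : Rap L b) : Rap L (qq L C a b) := by
  have h1 : Rap L (fun n => if n = 0 then 0 else L (n - 1) * C * (a (n - 1) * b (n - 1))) := by
    have e : Rap L (fun n => L n * C * (a n * b n)) := by
      have := (ha.mul h.one hb).mul_pol h.one ((Pol.self h.one).mul (Pol.const (L := L) C))
      simpa only [mul_comm] using this
    exact e.shr h.one h.geo
  have h2 : Rap L (fun n => L n * C * (a n * b (n + 1))) := by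
    have := (ha.mul h.one (hb.shl h.one h.mono)).mul_pol h.one
      ((Pol.self h.one).mul (Pol.const (L := L) C))
    simpa only [mul_comm] using this
  have h3 : Rap L (fun n => b n * ∑ i ∈ Finset.range n, L i * a i) := hb.mul_pol h.one (ha.psum h)
  have h4 : Rap L (fun n => L n * ∑' m : ℕ, a (n + 1 + m) * b (n + 1 + m)) := by
    have e := (ha.mul h.one hb).tail h.one h.sum h.mono
    have := e.mul_pol h.one (Pol.self h.one)
    simpa only [mul_comm] using this
  exact ((h1.sub h.one h2).add h.one h3).sub h.one h4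

theorem sum_tail (h : Seqs L lam) (ha : Rap L a) (hb : Rap L b) (n : ℕ) :
    Summable fun m : ℕ => a (n + 1 + m) * b (n + 1 + m) :=
  ((ha.mul h.one hb).summable h.one h.sum).comp_injective (i := fun m : ℕ => n + 1 + m)
    fun x y hxy => by simpa using hxy

theorem qq_lin_left (h : Seqs L lam) (ha : Rap L a) (ha' : Rap L a') (hb : Rap L b) (c : ℝ)
    (n : ℕ) : qq L C (fun n => c * a n + a' n) b n = c * qq L C a b n + qq L C a' b n := by
  unfold qq
  have e1 : (∑' m : ℕ, (c * a (n + 1 + m) + a' (n + 1 + m)) * b (n + 1 + m))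
      = c * (∑' m : ℕ, a (n + 1 + m) * b (n + 1 + m)) + ∑' m : ℕ, a' (n + 1 + m) * b (n + 1 + m) := by
    rw [← tsum_mul_left, ← ((sum_tail h ha hb n).mul_left c).tsum_add (sum_tail h ha' hb n)]
    congr 1
    funext m
    ring
  have e2 : ∑ i ∈ Finset.range n, L i * (c * a i + a' i)
      = c * (∑ i ∈ Finset.range n, L i * a i) + ∑ i ∈ Finset.range n, L i * a' i := by
    rw [Finset.mul_sum, ← Finset.sum_add_distrib]
    exact Finset.sum_congr rfl fun i _ => by ring
  rw [e1, e2]
  split_ifs <;> ring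

theorem qq_lin_right (h : Seqs L lam) (ha : Rap L a) (hb : Rap L b) (hb' : Rap L b') (c : ℝ)
    (n : ℕ) : qq L C a (fun n => c * b n + b' n) n = c * qq L C a b n + qq L C a b' n := by
  unfold qq
  have e1 : (∑' m : ℕ, a (n + 1 + m) * (c * b (n + 1 + m) + b' (n + 1 + m)))
      = c * (∑' m : ℕ, a (n + 1 + m) * b (n + 1 + m)) + ∑' m : ℕ, a (n + 1 + m) * b' (n + 1 + m) := by
    rw [← tsum_mul_left, ← ((sum_tail h ha hb n).mul_left c).tsum_add (sum_tail h ha hb' n)]
    congr 1
    funext m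
    ring
  rw [e1]
  split_ifs <;> ring

/-- the quadratic map is energy-neutral -/
theorem qq_neutral (h : Seqs L lam) (ha : Rap L a) : ∑' n, qq L C a a n * a n = 0 := by
  -- first pair
  have s2 : Rap L (fun n => L n * C * (a n * a (n + 1)) * a n) := by
    have := (((ha.mul h.one (ha.shl h.one h.mono)).mul_pol h.one
      ((Pol.self h.one).mul (Pol.const (L := L) C)))).mul h.one ha
    refine this.of_le h.one fun n => le_of_eq ?_
    congr 1
    ring
  have s1 : Rap L (fun n => (if n = 0 then 0 else L (n - 1) * C * (a (n - 1) * a (n - 1))) * a n) := by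
    have e : Rap L (fun n => L n * C * (a n * a n)) := by
      have := (ha.mul h.one ha).mul_pol h.one ((Pol.self h.one).mul (Pol.const (L := L) C))
      simpa only [mul_comm] using this
    exact (e.shr h.one h.geo).mul h.one ha
  have s3 : Rap L (fun n => (a n * ∑ i ∈ Finset.range n, L i * a i) * a n) :=
    (ha.mul_pol h.one (ha.psum h)).mul h.one ha
  have s4 : Rap L (fun n => (L n * ∑' m : ℕ, a (n + 1 + m) * a (n + 1 + m)) * a n) := by
    have e := (ha.mul h.one ha).tail h.one h.sum h.mono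
    have := (e.mul_pol h.one (Pol.self h.one)).mul h.one ha
    simpa only [mul_comm] using this
  have S1 := s1.summable h.one h.sum
  have S2 := s2.summable h.one h.sum
  have S3 := s3.summable h.one h.sum
  have S4 := s4.summable h.one h.sum
  have e0 : ∀ n, qq L C a a n * a n
      = (((if n = 0 then 0 else L (n - 1) * C * (a (n - 1) * a (n - 1))) * a n
        - L n * C * (a n * a (n + 1)) * a n)
        + (a n * ∑ i ∈ Finset.range n, L i * a i) * a n)
        - (L n * ∑' m : ℕ, a (n + 1 + m) * a (n + 1 + m)) * a n := by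
    intro n
    unfold qq
    ring
  simp_rw [e0]
  rw [((S1.sub S2).add S3).tsum_sub S4, (S1.sub S2).tsum_add S3, S1.tsum_sub S2]
  have E1 : ∑' n, (if n = 0 then 0 else L (n - 1) * C * (a (n - 1) * a (n - 1))) * a n
      = ∑' n, L n * C * (a n * a (n + 1)) * a n := by
    rw [S1.tsum_eq_zero_add]
    simp only [if_true, zero_mul, zero_add, Nat.succ_ne_zero, if_false, Nat.add_sub_cancel]
    congr 1
    funext n
    ring
  have E2 : ∑' n, (a n * ∑ i ∈ Finset.range n, L i * a i) * a n
      = ∑' n, (L n * ∑' m : ℕ, a (n + 1 + m) * a (n + 1 + m)) * a n := by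
    set F : ℕ × ℕ → ℝ := fun q => if q.1 < q.2 then L q.1 * a q.1 * (a q.2 * a q.2) else 0 with hF
    have hsF : Summable F := by
      have h1 : Summable (fun n => |L n * a n|) := by
        have := (ha.mul_pol h.one (Pol.self h.one)).abs h.one
        simp only [mul_comm] at this
        exact this.summable h.one h.sum
      have h2 : Summable (fun n => |a n * a n|) := ((ha.mul h.one ha).abs h.one).summable h.one h.sum
      have h3 := h1.mul_of_nonneg h2 (fun _ => abs_nonneg _) (fun _ => abs_nonneg _)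
      refine Summable.of_norm_bounded h3 fun q => ?_
      rw [hF]
      simp only
      split_ifs
      · rw [norm_mul, Real.norm_eq_abs, Real.norm_eq_abs]
      · rw [norm_zero]
        positivity
    have h1 : ∀ n, (a n * ∑ i ∈ Finset.range n, L i * a i) * a n = ∑' i, F (i, n) := by
      intro n
      have hz : ∀ i ∉ Finset.range n, F (i, n) = 0 := by
        intro i hi
        rw [hF]
        simp only
        rw [if_neg]
        simpa using hi
      rw [tsum_eq_sum hz, Finset.mul_sum, Finset.sum_mul]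
      refine Finset.sum_congr rfl fun i hi => ?_
      rw [hF]
      simp only
      rw [if_pos (Finset.mem_range.1 hi)]
      ring
    have h2 : ∀ n, (L n * ∑' m : ℕ, a (n + 1 + m) * a (n + 1 + m)) * a n = ∑' j, F (n, j) := by
      intro n
      have hsn : Summable (fun j => F (n, j)) := hsF.prod_factor n
      rw [← hsn.sum_add_tsum_nat_add (n + 1)]
      have hz : ∑ i ∈ Finset.range (n + 1), F (n, i) = 0 := by
        refine Finset.sum_eq_zero fun i hi => ?_
        rw [hF]
        simp only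
        rw [if_neg]
        have := Finset.mem_range.1 hi
        omega
      rw [hz, zero_add, ← tsum_mul_left, ← tsum_mul_right]
      congr 1
      funext m
      rw [hF]
      simp only
      rw [if_pos (by omega), show m + (n + 1) = n + 1 + m by ring]
      ring
    simp_rw [h1, h2]
    exact hsF.tsum_comm (f := fun i n => F (i, n)) |>.symm ▸ rfl
  rw [E1, E2]
  ring

end qq

end Pool.Agent.V1178.NS
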