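import Pool.Agent.V1178.NS.Bd
import Pool.Agent.V1178.NS.Stmt

/-!
The solution.
-/

open Set Filter Topology MeasureTheory
open scoped ContDiff ENNReal

set_option autoImplicit false

namespace Pool.Agent.V1178.NS

open H459R3.NS

theorem dot_zero {u v : V → V} (h : ∀ x, u x = 0 ∨ v x = 0) : dot u v = 0 := by
  unfold dot
  refine Finset.sum_eq_zero fun i _ => ?_
  have : ∀ x, u x i * v x i = 0 := fun x => by
    rcases h x with h | h <;> rw [h] <;> simp
  simp_rw [this]
  simp

section sol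

variable {p : ℕ → Prm} {τ W L : ℕ → ℝ} {lam C amp : ℝ} {y : ℕ → ℝ}

theorem Fam.split (h : Fam p τ W L lam) {m n : ℕ} (hmn : m ≠ n) (x : V) :
    x ∉ (p m).K ∨ x ∉ (p n).K := by
  by_contra hcon
  push Not at hcon
  exact (Set.disjoint_left.1 (h.disj m n hmn)) hcon.1 hcon.2

theorem Fam.ca_syn (h : Fam p τ W L lam) (hy : Rap L y) (n : ℕ) :
    dot (syn y (fun n => (p n).U)) (p n).U = y n := by
  rw [dot_comm, dot_syn h.seqs hy h.U_fb (h.U_fb.sv n), tsum_eq_single n]
  · rw [(h.good n).dot_UU, mul_one]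
  · intro m hm
    rw [dot_zero, mul_zero]
    intro x
    rcases h.split hm x with hx | hx
    · exact Or.inr ((h.good m).ok.U_zero hx)
    · exact Or.inl ((h.good n).ok.U_zero hx)

theorem Fam.cf_syn (h : Fam p τ W L lam) (hy : Rap L y) (n : ℕ) :
    dot (syn y (fun n => (p n).U)) (p n).F = 0 := by
  rw [dot_comm, dot_syn h.seqs hy h.U_fb (h.F_fb.sv n), tsum_eq_single n]
  · rw [dot_comm, (h.good n).ok.dot_UF, mul_zero]
  · intro m hm
    rw [dot_zero, mul_zero]
    intro x
    rcases h.split hm x with hx | hx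
    · exact Or.inr ((h.good m).ok.U_zero hx)
    · exact Or.inl ((h.good n).ok.F_zero hx)

theorem Fam.cz_syn (h : Fam p τ W L lam) (hy : Rap L y) (n : ℕ) :
    dot (syn y (fun n => (p n).U)) ((p n).Zf (τ n)) = y n * dot (p n).U ((p n).Zf (τ n)) := by
  rw [dot_comm, dot_syn h.seqs hy h.U_fb (h.Z_fb.sv n), tsum_eq_single n]
  · rw [dot_comm]
  · intro m hm
    rw [dot_zero, mul_zero]
    intro x
    rcases h.split hm x with hx | hx
    · exact Or.inr ((h.good m).ok.U_zero hx)
    · exact Or.inl ((h.good n).ok.Zf_zero (τ n) hx)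

theorem Fam.D_syn (h : Fam p τ W L lam) (hy : Rap L y) :
    Dop p τ (syn y (fun n => (p n).U)) = syn y (fun n => (p n).Zf (τ n)) := by
  unfold Dop
  congr 1
  funext n
  rw [h.cz_syn hy]
  have := h.alpha n
  field_simp

theorem Fam.G_syn (h : Fam p τ W L lam) (hy : Rap L y) :
    Gop p L C amp (syn y (fun n => (p n).U)) (syn y (fun n => (p n).U))
      = syn (fun n => -(y n * y n)) (fun n => (p n).F)
        + syn (fun n => -(amp⁻¹ * qq L C y y n)) (fun n => (p n).U) := by
  unfold Gop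
  have e1 : (fun n => dot (syn y (fun n => (p n).U)) (p n).U) = y := funext fun n => h.ca_syn hy n
  have e2 : (fun n => dot (syn y (fun n => (p n).U)) (p n).U
      * dot (syn y (fun n => (p n).U)) (p n).F
      - amp⁻¹ * qq L C (fun n => dot (syn y (fun n => (p n).U)) (p n).U)
        (fun n => dot (syn y (fun n => (p n).U)) (p n).U) n)
      = fun n => -(amp⁻¹ * qq L C y y n) := by
    funext n
    rw [e1, h.cf_syn hy]
    ring
  have e3 : (fun n => -(dot (syn y (fun n => (p n).U)) (p n).U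
      * dot (syn y (fun n => (p n).U)) (p n).U)) = fun n => -(y n * y n) := by
    funext n
    rw [h.ca_syn hy]
  rw [e2, e3]

theorem Fam.spU (h : Fam p τ W L lam) : Sp (fun n => (p n).K) (fun n => (p n).U) :=
  fun n _ hx => (h.good n).ok.U_zero hx

theorem Fam.spF (h : Fam p τ W L lam) : Sp (fun n => (p n).K) (fun n => (p n).F) :=
  fun n _ hx => (h.good n).ok.F_zero hx

theorem Fam.spZ (h : Fam p τ W L lam) : Sp (fun n => (p n).K) (fun n => (p n).Zf (τ n)) :=
  fun n _ hx => (h.good n).ok.Zf_zero (τ n) hx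

theorem Prm.Ok.lapU_zero {p : Prm} (h : p.Ok) (i : Fin 3) {x : V} (hx : x ∉ p.K) :
    lap (fun y => p.U y i) x = 0 := by
  have h1 := h.lap_U 0 i x
  rw [h.Zf_zero 0 hx] at h1
  simpa using h1

/-- the identity behind the equation -/
theorem Fam.identity (h : Fam p τ W L lam) (hy : Rap L y) {ν : ℝ} {d : ℕ → ℝ}
    (hd : ∀ n, d n = -(ν * τ n * y n) + amp⁻¹ * qq L C y y n) (x : V) (i : Fin 3) :
    syn d (fun n => (p n).U) x i
      + ∑ j, syn y (fun n => (p n).U) x j * pd j (fun z => syn y (fun n => (p n).U) z i) x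
      + Gop p L C amp (syn y (fun n => (p n).U)) (syn y (fun n => (p n).U)) x i
      = ν * (lap (fun z => syn y (fun n => (p n).U) z i) x
        - Dop p τ (syn y (fun n => (p n).U)) x i) := by
  rw [h.G_syn hy, h.D_syn hy]
  simp_rw [syn_pd h.seqs hy h.U_fb]
  rw [syn_lap h.seqs hy h.U_fb]
  show _ + _ + (syn (fun n => -(y n * y n)) (fun n => (p n).F) x i
    + syn (fun n => -(amp⁻¹ * qq L C y y n)) (fun n => (p n).U) x i) = _
  by_cases hx : ∃ n, x ∈ (p n).K
  · obtain ⟨n, hn⟩ := hx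
    have hm : ∀ m, m ≠ n → x ∉ (p m).K := fun m hmn hK =>
      (Set.disjoint_left.1 (h.disj m n hmn)) hK hn
    rw [syn_at h.disj h.spU hn, syn_at h.disj h.spU hn, syn_at h.disj h.spF hn,
      syn_at h.disj h.spZ hn]
    have e1 : ∀ j, syn y (fun n => (p n).U) x j = y n * (p n).U x j := fun j =>
      syn_at h.disj h.spU hn j
    have e2 : ∀ j, (∑' m, y m * pd j (fun z => (p m).U z i) x)
        = y n * pd j (fun z => (p n).U z i) x := fun j => by
      refine tsum_eq_single n fun m hmn => ?_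
      rw [(h.good m).ok.pdU_zero i j (hm m hmn), mul_zero]
    have e3 : (∑' m, y m * lap (fun z => (p m).U z i) x) = y n * lap (fun z => (p n).U z i) x := by
      refine tsum_eq_single n fun m hmn => ?_
      rw [(h.good m).ok.lapU_zero i (hm m hmn), mul_zero]
    simp_rw [e1, e2]
    rw [e3]
    have e4 : ∑ j, y n * (p n).U x j * (y n * pd j (fun z => (p n).U z i) x)
        = y n * y n * (p n).F x i := by
      show _ = y n * y n * ∑ j, (p n).U x j * pd j (fun z => (p n).U z i) x
      rw [Finset.mul_sum]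
      exact Finset.sum_congr rfl fun j _ => by ring
    have e5 := (h.good n).ok.lap_U (τ n) i x
    rw [e4, hd n, ← e5]
    ring
  · push Not at hx
    rw [syn_out h.spU hx, syn_out h.spU hx, syn_out h.spF hx, syn_out h.spZ hx]
    have e1 : ∀ j, syn y (fun n => (p n).U) x j = 0 := fun j => syn_out h.spU hx j
    have e3 : (∑' m, y m * lap (fun z => (p m).U z i) x) = 0 := by
      have : ∀ m, y m * lap (fun z => (p m).U z i) x = 0 := fun m => by
        rw [(h.good m).ok.lapU_zero i (hx m), mul_zero]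
      simp_rw [this]
      exact tsum_zero
    simp_rw [e1]
    rw [e3]
    simp

theorem syn_div (h : Fam p τ W L lam) (hy : Rap L y) (x : V) :
    ∑ i, pd i (fun z => syn y (fun n => (p n).U) z i) x = 0 := by
  simp_rw [syn_pd h.seqs hy h.U_fb]
  rw [← Summable.tsum_finsetSum]
  · have : ∀ n, ∑ i, y n * pd i (fun z => (p n).U z i) x = 0 := fun n => by
      rw [← Finset.mul_sum, (h.good n).ok.U_div, mul_zero]
    simp_rw [this]
    exact tsum_zero
  · intro i _
    exact syn_summable h.seqs hy (h.U_fb.pd h.seqs.one i) x i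

theorem qq_scale (L x : ℕ → ℝ) (C c : ℝ) (n : ℕ) :
    qq L C (fun n => c * x n) (fun n => c * x n) n = c ^ 2 * qq L C x x n := by
  unfold qq
  have e1 : (∑' m : ℕ, c * x (n + 1 + m) * (c * x (n + 1 + m)))
      = c ^ 2 * ∑' m : ℕ, x (n + 1 + m) * x (n + 1 + m) := by
    rw [← tsum_mul_left]
    congr 1
    funext m
    ring
  have e2 : ∑ i ∈ Finset.range n, L i * (c * x i) = c * ∑ i ∈ Finset.range n, L i * x i := by
    rw [Finset.mul_sum]
    exact Finset.sum_congr rfl fun i _ => by ring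
  rw [e1, e2]
  split_ifs <;> ring

/-- the solution -/
noncomputable def usol (p : ℕ → Prm) (amp t₀ : ℝ) (x : ℕ → ℝ → ℝ) (t : ℝ) : V → V :=
  syn (fun n => amp * x n (t + t₀)) (fun n => (p n).U)

variable {T t₀ ν : ℝ} {ℓ : ℕ → ℝ} {x : ℕ → ℝ → ℝ}

theorem usol_smooth (h : Fam p τ W L lam) (hx : ∀ j, RD L T j x) (ht₀ : 0 < t₀) :
    ContDiffOn ℝ ∞ (fun z : ℝ × V => usol p amp t₀ x z.1 z.2) (Ico 0 (T - t₀) ×ˢ univ) := by
  rw [contDiffOn_pi]
  intro i
  intro z hz
  refine ContDiffAt.contDiffWithinAt ?_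
  obtain ⟨⟨h1, h2⟩, -⟩ := hz
  set s := z.1 + t₀ with hs
  have hs1 : 0 < s := by linarith
  have hs2 : s < T := by linarith
  -- cut-off
  set r := min s (T - s) / 2 with hr
  have hr0 : 0 < r := by
    have : 0 < min s (T - s) := lt_min hs1 (by linarith)
    linarith
  have hr1 : r < s := by
    have := min_le_left s (T - s)
    linarith
  have hr2 : s + r < T := by
    have := min_le_right s (T - s)
    linarith
  let χ : ContDiffBump s := ⟨r / 2, r, by linarith, by linarith⟩
  have hχ : ContDiff ℝ ∞ (χ : ℝ → ℝ) := χ.contDiff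
  have hχ0 : ∀ t, t ∉ Icc (s - r) (s + r) → χ t = 0 := by
    intro t ht
    apply χ.zero_of_le_dist
    show r ≤ dist t s
    rw [Real.dist_eq]
    by_contra hcon
    push Not at hcon
    rw [abs_lt] at hcon
    exact ht ⟨by linarith, by linarith⟩
  have hRB : RB L (fun n (q : ℝ × V) => (χ q.1 * x n q.1) * (p n).U q.2 i) := by
    have a1 := (cut_RB h.seqs.one (a := s - r) (b := s + r) (by linarith) hr2 hχ hχ0 hx).comp
      h.seqs.one (ContinuousLinearMap.fst ℝ ℝ V)
    have a2 := (h.U_fb.pb i).comp h.seqs.one (ContinuousLinearMap.snd ℝ ℝ V)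
    exact a1.mul_PB h.seqs.one a2
  have hG := hRB.contDiff_tsum h.seqs.one h.seqs.sum
  have hG2 : ContDiff ℝ ∞ (fun q : ℝ × V => amp * ∑' n, (χ (q.1 + t₀) * x n (q.1 + t₀))
      * (p n).U q.2 i) := by
    have hm : ContDiff ℝ ∞ (fun q : ℝ × V => ((q.1 + t₀, q.2) : ℝ × V)) := by fun_prop
    exact contDiff_const.mul (hG.comp hm)
  refine hG2.contDiffAt.congr_of_eventuallyEq ?_
  have hev : ∀ᶠ q : ℝ × V in 𝓝 z, q.1 + t₀ ∈ Metric.ball s (r / 2) := by
    have hc : Continuous (fun q : ℝ × V => q.1 + t₀) := by fun_prop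
    exact hc.continuousAt (Metric.ball_mem_nhds _ (by linarith))
  filter_upwards [hev] with q hq
  have h3 : χ (q.1 + t₀) = 1 := χ.one_of_mem_closedBall (Metric.ball_subset_closedBall hq)
  show (∑' n, amp * x n (q.1 + t₀) * (p n).U q.2 i) = _
  rw [← tsum_mul_left]
  congr 1
  funext n
  rw [h3]
  ring

theorem usol_psol (h : Fam p τ W L lam) (hamp : 0 < amp) (ht₀ : 0 < t₀)
    (hx : ∀ j, RD L T j x) (hℓ : ∀ n, ℓ n = ν * τ n)
    (hder : ∀ n, ∀ t ∈ Ico 0 T, HasDerivWithinAt (x n)
        (-(ℓ n * x n t) + quad L C (fun m => x m t) n) (Ico 0 T) t)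
    (hrap : ∀ k : ℕ, ∀ T' < T, ∃ M, ∀ t ∈ Icc 0 T', ∀ n, L n ^ k * |x n t| ≤ M) :
    PSol ν (T - t₀) (Dop p τ) (Gop p L C amp) (usol p amp t₀ x) (fun _ _ => 0) := by
  have hR : ∀ t ∈ Ico 0 (T - t₀), Rap L (fun n => amp * x n (t + t₀)) := by
    intro t ht
    have : Rap L (fun n => x n (t + t₀)) := by
      intro k
      obtain ⟨M, hM⟩ := hrap k (t + t₀) (by linarith [ht.2])
      exact ⟨M, fun n => hM (t + t₀) ⟨by linarith [ht.1], le_rfl⟩ n⟩
    exact this.cmul h.seqs.one amp
  refine ⟨usol_smooth h hx ht₀, contDiffOn_const, fun t ht => ?_, fun t ht => fun _ _ => rfl,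
    fun t ht => ?_, fun t ht z i => ?_⟩
  · exact (syn_SV h.seqs (hR t ht) h.U_fb).per
  · exact syn_div h (hR t ht)
  · have ht' : t ∈ Ico 0 (T - t₀) := ⟨ht.1.le, ht.2⟩
    have hs : t + t₀ ∈ Ioo 0 T := ⟨by linarith [ht.1], by linarith [ht.2]⟩
    have hd : ∀ n, HasDerivAt (fun s => amp * x n (s + t₀))
        (amp * (-(ℓ n * x n (t + t₀)) + quad L C (fun m => x m (t + t₀)) n)) t := by
      intro n
      have h1 := (hder n (t + t₀) ⟨hs.1.le, hs.2⟩).hasDerivAt (Ico_mem_nhds hs.1 hs.2)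
      exact (h1.comp_add_const t t₀).const_mul amp
    set y : ℕ → ℝ := fun n => amp * x n (t + t₀) with hy
    set d : ℕ → ℝ := fun n => amp * (-(ℓ n * x n (t + t₀)) + quad L C (fun m => x m (t + t₀)) n)
      with hd'
    have hdd : ∀ n, d n = -(ν * τ n * y n) + amp⁻¹ * qq L C y y n := by
      intro n
      rw [hd', hy]
      simp only
      rw [qq_scale L (fun n => x n (t + t₀)) C amp n, quad_eq, hℓ n]
      field_simp
    have e1 : deriv (fun s => usol p amp t₀ x s z i) t = syn d (fun n => (p n).U) z i := by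
      by_cases hz : ∃ n, z ∈ (p n).K
      · obtain ⟨n, hn⟩ := hz
        rw [syn_at h.disj h.spU hn]
        have e2 : (fun s => usol p amp t₀ x s z i) = fun s => amp * x n (s + t₀) * (p n).U z i := by
          funext s
          exact syn_at h.disj h.spU hn i
        rw [e2]
        exact ((hd n).mul_const _).deriv
      · push Not at hz
        rw [syn_out h.spU hz]
        have e2 : (fun s => usol p amp t₀ x s z i) = fun s => 0 := by
          funext s
          exact syn_out h.spU hz i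
        rw [e2, deriv_const]
    have key := h.identity (hR t ht') hdd z i
    have e3 : pd i (fun _ : V => (0 : ℝ)) z = 0 := by unfold pd; simp
    rw [e1, e3, add_zero]
    exact key

end sol

end Pool.Agent.V1178.NS
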