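import Pool.Agent.V1178.NS.Seq

/-!
Series of packets.
-/

open Set Filter Topology MeasureTheory
open scoped ContDiff ENNReal

set_option autoImplicit false

namespace Pool.Agent.V1178.NS

open H459R3.NS

/-- the series `∑ cₙ Φₙ` -/
noncomputable def syn (c : ℕ → ℝ) (Φ : ℕ → V → V) (x : V) : V := fun i => ∑' n, c n * Φ n x i

/-- families of smooth periodic fields with polynomially bounded derivatives -/
structure FB (L : ℕ → ℝ) (Φ : ℕ → V → V) : Prop where
  sv : ∀ n, SV (Φ n)
  pb : ∀ i, PB L (fun n x => Φ n x i)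

section syn

variable {L : ℕ → ℝ} {lam : ℝ} {c c' : ℕ → ℝ} {Φ : ℕ → V → V}

theorem syn_RB (h : Seqs L lam) (hc : Rap L c) (hΦ : FB L Φ) (i : Fin 3) :
    RB L (fun n (x : V) => c n * Φ n x i) := (RB.const hc).mul_PB h.one (hΦ.pb i)

theorem syn_SV (h : Seqs L lam) (hc : Rap L c) (hΦ : FB L Φ) : SV (syn c Φ) := fun i =>
  ⟨(syn_RB h hc hΦ i).contDiff_tsum h.one h.sum, fun j x => by
    show (∑' n, c n * Φ n (x + Pi.single j 1) i) = ∑' n, c n * Φ n x i
    have : ∀ n, Φ n (x + Pi.single j 1) i = Φ n x i := fun n => (hΦ.sv n i).per j x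
    simp_rw [this]⟩

theorem syn_summable (h : Seqs L lam) (hc : Rap L c) (hΦ : FB L Φ) (x : V) (i : Fin 3) :
    Summable fun n => c n * Φ n x i := (syn_RB h hc hΦ i).summable h.one h.sum x

theorem syn_lin (h : Seqs L lam) (hc : Rap L c) (hc' : Rap L c') (hΦ : FB L Φ) (a : ℝ) :
    syn (fun n => a * c n + c' n) Φ = a • syn c Φ + syn c' Φ := by
  funext x i
  show (∑' n, (a * c n + c' n) * Φ n x i) = a * (∑' n, c n * Φ n x i) + ∑' n, c' n * Φ n x i
  rw [← tsum_mul_left, ← ((syn_summable h hc hΦ x i).mul_left a).tsum_add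
    (syn_summable h hc' hΦ x i)]
  congr 1
  funext n
  ring

/-- the scalar product with a series -/
theorem dot_syn_aux (h : Seqs L lam) (hc : Rap L c) (hΦ : FB L Φ) {w : V → V} (hw : SV w)
    (i : Fin 3) : (Summable fun n => c n * ∫ x in cube, w x i * Φ n x i) ∧
      ∫ x in cube, w x i * syn c Φ x i = ∑' n, c n * ∫ x in cube, w x i * Φ n x i := by
  obtain ⟨M, hM0, hM⟩ := sup_SP (hw i)
  obtain ⟨v, hv, hv2⟩ := (syn_RB h hc hΦ i).summ h.one h.sum 0
  have hint : ∀ n, IntegrableOn (fun x => w x i * (c n * Φ n x i)) cube := fun n =>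
    integrableOn_cube ((hw i).cont.mul (continuous_const.mul (hΦ.sv n i).cont))
  have hb : ∀ n, ∀ x ∈ cube, |w x i * (c n * Φ n x i)| ≤ M * v n := by
    intro n x hx
    rw [abs_mul]
    have h1 := hv2 n x
    rw [norm_iteratedFDeriv_zero, Real.norm_eq_abs] at h1
    exact mul_le_mul (hM x hx) h1 (abs_nonneg _) hM0
  have hs : Summable fun n => ∫ x in cube, ‖w x i * (c n * Φ n x i)‖ := by
    refine Summable.of_norm_bounded (hv.mul_left M) fun n => ?_
    rw [Real.norm_eq_abs]
    refine int_le_cube fun x hx => ?_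
    rw [Real.norm_eq_abs, abs_abs]
    exact hb n x hx
  have key := hasSum_integral_of_summable_integral_norm (μ := volume.restrict cube)
    (F := fun n x => w x i * (c n * Φ n x i)) (fun n => hint n) hs
  have e : ∀ n, ∫ x in cube, w x i * (c n * Φ n x i) = c n * ∫ x in cube, w x i * Φ n x i := by
    intro n
    rw [← integral_const_mul]
    congr 1
    funext x
    ring
  simp_rw [e] at key
  refine ⟨key.summable, ?_⟩
  rw [key.tsum_eq]
  congr 1
  funext x
  show w x i * (∑' n, c n * Φ n x i) = _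
  rw [← tsum_mul_left]

theorem dot_syn_summable (h : Seqs L lam) (hc : Rap L c) (hΦ : FB L Φ) {w : V → V} (hw : SV w) :
    Summable fun n => c n * dot w (Φ n) := by
  unfold dot
  simp_rw [Finset.mul_sum]
  exact summable_sum fun i _ => (dot_syn_aux h hc hΦ hw i).1

theorem dot_syn (h : Seqs L lam) (hc : Rap L c) (hΦ : FB L Φ) {w : V → V} (hw : SV w) :
    dot w (syn c Φ) = ∑' n, c n * dot w (Φ n) := by
  have h1 : dot w (syn c Φ) = ∑ i, ∑' n, c n * ∫ x in cube, w x i * Φ n x i :=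
    Finset.sum_congr rfl fun i _ => (dot_syn_aux h hc hΦ hw i).2
  rw [h1, ← Summable.tsum_finsetSum fun i _ => (dot_syn_aux h hc hΦ hw i).1]
  congr 1
  funext n
  unfold dot
  rw [Finset.mul_sum]

theorem dot_comm (u v : V → V) : dot u v = dot v u := by
  unfold dot
  refine Finset.sum_congr rfl fun i _ => ?_
  congr 1
  funext x
  ring

theorem dot_add_left {u v w : V → V} (hu : SV u) (hv : SV v) (hw : SV w) (a : ℝ) :
    dot (a • u + v) w = a * dot u w + dot v w := by
  unfold dot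
  rw [Finset.mul_sum, ← Finset.sum_add_distrib]
  refine Finset.sum_congr rfl fun i _ => ?_
  rw [← integral_const_mul, ← integral_add (((hu i).mul (hw i)).int.const_mul a)
    ((hv i).mul (hw i)).int]
  congr 1
  funext x
  show (a * u x i + v x i) * w x i = _
  ring

theorem dot_add_right {u v w : V → V} (hu : SV u) (hv : SV v) (hw : SV w) (a : ℝ) :
    dot w (a • u + v) = a * dot w u + dot w v := by
  rw [dot_comm, dot_add_left hu hv hw, dot_comm u, dot_comm v]

theorem SV.add_smul {u v : V → V} (hu : SV u) (hv : SV v) (a : ℝ) : SV (a • u + v) :=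
  fun i => (sp_cmul (hu i) a).add (hv i)

/-- `Φ` has the support of the family `K` -/
def Sp (K : ℕ → Set V) (Φ : ℕ → V → V) : Prop := ∀ n x, x ∉ K n → Φ n x = 0

theorem syn_at {K : ℕ → Set V} (hK : ∀ m n, m ≠ n → Disjoint (K m) (K n)) (hS : Sp K Φ) {n : ℕ}
    {x : V} (hx : x ∈ K n) (i : Fin 3) : syn c Φ x i = c n * Φ n x i := by
  show (∑' m, c m * Φ m x i) = _
  refine tsum_eq_single n fun m hm => ?_
  have : x ∉ K m := fun h => (Set.disjoint_left.1 (hK m n hm)) h hx
  rw [hS m x this]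
  simp

theorem syn_out {K : ℕ → Set V} (hS : Sp K Φ) {x : V} (hx : ∀ n, x ∉ K n) (i : Fin 3) :
    syn c Φ x i = 0 := by
  show (∑' m, c m * Φ m x i) = _
  have : ∀ m, c m * Φ m x i = 0 := fun m => by rw [hS m x (hx m)]; simp
  simp_rw [this]
  exact tsum_zero

/-- derivatives of a series -/
theorem syn_pd (h : Seqs L lam) (hc : Rap L c) (hΦ : FB L Φ) (i j : Fin 3) (x : V) :
    pd j (fun y => syn c Φ y i) x = ∑' n, c n * pd j (fun y => Φ n y i) x := by
  have hRB := syn_RB h hc hΦ i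
  unfold pd
  have e1 : fderiv ℝ (fun y => syn c Φ y i) x = ∑' n, fderiv ℝ (fun y => c n * Φ n y i) x :=
    hRB.fderiv_tsum h.one h.sum x
  have e2 := hRB.summable_fderiv h.one h.sum x
  rw [e1]
  have e3 : (∑' n, fderiv ℝ (fun y => c n * Φ n y i) x) (Pi.single j 1)
      = ∑' n, fderiv ℝ (fun y => c n * Φ n y i) x (Pi.single j 1) :=
    ContinuousLinearMap.map_tsum
      (φ := ContinuousLinearMap.apply ℝ ℝ (Pi.single j (1 : ℝ) : V)) e2
  rw [e3]
  congr 1
  funext n
  exact pd_cmul (hΦ.sv n i) (c n) j x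

/-- the family of derivatives -/
theorem FB.pd (hL : ∀ n, 1 ≤ L n) (hΦ : FB L Φ) (j : Fin 3) :
    FB L (fun n x i => H459R3.NS.pd j (fun y => Φ n y i) x) :=
  ⟨fun n i => (hΦ.sv n i).pd j, fun i => PB_pd hL (hΦ.pb i) j⟩

theorem syn_pd' (h : Seqs L lam) (hc : Rap L c) (hΦ : FB L Φ) (i j : Fin 3) :
    pd j (fun y => syn c Φ y i) = fun x => syn c (fun n x i => pd j (fun y => Φ n y i) x) x i :=
  funext fun x => syn_pd h hc hΦ i j x

theorem syn_lap (h : Seqs L lam) (hc : Rap L c) (hΦ : FB L Φ) (i : Fin 3) (x : V) :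
    lap (fun y => syn c Φ y i) x = ∑' n, c n * lap (fun y => Φ n y i) x := by
  have hj : ∀ j, FB L (fun n x i => pd j (fun y => Φ n y i) x) := fun j => hΦ.pd h.one j
  have e1 : lap (fun y => syn c Φ y i) x
      = ∑ j, ∑' n, c n * pd j (pd j (fun y => Φ n y i)) x := by
    unfold lap
    refine Finset.sum_congr rfl fun j _ => ?_
    rw [syn_pd' h hc hΦ i j, syn_pd h hc (hj j) i j x]
  rw [e1, ← Summable.tsum_finsetSum]
  · congr 1
    funext n
    unfold lap
    rw [Finset.mul_sum]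
  · intro j _
    exact syn_summable h hc ((hj j).pd h.one j) x i

end syn

end Pool.Agent.V1178.NS
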