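import Pool.Agent.V1178.NS.Uniq2

/-!
Unboundedness of the solution, locality of the operators, and the list of properties.
-/

open Set Filter Topology MeasureTheory
open scoped ContDiff ENNReal

set_option autoImplicit false

namespace Pool.Agent.V1178.NS

open H459R3.NS

theorem Prm.Good.U_big {p : Prm} {τ W : ℝ} (h : p.Good τ W) :
    ∃ x, 1 / 6 * p.vol ^ (-(1 / 2) : ℝ) < ‖p.U x‖ := by
  by_contra hcon
  push Not at hcon
  have hV := h.ok.vol_pos
  set B := 1 / 6 * p.vol ^ (-(1 / 2) : ℝ) with hB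
  have hB0 : 0 ≤ B := by positivity
  have hi : ∀ i x, |p.U x i| ≤ B := fun i x => (norm_le_pi_norm (p.U x) i).trans (hcon x)
  have h1 : ∀ i, |∫ x in cube, p.U x i * p.U x i| ≤ B * B * (8 * p.vol) := fun i => by
    refine int_le_small (S := Icc p.lo p.hi) (by positivity) h.ok.volK ?_ ?_
    · intro x hx hxS
      rw [h.ok.U_zero (h.ok.notK hx hxS)]
      simp
    · intro x
      rw [abs_mul]
      have := hi i x
      gcongr
  have h2 : dot p.U p.U ≤ 3 * (B * B * (8 * p.vol)) := by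
    unfold dot
    rw [Fin.sum_univ_three]
    have a0 := (abs_le.1 (h1 0)).2
    have a1 := (abs_le.1 (h1 1)).2
    have a2 := (abs_le.1 (h1 2)).2
    linarith
  rw [h.dot_UU] at h2
  have h3 : B * B * p.vol = 1 / 36 := by
    have e : p.vol ^ (-(1 / 2) : ℝ) * p.vol ^ (-(1 / 2) : ℝ) * p.vol = 1 := by
      rw [← Real.rpow_add hV]
      have : (-(1 / 2) : ℝ) + -(1 / 2) = -1 := by norm_num
      rw [this, Real.rpow_neg_one]
      exact inv_mul_cancel₀ hV.ne'
    calc B * B * p.vol = 1 / 36 * (p.vol ^ (-(1 / 2) : ℝ) * p.vol ^ (-(1 / 2) : ℝ) * p.vol) := by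
          rw [hB]; ring
      _ = 1 / 36 := by rw [e, mul_one]
  have h4 : 3 * (B * B * (8 * p.vol)) = 24 * (B * B * p.vol) := by ring
  rw [h4, h3] at h2
  norm_num at h2

section unb

variable {p : ℕ → Prm} {τ W L : ℕ → ℝ} {lam amp T t₀ κ : ℝ} {x : ℕ → ℝ → ℝ}

theorem usol_unbounded (h : Fam p τ W L lam) (hamp : 0 < amp) (hκ : 0 < κ)
    (hrap : ∀ k : ℕ, ∀ T' < T, ∃ M, ∀ t ∈ Icc 0 T', ∀ n, L n ^ k * |x n t| ≤ M) (ht₀T : t₀ < T)
    (hgr : ∀ n, ∃ t ∈ Ico 0 T, 99 / 100 * (9 / 1000 * κ) ^ n ≤ x n t)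
    (h1 : Tendsto (fun n => L n * (9 / 1000 * κ) ^ n) atTop atTop)
    (h2 : Tendsto (fun n => (9 / 1000 * κ) ^ n * (p n).vol ^ (-(1 / 2) : ℝ)) atTop atTop) (M : ℝ) :
    ∃ t ∈ Ico 0 (T - t₀), ∃ z, M < ‖usol p amp t₀ x t z‖ := by
  obtain ⟨M₁, hM₁⟩ := hrap 1 t₀ ht₀T
  have e1 := h1.eventually_gt_atTop (2 * M₁)
  have e2 := h2.eventually_gt_atTop (7 * |M| / amp)
  obtain ⟨n, hn1, hn2⟩ := (e1.and e2).exists
  obtain ⟨t, ht, htx⟩ := hgr n
  have hLn : 0 < L n := by linarith [h.seqs.one n]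
  have hpw : 0 < (9 / 1000 * κ) ^ n := by positivity
  have htt : t₀ ≤ t := by
    by_contra hcon
    push Not at hcon
    have h3 := hM₁ t ⟨ht.1, hcon.le⟩ n
    rw [pow_one] at h3
    have h4 : L n * (99 / 100 * (9 / 1000 * κ) ^ n) ≤ L n * |x n t| := by
      gcongr
      exact htx.trans (le_abs_self _)
    have h5 : L n * (99 / 100 * (9 / 1000 * κ) ^ n) = 99 / 100 * (L n * (9 / 1000 * κ) ^ n) := by
      ring
    have h6 : 0 < L n * (9 / 1000 * κ) ^ n := by positivity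
    linarith
  obtain ⟨z, hz⟩ := (h.good n).U_big
  have hV := (h.good n).ok.vol_pos
  have hzK : z ∈ (p n).K := by
    by_contra hcon
    rw [(h.good n).ok.U_zero hcon, norm_zero] at hz
    have : 0 < 1 / 6 * (p n).vol ^ (-(1 / 2) : ℝ) := by positivity
    linarith
  refine ⟨t - t₀, ⟨by linarith, by linarith [ht.2]⟩, z, ?_⟩
  have e3 : usol p amp t₀ x (t - t₀) z = (amp * x n t) • (p n).U z := by
    funext i
    have := syn_at (c := fun n => amp * x n (t - t₀ + t₀)) h.disj h.spU hzK i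
    show syn (fun n => amp * x n (t - t₀ + t₀)) (fun n => (p n).U) z i = amp * x n t * (p n).U z i
    rw [this, sub_add_cancel]
  have hx0 : 0 < x n t := lt_of_lt_of_le (by positivity) htx
  rw [e3, norm_smul, Real.norm_eq_abs, abs_of_pos (by positivity)]
  have h7 : 7 * |M| < amp * ((9 / 1000 * κ) ^ n * (p n).vol ^ (-(1 / 2) : ℝ)) := by
    rw [div_lt_iff₀ hamp] at hn2
    linarith
  have h8 : amp * (99 / 100 * (9 / 1000 * κ) ^ n) * (1 / 6 * (p n).vol ^ (-(1 / 2) : ℝ))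
      ≤ amp * x n t * ‖(p n).U z‖ := by
    have := hz.le
    gcongr
  have h9 : amp * (99 / 100 * (9 / 1000 * κ) ^ n) * (1 / 6 * (p n).vol ^ (-(1 / 2) : ℝ))
      = 99 / 600 * (amp * ((9 / 1000 * κ) ^ n * (p n).vol ^ (-(1 / 2) : ℝ))) := by ring
  have h10 := le_abs_self M
  have h11 := abs_nonneg M
  linarith

/-- the properties of the operators -/
theorem Fam.lower (h : Fam p τ W L lam) {xs ys : ℕ → ℝ} {C ε η s a δ ρ : ℝ}
    (hy : Hyp L (fun n => (p n).vol) xs ys C amp ε) (hX : ∀ n, (p n).X ≤ xs n) (hs0 : 0 ≤ s)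
    (hs1 : s ≤ 1) (hN : ∀ n, (p n).N ^ (-s) ≤ ys n) (ha0 : 0 ≤ a) (ha1 : a ≤ 1)
    (hη : ∀ n, W n * (p n).N ^ (-a) ≤ η * (1 / 4) ^ n) (hε : M₀ ^ 3 * ε * (200 / 9) ≤ δ)
    (hη' : M₀ ^ 2 * η * (4 / 3) ≤ δ) (hK : ∀ n, (p n).K ⊆ Reg ρ) :
    Lower s a δ ρ (Dop p τ) (Gop p L C amp) where
  D_smooth := fun v hv => (h.D_sv hv.sv).spv
  D_linear := fun c u v hu hv => h.D_lin hu.sv hv.sv c
  D_symm := fun v w hv hw => by
    rw [dot_comm (Dop p τ v) w]
    exact h.D_symm hv.sv hw.sv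
  D_nonneg := fun v hv => by
    rw [dot_comm]
    exact h.D_nonneg hv.sv
  D_order := fun q₁ q₂ hq v w hv hw => by
    rw [dot_comm]
    refine (h.D_bound ha0 ha1 hη hq hv.sv hw.sv).trans ?_
    have n1 := Np_nonneg q₁ v
    have n2 := Np_nonneg q₁ (fderiv ℝ v)
    have n3 := Np_nonneg q₂ w
    have n4 := Np_nonneg q₂ (fderiv ℝ w)
    exact mul_le_mul_of_nonneg_right hη' (by positivity)
  D_local := fun v w hv hw hvw => by
    unfold Dop
    congr 1
    funext n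
    rw [dot_congr (K := (p n).K) (fun x hx => (h.good n).ok.Zf_zero (τ n) hx)
      fun x hx => hvw x (hK n hx)]
  D_supp := fun v hv x hx => by
    funext i
    exact syn_out h.spZ (fun n hn => hx (hK n hn)) i
  G_smooth := fun u v hu hv => (h.G_sv hu.sv hv.sv).spv
  G_left := fun c u u' v hu hu' hv => h.G_lin_left hu.sv hu'.sv hv.sv c
  G_right := fun c u v v' hu hv hv' => h.G_lin_right hu.sv hv.sv hv'.sv c
  G_neutral := fun v hv => by
    rw [dot_comm]
    exact h.G_neutral hv.sv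
  G_order := fun q₁ q₂ q₃ hq u v w hu hv hw => by
    rw [dot_comm]
    refine (h.G_bound hy hX hs0 hs1 hN hq hu.sv hv.sv hw.sv).trans ?_
    have n0 := Np_nonneg q₁ u
    have n1 := Np_nonneg q₂ v
    have n2 := Np_nonneg q₂ (fderiv ℝ v)
    have n3 := Np_nonneg q₃ w
    exact mul_le_mul_of_nonneg_right hε (by positivity)
  G_local := fun u v u' v' hu hv hu' hv' huu hvv => by
    have e1 : ∀ n, dot u (p n).U = dot u' (p n).U := fun n =>
      dot_congr (K := (p n).K) (fun x hx => (h.good n).ok.U_zero hx) fun x hx => huu x (hK n hx)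
    have e2 : ∀ n, dot v (p n).U = dot v' (p n).U := fun n =>
      dot_congr (K := (p n).K) (fun x hx => (h.good n).ok.U_zero hx) fun x hx => hvv x (hK n hx)
    have e3 : ∀ n, dot u (p n).F = dot u' (p n).F := fun n =>
      dot_congr (K := (p n).K) (fun x hx => (h.good n).ok.F_zero hx) fun x hx => huu x (hK n hx)
    unfold Gop
    simp_rw [e1, e2, e3]
  G_supp := fun u v hu hv x hx => by
    funext i
    show syn _ _ x i + syn _ _ x i = 0
    rw [syn_out h.spF (fun n hn => hx (hK n hn)) i, syn_out h.spU (fun n hn => hx (hK n hn)) i,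
      add_zero]

end unb

end Pool.Agent.V1178.NS
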