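import Pool.Agent.V1178.NS.Sol

/-!
Uniqueness of smooth solutions.
-/

open Set Filter Topology MeasureTheory
open scoped ContDiff ENNReal

set_option autoImplicit false

namespace Pool.Agent.V1178.NS

open H459R3.NS

theorem SV.spv {v : V → V} (h : SV v) : SPV v := ⟨h.smooth, h.per⟩

theorem Np_top_le {E : Type*} [NormedAddCommGroup E] {v : V → E} {M : ℝ} (hM0 : 0 ≤ M)
    (hM : ∀ x ∈ cube, ‖v x‖ ≤ M) : Np ⊤ v ≤ M := by
  unfold Np
  have h1 : eLpNorm v ⊤ (volume.restrict cube) ≤ ENNReal.ofReal M := by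
    rw [eLpNorm_exponent_top]
    exact eLpNormEssSup_le_of_ae_bound
      ((ae_restrict_iff' measurableSet_Icc).2 (Filter.Eventually.of_forall fun x hx => hM x hx))
  have h2 := ENNReal.toReal_mono ENNReal.ofReal_ne_top h1
  rwa [ENNReal.toReal_ofReal hM0] at h2

theorem Np_two_sq {E : Type*} [NormedAddCommGroup E] {v : V → E} (hv : Continuous v) :
    Np 2 v ^ 2 = ∫ x in cube, ‖v x‖ ^ 2 := by
  unfold Np
  rw [(memLp_cube hv 2).eLpNorm_eq_integral_rpow_norm (by norm_num) (by norm_num)]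
  have h0 : 0 ≤ ∫ x in cube, ‖v x‖ ^ (2 : ℝ≥0∞).toReal := integral_nonneg fun x => by positivity
  rw [ENNReal.toReal_ofReal (by positivity)]
  have e : (2 : ℝ≥0∞).toReal = 2 := by norm_num
  rw [e] at h0 ⊢
  rw [← Real.rpow_natCast, ← Real.rpow_mul h0]
  norm_num

theorem Np2_le {w : V → V} (hw : SV w) : Np 2 w ^ 2 ≤ dot w w := by
  rw [Np_two_sq hw.cont]
  unfold dot
  rw [← integral_finsetSum _ fun i _ => ((hw i).mul (hw i)).int]
  refine setIntegral_mono (integrableOn_cube (hw.cont.norm.pow 2))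
    (integrableOn_cube (continuous_finsetSum _ fun i _ => (hw i).cont.mul (hw i).cont)) fun x => ?_
  show ‖w x‖ ^ 2 ≤ ∑ i, w x i * w x i
  have h1 : ‖w x‖ ≤ √(∑ i, w x i * w x i) := by
    refine (pi_norm_le_iff_of_nonneg (Real.sqrt_nonneg _)).2 fun i => ?_
    rw [Real.norm_eq_abs]
    refine Real.abs_le_sqrt ?_
    rw [sq]
    exact Finset.single_le_sum (f := fun i => w x i * w x i) (fun j _ => mul_self_nonneg _)
      (Finset.mem_univ i)
  have h2 : 0 ≤ ∑ i, w x i * w x i := Finset.sum_nonneg fun j _ => mul_self_nonneg _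
  calc ‖w x‖ ^ 2 ≤ √(∑ i, w x i * w x i) ^ 2 := by gcongr
    _ = _ := Real.sq_sqrt h2

/-- the square of the gradient -/
noncomputable def grad2 (w : V → V) : ℝ :=
  ∑ i, ∑ j, ∫ x in cube, pd j (fun y => w y i) x * pd j (fun y => w y i) x

theorem grad2_nonneg (w : V → V) : 0 ≤ grad2 w :=
  Finset.sum_nonneg fun _ _ => Finset.sum_nonneg fun _ _ =>
    integral_nonneg fun _ => mul_self_nonneg _

theorem fderiv_norm_le {w : V → V} (hw : SV w) (x : V) :
    ‖fderiv ℝ w x‖ ≤ ∑ j, ∑ i, |pd j (fun y => w y i) x| := by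
  set g : Fin 3 → Fin 3 → ℝ := fun i j => pd j (fun y => w y i) x with hg
  have hd : DifferentiableAt ℝ w x := (hw.smooth.differentiable (by simp)) x
  have eg : ∀ i j, g i j = (fderiv ℝ w x (Pi.single j 1)) i := by
    intro i j
    have h1 : HasFDerivAt (fun y => w y i)
        ((ContinuousLinearMap.proj (R := ℝ) (φ := fun _ : Fin 3 => ℝ) i).comp (fderiv ℝ w x)) x :=
      (ContinuousLinearMap.proj (R := ℝ) (φ := fun _ : Fin 3 => ℝ) i).hasFDerivAt.comp x
        hd.hasFDerivAt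
    show pd j (fun y => w y i) x = _
    unfold pd
    rw [h1.fderiv]
    rfl
  show ‖fderiv ℝ w x‖ ≤ ∑ j, ∑ i, |g i j|
  refine ContinuousLinearMap.opNorm_le_bound _
    (Finset.sum_nonneg fun _ _ => Finset.sum_nonneg fun _ _ => abs_nonneg _) fun z => ?_
  have ez : z = ∑ j, z j • (Pi.single j (1 : ℝ) : V) := by
    funext i
    simp [Finset.sum_apply, Pi.single_apply]
  have h2 : fderiv ℝ w x z = ∑ j, z j • fderiv ℝ w x (Pi.single j 1) := by
    conv_lhs => rw [ez]
    rw [map_sum]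
    refine Finset.sum_congr rfl fun j _ => ?_
    rw [map_smul]
  rw [h2, Finset.sum_mul]
  refine (norm_sum_le _ _).trans (Finset.sum_le_sum fun j _ => ?_)
  rw [norm_smul, mul_comm]
  have h3 : ‖fderiv ℝ w x (Pi.single j 1)‖ ≤ ∑ i, |g i j| := by
    refine (pi_norm_le_iff_of_nonneg (Finset.sum_nonneg fun _ _ => abs_nonneg _)).2 fun i => ?_
    rw [← eg, Real.norm_eq_abs]
    exact Finset.single_le_sum (f := fun i => |g i j|) (fun _ _ => abs_nonneg _)
      (Finset.mem_univ i)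
  have h4 : ‖z j‖ ≤ ‖z‖ := norm_le_pi_norm z j
  gcongr

theorem Np2_grad {w : V → V} (hw : SV w) : Np 2 (fderiv ℝ w) ^ 2 ≤ 9 * grad2 w := by
  have hc : Continuous (fderiv ℝ w) := hw.smooth.continuous_fderiv (by simp)
  rw [Np_two_sq hc]
  unfold grad2
  have e : (∑ i, ∑ j, ∫ x in cube, pd j (fun y => w y i) x * pd j (fun y => w y i) x)
      = ∫ x in cube, ∑ i, ∑ j, pd j (fun y => w y i) x * pd j (fun y => w y i) x := by
    rw [integral_finsetSum _ fun i _ => (SP.sum fun j _ => ((hw i).pd j).mul ((hw i).pd j)).int]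
    refine Finset.sum_congr rfl fun i _ => ?_
    rw [integral_finsetSum _ fun j _ => (((hw i).pd j).mul ((hw i).pd j)).int]
  rw [e, ← integral_const_mul]
  have hsp : SP (fun x => ∑ i, ∑ j, pd j (fun y => w y i) x * pd j (fun y => w y i) x) :=
    SP.sum fun i _ => SP.sum fun j _ => ((hw i).pd j).mul ((hw i).pd j)
  refine setIntegral_mono (integrableOn_cube (hc.norm.pow 2))
    (hsp.int.const_mul 9) fun x => ?_
  show ‖fderiv ℝ w x‖ ^ 2 ≤ 9 * ∑ i, ∑ j, pd j (fun y => w y i) x * pd j (fun y => w y i) x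
  have h1 := fderiv_norm_le hw x
  set g : Fin 3 → Fin 3 → ℝ := fun i j => pd j (fun y => w y i) x with hg
  have h5 : (∑ j, ∑ i, |g i j|) ^ 2 ≤ 9 * ∑ i, ∑ j, g i j * g i j := by
    have e1 : ∑ j, ∑ i, |g i j| = ∑ q : Fin 3 × Fin 3, |g q.2 q.1| := by
      rw [Fintype.sum_prod_type]
    have e2 : ∑ i, ∑ j, g i j * g i j = ∑ q : Fin 3 × Fin 3, |g q.2 q.1| ^ 2 := by
      rw [Fintype.sum_prod_type, Finset.sum_comm]
      refine Finset.sum_congr rfl fun i _ => Finset.sum_congr rfl fun j _ => ?_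
      rw [sq_abs, sq]
    rw [e1, e2]
    have := sq_sum_le_card_mul_sum_sq (s := (Finset.univ : Finset (Fin 3 × Fin 3)))
      (f := fun q => |g q.2 q.1|)
    simpa using this
  calc ‖fderiv ℝ w x‖ ^ 2 ≤ (∑ j, ∑ i, |g i j|) ^ 2 := by gcongr
    _ ≤ _ := h5

theorem young {a g K s : ℝ} (ha : 0 ≤ a) (hg : 0 ≤ g) (hK : 1 ≤ K) (hs0 : 0 ≤ s) (hs1 : s ≤ 1) :
    a ^ (1 - s) * g ^ s * a ≤ K * a ^ 2 + K⁻¹ * g ^ 2 := by
  have hK0 : 0 < K := by linarith
  rcases le_or_gt g (K * a) with h | h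
  · have h1 : g ^ s ≤ K * a ^ s := by
      calc g ^ s ≤ (K * a) ^ s := Real.rpow_le_rpow hg h hs0
        _ = K ^ s * a ^ s := Real.mul_rpow hK0.le ha
        _ ≤ K * a ^ s := by
          have : K ^ s ≤ K ^ (1 : ℝ) := Real.rpow_le_rpow_of_exponent_le hK hs1
          rw [Real.rpow_one] at this
          gcongr
    have h2 : a ^ (1 - s) * a ^ s ≤ a := by
      rcases ha.eq_or_lt with h0 | h0
      · rw [← h0]
        rcases hs0.eq_or_lt with h3 | h3
        · rw [← h3]; simp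
        · rw [Real.zero_rpow h3.ne', mul_zero]
      · rw [← Real.rpow_add h0]
        simp
    have h3 : 0 ≤ K⁻¹ * g ^ 2 := by positivity
    calc a ^ (1 - s) * g ^ s * a ≤ a ^ (1 - s) * (K * a ^ s) * a := by gcongr
      _ = K * ((a ^ (1 - s) * a ^ s) * a) := by ring
      _ ≤ K * (a * a) := by gcongr
      _ ≤ K * a ^ 2 + K⁻¹ * g ^ 2 := by rw [sq]; linarith
  · have h0 : 0 < g := lt_of_le_of_lt (by positivity) h
    have h1 : a ≤ g / K := by
      rw [le_div_iff₀ hK0]
      linarith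
    have h1' : a ≤ g := by
      refine h1.trans (div_le_self hg hK)
    have h2 : a ^ (1 - s) ≤ g ^ (1 - s) := Real.rpow_le_rpow ha h1' (by linarith)
    have h3 : g ^ (1 - s) * g ^ s = g := by
      rw [← Real.rpow_add h0]; simp
    have h4 : 0 ≤ K * a ^ 2 := by positivity
    calc a ^ (1 - s) * g ^ s * a ≤ g ^ (1 - s) * g ^ s * (g / K) := by gcongr
      _ = K⁻¹ * g ^ 2 := by rw [h3]; field_simp
      _ ≤ _ := by linarith

/-- bounds for the operators acting on a difference -/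
theorem Lower.dG {s a δ ρ : ℝ} {D : (V → V) → V → V} {G : (V → V) → (V → V) → V → V}
    (hL : Lower s a δ ρ D G) (hs0 : 0 ≤ s) (hs1 : s ≤ 1) (hδ : 0 ≤ δ) {u v w : V → V}
    (hu : SV u) (hv : SV v) (hw : SV w) {M K : ℝ} (hM : 1 ≤ M) (hK : 1 ≤ K)
    (b1 : ∀ x ∈ cube, ‖u x‖ ≤ M) (b2 : ∀ x ∈ cube, ‖fderiv ℝ u x‖ ≤ M)
    (b3 : ∀ x ∈ cube, ‖v x‖ ≤ M) :
    |dot (G w u) w| + |dot (G v w) w| ≤
      (δ * M + δ * M * K) * dot w w + δ * M * K⁻¹ * (9 * grad2 w) := by
  have hM0 : 0 ≤ M := by linarith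
  have c1 := Np_top_le hM0 b1
  have c2 := Np_top_le hM0 b2
  have c3 := Np_top_le hM0 b3
  have n1 := Np_nonneg ⊤ u
  have n2 := Np_nonneg ⊤ (fderiv ℝ u)
  have n3 := Np_nonneg ⊤ v
  have n4 := Np_nonneg 2 w
  have n5 := Np_nonneg 2 (fderiv ℝ w)
  have w2 := Np2_le hw
  have g2 := Np2_grad hw
  have h12 : (2 : ℝ≥0∞)⁻¹ + (2 : ℝ≥0∞)⁻¹ = 1 := ENNReal.inv_two_add_inv_two
  have k1 := hL.G_order 2 ⊤ 2 (by rw [ENNReal.inv_top, add_zero]; exact h12) w u w hw.spv hu.spv
    hw.spv
  have k2 := hL.G_order ⊤ 2 2 (by rw [ENNReal.inv_top, zero_add]; exact h12) v w w hv.spv hw.spv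
    hw.spv
  have m1 : Np ⊤ u ^ (1 - s) * Np ⊤ (fderiv ℝ u) ^ s ≤ M := by
    calc Np ⊤ u ^ (1 - s) * Np ⊤ (fderiv ℝ u) ^ s ≤ M ^ (1 - s) * M ^ s := by
          gcongr
      _ = M := by
        rw [← Real.rpow_add (by linarith)]
        simp
  have e1 : |dot (G w u) w| ≤ δ * M * dot w w := by
    calc |dot (G w u) w| ≤ _ := k1
      _ ≤ δ * (Np 2 w * M * Np 2 w) := by gcongr
      _ = δ * M * Np 2 w ^ 2 := by ring
      _ ≤ δ * M * dot w w := by gcongr
  have y := young n4 n5 hK hs0 hs1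
  have e2 : |dot (G v w) w| ≤ δ * M * (K * dot w w + K⁻¹ * (9 * grad2 w)) := by
    have hKi : 0 ≤ K⁻¹ := by positivity
    calc |dot (G v w) w| ≤ _ := k2
      _ = δ * (Np ⊤ v * (Np 2 w ^ (1 - s) * Np 2 (fderiv ℝ w) ^ s * Np 2 w)) := by ring
      _ ≤ δ * (M * (K * Np 2 w ^ 2 + K⁻¹ * Np 2 (fderiv ℝ w) ^ 2)) := by gcongr
      _ ≤ δ * (M * (K * dot w w + K⁻¹ * (9 * grad2 w))) := by gcongr
      _ = _ := by ring
  calc _ ≤ _ := add_le_add e1 e2
    _ = _ := by ring

/-- the convection term of a difference -/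
theorem conv_diff {u v w : V → V} (hu : SV u) (hv : SV v) (hw : SV w)
    (hdiv : ∀ x, ∑ i, pd i (fun y => v y i) x = 0) {M : ℝ} (hM : 1 ≤ M)
    (b2 : ∀ x ∈ cube, ‖fderiv ℝ u x‖ ≤ M) :
    |dot (fun x i => (∑ j, w x j * pd j (fun y => u y i) x)
      + ∑ j, v x j * pd j (fun y => w y i) x) w| ≤ 3 * M * dot w w := by
  have hM0 : 0 ≤ M := by linarith
  have s1 : ∀ i, SP (fun x => (∑ j, w x j * pd j (fun y => u y i) x) * w x i) := fun i =>
    (SP.sum fun j _ => (hw j).mul ((hu i).pd j)).mul (hw i)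
  have s2 : ∀ i, SP (fun x => (∑ j, v x j * pd j (fun y => w y i) x) * w x i) := fun i =>
    (SP.sum fun j _ => (hv j).mul ((hw i).pd j)).mul (hw i)
  have e : dot (fun x i => (∑ j, w x j * pd j (fun y => u y i) x)
      + ∑ j, v x j * pd j (fun y => w y i) x) w
      = (∑ i, ∫ x in cube, (∑ j, w x j * pd j (fun y => u y i) x) * w x i)
        + ∑ i, ∫ x in cube, (∑ j, v x j * pd j (fun y => w y i) x) * w x i := by
    unfold dot
    rw [← Finset.sum_add_distrib]
    refine Finset.sum_congr rfl fun i _ => ?_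
    rw [← integral_add (s1 i).int (s2 i).int]
    congr 1
    funext x
    ring
  have e2 : ∑ i, ∫ x in cube, (∑ j, v x j * pd j (fun y => w y i) x) * w x i = 0 := by
    refine Finset.sum_eq_zero fun i _ => ?_
    have h := transport_zero (v := fun i y => v y i) hv hdiv (hw i)
    rw [← h, ← integral_finsetSum _ fun j _ => ((hv j).mul ((hw i).mul ((hw i).pd j))).int]
    congr 1
    funext x
    rw [Finset.sum_mul]
    exact Finset.sum_congr rfl fun j _ => by ring
  rw [e, e2, add_zero]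
  rw [← integral_finsetSum _ fun i _ => (s1 i).int]
  have hb : ∀ x ∈ cube, |∑ i, (∑ j, w x j * pd j (fun y => u y i) x) * w x i|
      ≤ 3 * M * ∑ i, w x i * w x i := by
    intro x hx
    have hp : ∀ i j, |w x j * pd j (fun y => u y i) x * w x i|
        ≤ M * ((w x j * w x j + w x i * w x i) / 2) := by
      intro i j
      have h1 : |pd j (fun y => u y i) x| ≤ M := (hu.pd_le i j x).trans (b2 x hx)
      have h2 : |w x j| * |w x i| ≤ (w x j * w x j + w x i * w x i) / 2 := by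
        have := sq_nonneg (|w x j| - |w x i|)
        have e1 := abs_mul_abs_self (w x j)
        have e2 := abs_mul_abs_self (w x i)
        nlinarith
      calc |w x j * pd j (fun y => u y i) x * w x i|
          = |pd j (fun y => u y i) x| * (|w x j| * |w x i|) := by rw [abs_mul, abs_mul]; ring
        _ ≤ M * ((w x j * w x j + w x i * w x i) / 2) := by gcongr
    calc |∑ i, (∑ j, w x j * pd j (fun y => u y i) x) * w x i|
        ≤ ∑ i, ∑ j, |w x j * pd j (fun y => u y i) x * w x i| := by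
          refine (Finset.abs_sum_le_sum_abs _ _).trans (Finset.sum_le_sum fun i _ => ?_)
          rw [Finset.sum_mul]
          exact Finset.abs_sum_le_sum_abs _ _
      _ ≤ ∑ i, ∑ j, M * ((w x j * w x j + w x i * w x i) / 2) :=
          Finset.sum_le_sum fun i _ => Finset.sum_le_sum fun j _ => hp i j
      _ = 3 * M * ∑ i, w x i * w x i := by
          simp only [Fin.sum_univ_three]
          ring
  have hint : IntegrableOn (fun x => 3 * M * ∑ i, w x i * w x i) cube :=
    ((SP.sum (s := Finset.univ) fun i _ => (hw i).mul (hw i)).int).const_mul _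
  have h1 : ‖∫ x in cube, ∑ i, (∑ j, w x j * pd j (fun y => u y i) x) * w x i‖
      ≤ ∫ x in cube, 3 * M * ∑ i, w x i * w x i := by
    refine norm_integral_le_of_norm_le hint ?_
    exact (ae_restrict_iff' measurableSet_Icc).2 (Filter.Eventually.of_forall fun x hx => hb x hx)
  rw [Real.norm_eq_abs, integral_const_mul,
    integral_finsetSum _ fun i _ => ((hw i).mul (hw i)).int] at h1
  exact h1

theorem dot_lap {w : V → V} (hw : SV w) :
    dot (fun x i => lap (fun y => w y i) x) w = -grad2 w := by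
  unfold dot grad2
  rw [← Finset.sum_neg_distrib]
  exact Finset.sum_congr rfl fun i _ => int_lap_mul (hw i) (hw i)

/-- a continuous periodic field with vanishing norm is zero -/
theorem eq_zero_of_dot {w : V → V} (hw : SV w) (h : dot w w = 0) : w = 0 := by
  have h1 : ∀ i, ∫ x in cube, w x i * w x i = 0 := by
    intro i
    have hn : ∀ i ∈ Finset.univ, 0 ≤ ∫ x in cube, w x i * w x i := fun i _ =>
      integral_nonneg fun x => mul_self_nonneg _
    exact (Finset.sum_eq_zero_iff_of_nonneg hn).1 h i (Finset.mem_univ i)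
  funext x i
  set O : Set V := Set.pi univ (fun _ => Ioo (0 : ℝ) 1) with hO
  have hOo : IsOpen O := isOpen_set_pi finite_univ fun _ _ => isOpen_Ioo
  have hOc : closure O = cube := by
    rw [hO, closure_pi_set]
    have : (fun _ : Fin 3 => closure (Ioo (0 : ℝ) 1)) = fun _ => Icc 0 1 :=
      funext fun _ => closure_Ioo (by norm_num)
    rw [this]
    exact Set.pi_univ_Icc 0 1
  have hsub : O ⊆ cube := by rw [← hOc]; exact subset_closure
  have h2 : (fun x => w x i * w x i) =ᵐ[volume.restrict cube] 0 :=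
    (setIntegral_eq_zero_iff_of_nonneg_ae (Filter.Eventually.of_forall fun x => mul_self_nonneg _)
      ((hw i).mul (hw i)).int).1 (h1 i)
  have h3 : (fun x => w x i * w x i) =ᵐ[volume.restrict O] 0 :=
    ae_restrict_of_ae_restrict_of_subset hsub h2
  have h4 : EqOn (fun x => w x i * w x i) 0 O :=
    Measure.eqOn_open_of_ae_eq h3 hOo ((hw i).mul (hw i)).cont.continuousOn
      continuousOn_const
  have h5 : EqOn (fun x => w x i * w x i) 0 (closure O) :=
    h4.closure ((hw i).mul (hw i)).cont continuous_const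
  rw [hOc] at h5
  have h6 : ∀ z ∈ cube, w z i = 0 := fun z hz => by
    have := h5 hz
    exact mul_self_eq_zero.1 this
  -- periodicity
  set m : K3 := fun i => -⌊x i⌋ with hm
  have h7 := (hw i).per.int m x
  have h8 : (x + fun i => ((m i : ℤ) : ℝ)) ∈ cube := by
    constructor
    · intro j
      show (0 : ℝ) ≤ x j + ((m j : ℤ) : ℝ)
      rw [hm]
      push_cast
      linarith [Int.floor_le (x j)]
    · intro j
      show x j + ((m j : ℤ) : ℝ) ≤ 1
      rw [hm]
      push_cast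
      linarith [Int.lt_floor_add_one (x j)]
  have h9 := h6 _ h8
  show w x i = 0
  rw [← h9]
  exact h7.symm

end Pool.Agent.V1178.NS
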