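import Pool.Agent.V1178.NS.Uniq

/-!
Uniqueness of smooth solutions: the energy estimate for the difference.
-/

open Set Filter Topology MeasureTheory
open scoped ContDiff ENNReal

set_option autoImplicit false

namespace Pool.Agent.V1178.NS

open H459R3.NS

section

variable {s a δ ρ ν T : ℝ} {D : (V → V) → V → V} {G : (V → V) → (V → V) → V → V}
  {u v : ℝ → V → V} {p q : ℝ → V → ℝ}

theorem PSol.smooth_c (h : PSol ν T D G u p) (i : Fin 3) :
    ContDiffOn ℝ ∞ (fun z : ℝ × V => u z.1 z.2 i) (Ico 0 T ×ˢ univ) :=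
  (contDiffOn_pi.1 h.smooth_u) i

theorem PSol.sv (h : PSol ν T D G u p) {t : ℝ} (ht : t ∈ Ico 0 T) : SV (u t) := fun i =>
  { smooth := contDiff_slice (f := fun t y => u t y i) (h.smooth_c i) ht
    per := fun j x => by simp only [h.per_u t ht j x] }

theorem PSol.sp_p (h : PSol ν T D G u p) {t : ℝ} (ht : t ∈ Ico 0 T) : SP (p t) where
  smooth := contDiff_slice h.smooth_p ht
  per := h.per_p t ht

/-- the difference -/
noncomputable def df (u v : ℝ → V → V) (t : ℝ) : V → V := (-1 : ℝ) • v t + u t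

theorem lap_add {f g : V → ℝ} (hf : SP f) (hg : SP g) (x : V) :
    lap (fun y => f y + g y) x = lap f x + lap g x := by
  unfold lap
  rw [← Finset.sum_add_distrib]
  refine Finset.sum_congr rfl fun j _ => ?_
  have e : pd j (fun y => f y + g y) = fun y => pd j f y + pd j g y :=
    funext fun y => pd_add hf hg j y
  rw [e, pd_add (hf.pd j) (hg.pd j)]

theorem dt_diff (hL : Lower s a δ ρ D G) (hu : PSol ν T D G u p) (hv : PSol ν T D G v q) {t : ℝ}
    (ht : t ∈ Ioo 0 T) (x : V) (i : Fin 3) :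
    deriv (fun s => u s x i) t - deriv (fun s => v s x i) t =
      ν * lap (fun y => df u v t y i) x - ν * D (df u v t) x i
      - ((∑ j, df u v t x j * pd j (fun y => u t y i) x)
        + ∑ j, v t x j * pd j (fun y => df u v t y i) x)
      - (pd i (p t) x - pd i (q t) x) - G (df u v t) (u t) x i - G (v t) (df u v t) x i := by
  have hI : t ∈ Ico 0 T := ⟨ht.1.le, ht.2⟩
  have su := hu.sv hI
  have sv := hv.sv hI
  have m1 := hu.momentum t ht x i
  have m2 := hv.momentum t ht x i
  have d1 : D (df u v t) x i = -D (v t) x i + D (u t) x i := by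
    have := congrFun (congrFun (hL.D_linear (-1) (v t) (u t) sv.spv su.spv) x) i
    rw [show D (df u v t) x i = D ((-1 : ℝ) • v t + u t) x i from rfl, this]
    show -1 * D (v t) x i + D (u t) x i = _
    ring
  have g1 : G (df u v t) (u t) x i = -G (v t) (u t) x i + G (u t) (u t) x i := by
    have := congrFun (congrFun (hL.G_left (-1) (v t) (u t) (u t) sv.spv su.spv su.spv) x) i
    rw [show G (df u v t) (u t) x i = G ((-1 : ℝ) • v t + u t) (u t) x i from rfl, this]
    show -1 * G (v t) (u t) x i + G (u t) (u t) x i = _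
    ring
  have g2 : G (v t) (df u v t) x i = -G (v t) (v t) x i + G (v t) (u t) x i := by
    have := congrFun (congrFun (hL.G_right (-1) (v t) (v t) (u t) sv.spv sv.spv su.spv) x) i
    rw [show G (v t) (df u v t) x i = G (v t) ((-1 : ℝ) • v t + u t) x i from rfl, this]
    show -1 * G (v t) (v t) x i + G (v t) (u t) x i = _
    ring
  have ew : (fun y => df u v t y i) = fun y => -1 * v t y i + u t y i := rfl
  have l1 : lap (fun y => df u v t y i) x
      = -lap (fun y => v t y i) x + lap (fun y => u t y i) x := by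
    rw [ew, lap_add (sp_cmul (sv i) (-1)) (su i), lap_cmul (sv i)]
    ring
  have p1 : ∀ j, pd j (fun y => df u v t y i) x
      = -pd j (fun y => v t y i) x + pd j (fun y => u t y i) x := by
    intro j
    rw [ew, pd_add (sp_cmul (sv i) (-1)) (su i), pd_cmul (sv i)]
    ring
  have c1 : (∑ j, df u v t x j * pd j (fun y => u t y i) x)
        + ∑ j, v t x j * pd j (fun y => df u v t y i) x
      = (∑ j, u t x j * pd j (fun y => u t y i) x) - ∑ j, v t x j * pd j (fun y => v t y i) x := by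
    rw [← Finset.sum_add_distrib, ← Finset.sum_sub_distrib]
    refine Finset.sum_congr rfl fun j _ => ?_
    rw [p1 j]
    show (-1 * v t x j + u t x j) * _ + _ = _
    ring
  rw [d1, g1, g2, l1, c1]
  unfold lap
  linarith

theorem diff_ineq (hL : Lower s a δ ρ D G) (hs0 : 0 ≤ s) (hs1 : s ≤ 1) (hδ : 0 ≤ δ) (hν : 0 < ν)
    (hu : PSol ν T D G u p) (hv : PSol ν T D G v q) {t : ℝ}
    (ht : t ∈ Ioo 0 T) {M K : ℝ} (hM : 1 ≤ M) (hK : 1 ≤ K) (hKν : 9 * (δ * M) ≤ ν * K)
    (b1 : ∀ x ∈ cube, ‖u t x‖ ≤ M) (b2 : ∀ x ∈ cube, ‖fderiv ℝ (u t) x‖ ≤ M)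
    (b3 : ∀ x ∈ cube, ‖v t x‖ ≤ M) :
    dot (fun x i => deriv (fun s => u s x i) t - deriv (fun s => v s x i) t) (df u v t)
      ≤ (3 * M + (δ * M + δ * M * K)) * dot (df u v t) (df u v t) := by
  have hI : t ∈ Ico 0 T := ⟨ht.1.le, ht.2⟩
  have su := hu.sv hI
  have sv := hv.sv hI
  set w := df u v t with hw
  have sw : SV w := sv.add_smul su (-1)
  have hr : SP (fun x => p t x - q t x) := sp_sub (hu.sp_p hI) (hv.sp_p hI)
  -- the pieces
  set A1 : V → V := fun x i => lap (fun y => w y i) x with hA1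
  set A2 : V → V := D w with hA2
  set A3 : V → V := fun x i => (∑ j, w x j * pd j (fun y => u t y i) x)
        + ∑ j, v t x j * pd j (fun y => w y i) x with hA3
  set A4 : V → V := fun x i => pd i (fun x => p t x - q t x) x with hA4
  set A5 : V → V := G w (u t) with hA5
  set A6 : V → V := G (v t) w with hA6
  have s1 : SV A1 := sw.lap
  have s2 : SV A2 := (hL.D_smooth w sw.spv).sv
  have s3 : SV A3 := fun i => (SP.sum fun j _ => (sw j).mul ((su i).pd j)).add
    (SP.sum fun j _ => (sv j).mul ((sw i).pd j))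
  have s4 : SV A4 := fun i => hr.pd i
  have s5 : SV A5 := (hL.G_smooth w (u t) sw.spv su.spv).sv
  have s6 : SV A6 := (hL.G_smooth (v t) w sv.spv sw.spv).sv
  have e : (fun x i => deriv (fun s => u s x i) t - deriv (fun s => v s x i) t)
      = ν • A1 + ((-ν) • A2 + ((-1 : ℝ) • A3 + ((-1 : ℝ) • A4 + ((-1 : ℝ) • A5 +
        (-1 : ℝ) • A6)))) := by
    funext x i
    rw [dt_diff hL hu hv ht x i]
    have h4 : pd i (fun x => p t x - q t x) x = pd i (p t) x - pd i (q t) x :=
      pd_sub (hu.sp_p hI) (hv.sp_p hI) i x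
    show _ = ν * A1 x i + (-ν * A2 x i + (-1 * A3 x i + (-1 * A4 x i + (-1 * A5 x i
      + -1 * A6 x i))))
    have h4' : A4 x i = pd i (p t) x - pd i (q t) x := h4
    rw [h4']
    show _ = ν * lap (fun y => w y i) x + (-ν * D w x i + (-1 * ((∑ j, w x j * pd j (fun y => u t y i) x)
        + ∑ j, v t x j * pd j (fun y => w y i) x) + (-1 * (pd i (p t) x - pd i (q t) x)
        + (-1 * G w (u t) x i + -1 * G (v t) w x i))))
    ring
  have z : SV (fun _ _ => 0) := fun i => sp_const 0
  have s6' : SV ((-1 : ℝ) • A6) := fun i => sp_cmul (s6 i) (-1)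
  have s5' := s5.add_smul s6' (-1)
  have s4' := s4.add_smul s5' (-1)
  have s3' := s3.add_smul s4' (-1)
  have s2' := s2.add_smul s3' (-ν)
  have d6 : dot ((-1 : ℝ) • A6) w = -dot A6 w := by
    unfold dot
    rw [← Finset.sum_neg_distrib]
    refine Finset.sum_congr rfl fun i _ => ?_
    rw [← integral_neg]
    congr 1
    funext x
    show -1 * A6 x i * w x i = _
    ring
  rw [e, dot_add_left s1 s2' sw, dot_add_left s2 s3' sw, dot_add_left s3 s4' sw,
    dot_add_left s4 s5' sw, dot_add_left s5 s6' sw, d6]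
  have k1 : dot A1 w = -grad2 w := dot_lap sw
  have k2 : 0 ≤ dot A2 w := hL.D_nonneg w sw.spv
  have k3 := conv_diff su sv sw (hv.divfree t hI) hM b2
  have k4 : dot A4 w = 0 := by
    have hdivw : ∀ x, ∑ i, pd i (fun y => w y i) x = 0 := by
      intro x
      have h1 := hu.divfree t hI x
      have h2 := hv.divfree t hI x
      have h3 : ∀ i, pd i (fun y => w y i) x
          = -pd i (fun y => v t y i) x + pd i (fun y => u t y i) x := by
        intro i
        have ew : (fun y => w y i) = fun y => -1 * v t y i + u t y i := rfl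
        rw [ew, pd_add (sp_cmul (sv i) (-1)) (su i), pd_cmul (sv i)]
        ring
      simp_rw [h3]
      rw [Finset.sum_add_distrib, Finset.sum_neg_distrib, h1, h2]
      ring
    have h5 := int_press (v := fun i y => w y i) sw hdivw hr
    unfold dot
    rw [← h5]
    refine Finset.sum_congr rfl fun i _ => ?_
    congr 1
    funext x
    show pd i (fun x => p t x - q t x) x * w x i = _
    ring
  have k5 := hL.dG hs0 hs1 hδ su sv sw hM hK b1 b2 b3
  have k3' : |dot A3 w| ≤ 3 * M * dot w w := k3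
  have k5' : |dot A5 w| + |dot A6 w| ≤
      (δ * M + δ * M * K) * dot w w + δ * M * K⁻¹ * (9 * grad2 w) := k5
  have g0 := grad2_nonneg w
  have hK0 : 0 < K := by linarith
  have k7 : δ * M * K⁻¹ * (9 * grad2 w) ≤ ν * grad2 w := by
    have h1 : δ * M * K⁻¹ * 9 ≤ ν := by
      have : δ * M * K⁻¹ * 9 = 9 * (δ * M) / K := by field_simp
      rw [this, div_le_iff₀ hK0]
      exact hKν
    calc δ * M * K⁻¹ * (9 * grad2 w) = (δ * M * K⁻¹ * 9) * grad2 w := by ring
      _ ≤ ν * grad2 w := by gcongr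
  have l3 := (abs_le.1 k3').1
  have l5 := neg_abs_le (dot A5 w)
  have l6 := neg_abs_le (dot A6 w)
  have l2 : 0 ≤ ν * dot A2 w := mul_nonneg hν.le k2
  rw [k1, k4]
  linarith

theorem uniq_Icc (hL : Lower s a δ ρ D G) (hs0 : 0 ≤ s) (hs1 : s ≤ 1) (hδ : 0 ≤ δ) (hν : 0 < ν)
    (hu : PSol ν T D G u p) (hv : PSol ν T D G v q) (h0 : v 0 = u 0) {b : ℝ} (hb0 : 0 < b)
    (hb : b < T) : dot (df u v b) (df u v b) = 0 := by
  have hT : 0 < T := hb0.trans hb
  -- bounds
  have hsub : Icc 0 b ×ˢ cube ⊆ Ico 0 T ×ˢ (univ : Set V) :=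
    prod_mono (fun r hr => ⟨hr.1, hr.2.trans_lt hb⟩) (subset_univ _)
  have hK : IsCompact (Icc 0 b ×ˢ cube) := isCompact_Icc.prod isCompact_Icc
  obtain ⟨M1, hM1⟩ := hK.exists_bound_of_continuousOn (hu.smooth_u.continuousOn.mono hsub)
  obtain ⟨M2, hM2⟩ := hK.exists_bound_of_continuousOn (hv.smooth_u.continuousOn.mono hsub)
  have hpd : ∀ i j : Fin 3, ∃ M, ∀ z ∈ Icc 0 b ×ˢ cube,
      ‖pd j (fun y => u z.1 y i) z.2‖ ≤ M := fun i j =>
    hK.exists_bound_of_continuousOn
      ((contDiffOn_pd (f := fun t y => u t y i) (hu.smooth_c i) j).continuousOn.mono hsub)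
  choose M3 hM3 using hpd
  set M : ℝ := 1 + |M1| + |M2| + ∑ j, ∑ i, |M3 i j| with hM
  have hM3' : 0 ≤ ∑ j, ∑ i, |M3 i j| :=
    Finset.sum_nonneg fun _ _ => Finset.sum_nonneg fun _ _ => abs_nonneg _
  have hMone : 1 ≤ M := by
    have := abs_nonneg M1
    have := abs_nonneg M2
    linarith
  have b1 : ∀ t ∈ Icc 0 b, ∀ x ∈ cube, ‖u t x‖ ≤ M := by
    intro t ht x hx
    have h1 := hM1 (t, x) ⟨ht, hx⟩
    have := abs_nonneg M2
    exact (h1.trans (le_abs_self _)).trans (by linarith)
  have b3 : ∀ t ∈ Icc 0 b, ∀ x ∈ cube, ‖v t x‖ ≤ M := by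
    intro t ht x hx
    have h1 := hM2 (t, x) ⟨ht, hx⟩
    have := abs_nonneg M1
    exact (h1.trans (le_abs_self _)).trans (by linarith)
  have b2 : ∀ t ∈ Icc 0 b, ∀ x ∈ cube, ‖fderiv ℝ (u t) x‖ ≤ M := by
    intro t ht x hx
    have hI : t ∈ Ico 0 T := ⟨ht.1, ht.2.trans_lt hb⟩
    refine (fderiv_norm_le (hu.sv hI) x).trans ?_
    have h1 : ∑ j, ∑ i, |pd j (fun y => u t y i) x| ≤ ∑ j, ∑ i, |M3 i j| := by
      refine Finset.sum_le_sum fun j _ => Finset.sum_le_sum fun i _ => ?_
      have := hM3 i j (t, x) ⟨ht, hx⟩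
      exact this.trans (le_abs_self _)
    have := abs_nonneg M1
    have := abs_nonneg M2
    linarith
  set K : ℝ := 1 + 9 * (δ * M) / ν with hKd
  have hK1 : 1 ≤ K := by
    have : 0 ≤ 9 * (δ * M) / ν := by positivity
    linarith
  have hKν : 9 * (δ * M) ≤ ν * K := by
    have : ν * K = ν + 9 * (δ * M) := by rw [hKd]; field_simp
    linarith
  set κ := 3 * M + (δ * M + δ * M * K) with hκ
  set E : ℝ → ℝ := fun t => dot (df u v t) (df u v t) with hE
  -- smoothness of the difference
  have hws : ∀ i, ContDiffOn ℝ ∞ (fun z : ℝ × V => df u v z.1 z.2 i * df u v z.1 z.2 i)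
      (Ico 0 T ×ˢ univ) := by
    intro i
    have h1 : ContDiffOn ℝ ∞ (fun z : ℝ × V => df u v z.1 z.2 i) (Ico 0 T ×ˢ univ) := by
      have e : (fun z : ℝ × V => df u v z.1 z.2 i) = fun z => -1 * v z.1 z.2 i + u z.1 z.2 i := rfl
      rw [e]
      exact (contDiffOn_const.mul (hv.smooth_c i)).add (hu.smooth_c i)
    exact h1.mul h1
  have hEc : ContinuousOn E (Ico 0 T) := by
    have e : E = fun t => ∑ i, ∫ x in cube, df u v t x i * df u v t x i := rfl
    rw [e]
    exact continuousOn_finsetSum _ fun i _ =>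
      continuousOn_int (F := fun t x => df u v t x i * df u v t x i) (hws i).continuousOn
  have hEd : ∀ t ∈ Ioo 0 T, HasDerivAt E (2 * dot (fun x i => deriv (fun s => u s x i) t
      - deriv (fun s => v s x i) t) (df u v t)) t := by
    intro t ht
    have h1 : ∀ i, HasDerivAt (fun r => ∫ x in cube, df u v r x i * df u v r x i)
        (2 * ∫ x in cube, (deriv (fun s => u s x i) t - deriv (fun s => v s x i) t)
          * df u v t x i) t := by
      intro i
      have hF := mono_Ioo (f := fun t x => df u v t x i * df u v t x i) (n := 1) (hws i)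
        (by norm_cast)
      have key := hasDerivAt_int (F := fun t x => df u v t x i * df u v t x i) hF ht
      refine key.congr_deriv ?_
      rw [← integral_const_mul]
      congr 1
      funext x
      have hu1 : HasDerivAt (fun s => u s x i) (deriv (fun s => u s x i) t) t := by
        have := hasDerivAt_slice (F := fun s y => u s y i)
          (mono_Ioo (f := fun s y => u s y i) (hu.smooth_c i) (by norm_cast)) ht x
        exact this.differentiableAt.hasDerivAt
      have hv1 : HasDerivAt (fun s => v s x i) (deriv (fun s => v s x i) t) t := by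
        have := hasDerivAt_slice (F := fun s y => v s y i)
          (mono_Ioo (f := fun s y => v s y i) (hv.smooth_c i) (by norm_cast)) ht x
        exact this.differentiableAt.hasDerivAt
      have hw1 : HasDerivAt (fun s => df u v s x i)
          (-1 * deriv (fun s => v s x i) t + deriv (fun s => u s x i) t) t :=
        (hv1.const_mul (-1)).add hu1
      have hw2 : HasDerivAt (fun s => df u v s x i * df u v s x i) _ t := hw1.mul hw1
      rw [hw2.deriv]
      ring
    have h2 : HasDerivAt E (∑ i, 2 * ∫ x in cube, (deriv (fun s => u s x i) t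
        - deriv (fun s => v s x i) t) * df u v t x i) t := HasDerivAt.fun_sum fun i _ => h1 i
    refine h2.congr_deriv ?_
    rw [← Finset.mul_sum]
    rfl
  -- Gronwall
  set f : ℝ → ℝ := fun t => E t * Real.exp (-(2 * κ * t)) with hf
  have hfd : ∀ t ∈ Ioo 0 T, HasDerivAt f ((2 * dot (fun x i => deriv (fun s => u s x i) t
      - deriv (fun s => v s x i) t) (df u v t) - 2 * κ * E t) * Real.exp (-(2 * κ * t))) t := by
    intro t ht
    have h1 := hEd t ht
    have h2 : HasDerivAt (fun t => Real.exp (-(2 * κ * t))) (Real.exp (-(2 * κ * t)) * -(2 * κ)) t := by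
      have h3 : HasDerivAt (fun t : ℝ => -(2 * κ * t)) (-(2 * κ)) t := by
        have h4 := (hasDerivAt_id t).const_mul (-(2 * κ))
        have e1 : (fun t : ℝ => -(2 * κ * t)) = fun y => -(2 * κ) * id y := by
          funext y
          simp
        rw [e1]
        exact h4.congr_deriv (by ring)
      exact h3.exp
    refine (h1.mul h2).congr_deriv ?_
    ring
  have hanti : AntitoneOn f (Icc 0 b) := by
    refine antitoneOn_of_deriv_nonpos (convex_Icc 0 b) ?_ ?_ ?_
    · have h1 : ContinuousOn E (Icc 0 b) := hEc.mono fun r hr => ⟨hr.1, hr.2.trans_lt hb⟩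
      exact h1.mul (by fun_prop)
    · intro t ht
      rw [interior_Icc] at ht
      exact (hfd t ⟨ht.1, ht.2.trans hb⟩).differentiableAt.differentiableWithinAt
    · intro t ht
      rw [interior_Icc] at ht
      rw [(hfd t ⟨ht.1, ht.2.trans hb⟩).deriv]
      refine mul_nonpos_of_nonpos_of_nonneg ?_ (Real.exp_pos _).le
      have htI : t ∈ Icc 0 b := ⟨ht.1.le, ht.2.le⟩
      have := diff_ineq hL hs0 hs1 hδ hν hu hv ⟨ht.1, ht.2.trans hb⟩ hMone hK1 hKν (b1 t htI)
        (b2 t htI) (b3 t htI)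
      have e : E t = dot (df u v t) (df u v t) := rfl
      rw [e]
      linarith
  have h1 := hanti (left_mem_Icc.2 hb0.le) (right_mem_Icc.2 hb0.le) hb0.le
  have h2 : f 0 = 0 := by
    have : df u v 0 = 0 := by
      funext x i
      show -1 * v 0 x i + u 0 x i = 0
      rw [h0]
      ring
    show dot (df u v 0) (df u v 0) * _ = 0
    rw [this]
    unfold dot
    simp
  rw [h2] at h1
  have h3 : E b ≤ 0 := by
    have h4 : E b * Real.exp (-(2 * κ * b)) ≤ 0 := h1
    exact nonpos_of_mul_nonpos_left h4 (Real.exp_pos _)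
  have h5 : 0 ≤ E b := Finset.sum_nonneg fun i _ => integral_nonneg fun x => mul_self_nonneg _
  exact le_antisymm h3 h5

/-- uniqueness -/
theorem unique (hL : Lower s a δ ρ D G) (hs0 : 0 ≤ s) (hs1 : s ≤ 1) (hδ : 0 ≤ δ) (hν : 0 < ν)
    (hu : PSol ν T D G u p) (hv : PSol ν T D G v q) (h0 : v 0 = u 0) :
    ∀ t ∈ Ico 0 T, v t = u t := by
  intro t ht
  rcases ht.1.eq_or_lt with h | h
  · rw [← h]; exact h0
  · have h1 := uniq_Icc hL hs0 hs1 hδ hν hu hv h0 h ht.2
    have hw : SV (df u v t) := (hv.sv ht).add_smul (hu.sv ht) (-1)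
    have h2 := eq_zero_of_dot hw h1
    funext x i
    have h3 : -1 * v t x i + u t x i = 0 := congrFun (congrFun h2 x) i
    linarith

/-- restriction to a shorter time interval -/
theorem PSol.mono (h : PSol ν T D G u p) {T' : ℝ} (hT : T' ≤ T) : PSol ν T' D G u p where
  smooth_u := h.smooth_u.mono (prod_mono (fun _ hr => ⟨hr.1, hr.2.trans_le hT⟩) subset_rfl)
  smooth_p := h.smooth_p.mono (prod_mono (fun _ hr => ⟨hr.1, hr.2.trans_le hT⟩) subset_rfl)
  per_u := fun t ht => h.per_u t ⟨ht.1, ht.2.trans_le hT⟩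
  per_p := fun t ht => h.per_p t ⟨ht.1, ht.2.trans_le hT⟩
  divfree := fun t ht => h.divfree t ⟨ht.1, ht.2.trans_le hT⟩
  momentum := fun t ht => h.momentum t ⟨ht.1, ht.2.trans_le hT⟩

/-- an unbounded solution cannot be continued -/
theorem maximal (hL : Lower s a δ ρ D G) (hs0 : 0 ≤ s) (hs1 : s ≤ 1) (hδ : 0 ≤ δ) (hν : 0 < ν)
    (hu : PSol ν T D G u p) (hub : ∀ M : ℝ, ∃ t ∈ Ico 0 T, ∃ x, M < ‖u t x‖)
    {T' : ℝ} (hv : PSol ν T' D G v q) (h0 : v 0 = u 0) :
    T' ≤ T ∧ ∀ t ∈ Ico 0 T', v t = u t := by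
  have key : T' ≤ T := by
    by_contra hcon
    push Not at hcon
    have h1 := unique hL hs0 hs1 hδ hν hu (hv.mono hcon.le) h0
    have hsub : Icc 0 T ×ˢ cube ⊆ Ico 0 T' ×ˢ (univ : Set V) :=
      prod_mono (fun r hr => ⟨hr.1, hr.2.trans_lt hcon⟩) (subset_univ _)
    have hK : IsCompact (Icc 0 T ×ˢ cube) := isCompact_Icc.prod isCompact_Icc
    obtain ⟨M, hM⟩ := hK.exists_bound_of_continuousOn (hv.smooth_u.continuousOn.mono hsub)
    obtain ⟨t, ht, x, hx⟩ := hub M
    -- move `x` to the cell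
    set m : K3 := fun i => -⌊x i⌋ with hm
    have h7 := (hu.per_u t ht).int m x
    have h8 : (x + fun i => ((m i : ℤ) : ℝ)) ∈ cube := by
      constructor
      · intro j
        show (0 : ℝ) ≤ x j + ((m j : ℤ) : ℝ)
        rw [hm]
        push_cast
        linarith [Int.floor_le (x j)]
      · intro j
        show x j + ((m j : ℤ) : ℝ) ≤ 1
        rw [hm]
        push_cast
        linarith [Int.lt_floor_add_one (x j)]
    have h9 := hM (t, x + fun i => ((m i : ℤ) : ℝ)) ⟨⟨ht.1, ht.2.le⟩, h8⟩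
    simp only at h9
    rw [h1 t ht, h7] at h9
    linarith
  exact ⟨key, unique hL hs0 hs1 hδ hν (hu.mono key) hv h0⟩

end

end Pool.Agent.V1178.NS
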